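import Mathlib

/-!
A small structured programming language with finitely many stacks, finitely many registers and
(recursive) procedures, together with its translation into Mathlib's multi-stack Turing machines
(`Turing.FinTM2`), preserving running time.
-/

set_option autoImplicit false
set_option linter.unusedSectionVars false
set_option warn.classDefReducibility false

namespace Pool.Agent.Helper62

/-- The state seen by programs: registers, input, output, working stacks. -/
structure St (α β W Γ σ : Type) where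
  reg : σ
  inp : List α
  out : List β
  stk : W → List Γ

/-- Elementary operations. -/
inductive Op (α β W Γ σ : Type) where
  | push (k : W) (f : σ → Γ)
  | pushO (k : W) (f : σ → Option Γ)
  | pop (k : W) (f : σ → Option Γ → σ)
  | peek (k : W) (f : σ → Option Γ → σ)
  | popInp (f : σ → Option α → σ)
  | pushOut (f : σ → β)
  | pushOutO (f : σ → Option β)
  | load (f : σ → σ)

/-- Programs; `P` is the type of procedure names. -/
inductive Cmd (α β W Γ σ P : Type) where
  | act (l : List (Op α β W Γ σ))
  | seq (c₁ c₂ : Cmd α β W Γ σ P)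
  | ite (pre : List (Op α β W Γ σ)) (p : σ → Bool) (c₁ c₂ : Cmd α β W Γ σ P)
  | loop (pre : List (Op α β W Γ σ)) (p : σ → Bool) (c : Cmd α β W Γ σ P)
  | call (q : P)

section sem

variable {α β W Γ σ P : Type} [DecidableEq W]

/-- Effect of an operation. -/
def Op.run : Op α β W Γ σ → St α β W Γ σ → St α β W Γ σ
  | .push k f, s => { s with stk := Function.update s.stk k (f s.reg :: s.stk k) }
  | .pushO k f, s => match f s.reg with
      | some a => { s with stk := Function.update s.stk k (a :: s.stk k) }
      | none => s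
  | .pop k f, s => { s with reg := f s.reg (s.stk k).head?,
                            stk := Function.update s.stk k (s.stk k).tail }
  | .peek k f, s => { s with reg := f s.reg (s.stk k).head? }
  | .popInp f, s => { s with reg := f s.reg s.inp.head?, inp := s.inp.tail }
  | .pushOut f, s => { s with out := f s.reg :: s.out }
  | .pushOutO f, s => match f s.reg with
      | some a => { s with out := a :: s.out }
      | none => s
  | .load f, s => { s with reg := f s.reg }

/-- Effect of a block of operations. -/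
def runOps : List (Op α β W Γ σ) → St α β W Γ σ → St α β W Γ σ
  | [], s => s
  | o :: l, s => runOps l (o.run s)

/-- Big-step semantics with running time. -/
inductive Exec (E : P → Cmd α β W Γ σ P) :
    Cmd α β W Γ σ P → St α β W Γ σ → ℕ → St α β W Γ σ → Prop
  | act (l s) : Exec E (.act l) s 1 (runOps l s)
  | seq {c₁ c₂ s t₁ s' t₂ s''} : Exec E c₁ s t₁ s' → Exec E c₂ s' t₂ s'' →
      Exec E (.seq c₁ c₂) s (t₁ + t₂) s''
  | ite_true {pre p c₁ c₂ s t s'} : p (runOps pre s).reg = true →
      Exec E c₁ (runOps pre s) t s' → Exec E (.ite pre p c₁ c₂) s (t + 1) s'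
  | ite_false {pre p c₁ c₂ s t s'} : p (runOps pre s).reg = false →
      Exec E c₂ (runOps pre s) t s' → Exec E (.ite pre p c₁ c₂) s (t + 1) s'
  | loop_done {pre p c s} : p (runOps pre s).reg = false →
      Exec E (.loop pre p c) s 1 (runOps pre s)
  | loop_step {pre p c s t₁ s' t₂ s''} : p (runOps pre s).reg = true →
      Exec E c (runOps pre s) t₁ s' →
      Exec E (.loop pre p c) s' t₂ s'' → Exec E (.loop pre p c) s (t₁ + t₂ + 1) s''
  | call {q s t s'} : Exec E (E q) s t s' → Exec E (.call q) s (t + 2) s'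

/-- Termination within a given number of steps. -/
def Runs (E : P → Cmd α β W Γ σ P) (c : Cmd α β W Γ σ P) (s s' : St α β W Γ σ) (B : ℕ) : Prop :=
  ∃ t, t ≤ B ∧ Exec E c s t s'

variable {E : P → Cmd α β W Γ σ P}

theorem Runs.mono {c s s' B B'} (h : Runs (W := W) E c s s' B) (hB : B ≤ B') :
    Runs E c s s' B' := by
  obtain ⟨t, ht, h⟩ := h
  exact ⟨t, ht.trans hB, h⟩

theorem Runs.act (l : List (Op α β W Γ σ)) (s) : Runs E (.act l) s (runOps l s) 1 :=
  ⟨1, le_refl _, .act l s⟩

theorem Runs.act' {l : List (Op α β W Γ σ)} {s s'} (h : runOps l s = s') :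
    Runs E (.act l) s s' 1 := h ▸ Runs.act l s

theorem Runs.seq {c₁ c₂ s s' s'' B₁ B₂} (h₁ : Runs (W := W) E c₁ s s' B₁)
    (h₂ : Runs E c₂ s' s'' B₂) : Runs E (.seq c₁ c₂) s s'' (B₁ + B₂) := by
  obtain ⟨t₁, ht₁, h₁⟩ := h₁
  obtain ⟨t₂, ht₂, h₂⟩ := h₂
  exact ⟨t₁ + t₂, by omega, .seq h₁ h₂⟩

theorem Runs.ite_true {pre} {p : σ → Bool} {c₁ c₂ s s₁ s' B}
    (h0 : runOps (W := W) (α := α) (β := β) (Γ := Γ) pre s = s₁) (hp : p s₁.reg = true)
    (h : Runs E c₁ s₁ s' B) : Runs E (.ite pre p c₁ c₂) s s' (B + 1) := by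
  subst h0
  obtain ⟨t, ht, h⟩ := h
  exact ⟨t + 1, by omega, .ite_true hp h⟩

theorem Runs.ite_false {pre} {p : σ → Bool} {c₁ c₂ s s₁ s' B}
    (h0 : runOps (W := W) (α := α) (β := β) (Γ := Γ) pre s = s₁) (hp : p s₁.reg = false)
    (h : Runs E c₂ s₁ s' B) : Runs E (.ite pre p c₁ c₂) s s' (B + 1) := by
  subst h0
  obtain ⟨t, ht, h⟩ := h
  exact ⟨t + 1, by omega, .ite_false hp h⟩

theorem Runs.loop_done {pre} {p : σ → Bool} {c : Cmd α β W Γ σ P} {s s₁}
    (h0 : runOps pre s = s₁) (hp : p s₁.reg = false) :
    Runs E (.loop pre p c) s s₁ 1 := by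
  subst h0
  exact ⟨1, le_refl _, .loop_done hp⟩

theorem Runs.loop_step {pre} {p : σ → Bool} {c s s₁ s' s'' B₁ B₂}
    (h0 : runOps (W := W) (α := α) (β := β) (Γ := Γ) pre s = s₁) (hp : p s₁.reg = true)
    (h₁ : Runs E c s₁ s' B₁) (h₂ : Runs E (.loop pre p c) s' s'' B₂) :
    Runs E (.loop pre p c) s s'' (B₁ + B₂ + 1) := by
  subst h0
  obtain ⟨t₁, ht₁, h₁⟩ := h₁
  obtain ⟨t₂, ht₂, h₂⟩ := h₂
  exact ⟨t₁ + t₂ + 1, by omega, .loop_step hp h₁ h₂⟩

theorem Runs.call {q : P} {s s' B} (h : Runs (W := W) E (E q) s s' B) :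
    Runs E (.call q) s s' (B + 2) := by
  obtain ⟨t, ht, h⟩ := h
  exact ⟨t + 2, by omega, .call h⟩

end sem

/-! ### Compilation to `TM2` -/

section compile

variable {α β W Γ σ P : Type} [DecidableEq W]

/-- Control points of a program. -/
def Lab : Cmd α β W Γ σ P → Type
  | .act _ => Unit
  | .seq c₁ c₂ => Lab c₁ ⊕ Lab c₂
  | .ite _ _ c₁ c₂ => Unit ⊕ (Lab c₁ ⊕ Lab c₂)
  | .loop _ _ c => Unit ⊕ Lab c
  | .call _ => Unit

/-- Finiteness of the set of control points. -/
def Lab.fintype : (c : Cmd α β W Γ σ P) → Fintype (Lab c)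
  | .act _ => inferInstanceAs (Fintype Unit)
  | .seq c₁ c₂ => by
      haveI := Lab.fintype c₁; haveI := Lab.fintype c₂
      exact inferInstanceAs (Fintype (Lab c₁ ⊕ Lab c₂))
  | .ite _ _ c₁ c₂ => by
      haveI := Lab.fintype c₁; haveI := Lab.fintype c₂
      exact inferInstanceAs (Fintype (Unit ⊕ (Lab c₁ ⊕ Lab c₂)))
  | .loop _ _ c => by
      haveI := Lab.fintype c
      exact inferInstanceAs (Fintype (Unit ⊕ Lab c))
  | .call _ => inferInstanceAs (Fintype Unit)

/-- Entry point. -/
def entry : (c : Cmd α β W Γ σ P) → Lab c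
  | .act _ => ()
  | .seq c₁ _ => Sum.inl (entry c₁)
  | .ite _ _ _ _ => Sum.inl ()
  | .loop _ _ _ => Sum.inl ()
  | .call _ => ()

/-- Stacks of the compiled machine. -/
inductive KK (W : Type) where
  | rs
  | inp
  | out
  | w (k : W)
  deriving DecidableEq

def KK.equiv (W : Type) : KK W ≃ Option (Option (Option W)) where
  toFun
    | .rs => none
    | .inp => some none
    | .out => some (some none)
    | .w k => some (some (some k))
  invFun
    | none => .rs
    | some none => .inp
    | some (some none) => .out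
    | some (some (some k)) => .w k
  left_inv := by rintro (_ | _ | _ | _) <;> rfl
  right_inv := by rintro (_ | _ | _ | _) <;> rfl

instance [Fintype W] : Fintype (KK W) := Fintype.ofEquiv _ (KK.equiv W).symm

/-- Labels of the compiled machine: control points of the procedures, and `none`, the
return instruction. -/
abbrev ML (E : P → Cmd α β W Γ σ P) : Type := Option (Σ q : P, Lab (E q))

/-- Alphabets of the compiled machine. -/
abbrev MG (E : P → Cmd α β W Γ σ P) : KK W → Type
  | .rs => ML E
  | .inp => α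
  | .out => β
  | .w _ => Γ

/-- Statements of the compiled machine. -/
abbrev MS (E : P → Cmd α β W Γ σ P) : Type :=
  Turing.TM2.Stmt (MG E) (ML E) (σ × Option (ML E))

variable (E : P → Cmd α β W Γ σ P)

/-- Compilation of one operation. -/
def compOp [Inhabited Γ] [Inhabited β] : Op α β W Γ σ → MS E → MS E
  | .push k f, q => .push (.w k) (fun v => f v.1) q
  | .pushO k f, q => .branch (fun v => (f v.1).isSome)
      (.push (.w k) (fun v => (f v.1).getD default) q) q
  | .pop k f, q => .pop (.w k) (fun v a => (f v.1 a, v.2)) q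
  | .peek k f, q => .peek (.w k) (fun v a => (f v.1 a, v.2)) q
  | .popInp f, q => .pop .inp (fun v a => (f v.1 a, v.2)) q
  | .pushOut f, q => .push .out (fun v => f v.1) q
  | .pushOutO f, q => .branch (fun v => (f v.1).isSome)
      (.push .out (fun v => (f v.1).getD default) q) q
  | .load f, q => .load (fun v => (f v.1, v.2)) q

/-- Compilation of a block of operations. -/
def compOps [Inhabited Γ] [Inhabited β] : List (Op α β W Γ σ) → MS E → MS E
  | [], q => q
  | o :: l, q => compOp E o (compOps l q)

/-- Compilation of a program. -/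
def comp [Inhabited Γ] [Inhabited β] : (c : Cmd α β W Γ σ P) → (Lab c → ML E) → ML E →
    Lab c → MS E
  | .act l, _, ex, _ => compOps E l (.goto fun _ => ex)
  | .seq c₁ c₂, em, ex, l => match l with
      | .inl l => comp c₁ (fun l => em (.inl l)) (em (.inr (entry c₂))) l
      | .inr l => comp c₂ (fun l => em (.inr l)) ex l
  | .ite pre p c₁ c₂, em, ex, l => match l with
      | .inl _ => compOps E pre (.branch (fun v => p v.1)
          (.goto fun _ => em (.inr (.inl (entry c₁))))
          (.goto fun _ => em (.inr (.inr (entry c₂)))))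
      | .inr (.inl l) => comp c₁ (fun l => em (.inr (.inl l))) ex l
      | .inr (.inr l) => comp c₂ (fun l => em (.inr (.inr l))) ex l
  | .loop pre p c, em, ex, l => match l with
      | .inl _ => compOps E pre (.branch (fun v => p v.1) (.goto fun _ => em (.inr (entry c)))
          (.goto fun _ => ex))
      | .inr l => comp c (fun l => em (.inr l)) (em (.inl ())) l
  | .call q, _, ex, _ => .push .rs (fun _ => ex) (.goto fun _ => some ⟨q, entry (E q)⟩)

/-- The compiled machine. -/
def mach [Inhabited Γ] [Inhabited β] (r0 : σ) : ML E → MS E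
  | none => .pop .rs (fun v a => (v.1, a))
      (.branch (fun v => v.2.isSome) (.goto fun v => v.2.getD none)
        (.load (fun _ => (r0, none)) .halt))
  | some ⟨q, l⟩ => comp E (E q) (fun l => some ⟨q, l⟩) none l

/-- Configurations of the compiled machine. -/
def cfg (l : Option (ML E)) (s : St α β W Γ σ) (v : Option (ML E)) (rs : List (ML E)) :
    Turing.TM2.Cfg (MG E) (ML E) (σ × Option (ML E)) where
  l := l
  var := (s.reg, v)
  stk := fun k => match k with
    | .rs => rs
    | .inp => s.inp
    | .out => s.out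
    | .w k => s.stk k

variable {E}

/-- iterate the (partial) step function -/
abbrev stepN [Inhabited Γ] [Inhabited β] (r0 : σ) (n : ℕ)
    (c : Turing.TM2.Cfg (MG E) (ML E) (σ × Option (ML E))) :
    Option (Turing.TM2.Cfg (MG E) (ML E) (σ × Option (ML E))) :=
  (flip bind (Turing.TM2.step (mach E r0)))^[n] (some c)

variable [Inhabited Γ] [Inhabited β]

theorem stepN_zero (r0 : σ) (c : Turing.TM2.Cfg (MG E) (ML E) (σ × Option (ML E))) :
    stepN r0 0 c = some c := rfl

theorem stepN_add (r0 : σ) (m n : ℕ) (c c' : Turing.TM2.Cfg (MG E) (ML E) (σ × Option (ML E)))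
    (h : stepN r0 m c = some c') :
    stepN r0 (m + n) c = stepN r0 n c' := by
  unfold stepN at *
  rw [add_comm, Function.iterate_add_apply, h]

theorem stepN_one (r0 : σ) (l : ML E) (s : St α β W Γ σ) (v : Option (ML E))
    (rs : List (ML E)) :
    stepN r0 1 (cfg E (some l) s v rs) = some (Turing.TM2.stepAux (mach E r0 l) (s.reg, v)
      (cfg E (some l) s v rs).stk) := rfl

theorem stk_update (s : St α β W Γ σ) (v : Option (ML E)) (rs : List (ML E)) (l : Option (ML E))
    (k : W) (x : List Γ) :
    Function.update (cfg E l s v rs).stk (.w k) x =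
      (cfg E l { s with stk := Function.update s.stk k x } v rs).stk := by
  funext j
  rcases j with _ | _ | _ | j
  · simp [cfg]
  · simp [cfg]
  · simp [cfg]
  · by_cases h : j = k
    · subst h; simp [cfg]
    · have : KK.w j ≠ KK.w k := by intro h'; exact h (KK.w.inj h')
      simp [cfg, Function.update_of_ne this, Function.update_of_ne h]

theorem inp_update (s : St α β W Γ σ) (v : Option (ML E)) (rs : List (ML E)) (l : Option (ML E))
    (x : List α) :
    Function.update (cfg E l s v rs).stk .inp x =
      (cfg E l { s with inp := x } v rs).stk := by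
  funext j
  rcases j with _ | _ | _ | j <;> simp [cfg]

theorem out_update (s : St α β W Γ σ) (v : Option (ML E)) (rs : List (ML E)) (l : Option (ML E))
    (x : List β) :
    Function.update (cfg E l s v rs).stk .out x =
      (cfg E l { s with out := x } v rs).stk := by
  funext j
  rcases j with _ | _ | _ | j <;> simp [cfg]

theorem rs_update (s : St α β W Γ σ) (v : Option (ML E)) (rs : List (ML E)) (l : Option (ML E))
    (x : List (ML E)) :
    Function.update (cfg E l s v rs).stk .rs x =
      (cfg E l s v x).stk := by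
  funext j
  rcases j with _ | _ | _ | j <;> simp [cfg]

theorem cfg_stk_irrel (s s' : St α β W Γ σ) (v v' : Option (ML E)) (rs : List (ML E))
    (l l' : Option (ML E)) (h1 : s.inp = s'.inp) (h2 : s.out = s'.out) (h3 : s.stk = s'.stk) :
    (cfg E l s v rs).stk = (cfg E l' s' v' rs).stk := by
  funext j
  rcases j with _ | _ | _ | j <;> simp [cfg, h1, h2, h3]

theorem stepAux_compOp (o : Op α β W Γ σ) (q : MS E) (s : St α β W Γ σ) (v : Option (ML E))
    (rs : List (ML E)) (l : Option (ML E)) :
    Turing.TM2.stepAux (compOp E o q) (s.reg, v) (cfg E l s v rs).stk =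
      Turing.TM2.stepAux q ((o.run s).reg, v) (cfg E l (o.run s) v rs).stk := by
  cases o with
  | push k f => simp only [compOp, Turing.TM2.stepAux, stk_update, Op.run]; rfl
  | pushO k f =>
    simp only [compOp, Turing.TM2.stepAux, Op.run]
    cases h : f s.reg with
    | none => simp
    | some a => simp [stk_update]; rfl
  | pop k f =>
    simp only [compOp, Turing.TM2.stepAux, stk_update, Op.run]
    rfl
  | peek k f =>
    simp only [compOp, Turing.TM2.stepAux, Op.run]
    rfl
  | popInp f =>
    simp only [compOp, Turing.TM2.stepAux, inp_update, Op.run]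
    rfl
  | pushOut f =>
    simp only [compOp, Turing.TM2.stepAux, out_update, Op.run]
    rfl
  | pushOutO f =>
    simp only [compOp, Turing.TM2.stepAux, Op.run]
    cases h : f s.reg with
    | none => simp
    | some a => simp [out_update]; rfl
  | load f =>
    simp only [compOp, Turing.TM2.stepAux, Op.run]
    rfl

theorem stepAux_compOps (ops : List (Op α β W Γ σ)) (q : MS E) (s : St α β W Γ σ)
    (v : Option (ML E)) (rs : List (ML E)) (l : Option (ML E)) :
    Turing.TM2.stepAux (compOps E ops q) (s.reg, v) (cfg E l s v rs).stk =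
      Turing.TM2.stepAux q ((runOps ops s).reg, v) (cfg E l (runOps ops s) v rs).stk := by
  induction ops generalizing s with
  | nil => rfl
  | cons o ops ih =>
    rw [compOps, stepAux_compOp, ih]; rfl

/-- Main simulation theorem. -/
theorem simulate (r0 : σ) {c : Cmd α β W Γ σ P} {s s' : St α β W Γ σ} {t : ℕ}
    (h : Exec E c s t s') : ∀ (em : Lab c → ML E) (ex : ML E),
    (∀ l, mach E r0 (em l) = comp E c em ex l) → ∀ (v : Option (ML E)) (rs : List (ML E)),
    ∃ v', stepN r0 t (cfg E (some (em (entry c))) s v rs) = some (cfg E (some ex) s' v' rs) := by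
  induction h with
  | act l s =>
    intro em ex hem v rs
    refine ⟨v, ?_⟩
    rw [stepN_one, hem]
    simp only [comp]
    rw [stepAux_compOps]
    rfl
  | @seq c₁ c₂ s t₁ s' t₂ s'' h₁ h₂ ih₁ ih₂ =>
    intro em ex hem v rs
    obtain ⟨v₁, h1⟩ := ih₁ (fun l => em (.inl l)) (em (.inr (entry c₂)))
      (fun l => hem (.inl l)) v rs
    obtain ⟨v₂, h2⟩ := ih₂ (fun l => em (.inr l)) ex (fun l => hem (.inr l)) v₁ rs
    exact ⟨v₂, (stepN_add r0 t₁ t₂ _ _ h1).trans h2⟩
  | @ite_true pre p c₁ c₂ s t s' hp h ih =>
    intro em ex hem v rs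
    obtain ⟨v₁, h1⟩ := ih (fun l => em (.inr (.inl l))) ex (fun l => hem (.inr (.inl l))) v rs
    refine ⟨v₁, ?_⟩
    rw [add_comm]
    rw [stepN_add r0 1 t _ (cfg E (some (em (.inr (.inl (entry c₁))))) (runOps pre s) v rs), h1]
    rw [stepN_one]
    show some (Turing.TM2.stepAux (mach E r0 (em (Sum.inl ()))) _ _) = _
    rw [hem]
    simp only [comp]
    rw [stepAux_compOps]
    simp only [Turing.TM2.stepAux, hp, cond_true]
    rfl
  | @ite_false pre p c₁ c₂ s t s' hp h ih =>
    intro em ex hem v rs
    obtain ⟨v₁, h1⟩ := ih (fun l => em (.inr (.inr l))) ex (fun l => hem (.inr (.inr l))) v rs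
    refine ⟨v₁, ?_⟩
    rw [add_comm]
    rw [stepN_add r0 1 t _ (cfg E (some (em (.inr (.inr (entry c₂))))) (runOps pre s) v rs), h1]
    rw [stepN_one]
    show some (Turing.TM2.stepAux (mach E r0 (em (Sum.inl ()))) _ _) = _
    rw [hem]
    simp only [comp]
    rw [stepAux_compOps]
    simp only [Turing.TM2.stepAux, hp, cond_false]
    rfl
  | @loop_done pre p c s hp =>
    intro em ex hem v rs
    refine ⟨v, ?_⟩
    rw [stepN_one]
    show some (Turing.TM2.stepAux (mach E r0 (em (Sum.inl ()))) _ _) = _
    rw [hem]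
    simp only [comp]
    rw [stepAux_compOps]
    simp only [Turing.TM2.stepAux, hp, cond_false]
    rfl
  | @loop_step pre p c s t₁ s' t₂ s'' hp h₁ h₂ ih₁ ih₂ =>
    intro em ex hem v rs
    obtain ⟨v₁, h1⟩ := ih₁ (fun l => em (.inr l)) (em (.inl ())) (fun l => hem (.inr l)) v rs
    obtain ⟨v₂, h2⟩ := ih₂ em ex hem v₁ rs
    refine ⟨v₂, ?_⟩
    have e : t₁ + t₂ + 1 = 1 + (t₁ + t₂) := by ring
    rw [e]
    rw [stepN_add r0 1 (t₁ + t₂) _ (cfg E (some (em (.inr (entry c)))) (runOps pre s) v rs)]
    · rw [stepN_add r0 t₁ t₂ _ _ h1]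
      exact h2
    · rw [stepN_one]
      show some (Turing.TM2.stepAux (mach E r0 (em (Sum.inl ()))) _ _) = _
      rw [hem]
      simp only [comp]
      rw [stepAux_compOps]
      simp only [Turing.TM2.stepAux, hp, cond_true]
      rfl
  | @call q s t s' h ih =>
    intro em ex hem v rs
    obtain ⟨v₁, h1⟩ := ih (fun l => some ⟨q, l⟩) none (fun l => rfl) v (ex :: rs)
    refine ⟨some ex, ?_⟩
    have e : t + 2 = 1 + (t + 1) := by ring
    rw [e]
    rw [stepN_add r0 1 (t + 1) _ (cfg E (some (some ⟨q, entry (E q)⟩)) s v (ex :: rs))]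
    · rw [stepN_add r0 t 1 _ _ h1]
      rw [stepN_one]
      simp only [mach, Turing.TM2.stepAux, rs_update]
      rfl
    · rw [stepN_one]
      show some (Turing.TM2.stepAux (mach E r0 (em ())) _ _) = _
      rw [hem]
      simp only [comp, Turing.TM2.stepAux, rs_update]
      rfl

/-- The Turing machine of a program with main procedure `q0`. -/
def toTM [Fintype W] [Fintype P] [Fintype α] [Fintype σ] (E : P → Cmd α β W Γ σ P) (q0 : P)
    (r0 : σ) : Turing.FinTM2 :=
  haveI : ∀ q, Fintype (Lab (E q)) := fun q => Lab.fintype (E q)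
  { K := KK W
    k₀ := .inp
    k₁ := .out
    Γ := MG E
    Λ := ML E
    main := some ⟨q0, entry (E q0)⟩
    σ := σ × Option (ML E)
    initialState := (r0, none)
    Γk₀Fin := inferInstanceAs (Fintype α)
    m := mach E r0 }

/-- If the main procedure runs from the initial state to a state where everything but the output
is empty, then the Turing machine has the corresponding input/output behaviour. -/
theorem toTM_outputs [Fintype W] [Fintype P] [Fintype α] [Fintype σ]
    (E : P → Cmd α β W Γ σ P) (q0 : P) (r0 : σ) (w : List α) (o : List β) (B : ℕ)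
    (h : ∃ r, Runs E (E q0) ⟨r0, w, [], fun _ => []⟩ ⟨r, [], o, fun _ => []⟩ B) :
    Nonempty (Turing.TM2OutputsInTime (toTM E q0 r0) w (some o) (B + 1)) := by
  obtain ⟨r, t, ht, h⟩ := h
  obtain ⟨v', h1⟩ := simulate r0 h (fun l => some ⟨q0, l⟩) none (fun l => rfl) none []
  have h2 : stepN r0 (t + 1) (cfg E (some (some ⟨q0, entry (E q0)⟩)) ⟨r0, w, [], fun _ => []⟩
      none []) = some (cfg E none ⟨r0, [], o, fun _ => []⟩ none []) := by
    rw [stepN_add r0 t 1 _ _ h1, stepN_one]
    simp only [mach, Turing.TM2.stepAux, rs_update]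
    rfl
  have e1 : (cfg E (some (some ⟨q0, entry (E q0)⟩)) ⟨r0, w, [], fun _ => []⟩ none []) =
      Turing.initList (toTM E q0 r0) w := by
    unfold Turing.initList cfg
    congr 1
    funext k
    rcases k with _ | _ | _ | k <;> rfl
  have e2 : (cfg E none ⟨r0, [], o, fun _ => []⟩ none []) =
      Turing.haltList (toTM E q0 r0) o := by
    unfold Turing.haltList cfg
    congr 1
    funext k
    rcases k with _ | _ | _ | k <;> rfl
  rw [e1, e2] at h2
  exact ⟨⟨⟨t + 1, h2⟩, Nat.add_le_add_right ht 1⟩⟩

end compile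

end Pool.Agent.Helper62
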