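import Mathlib

/-!
Definitions for the statement about Fricke trace polynomials (`MP_727554_lc`).
-/

set_option autoImplicit false

namespace Pool.Agent.Helper62

open MvPolynomial

/-- The letters `a`, `a⁻¹`, `b`, `b⁻¹`. -/
inductive Letter where
  | a | ai | b | bi
  deriving DecidableEq, Fintype, Inhabited

/-- The output alphabet: two signs and two binary digits. -/
inductive OutSym where
  | plus | minus | zero | one
  deriving DecidableEq, Fintype, Inhabited

abbrev SL2C := Matrix.SpecialLinearGroup (Fin 2) ℂ

/-- value of a letter at a pair of matrices in `SL(2, ℂ)` -/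
def Letter.eval (A B : SL2C) : Letter → SL2C
  | .a => A
  | .ai => A⁻¹
  | .b => B
  | .bi => B⁻¹

/-- value of a word at a pair of matrices in `SL(2, ℂ)` -/
def wordEval (A B : SL2C) (w : List Letter) : SL2C := (w.map (Letter.eval A B)).prod

/-- `f` is a Fricke trace polynomial of the word `w`; the variables `X 0`, `X 1`, `X 2` stand
for `tr A`, `tr B`, `tr (A B)`. -/
def IsFricke (w : List Letter) (f : MvPolynomial (Fin 3) ℤ) : Prop :=
  ∀ A B : SL2C, (wordEval A B w).1.trace = aeval ![A.1.trace, B.1.trace, (A * B).1.trace] f

/-- an integer in binary: the sign, then the binary digits of the absolute value, least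
significant digit first -/
def encInt (c : ℤ) : List OutSym :=
  (if c < 0 then .minus else .plus) :: (Nat.bits c.natAbs).map fun b => if b then .one else .zero

/-- the exponent of the monomial `x ^ i * y ^ j * z ^ k` -/
noncomputable def expo (i j k : ℕ) : Fin 3 →₀ ℕ :=
  Finsupp.single 0 i + Finsupp.single 1 j + Finsupp.single 2 k

/-- the dense coefficient table of `f`: the coefficients of `x ^ i * y ^ j * z ^ k` for all
`0 ≤ i, j, k ≤ n` in lexicographic order of `(i, j, k)` -/
noncomputable def denseTable (n : ℕ) (f : MvPolynomial (Fin 3) ℤ) : List OutSym :=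
  (List.range (n + 1)).flatMap fun i => (List.range (n + 1)).flatMap fun j =>
    (List.range (n + 1)).flatMap fun k => encInt (coeff (expo i j k) f)

end Pool.Agent.Helper62
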