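import Mathlib
import Pool.Agent.Helper62.Lang
import Pool.Agent.Helper62.Stmt

set_option autoImplicit false
set_option linter.unusedSectionVars false

namespace Pool.Agent.Helper62

/-- Working alphabet: two bits, three separators and a mark. -/
inductive Sym where
  | o | i | c | d | e | m
  deriving DecidableEq, Fintype, Inhabited

/-- Registers. -/
structure Reg where
  x : Option Sym
  y : Option Sym
  z : Option Sym
  a : Bool
  b : Bool
  l : Option Letter
  deriving DecidableEq

def Reg.equiv : Reg ≃ (Option Sym × Option Sym × Option Sym × Bool × Bool × Option Letter) where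
  toFun r := (r.x, r.y, r.z, r.a, r.b, r.l)
  invFun p := ⟨p.1, p.2.1, p.2.2.1, p.2.2.2.1, p.2.2.2.2.1, p.2.2.2.2.2⟩
  left_inv _ := rfl
  right_inv _ := rfl

instance : Fintype Reg := Fintype.ofEquiv _ Reg.equiv.symm

/-- Procedure names. -/
inductive Pr where
  | nega | conv | mul | prod | main
  deriving DecidableEq, Fintype

def r0 : Reg := ⟨none, none, none, false, false, none⟩

/-- bit symbols -/
def bit : Bool → Sym
  | false => .o
  | true => .i

def goOn (stop : Sym → Bool) : Option Sym → Bool
  | none => false
  | some s => !stop s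

section generic

variable {W : Type} [DecidableEq W]

abbrev Cm (W : Type) := Cmd Letter OutSym W Sym Reg Pr
abbrev Ss (W : Type) := St Letter OutSym W Sym Reg

/-- sequence of commands -/
def sq : List (Cm W) → Cm W
  | [] => .act []
  | [c] => c
  | c :: l => .seq c (sq l)

/-- pop into register x -/
abbrev popx (X : W) : Op Letter OutSym W Sym Reg := .pop X (fun r s => { r with x := s })
abbrev popy (X : W) : Op Letter OutSym W Sym Reg := .pop X (fun r s => { r with y := s })
abbrev popz (X : W) : Op Letter OutSym W Sym Reg := .pop X (fun r s => { r with z := s })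
abbrev peekx (X : W) : Op Letter OutSym W Sym Reg := .peek X (fun r s => { r with x := s })
abbrev peeky (X : W) : Op Letter OutSym W Sym Reg := .peek X (fun r s => { r with y := s })
abbrev pushx (X : W) : Op Letter OutSym W Sym Reg := .pushO X (fun r => r.x)
abbrev pushy (X : W) : Op Letter OutSym W Sym Reg := .pushO X (fun r => r.y)
abbrev pushz (X : W) : Op Letter OutSym W Sym Reg := .pushO X (fun r => r.z)
abbrev pushc (X : W) (s : Sym) : Op Letter OutSym W Sym Reg := .push X (fun _ => s)
abbrev rst : Op Letter OutSym W Sym Reg := .load (fun _ => r0)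

theorem run_pushO (k : W) (f : Reg → Option Sym) (s : Ss W) :
    (Op.pushO k f).run s = { s with stk := Function.update s.stk k ((f s.reg).toList ++ s.stk k) } := by
  cases h : f s.reg with
  | none => simp [Op.run, h]
  | some a => simp [Op.run, h]

/-- move symbols from `X` to `Y` until a stop symbol (which is popped and discarded) -/
def mv (X Y : W) (stop : Sym → Bool) : Cm W :=
  .loop [popx X] (fun r => goOn stop r.x) (.act [pushx Y])

theorem mv_loop (E : Pr → Cm W) {X Y : W} (hXY : X ≠ Y) (stop : Sym → Bool) (l : List Sym)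
    (hl : ∀ s ∈ l, stop s = false) (t : Sym) (ht : stop t = true) (rest : List Sym)
    (r : Reg) (i : List Letter) (o : List OutSym) (S : W → List Sym)
    (hS : S X = l ++ t :: rest) :
    Runs E (.loop [popx X] (fun r => goOn stop r.x) (.act [pushx Y])) ⟨r, i, o, S⟩
      ⟨{ r with x := some t }, i, o,
        Function.update (Function.update S X rest) Y (l.reverse ++ S Y)⟩
      (2 * l.length + 1) := by
  induction l generalizing r S with
  | nil =>
    refine Runs.loop_done ?_ ?_
    · simp only [runOps, Op.run, hS]
      simp only [List.nil_append, List.head?_cons, List.tail_cons, List.reverse_nil]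
      congr 1
      funext k
      by_cases hk : k = Y
      · subst hk; simp [Function.update_of_ne (Ne.symm hXY)]
      · simp [Function.update_of_ne hk]
    · simp [goOn, ht]
  | cons a l ih =>
    have h1 := ih (fun s hs => hl s (by simp [hs])) { r with x := some a }
      (Function.update (Function.update S X (l ++ t :: rest)) Y (a :: S Y))
      (by simp [Function.update_of_ne hXY])
    refine (Runs.loop_step (s₁ := ⟨{ r with x := some a }, i, o,
      Function.update S X (l ++ t :: rest)⟩) ?_ ?_ (Runs.act' rfl) (s'' := _) ?_).mono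
      (B := 1 + (2 * l.length + 1) + 1) (by simp; omega)
    · simp [runOps, Op.run, hS]
    · simp [goOn, hl a (by simp)]
    · simp only [runOps, run_pushO]
      convert h1 using 2
      · simp [Function.update_of_ne (Ne.symm hXY)]
      · funext k
        by_cases hk : k = Y
        · subst hk; simp
        · by_cases hk' : k = X
          · subst hk'; simp [Function.update_of_ne hk]
          · simp [Function.update_of_ne hk, Function.update_of_ne hk']

/-- Running time semantics on the stacks only (registers are arbitrary before and after). -/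
def R (E : Pr → Cm W) (c : Cm W) (S S' : W → List Sym) (B : ℕ) : Prop :=
  ∀ (r : Reg) (i : List Letter) (o : List OutSym), ∃ r' : Reg, Runs E c ⟨r, i, o, S⟩ ⟨r', i, o, S'⟩ B

theorem mv_spec (E : Pr → Cm W) {X Y : W} (hXY : X ≠ Y) (stop : Sym → Bool) {l : List Sym}
    (hl : ∀ s ∈ l, stop s = false) {t : Sym} (ht : stop t = true) {rest : List Sym}
    {S : W → List Sym} (hS : S X = l ++ t :: rest) :
    R E (mv X Y stop) S
      (Function.update (Function.update S X rest) Y (l.reverse ++ S Y))
      (2 * l.length + 1) :=
  fun r i o => ⟨{ r with x := some t }, mv_loop E hXY stop l hl t ht rest r i o S hS⟩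

theorem toList_reverse {α : Type} (x : Option α) : x.toList.reverse = x.toList := by
  cases x <;> rfl

/-- outputs of a one-bit-state transducer -/
def outs (f : Bool → Sym → Bool) (g : Bool → Sym → Option Sym) : Bool → List Sym → List Sym
  | _, [] => []
  | a, s :: l => (g a s).toList ++ outs f g (f a s) l

/-- A general transducer with one input stack and three output stacks. -/
def pass (X Y1 Y2 Y3 : W) (stop : Sym → Bool) (f : Bool → Sym → Bool)
    (g1 g2 g3 : Bool → Sym → Option Sym) (a0 : Bool) : Cm W :=
  .seq (.act [.load (fun r => { r with a := a0 })])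
    (.loop [popx X] (fun r => goOn stop r.x)
      (.act [.pushO Y1 (fun r => r.x.bind (g1 r.a)), .pushO Y2 (fun r => r.x.bind (g2 r.a)),
        .pushO Y3 (fun r => r.x.bind (g3 r.a)),
        .load (fun r => { r with a := f r.a (r.x.getD .o) })]))

theorem pass_loop (E : Pr → Cm W) {X Y1 Y2 Y3 : W} (h1 : X ≠ Y1) (h2 : X ≠ Y2) (h3 : X ≠ Y3)
    (h12 : Y1 ≠ Y2) (h13 : Y1 ≠ Y3) (h23 : Y2 ≠ Y3) (stop : Sym → Bool)
    (f : Bool → Sym → Bool) (g1 g2 g3 : Bool → Sym → Option Sym)
    (l : List Sym)
    (hl : ∀ s ∈ l, stop s = false) (t : Sym) (ht : stop t = true) (rest : List Sym)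
    (r : Reg) (i : List Letter) (o : List OutSym) (S : W → List Sym)
    (hS : S X = l ++ t :: rest) :
    ∃ r', Runs E (.loop [popx X] (fun r => goOn stop r.x)
      (.act [.pushO Y1 (fun r => r.x.bind (g1 r.a)), .pushO Y2 (fun r => r.x.bind (g2 r.a)),
        .pushO Y3 (fun r => r.x.bind (g3 r.a)),
        .load (fun r => { r with a := f r.a (r.x.getD .o) })])) ⟨r, i, o, S⟩
      ⟨r', i, o,
        Function.update (Function.update (Function.update (Function.update S X rest)
          Y1 ((outs f g1 r.a l).reverse ++ S Y1)) Y2 ((outs f g2 r.a l).reverse ++ S Y2))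
          Y3 ((outs f g3 r.a l).reverse ++ S Y3)⟩
      (2 * l.length + 1) := by
  induction l generalizing r S with
  | nil =>
    refine ⟨{ r with x := some t }, Runs.loop_done ?_ ?_⟩
    · simp only [runOps, Op.run, hS]
      simp only [List.nil_append, List.head?_cons, List.tail_cons, outs, List.reverse_nil]
      congr 1
      funext k
      by_cases hk3 : k = Y3
      · subst hk3; simp [Function.update_of_ne (Ne.symm h3)]
      by_cases hk2 : k = Y2
      · subst hk2; simp [Function.update_of_ne (Ne.symm h2), Function.update_of_ne h23]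
      by_cases hk1 : k = Y1
      · subst hk1
        simp [Function.update_of_ne (Ne.symm h1), Function.update_of_ne h12,
          Function.update_of_ne h13]
      simp [Function.update_of_ne hk3, Function.update_of_ne hk2, Function.update_of_ne hk1]
    · simp [goOn, ht]
  | cons a l ih =>
    obtain ⟨r', h⟩ := ih (fun s hs => hl s (by simp [hs])) { r with x := some a, a := f r.a a }
      (Function.update (Function.update (Function.update (Function.update S X (l ++ t :: rest))
          Y1 ((g1 r.a a).toList ++ S Y1)) Y2 ((g2 r.a a).toList ++ S Y2))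
          Y3 ((g3 r.a a).toList ++ S Y3))
      (by simp [Function.update_of_ne h1, Function.update_of_ne h2, Function.update_of_ne h3])
    refine ⟨r', (Runs.loop_step (s₁ := ⟨{ r with x := some a }, i, o,
      Function.update S X (l ++ t :: rest)⟩) ?_ ?_ (Runs.act' rfl) (s'' := _) ?_).mono
      (B := 1 + (2 * l.length + 1) + 1) (by simp; omega)⟩
    · simp [runOps, Op.run, hS]
    · simp [goOn, hl a (by simp)]
    · have e1 : runOps [Op.pushO (α := Letter) (β := OutSym) (W := W) (Γ := Sym) Y1 (fun (r : Reg) => r.x.bind (g1 r.a)),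
          .pushO Y2 (fun r => r.x.bind (g2 r.a)), .pushO Y3 (fun r => r.x.bind (g3 r.a)),
          .load (fun r => { r with a := f r.a (r.x.getD .o) })]
          ⟨{ r with x := some a }, i, o, Function.update S X (l ++ t :: rest)⟩ =
          ⟨{ r with x := some a, a := f r.a a }, i, o,
          (Function.update (Function.update (Function.update (Function.update S X (l ++ t :: rest))
          Y1 ((g1 r.a a).toList ++ S Y1)) Y2 ((g2 r.a a).toList ++ S Y2))
          Y3 ((g3 r.a a).toList ++ S Y3))⟩ := by
        simp only [runOps, run_pushO]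
        simp [Op.run, Function.update_of_ne (Ne.symm h1), Function.update_of_ne (Ne.symm h2),
          Function.update_of_ne (Ne.symm h3), Function.update_of_ne (Ne.symm h12),
          Function.update_of_ne (Ne.symm h13), Function.update_of_ne (Ne.symm h23)]
      rw [e1]
      convert h using 2
      funext k
      by_cases hk3 : k = Y3
      · subst hk3; simp [outs, toList_reverse]
      by_cases hk2 : k = Y2
      · subst hk2
        simp [outs, toList_reverse, Function.update_of_ne h23]
      by_cases hk1 : k = Y1
      · subst hk1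
        simp [outs, toList_reverse, Function.update_of_ne h12, Function.update_of_ne h13]
      by_cases hk : k = X
      · subst hk
        simp [Function.update_of_ne h1, Function.update_of_ne h2, Function.update_of_ne h3]
      simp [Function.update_of_ne hk3, Function.update_of_ne hk2, Function.update_of_ne hk1,
        Function.update_of_ne hk]

theorem pass_spec (E : Pr → Cm W) {X Y1 Y2 Y3 : W} (h1 : X ≠ Y1) (h2 : X ≠ Y2) (h3 : X ≠ Y3)
    (h12 : Y1 ≠ Y2) (h13 : Y1 ≠ Y3) (h23 : Y2 ≠ Y3) (stop : Sym → Bool)
    (f : Bool → Sym → Bool) (g1 g2 g3 : Bool → Sym → Option Sym) (a0 : Bool)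
    {l : List Sym}
    (hl : ∀ s ∈ l, stop s = false) {t : Sym} (ht : stop t = true) {rest : List Sym}
    {S : W → List Sym} (hS : S X = l ++ t :: rest) :
    R E (pass X Y1 Y2 Y3 stop f g1 g2 g3 a0) S
      (Function.update (Function.update (Function.update (Function.update S X rest)
          Y1 ((outs f g1 a0 l).reverse ++ S Y1)) Y2 ((outs f g2 a0 l).reverse ++ S Y2))
          Y3 ((outs f g3 a0 l).reverse ++ S Y3))
      (2 * l.length + 2) := by
  intro r i o
  obtain ⟨r', h⟩ := pass_loop E h1 h2 h3 h12 h13 h23 stop f g1 g2 g3 l hl t ht rest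
    { r with a := a0 } i o S hS
  have h0 : Runs E (.act [.load (fun r => { r with a := a0 })]) ⟨r, i, o, S⟩
    ⟨{ r with a := a0 }, i, o, S⟩ 1 := Runs.act' rfl
  exact ⟨r', (Runs.seq h0 h).mono (by omega)⟩

/-- outputs of a transducer with two inputs and a two-bit state -/
def zouts (f : Bool × Bool → Sym → Sym → Bool × Bool)
    (g : Bool × Bool → Sym → Sym → Option Sym) : Bool × Bool → List Sym → List Sym → List Sym
  | a, s :: l, s' :: l' => (g a s s').toList ++ zouts f g (f a s s') l l'
  | _, _, _ => []

/-- A general transducer with two (synchronous) input stacks and two output stacks. -/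
def zip (X1 X2 Y1 Y2 : W) (stop : Sym → Bool) (f : Bool × Bool → Sym → Sym → Bool × Bool)
    (g1 g2 : Bool × Bool → Sym → Sym → Option Sym) (a0 : Bool × Bool) : Cm W :=
  .seq (.act [.load (fun r => { r with a := a0.1, b := a0.2 })])
    (.loop [popx X1, popy X2] (fun r => goOn stop r.x)
      (.act [.pushO Y1 (fun r => r.x.bind fun x => r.y.bind fun y => g1 (r.a, r.b) x y),
        .pushO Y2 (fun r => r.x.bind fun x => r.y.bind fun y => g2 (r.a, r.b) x y),
        .load (fun r => { r with a := (f (r.a, r.b) (r.x.getD .o) (r.y.getD .o)).1,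
                                 b := (f (r.a, r.b) (r.x.getD .o) (r.y.getD .o)).2 })]))

theorem zip_loop (E : Pr → Cm W) {X1 X2 Y1 Y2 : W} (h0 : X1 ≠ X2)
    (h11 : X1 ≠ Y1) (h12 : X1 ≠ Y2) (h21 : X2 ≠ Y1) (h22 : X2 ≠ Y2)
    (hy : Y1 ≠ Y2) (stop : Sym → Bool)
    (f : Bool × Bool → Sym → Sym → Bool × Bool)
    (g1 g2 : Bool × Bool → Sym → Sym → Option Sym)
    (l l' : List Sym) (hll : l.length = l'.length)
    (hl : ∀ s ∈ l, stop s = false) (t t' : Sym) (ht : stop t = true) (rest rest' : List Sym)
    (r : Reg) (i : List Letter) (o : List OutSym) (S : W → List Sym)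
    (hS : S X1 = l ++ t :: rest) (hS' : S X2 = l' ++ t' :: rest') :
    ∃ r', Runs E (.loop [popx X1, popy X2] (fun r => goOn stop r.x)
      (.act [.pushO Y1 (fun r => r.x.bind fun x => r.y.bind fun y => g1 (r.a, r.b) x y),
        .pushO Y2 (fun r => r.x.bind fun x => r.y.bind fun y => g2 (r.a, r.b) x y),
        .load (fun r => { r with a := (f (r.a, r.b) (r.x.getD .o) (r.y.getD .o)).1,
                                 b := (f (r.a, r.b) (r.x.getD .o) (r.y.getD .o)).2 })]))
      ⟨r, i, o, S⟩
      ⟨r', i, o,
        Function.update (Function.update (Function.update (Function.update S X1 rest) X2 rest')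
          Y1 ((zouts f g1 (r.a, r.b) l l').reverse ++ S Y1))
          Y2 ((zouts f g2 (r.a, r.b) l l').reverse ++ S Y2)⟩
      (2 * l.length + 1) := by
  induction l generalizing r S l' with
  | nil =>
    obtain rfl : l' = [] := by simpa using hll.symm
    refine ⟨{ r with x := some t, y := some t' }, Runs.loop_done ?_ ?_⟩
    · simp only [runOps, Op.run, hS, Function.update_of_ne (Ne.symm h0), hS']
      simp only [List.nil_append, List.head?_cons, List.tail_cons, zouts, List.reverse_nil]
      congr 1
      funext k
      by_cases hk3 : k = Y2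
      · subst hk3; simp [Function.update_of_ne (Ne.symm h12), Function.update_of_ne (Ne.symm h22)]
      by_cases hk2 : k = Y1
      · subst hk2
        simp [Function.update_of_ne (Ne.symm h11), Function.update_of_ne (Ne.symm h21),
          Function.update_of_ne hy]
      simp [Function.update_of_ne hk3, Function.update_of_ne hk2]
    · simp [goOn, ht]
  | cons a l ih =>
    obtain ⟨a', l', rfl⟩ : ∃ a' l'', l' = a' :: l'' := by
      cases l' with
      | nil => simp at hll
      | cons a' l'' => exact ⟨a', l'', rfl⟩
    obtain ⟨r', h⟩ := ih l' (by simpa using hll) (fun s hs => hl s (by simp [hs]))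
      { r with x := some a, y := some a', a := (f (r.a, r.b) a a').1, b := (f (r.a, r.b) a a').2 }
      (Function.update (Function.update (Function.update (Function.update S X1 (l ++ t :: rest))
          X2 (l' ++ t' :: rest'))
          Y1 ((g1 (r.a, r.b) a a').toList ++ S Y1)) Y2 ((g2 (r.a, r.b) a a').toList ++ S Y2))
      (by simp [Function.update_of_ne h0, Function.update_of_ne h11, Function.update_of_ne h12])
      (by simp [Function.update_of_ne h21, Function.update_of_ne h22])
    refine ⟨r', (Runs.loop_step (s₁ := ⟨{ r with x := some a, y := some a' }, i, o,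
      Function.update (Function.update S X1 (l ++ t :: rest)) X2 (l' ++ t' :: rest')⟩) ?_ ?_
      (Runs.act' rfl) (s'' := _) ?_).mono
      (B := 1 + (2 * l.length + 1) + 1) (by simp; omega)⟩
    · simp [runOps, Op.run, hS, hS', Function.update_of_ne (Ne.symm h0)]
    · simp [goOn, hl a (by simp)]
    · have e1 : runOps [Op.pushO (α := Letter) (β := OutSym) (W := W) (Γ := Sym) Y1
            (fun (r : Reg) => r.x.bind fun x => r.y.bind fun y => g1 (r.a, r.b) x y),
          .pushO Y2 (fun (r : Reg) => r.x.bind fun x => r.y.bind fun y => g2 (r.a, r.b) x y),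
          .load (fun r => { r with a := (f (r.a, r.b) (r.x.getD .o) (r.y.getD .o)).1,
                                   b := (f (r.a, r.b) (r.x.getD .o) (r.y.getD .o)).2 })]
          ⟨{ r with x := some a, y := some a' }, i, o,
            Function.update (Function.update S X1 (l ++ t :: rest)) X2 (l' ++ t' :: rest')⟩ =
          ⟨{ r with x := some a, y := some a', a := (f (r.a, r.b) a a').1, b := (f (r.a, r.b) a a').2 }, i, o,
          (Function.update (Function.update (Function.update (Function.update S X1 (l ++ t :: rest))
          X2 (l' ++ t' :: rest'))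
          Y1 ((g1 (r.a, r.b) a a').toList ++ S Y1)) Y2 ((g2 (r.a, r.b) a a').toList ++ S Y2))⟩ := by
        simp only [runOps, run_pushO]
        simp [Op.run, Function.update_of_ne (Ne.symm h11), Function.update_of_ne (Ne.symm h12),
          Function.update_of_ne (Ne.symm h21), Function.update_of_ne (Ne.symm h22),
          Function.update_of_ne (Ne.symm hy)]
      rw [e1]
      convert h using 2
      funext k
      by_cases hk3 : k = Y2
      · subst hk3; simp [zouts, toList_reverse]
      by_cases hk2 : k = Y1
      · subst hk2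
        simp [zouts, toList_reverse, Function.update_of_ne hy]
      by_cases hk1 : k = X2
      · subst hk1
        simp [Function.update_of_ne h21, Function.update_of_ne h22]
      by_cases hk : k = X1
      · subst hk
        simp [Function.update_of_ne h11, Function.update_of_ne h12, Function.update_of_ne h0]
      simp [Function.update_of_ne hk3, Function.update_of_ne hk2, Function.update_of_ne hk1,
        Function.update_of_ne hk]

theorem zip_spec (E : Pr → Cm W) {X1 X2 Y1 Y2 : W} (h0 : X1 ≠ X2)
    (h11 : X1 ≠ Y1) (h12 : X1 ≠ Y2) (h21 : X2 ≠ Y1) (h22 : X2 ≠ Y2)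
    (hy : Y1 ≠ Y2) (stop : Sym → Bool)
    (f : Bool × Bool → Sym → Sym → Bool × Bool)
    (g1 g2 : Bool × Bool → Sym → Sym → Option Sym) (a0 : Bool × Bool)
    {l l' : List Sym} (hll : l.length = l'.length)
    (hl : ∀ s ∈ l, stop s = false) {t t' : Sym} (ht : stop t = true) {rest rest' : List Sym}
    {S : W → List Sym}
    (hS : S X1 = l ++ t :: rest) (hS' : S X2 = l' ++ t' :: rest') :
    R E (zip X1 X2 Y1 Y2 stop f g1 g2 a0) S
      (Function.update (Function.update (Function.update (Function.update S X1 rest)
          X2 rest')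
          Y1 ((zouts f g1 a0 l l').reverse ++ S Y1))
          Y2 ((zouts f g2 a0 l l').reverse ++ S Y2))
      (2 * l.length + 2) := by
  intro r i o
  obtain ⟨r', h⟩ := zip_loop E h0 h11 h12 h21 h22 hy stop f g1 g2 l l' hll hl t t' ht rest rest'
    { r with a := a0.1, b := a0.2 } i o S hS hS'
  have h0 : Runs E (.act [.load (fun r => { r with a := a0.1, b := a0.2 })]) ⟨r, i, o, S⟩
    ⟨{ r with a := a0.1, b := a0.2 }, i, o, S⟩ 1 := Runs.act' rfl
  exact ⟨r', (Runs.seq h0 h).mono (by omega)⟩

/-! ### rules for `R` -/

section rules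

variable {E : Pr → Cm W}

theorem R.mono {c : Cm W} {S S' : W → List Sym} {B B' : ℕ} (h : R E c S S' B) (hB : B ≤ B') :
    R E c S S' B' := fun r i o => by
  obtain ⟨r', h⟩ := h r i o
  exact ⟨r', h.mono hB⟩

theorem R.of_eq {c : Cm W} {S S' S'' : W → List Sym} {B : ℕ} (h : R E c S S' B)
    (hS : S' = S'') : R E c S S'' B := hS ▸ h

theorem R.seq {c₁ c₂ : Cm W} {S S' S'' : W → List Sym} {B₁ B₂ : ℕ} (h₁ : R E c₁ S S' B₁)
    (h₂ : R E c₂ S' S'' B₂) : R E (.seq c₁ c₂) S S'' (B₁ + B₂) := fun r i o => by
  obtain ⟨r', h₁⟩ := h₁ r i o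
  obtain ⟨r'', h₂⟩ := h₂ r' i o
  exact ⟨r'', h₁.seq h₂⟩

theorem R.call {q : Pr} {S S' : W → List Sym} {B : ℕ} (h : R E (E q) S S' B) :
    R E (.call q) S S' (B + 2) := fun r i o => by
  obtain ⟨r', h⟩ := h r i o
  exact ⟨r', Runs.call h⟩

theorem R.push (X : W) (s : Sym) (S : W → List Sym) :
    R E (.act [pushc X s]) S (Function.update S X (s :: S X)) 1 := fun r i o =>
  ⟨r, Runs.act' rfl⟩

theorem R.pop (X : W) (S : W → List Sym) :
    R E (.act [popx X]) S (Function.update S X (S X).tail) 1 := fun r i o =>
  ⟨{ r with x := (S X).head? }, Runs.act' rfl⟩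

theorem R.skip (S : W → List Sym) : R E (.act []) S S 1 := fun r i o => ⟨r, Runs.act' rfl⟩

/-- branch on the top of a stack -/
def ifTop (X : W) (p : Option Sym → Bool) (c₁ c₂ : Cm W) : Cm W :=
  .ite [peekx X] (fun r => p r.x) c₁ c₂

theorem R.ifTop_true {X : W} {p : Option Sym → Bool} {c₁ c₂ : Cm W} {S S' : W → List Sym}
    {B : ℕ} (hp : p (S X).head? = true) (h : R E c₁ S S' B) :
    R E (ifTop X p c₁ c₂) S S' (B + 1) := fun r i o => by
  obtain ⟨r', h⟩ := h { r with x := (S X).head? } i o
  exact ⟨r', Runs.ite_true rfl hp h⟩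

theorem R.ifTop_false {X : W} {p : Option Sym → Bool} {c₁ c₂ : Cm W} {S S' : W → List Sym}
    {B : ℕ} (hp : p (S X).head? = false) (h : R E c₂ S S' B) :
    R E (ifTop X p c₁ c₂) S S' (B + 1) := fun r i o => by
  obtain ⟨r', h⟩ := h { r with x := (S X).head? } i o
  exact ⟨r', Runs.ite_false rfl hp h⟩

/-- loop while the top of a stack satisfies a condition -/
def whileTop (X : W) (p : Option Sym → Bool) (c : Cm W) : Cm W :=
  .loop [peekx X] (fun r => p r.x) c

theorem R.while_done {X : W} {p : Option Sym → Bool} {c : Cm W} {S : W → List Sym}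
    (hp : p (S X).head? = false) :
    R E (whileTop X p c) S S 1 := fun r i o =>
  ⟨{ r with x := (S X).head? }, Runs.loop_done rfl hp⟩

theorem R.while_step {X : W} {p : Option Sym → Bool} {c : Cm W} {S S' S'' : W → List Sym}
    {B₁ B₂ : ℕ} (hp : p (S X).head? = true) (h : R E c S S' B₁)
    (h' : R E (whileTop X p c) S' S'' B₂) :
    R E (whileTop X p c) S S'' (B₁ + B₂ + 1) := fun r i o => by
  obtain ⟨r', h⟩ := h { r with x := (S X).head? } i o
  obtain ⟨r'', h'⟩ := h' r' i o
  exact ⟨r'', Runs.loop_step rfl hp h h'⟩

def isC : Sym → Bool | .c => true | _ => false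
def isD : Sym → Bool | .d => true | _ => false
def isE : Sym → Bool | .e => true | _ => false

/-- Loop over the symbols of a segment of `M` (terminated by `c`), which is moved to `M'`;
on symbol `o` the first command is executed, on other symbols the second. -/
def forS (M M' : W) (bO bI : Cm W) : Cm W :=
  .loop [popx M] (fun r => goOn isC r.x)
    (.seq (.act [pushx M']) (.ite [] (fun r => decide (r.x = some .o)) bO bI))

theorem R.forS_nil {M M' : W} {bO bI : Cm W} {S : W → List Sym} {rest : List Sym}
    (hS : S M = .c :: rest) :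
    R E (forS M M' bO bI) S (Function.update S M rest) 1 := fun r i o =>
  ⟨{ r with x := some .c }, Runs.loop_done (by simp [runOps, Op.run, hS]) rfl⟩

theorem R.forS_o {M M' : W} (hM : M ≠ M') {bO bI : Cm W} {S S' S'' : W → List Sym}
    {l : List Sym} {B₁ B₂ : ℕ}
    (hS : S M = .o :: l)
    (h : R E bO (Function.update (Function.update S M l) M' (.o :: S M')) S' B₁)
    (h' : R E (forS M M' bO bI) S' S'' B₂) :
    R E (forS M M' bO bI) S S'' (B₁ + B₂ + 3) := fun r i o => by
  obtain ⟨r', h⟩ := h { r with x := some .o } i o
  obtain ⟨r'', h'⟩ := h' r' i o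
  refine ⟨r'', (Runs.loop_step (s₁ := ⟨{ r with x := some .o }, i, o,
    Function.update S M l⟩) (by simp [runOps, Op.run, hS]) rfl (Runs.seq (Runs.act' (s' :=
    ⟨{ r with x := some .o }, i, o, Function.update (Function.update S M l) M' (.o :: S M')⟩)
    ?_) (Runs.ite_true rfl rfl h)) h').mono (by omega)⟩
  simp [runOps, Op.run, Function.update_of_ne (Ne.symm hM)]

theorem R.forS_i {M M' : W} (hM : M ≠ M') {bO bI : Cm W} {S S' S'' : W → List Sym}
    {s : Sym} {l : List Sym} {B₁ B₂ : ℕ}
    (hS : S M = s :: l) (hs : s ≠ .c) (hs' : s ≠ .o)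
    (h : R E bI (Function.update (Function.update S M l) M' (s :: S M')) S' B₁)
    (h' : R E (forS M M' bO bI) S' S'' B₂) :
    R E (forS M M' bO bI) S S'' (B₁ + B₂ + 3) := fun r i o => by
  obtain ⟨r', h⟩ := h { r with x := some s } i o
  obtain ⟨r'', h'⟩ := h' r' i o
  refine ⟨r'', (Runs.loop_step (s₁ := ⟨{ r with x := some s }, i, o,
    Function.update S M l⟩) (by simp [runOps, Op.run, hS]) ?_ (Runs.seq (Runs.act' (s' :=
    ⟨{ r with x := some s }, i, o, Function.update (Function.update S M l) M' (s :: S M')⟩)
    ?_) (Runs.ite_false rfl ?_ h)) h').mono (by omega)⟩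
  · cases s <;> simp_all [goOn, isC]
  · simp [runOps, Op.run, Function.update_of_ne (Ne.symm hM)]
  · simpa [runOps] using hs'

/-- Like `mv`, with every symbol duplicated. -/
def mvd (X Y : W) (stop : Sym → Bool) : Cm W :=
  .loop [popx X] (fun r => goOn stop r.x) (.act [pushx Y, pushx Y])

theorem mvd_spec {X Y : W} (hXY : X ≠ Y) (stop : Sym → Bool) {l : List Sym}
    (hl : ∀ s ∈ l, stop s = false) {t : Sym} (ht : stop t = true) {rest : List Sym}
    {S : W → List Sym} (hS : S X = l ++ t :: rest) :
    R E (mvd X Y stop) S
      (Function.update (Function.update S X rest) Y ((l.flatMap fun s => [s, s]).reverse ++ S Y))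
      (2 * l.length + 1) := by
  intro r i o
  refine ⟨{ r with x := some t }, ?_⟩
  unfold mvd
  induction l generalizing r S with
  | nil =>
    refine Runs.loop_done ?_ ?_
    · simp only [runOps, Op.run, hS]
      simp only [List.nil_append, List.head?_cons, List.tail_cons, List.flatMap_nil,
        List.reverse_nil]
      congr 1
      funext k
      by_cases hk : k = Y
      · subst hk; simp [Function.update_of_ne (Ne.symm hXY)]
      · simp [Function.update_of_ne hk]
    · simp [goOn, ht]
  | cons a l ih =>
    have h1 := ih (fun s hs => hl s (by simp [hs]))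
      (S := Function.update (Function.update S X (l ++ t :: rest)) Y (a :: a :: S Y))
      (by simp [Function.update_of_ne hXY]) { r with x := some a }
    refine (Runs.loop_step (s₁ := ⟨{ r with x := some a }, i, o,
      Function.update S X (l ++ t :: rest)⟩) ?_ ?_ (Runs.act' rfl) (s'' := _) ?_).mono
      (B := 1 + (2 * l.length + 1) + 1) (by simp; omega)
    · simp [runOps, Op.run, hS]
    · simp [goOn, hl a (by simp)]
    · simp only [runOps, run_pushO]
      convert h1 using 2
      · funext k
        by_cases hk : k = Y
        · subst hk; simp [Function.update_of_ne (Ne.symm hXY)]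
        · simp [Function.update_of_ne hk]
      · funext k
        by_cases hk : k = Y
        · subst hk; simp
        · by_cases hk' : k = X
          · subst hk'; simp [Function.update_of_ne hk]
          · simp [Function.update_of_ne hk, Function.update_of_ne hk']

end rules

end generic

end Pool.Agent.Helper62
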