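import Mathlib

/-!
Functional version of the multiplication algorithm (polynomial products modulo `X^K + 1` over
`ZMod (2^w)` with coefficients given by bit lists), and its correctness.
-/

set_option autoImplicit false
set_option linter.unusedSectionVars false

namespace Pool.Agent.Helper62

open Polynomial

abbrev Coef := List Bool
abbrev Block := List Coef
abbrev Arr := List Block

/-- value of a bit list, least significant bit first -/
def val : Coef → ℕ
  | [] => 0
  | b :: l => b.toNat + 2 * val l

def xor3 (a b c : Bool) : Bool := xor a (xor b c)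
def maj (a b c : Bool) : Bool := (a && b) || (a && c) || (b && c)

/-- truncated addition with carry -/
def addB : Bool → Coef → Coef → Coef
  | c, x :: xs, y :: ys => xor3 c x y :: addB (maj c x y) xs ys
  | _, _, _ => []

/-- two's complement negation (`s`: a one has been seen) -/
def negB : Bool → Coef → Coef
  | s, x :: xs => (if s then !x else x) :: negB (s || x) xs
  | _, [] => []

/-- truncated doubling -/
def dblB : Bool → Coef → Coef
  | p, x :: xs => p :: dblB x xs
  | _, [] => []

def zeroB : Coef → Coef := List.map (fun _ => false)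

theorem addB_length (c : Bool) (x y : Coef) (h : x.length = y.length) :
    (addB c x y).length = x.length := by
  induction x generalizing c y with
  | nil => simp [addB]
  | cons a x ih =>
    cases y with
    | nil => simp at h
    | cons b y => simp [addB, ih _ y (by simpa using h)]

theorem negB_length (s : Bool) (x : Coef) : (negB s x).length = x.length := by
  induction x generalizing s with
  | nil => rfl
  | cons a x ih => simp [negB, ih]

theorem dblB_length (s : Bool) (x : Coef) : (dblB s x).length = x.length := by
  induction x generalizing s with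
  | nil => rfl
  | cons a x ih => simp [dblB, ih]

theorem val_lt (x : Coef) : val x < 2 ^ x.length := by
  induction x with
  | nil => simp [val]
  | cons a x ih =>
    simp only [val, List.length_cons, pow_succ]
    cases a <;> simp <;> omega

theorem val_addB (c : Bool) (x y : Coef) (h : x.length = y.length) :
    ∃ q, val (addB c x y) + 2 ^ x.length * q = val x + val y + c.toNat := by
  induction x generalizing c y with
  | nil =>
    cases y with
    | nil => exact ⟨c.toNat, by simp [addB, val]⟩
    | cons b y => simp at h
  | cons a x ih =>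
    cases y with
    | nil => simp at h
    | cons b y =>
      obtain ⟨q, hq⟩ := ih (maj c a b) y (by simpa using h)
      refine ⟨q, ?_⟩
      simp only [addB, val, List.length_cons, pow_succ]
      have : 2 ^ x.length * 2 * q = 2 * (2 ^ x.length * q) := by ring
      rw [this]
      revert hq
      cases c <;> cases a <;> cases b <;> simp [xor3, maj] <;> intro hq <;> omega

theorem val_negB (x : Coef) :
    val (negB true x) + val x + 1 = 2 ^ x.length ∧
    ∃ q, val (negB false x) + val x = 2 ^ x.length * q := by
  induction x with
  | nil => exact ⟨by simp [negB, val], 0, by simp [negB, val]⟩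
  | cons a x ih =>
    obtain ⟨h1, q, h2⟩ := ih
    simp only [negB, val, List.length_cons, pow_succ]
    refine ⟨?_, ?_⟩
    · cases a <;> simp <;> omega
    · cases a
      · refine ⟨q, ?_⟩
        simp
        have : 2 ^ x.length * 2 * q = 2 * (2 ^ x.length * q) := by ring
        omega
      · refine ⟨1, ?_⟩
        simp
        omega

theorem val_dblB (p : Bool) (x : Coef) :
    ∃ q, val (dblB p x) + 2 ^ x.length * q = 2 * val x + p.toNat := by
  induction x generalizing p with
  | nil => exact ⟨p.toNat, by simp [dblB, val]⟩
  | cons a x ih =>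
    obtain ⟨q, hq⟩ := ih a
    refine ⟨q, ?_⟩
    simp only [dblB, val, List.length_cons, pow_succ]
    have : 2 ^ x.length * 2 * q = 2 * (2 ^ x.length * q) := by ring
    rw [this]
    omega

theorem val_zeroB (x : Coef) : val (zeroB x) = 0 := by
  induction x with
  | nil => rfl
  | cons a x ih => simp [zeroB, val] at ih ⊢; exact ih

theorem val_map_not (x : Coef) : val (x.map not) + val x + 1 = 2 ^ x.length := by
  induction x with
  | nil => simp [val]
  | cons a x ih =>
    simp only [List.map_cons, val, List.length_cons, pow_succ]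
    cases a <;> simp <;> omega

section ring

variable (w : ℕ)

/-- coefficient value in `ZMod (2^w)` -/
def cv (x : Coef) : ZMod (2 ^ w) := (val x : ZMod (2 ^ w))

variable {w}

theorem two_pow_zero : (2 : ZMod (2 ^ w)) ^ w = 0 := by
  have := ZMod.natCast_self (2 ^ w)
  push_cast at this
  exact this

theorem cv_add {c : Bool} {x y : Coef} (hx : x.length = w) (hy : y.length = w) :
    cv w (addB c x y) = cv w x + cv w y + c.toNat := by
  obtain ⟨q, hq⟩ := val_addB c x y (by rw [hx, hy])
  have := congrArg (Nat.cast : ℕ → ZMod (2 ^ w)) hq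
  push_cast [hx, two_pow_zero] at this
  simpa [cv] using this

theorem cv_neg {x : Coef} (hx : x.length = w) : cv w (negB false x) = - cv w x := by
  obtain ⟨_, q, hq⟩ := val_negB x
  have := congrArg (Nat.cast : ℕ → ZMod (2 ^ w)) hq
  push_cast [hx, two_pow_zero] at this
  simp only [cv]
  rw [zero_mul] at this
  exact eq_neg_of_add_eq_zero_left this

theorem cv_dbl {x : Coef} (hx : x.length = w) : cv w (dblB false x) = 2 * cv w x := by
  obtain ⟨q, hq⟩ := val_dblB false x
  have := congrArg (Nat.cast : ℕ → ZMod (2 ^ w)) hq
  push_cast [hx, two_pow_zero] at this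
  simpa [cv] using this

theorem cv_sub {x y : Coef} (hx : x.length = w) (hy : y.length = w) :
    cv w (addB true x (y.map not)) = cv w x - cv w y := by
  rw [cv_add hx (by simpa using hy)]
  have := congrArg (Nat.cast : ℕ → ZMod (2 ^ w)) (val_map_not y)
  push_cast [hy, two_pow_zero] at this
  have h2 : cv w (y.map not) = - cv w y - 1 := by
    simp only [cv]
    rw [add_assoc] at this
    rw [eq_neg_of_add_eq_zero_left this]; ring
  rw [h2, Bool.toNat_true, Nat.cast_one]
  ring

theorem cv_zero (x : Coef) : cv w (zeroB x) = 0 := by simp [cv, val_zeroB]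

/-! ### blocks -/

def subB (x y : Coef) : Coef := addB true x (y.map not)

def addBl : Block → Block → Block := List.zipWith (addB false)
def subBl : Block → Block → Block := List.zipWith subB
def negBl : Block → Block := List.map (negB false)
def dblBl : Block → Block := List.map (dblB false)
def zeroBl : Block → Block := List.map zeroB

/-- multiplication by `x^e` modulo `x^K+1` -/
def rotF (e : ℕ) (B : Block) : Block := negBl (B.drop (B.length - e)) ++ B.take (B.length - e)
/-- multiplication by `x^(-e)` modulo `x^K+1` -/
def rotI (e : ℕ) (B : Block) : Block := B.drop e ++ negBl (B.take e)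

/-- well-formed block -/
def WfB (K w : ℕ) (B : Block) : Prop := B.length = K ∧ ∀ x ∈ B, x.length = w
/-- well-formed array -/
def WfA (H K w : ℕ) (A : Arr) : Prop := A.length = H ∧ ∀ B ∈ A, WfB K w B

theorem WfB.nil : WfB 0 w [] := ⟨rfl, by simp⟩

theorem WfB.append {K K' : ℕ} {B B' : Block} (h : WfB K w B) (h' : WfB K' w B') :
    WfB (K + K') w (B ++ B') :=
  ⟨by simp [h.1, h'.1], by
    intro x hx
    rcases List.mem_append.1 hx with hx | hx
    · exact h.2 x hx
    · exact h'.2 x hx⟩

theorem WfB.take {K : ℕ} {B : Block} (h : WfB K w B) (n : ℕ) (hn : n ≤ K) :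
    WfB n w (B.take n) :=
  ⟨by simp [h.1, hn], fun x hx => h.2 x (List.mem_of_mem_take hx)⟩

theorem WfB.drop {K : ℕ} {B : Block} (h : WfB K w B) (n : ℕ) :
    WfB (K - n) w (B.drop n) :=
  ⟨by simp [h.1], fun x hx => h.2 x (List.mem_of_mem_drop hx)⟩

theorem mem_zipWith {α β γ : Type} {f : α → β → γ} {l : List α} {l' : List β} {z : γ}
    (h : z ∈ List.zipWith f l l') : ∃ x ∈ l, ∃ y ∈ l', z = f x y := by
  induction l generalizing l' with
  | nil => simp at h
  | cons a l ih =>
    cases l' with
    | nil => simp at h
    | cons b l' =>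
      simp only [List.zipWith_cons_cons, List.mem_cons] at h
      rcases h with rfl | h
      · exact ⟨a, by simp, b, by simp, rfl⟩
      · obtain ⟨x, hx, y, hy, rfl⟩ := ih h
        exact ⟨x, by simp [hx], y, by simp [hy], rfl⟩

theorem WfB.add {K : ℕ} {B B' : Block} (h : WfB K w B) (h' : WfB K w B') :
    WfB K w (addBl B B') := by
  refine ⟨by simp [addBl, h.1, h'.1], fun z hz => ?_⟩
  obtain ⟨x, hx, y, hy, rfl⟩ := mem_zipWith hz
  rw [addB_length _ _ _ (by rw [h.2 x hx, h'.2 y hy]), h.2 x hx]

theorem WfB.sub {K : ℕ} {B B' : Block} (h : WfB K w B) (h' : WfB K w B') :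
    WfB K w (subBl B B') := by
  refine ⟨by simp [subBl, h.1, h'.1], fun z hz => ?_⟩
  obtain ⟨x, hx, y, hy, rfl⟩ := mem_zipWith hz
  rw [subB, addB_length _ _ _ (by rw [h.2 x hx, List.length_map, h'.2 y hy]), h.2 x hx]

theorem WfB.neg {K : ℕ} {B : Block} (h : WfB K w B) : WfB K w (negBl B) := by
  refine ⟨by simp [negBl, h.1], fun z hz => ?_⟩
  obtain ⟨x, hx, rfl⟩ := List.mem_map.1 hz
  rw [negB_length, h.2 x hx]

theorem WfB.dbl {K : ℕ} {B : Block} (h : WfB K w B) : WfB K w (dblBl B) := by
  refine ⟨by simp [dblBl, h.1], fun z hz => ?_⟩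
  obtain ⟨x, hx, rfl⟩ := List.mem_map.1 hz
  rw [dblB_length, h.2 x hx]

theorem WfB.zero {K : ℕ} {B : Block} (h : WfB K w B) : WfB K w (zeroBl B) := by
  refine ⟨by simp [zeroBl, h.1], fun z hz => ?_⟩
  obtain ⟨x, hx, rfl⟩ := List.mem_map.1 hz
  rw [zeroB, List.length_map, h.2 x hx]

theorem WfB.rotF {K : ℕ} {B : Block} (h : WfB K w B) (e : ℕ) (he : e ≤ K) :
    WfB K w (rotF e B) := by
  have h1 := (h.drop (K - e)).neg.append (h.take (K - e) (by omega))
  rw [show K - (K - e) + (K - e) = K by omega] at h1
  simpa [Pool.Agent.Helper62.rotF, h.1] using h1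

theorem WfB.rotI {K : ℕ} {B : Block} (h : WfB K w B) (e : ℕ) (he : e ≤ K) :
    WfB K w (rotI e B) := by
  have h1 := (h.drop e).append (h.take e he).neg
  rw [show K - e + e = K by omega] at h1
  exact h1

/-! evaluation of blocks in an algebra -/

variable {Q : Type} [CommRing Q] [Algebra (ZMod (2 ^ w)) Q]

/-- value of a block at `x` -/
def evB (x : Q) : Block → Q
  | [] => 0
  | c :: B => algebraMap (ZMod (2 ^ w)) Q (cv w c) + x * evB x B

theorem evB_append (x : Q) (B B' : Block) :
    evB (w := w) x (B ++ B') = evB (w := w) x B + x ^ B.length * evB (w := w) x B' := by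
  induction B with
  | nil => simp [evB]
  | cons c B ih => simp only [List.cons_append, evB, ih, List.length_cons, pow_succ]; ring

theorem evB_add (x : Q) {K : ℕ} {B B' : Block} (h : WfB K w B) (h' : WfB K w B') :
    evB (w := w) x (addBl B B') = evB (w := w) x B + evB (w := w) x B' := by
  induction B generalizing K B' with
  | nil =>
    have : B' = [] := by
      have := h'.1; rw [← h.1] at this; simpa using this
    subst this; simp [addBl, evB]
  | cons c B ih =>
    cases B' with
    | nil => have := h'.1; rw [← h.1] at this; simp at this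
    | cons c' B' =>
      obtain ⟨hK, hB⟩ := h
      obtain ⟨hK', hB'⟩ := h'
      have := ih (K := B.length) (B' := B') ⟨rfl, fun x hx => hB x (by simp [hx])⟩
        ⟨by simp at hK hK'; omega, fun x hx => hB' x (by simp [hx])⟩
      simp only [addBl, List.zipWith_cons_cons, evB] at this ⊢
      rw [this, cv_add (hB c (by simp)) (hB' c' (by simp))]
      simp only [map_add, Bool.toNat_false, Nat.cast_zero, map_zero]; ring

theorem evB_sub (x : Q) {K : ℕ} {B B' : Block} (h : WfB K w B) (h' : WfB K w B') :
    evB (w := w) x (subBl B B') = evB (w := w) x B - evB (w := w) x B' := by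
  induction B generalizing K B' with
  | nil =>
    have : B' = [] := by
      have := h'.1; rw [← h.1] at this; simpa using this
    subst this; simp [subBl, evB]
  | cons c B ih =>
    cases B' with
    | nil => have := h'.1; rw [← h.1] at this; simp at this
    | cons c' B' =>
      obtain ⟨hK, hB⟩ := h
      obtain ⟨hK', hB'⟩ := h'
      have := ih (K := B.length) (B' := B') ⟨rfl, fun x hx => hB x (by simp [hx])⟩
        ⟨by simp at hK hK'; omega, fun x hx => hB' x (by simp [hx])⟩
      simp only [subBl, subB, List.zipWith_cons_cons, evB] at this ⊢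
      rw [this, cv_sub (hB c (by simp)) (hB' c' (by simp))]
      simp only [map_sub]; ring

theorem evB_neg (x : Q) {K : ℕ} {B : Block} (h : WfB K w B) :
    evB (w := w) x (negBl B) = - evB (w := w) x B := by
  induction B generalizing K with
  | nil => simp [negBl, evB]
  | cons c B ih =>
    obtain ⟨hK, hB⟩ := h
    have := ih (K := B.length) ⟨rfl, fun x hx => hB x (by simp [hx])⟩
    simp only [negBl, List.map_cons, evB] at this ⊢
    rw [this, cv_neg (hB c (by simp)), map_neg]; ring

theorem evB_dbl (x : Q) {K : ℕ} {B : Block} (h : WfB K w B) :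
    evB (w := w) x (dblBl B) = 2 * evB (w := w) x B := by
  induction B generalizing K with
  | nil => simp [dblBl, evB]
  | cons c B ih =>
    obtain ⟨hK, hB⟩ := h
    have := ih (K := B.length) ⟨rfl, fun x hx => hB x (by simp [hx])⟩
    simp only [dblBl, List.map_cons, evB] at this ⊢
    rw [this, cv_dbl (hB c (by simp)), map_mul]; simp only [map_ofNat]; ring

theorem evB_zero (x : Q) (B : Block) : evB (w := w) x (zeroBl B) = 0 := by
  induction B with
  | nil => simp [zeroBl, evB]
  | cons c B ih =>
    simp only [zeroBl, List.map_cons, evB] at ih ⊢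
    rw [ih, cv_zero]; simp

theorem evB_rotF (x : Q) {K : ℕ} (hx : x ^ K = -1) {B : Block} (h : WfB K w B) (e : ℕ)
    (he : e ≤ K) : evB (w := w) x (rotF e B) = x ^ e * evB (w := w) x B := by
  have h1 := h.drop (K - e)
  have h2 := h.take (K - e) (by omega)
  conv_rhs => rw [← List.take_append_drop (K - e) B, evB_append, h2.1]
  rw [rotF, h.1, evB_append, evB_neg x h1, h1.neg.1, show K - (K - e) = e by omega]
  have : x ^ e * x ^ (K - e) = -1 := by rw [← pow_add, show e + (K - e) = K by omega, hx]
  rw [mul_add, ← mul_assoc, this]; ring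

theorem evB_rotI (x : Q) {K : ℕ} (hx : x ^ K = -1) {B : Block} (h : WfB K w B) (e : ℕ)
    (he : e ≤ K) : x ^ e * evB (w := w) x (rotI e B) = evB (w := w) x B := by
  have h1 := h.drop e
  have h2 := h.take e he
  conv_rhs => rw [← List.take_append_drop e B, evB_append, h2.1]
  rw [rotI, evB_append, evB_neg x h2, h1.1]
  have : x ^ e * x ^ (K - e) = -1 := by rw [← pow_add, show e + (K - e) = K by omega, hx]
  rw [mul_add, ← mul_assoc, this]; ring

/-! ### base case -/

/-- scalar times block -/
def smulBl (b : Block) : Coef → Block
  | [] => zeroBl b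
  | x :: xs => if x then addBl (dblBl (smulBl b xs)) b else dblBl (smulBl b xs)

/-- Horner scheme -/
def horner (b : Block) : Block → Block
  | [] => zeroBl b
  | c :: a => addBl (rotF 1 (horner b a)) (smulBl b c)

theorem WfB.smul {K : ℕ} {b : Block} (h : WfB K w b) (x : Coef) : WfB K w (smulBl b x) := by
  induction x with
  | nil => exact h.zero
  | cons a x ih =>
    simp only [smulBl]
    split_ifs
    · exact ih.dbl.add h
    · exact ih.dbl

theorem WfB.horner {K : ℕ} {b : Block} (h : WfB K w b) (hK : 1 ≤ K) (a : Block) :
    WfB K w (horner b a) := by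
  induction a with
  | nil => exact h.zero
  | cons c a ih => exact (ih.rotF 1 hK).add (h.smul c)

theorem evB_smul (x : Q) {K : ℕ} {b : Block} (h : WfB K w b) (c : Coef) :
    evB (w := w) x (smulBl b c) = (val c : Q) * evB (w := w) x b := by
  induction c with
  | nil => simp [smulBl, evB_zero, val]
  | cons a c ih =>
    simp only [smulBl, val]
    cases a
    · simp only [Bool.false_eq_true, if_false, evB_dbl x (h.smul c), ih, Bool.toNat_false]
      push_cast; ring
    · simp only [if_true, evB_add x (h.smul c).dbl h, evB_dbl x (h.smul c), ih, Bool.toNat_true]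
      push_cast; ring

theorem evB_horner (x : Q) {K : ℕ} (hx : x ^ K = -1) (hK : 1 ≤ K) {b : Block} (h : WfB K w b)
    (a : Block) :
    evB (w := w) x (horner b a) = evB (w := w) x a * evB (w := w) x b := by
  induction a with
  | nil => simp [horner, evB_zero, evB]
  | cons c a ih =>
    simp only [horner, evB]
    rw [evB_add x ((h.horner hK a).rotF 1 hK) (h.smul c), evB_rotF x hx (h.horner hK a) 1 hK, ih,
      evB_smul x h c]
    have : algebraMap (ZMod (2 ^ w)) Q (cv w c) = (val c : Q) := by
      simp [cv]
    rw [this]; ring

end ring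

end Pool.Agent.Helper62
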