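import Mathlib
import Pool.Agent.Helper62.Func

set_option autoImplicit false
set_option linter.unusedSectionVars false

namespace Pool.Agent.Helper62

open Polynomial

/-! ### arrays -/

def addA : Arr → Arr → Arr := List.zipWith addBl
def subA : Arr → Arr → Arr := List.zipWith subBl
def rotFA (e : ℕ) : Arr → Arr := List.map (rotF e)
def rotIA (e : ℕ) : Arr → Arr := List.map (rotI e)

variable {w : ℕ}

theorem WfA.nil {K : ℕ} : WfA 0 K w [] := ⟨rfl, by simp⟩

theorem WfA.append {H H' K : ℕ} {A A' : Arr} (h : WfA H K w A) (h' : WfA H' K w A') :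
    WfA (H + H') K w (A ++ A') :=
  ⟨by simp [h.1, h'.1], by
    intro x hx
    rcases List.mem_append.1 hx with hx | hx
    · exact h.2 x hx
    · exact h'.2 x hx⟩

theorem WfA.take {H K : ℕ} {A : Arr} (h : WfA H K w A) (n : ℕ) (hn : n ≤ H) :
    WfA n K w (A.take n) :=
  ⟨by simp [h.1, hn], fun x hx => h.2 x (List.mem_of_mem_take hx)⟩

theorem WfA.drop {H K : ℕ} {A : Arr} (h : WfA H K w A) (n : ℕ) :
    WfA (H - n) K w (A.drop n) :=
  ⟨by simp [h.1], fun x hx => h.2 x (List.mem_of_mem_drop hx)⟩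

theorem WfA.add {H K : ℕ} {A B : Arr} (h : WfA H K w A) (h' : WfA H K w B) :
    WfA H K w (addA A B) := by
  refine ⟨by simp [addA, h.1, h'.1], fun z hz => ?_⟩
  obtain ⟨x, hx, y, hy, rfl⟩ := mem_zipWith hz
  exact (h.2 x hx).add (h'.2 y hy)

theorem WfA.sub {H K : ℕ} {A B : Arr} (h : WfA H K w A) (h' : WfA H K w B) :
    WfA H K w (subA A B) := by
  refine ⟨by simp [subA, h.1, h'.1], fun z hz => ?_⟩
  obtain ⟨x, hx, y, hy, rfl⟩ := mem_zipWith hz
  exact (h.2 x hx).sub (h'.2 y hy)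

theorem WfA.rotF {H K : ℕ} {A : Arr} (h : WfA H K w A) {e : ℕ} (he : e ≤ K) :
    WfA H K w (rotFA e A) := by
  refine ⟨by simp [rotFA, h.1], fun z hz => ?_⟩
  obtain ⟨x, hx, rfl⟩ := List.mem_map.1 hz
  exact (h.2 x hx).rotF e he

theorem WfA.rotI {H K : ℕ} {A : Arr} (h : WfA H K w A) {e : ℕ} (he : e ≤ K) :
    WfA H K w (rotIA e A) := by
  refine ⟨by simp [rotIA, h.1], fun z hz => ?_⟩
  obtain ⟨x, hx, rfl⟩ := List.mem_map.1 hz
  exact (h.2 x hx).rotI e he

section eval

variable {Q : Type} [CommRing Q] [Algebra (ZMod (2 ^ w)) Q]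

/-- value of an array at `x`, `Y` -/
def evA (x Y : Q) : Arr → Q
  | [] => 0
  | B :: A => evB (w := w) x B + Y * evA x Y A

theorem evA_append (x Y : Q) (A B : Arr) :
    evA (w := w) x Y (A ++ B) = evA (w := w) x Y A + Y ^ A.length * evA (w := w) x Y B := by
  induction A with
  | nil => simp [evA]
  | cons c A ih => simp only [List.cons_append, evA, ih, List.length_cons, pow_succ]; ring

theorem evA_add (x Y : Q) {H K : ℕ} {A B : Arr} (h : WfA H K w A) (h' : WfA H K w B) :
    evA (w := w) x Y (addA A B) = evA (w := w) x Y A + evA (w := w) x Y B := by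
  induction A generalizing H B with
  | nil =>
    have : B = [] := by
      have := h'.1; rw [← h.1] at this; simpa using this
    subst this; simp [addA, evA]
  | cons c A ih =>
    cases B with
    | nil => have := h'.1; rw [← h.1] at this; simp at this
    | cons c' B =>
      obtain ⟨hK, hB⟩ := h
      obtain ⟨hK', hB'⟩ := h'
      have := ih (H := A.length) (B := B) ⟨rfl, fun x hx => hB x (by simp [hx])⟩
        ⟨by simp at hK hK'; omega, fun x hx => hB' x (by simp [hx])⟩
      simp only [addA, List.zipWith_cons_cons, evA] at this ⊢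
      rw [this, evB_add x (hB c (by simp)) (hB' c' (by simp))]
      ring

theorem evA_sub (x Y : Q) {H K : ℕ} {A B : Arr} (h : WfA H K w A) (h' : WfA H K w B) :
    evA (w := w) x Y (subA A B) = evA (w := w) x Y A - evA (w := w) x Y B := by
  induction A generalizing H B with
  | nil =>
    have : B = [] := by
      have := h'.1; rw [← h.1] at this; simpa using this
    subst this; simp [subA, evA]
  | cons c A ih =>
    cases B with
    | nil => have := h'.1; rw [← h.1] at this; simp at this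
    | cons c' B =>
      obtain ⟨hK, hB⟩ := h
      obtain ⟨hK', hB'⟩ := h'
      have := ih (H := A.length) (B := B) ⟨rfl, fun x hx => hB x (by simp [hx])⟩
        ⟨by simp at hK hK'; omega, fun x hx => hB' x (by simp [hx])⟩
      simp only [subA, List.zipWith_cons_cons, evA] at this ⊢
      rw [this, evB_sub x (hB c (by simp)) (hB' c' (by simp))]
      ring

theorem evA_rotF (x Y : Q) {H K : ℕ} (hx : x ^ K = -1) {A : Arr} (h : WfA H K w A) {e : ℕ}
    (he : e ≤ K) : evA (w := w) x Y (rotFA e A) = x ^ e * evA (w := w) x Y A := by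
  induction A generalizing H with
  | nil => simp [rotFA, evA]
  | cons c A ih =>
    have := ih (H := A.length) ⟨rfl, fun x hx => h.2 x (by simp [hx])⟩
    simp only [rotFA, List.map_cons, evA] at this ⊢
    rw [this, evB_rotF x hx (h.2 c (by simp)) e he]; ring

theorem evA_rotI (x Y : Q) {H K : ℕ} (hx : x ^ K = -1) {A : Arr} (h : WfA H K w A) {e : ℕ}
    (he : e ≤ K) : x ^ e * evA (w := w) x Y (rotIA e A) = evA (w := w) x Y A := by
  induction A generalizing H with
  | nil => simp [rotIA, evA]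
  | cons c A ih =>
    have := ih (H := A.length) ⟨rfl, fun x hx => h.2 x (by simp [hx])⟩
    simp only [rotIA, List.map_cons, evA] at this ⊢
    rw [mul_add, evB_rotI x hx (h.2 c (by simp)) e he, ← this]; ring

end eval

/-! ### the fused recursion -/

/-- product modulo `Y^(2^h) - x^(2e)` over the ring with `x^(2r) = -1`, scaled by `2^h`;
`N` is the product in the base ring. -/
def convF (N : Block → Block → Block) (r : ℕ) : ℕ → ℕ → Arr → Arr → Arr
  | 0, _, A, B => [N (A.headD []) (B.headD [])]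
  | h + 1, e, A, B =>
    addA (convF N r h (e / 2)
        (addA (A.take (2 ^ h)) (rotFA e (A.drop (2 ^ h))))
        (addA (B.take (2 ^ h)) (rotFA e (B.drop (2 ^ h)))))
      (convF N r h (e / 2 + r)
        (subA (A.take (2 ^ h)) (rotFA e (A.drop (2 ^ h))))
        (subA (B.take (2 ^ h)) (rotFA e (B.drop (2 ^ h))))) ++
    rotIA e (subA (convF N r h (e / 2)
        (addA (A.take (2 ^ h)) (rotFA e (A.drop (2 ^ h))))
        (addA (B.take (2 ^ h)) (rotFA e (B.drop (2 ^ h)))))
      (convF N r h (e / 2 + r)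
        (subA (A.take (2 ^ h)) (rotFA e (A.drop (2 ^ h))))
        (subA (B.take (2 ^ h)) (rotFA e (B.drop (2 ^ h))))))

theorem WfA.halves {h K : ℕ} {A : Arr} (hA : WfA (2 ^ (h + 1)) K w A) {e : ℕ} (he : e ≤ K) :
    WfA (2 ^ h) K w (A.take (2 ^ h)) ∧ WfA (2 ^ h) K w (A.drop (2 ^ h)) ∧
    WfA (2 ^ h) K w (rotFA e (A.drop (2 ^ h))) := by
  have h1 := hA.take (2 ^ h) (by rw [pow_succ]; omega)
  have h2 := hA.drop (2 ^ h)
  rw [show 2 ^ (h + 1) - 2 ^ h = 2 ^ h by rw [pow_succ]; omega] at h2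
  exact ⟨h1, h2, h2.rotF he⟩

theorem wf_convF {N : Block → Block → Block} {r : ℕ}
    (hN : ∀ a b, WfB (2 * r) w a → WfB (2 * r) w b → WfB (2 * r) w (N a b)) (h e : ℕ)
    (he : e < 2 * r ∨ h = 0)
    {A B : Arr} (hA : WfA (2 ^ h) (2 * r) w A) (hB : WfA (2 ^ h) (2 * r) w B) :
    WfA (2 ^ h) (2 * r) w (convF N r h e A B) := by
  induction h generalizing e A B with
  | zero =>
    obtain ⟨hA1, hA2⟩ := hA
    obtain ⟨hB1, hB2⟩ := hB
    rw [pow_zero] at hA1 hB1
    obtain ⟨a, rfl⟩ := List.length_eq_one_iff.1 hA1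
    obtain ⟨b, rfl⟩ := List.length_eq_one_iff.1 hB1
    refine ⟨by simp [convF], ?_⟩
    intro z hz
    simp only [convF, List.headD_cons, List.mem_singleton] at hz
    subst hz
    exact hN a b (hA2 a (by simp)) (hB2 b (by simp))
  | succ h ih =>
    have he' : e < 2 * r := by omega
    obtain ⟨hA1, -, hA3⟩ := hA.halves (e := e) (by omega)
    obtain ⟨hB1, -, hB3⟩ := hB.halves (e := e) (by omega)
    have hP := ih (e / 2) (Or.inl (by omega)) (hA1.add hA3) (hB1.add hB3)
    have hQ := ih (e / 2 + r) (Or.inl (by omega)) (hA1.sub hA3) (hB1.sub hB3)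
    have := (hP.add hQ).append ((hP.sub hQ).rotI (e := e) (by omega))
    rw [show 2 ^ h + 2 ^ h = 2 ^ (h + 1) by rw [pow_succ]; omega] at this
    exact this

/-- correctness of the fused recursion -/
theorem evA_convF {N : Block → Block → Block} {r : ℕ} {s : ℕ}
    (hwN : ∀ a b, WfB (2 * r) w a → WfB (2 * r) w b → WfB (2 * r) w (N a b))
    {Q : Type} [CommRing Q] [Algebra (ZMod (2 ^ w)) Q] (x : Q) (hx : x ^ (2 * r) = -1)
    (hN : ∀ a b, WfB (2 * r) w a → WfB (2 * r) w b →
      evB (w := w) x (N a b) = s * (evB (w := w) x a * evB (w := w) x b))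
    (Y : Q) (h e : ℕ) (he : e < 2 * r) (hd : 2 ^ h ∣ 2 * e) (hd' : 2 ^ h ∣ 4 * r)
    {A B : Arr} (hA : WfA (2 ^ h) (2 * r) w A) (hB : WfA (2 ^ h) (2 * r) w B)
    (c : Q) (hc : h ≠ 0 → c = x ^ (2 * e)) :
    ∃ u : Q, evA (w := w) x Y (convF N r h e A B) =
      2 ^ h * s * (evA (w := w) x Y A * evA (w := w) x Y B) + u * (Y ^ (2 ^ h) - c) := by
  induction h generalizing e A B c with
  | zero =>
    obtain ⟨hA1, hA2⟩ := hA
    obtain ⟨hB1, hB2⟩ := hB
    rw [pow_zero] at hA1 hB1
    obtain ⟨a, rfl⟩ := List.length_eq_one_iff.1 hA1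
    obtain ⟨b, rfl⟩ := List.length_eq_one_iff.1 hB1
    refine ⟨0, ?_⟩
    simp only [convF, List.headD_cons, evA, mul_zero, add_zero, zero_mul, pow_zero, one_mul]
    exact hN a b (hA2 a (by simp)) (hB2 b (by simp))
  | succ h ih =>
    obtain ⟨hA1, hA2, hA3⟩ := hA.halves (e := e) (by omega)
    obtain ⟨hB1, hB2, hB3⟩ := hB.halves (e := e) (by omega)
    have hle : 2 ^ h ∣ e := by
      rw [pow_succ, mul_comm] at hd
      exact (Nat.mul_dvd_mul_iff_left (by norm_num)).1 hd
    have hle' : 2 ^ h ∣ 2 * r := by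
      rw [pow_succ, mul_comm, show 4 * r = 2 * (2 * r) by ring] at hd'
      exact (Nat.mul_dvd_mul_iff_left (by norm_num)).1 hd'
    have hev : h ≠ 0 → 2 * (e / 2) = e := by
      intro h0
      have : 2 ∣ e := (dvd_pow_self 2 h0).trans hle
      omega
    have hxe : h ≠ 0 → x ^ e = x ^ (2 * (e / 2)) := by
      intro h0; rw [hev h0]
    have hxe' : h ≠ 0 → -x ^ e = x ^ (2 * (e / 2 + r)) := by
      intro h0; rw [mul_add, hev h0, pow_add, hx]; ring
    have hdiv1 : 2 ^ h ∣ 2 * (e / 2) := by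
      rcases eq_or_ne h 0 with h0 | h0
      · subst h0; simp
      · rw [hev h0]; exact hle
    have hdiv2 : 2 ^ h ∣ 4 * r := by
      have : (4 : ℕ) * r = 2 * (2 * r) := by ring
      rw [this]; exact hle'.mul_left 2
    have hdiv3 : 2 ^ h ∣ 2 * (e / 2 + r) := by
      rw [mul_add]; exact dvd_add hdiv1 hle'
    obtain ⟨u, hu⟩ := ih (e / 2) (by omega) hdiv1 hdiv2 (hA1.add hA3) (hB1.add hB3) (x ^ e) hxe
    obtain ⟨v, hv⟩ := ih (e / 2 + r) (by omega) hdiv3 hdiv2 (hA1.sub hA3) (hB1.sub hB3) (-x ^ e)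
      hxe'
    have hP := wf_convF hwN h (e / 2) (Or.inl (by omega)) (hA1.add hA3) (hB1.add hB3)
    have hQ := wf_convF hwN h (e / 2 + r) (Or.inl (by omega)) (hA1.sub hA3) (hB1.sub hB3)
    rw [evA_add x Y hA1 hA3, evA_add x Y hB1 hB3, evA_rotF x Y hx hA2 (by omega : e ≤ 2 * r),
      evA_rotF x Y hx hB2 (by omega : e ≤ 2 * r)] at hu
    rw [evA_sub x Y hA1 hA3, evA_sub x Y hB1 hB3, evA_rotF x Y hx hA2 (by omega : e ≤ 2 * r),
      evA_rotF x Y hx hB2 (by omega : e ≤ 2 * r)] at hv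
    have hsplitA : evA (w := w) x Y A = evA (w := w) x Y (A.take (2 ^ h)) +
        Y ^ (2 ^ h) * evA (w := w) x Y (A.drop (2 ^ h)) := by
      conv_lhs => rw [← List.take_append_drop (2 ^ h) A, evA_append, hA1.1]
    have hsplitB : evA (w := w) x Y B = evA (w := w) x Y (B.take (2 ^ h)) +
        Y ^ (2 ^ h) * evA (w := w) x Y (B.drop (2 ^ h)) := by
      conv_lhs => rw [← List.take_append_drop (2 ^ h) B, evA_append, hB1.1]
    have hrot := evA_rotI x Y hx (hP.sub hQ) (by omega : e ≤ 2 * r)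
    -- inverse of x^e
    obtain ⟨z, hz⟩ : ∃ z : Q, z * x ^ e = 1 := by
      refine ⟨-x ^ (2 * r - e), ?_⟩
      rw [neg_mul, ← pow_add, show 2 * r - e + e = 2 * r by omega, hx, neg_neg]
    rw [convF, evA_append, (hP.add hQ).1, evA_add x Y hP hQ]
    rw [evA_sub x Y hP hQ] at hrot
    set P := evA (w := w) x Y (convF N r h (e / 2)
        (addA (A.take (2 ^ h)) (rotFA e (A.drop (2 ^ h))))
        (addA (B.take (2 ^ h)) (rotFA e (B.drop (2 ^ h)))))
    set Q' := evA (w := w) x Y (convF N r h (e / 2 + r)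
        (subA (A.take (2 ^ h)) (rotFA e (A.drop (2 ^ h))))
        (subA (B.take (2 ^ h)) (rotFA e (B.drop (2 ^ h)))))
    set R := evA (w := w) x Y (rotIA e (subA (convF N r h (e / 2)
        (addA (A.take (2 ^ h)) (rotFA e (A.drop (2 ^ h))))
        (addA (B.take (2 ^ h)) (rotFA e (B.drop (2 ^ h)))))
      (convF N r h (e / 2 + r)
        (subA (A.take (2 ^ h)) (rotFA e (A.drop (2 ^ h))))
        (subA (B.take (2 ^ h)) (rotFA e (B.drop (2 ^ h)))))))
    set a1 := evA (w := w) x Y (A.take (2 ^ h))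
    set a2 := evA (w := w) x Y (A.drop (2 ^ h))
    set b1 := evA (w := w) x Y (B.take (2 ^ h))
    set b2 := evA (w := w) x Y (B.drop (2 ^ h))
    have hR : R = z * (P - Q') := by
      rw [← hrot, ← mul_assoc, hz, one_mul]
    have hY : Y ^ 2 ^ (h + 1) = (Y ^ 2 ^ h) ^ 2 := by
      rw [← pow_mul, pow_succ]
    have hcc : c = (x ^ e) ^ 2 := by
      rw [hc (by omega), mul_comm, pow_mul]
    rw [hsplitA, hsplitB, hY, hcc, hR]
    set y := Y ^ 2 ^ h
    set t := x ^ e
    -- cofactors of P and Q' with respect to F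
    have hP' : P = 2 ^ h * s * ((a1 + y * a2) * (b1 + y * b2)) +
        (u - 2 ^ h * s * (a1 * b2 + a2 * b1 + a2 * b2 * (y + t))) * (y - t) := by
      rw [hu]; ring
    have hQ'' : Q' = 2 ^ h * s * ((a1 + y * a2) * (b1 + y * b2)) +
        (v - 2 ^ h * s * (a1 * b2 + a2 * b1 + a2 * b2 * (y - t))) * (y + t) := by
      rw [hv]; ring
    set F := (a1 + y * a2) * (b1 + y * b2)
    set u' := (u - 2 ^ h * s * (a1 * b2 + a2 * b1 + a2 * b2 * (y + t)))
    set v' := (v - 2 ^ h * s * (a1 * b2 + a2 * b1 + a2 * b2 * (y - t)))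
    refine ⟨z * (u' - v'), ?_⟩
    have e1 : P + Q' + y * (z * (P - Q')) = P * (1 + z * y) + Q' * (1 - z * y) := by ring
    rw [e1]
    have e2 : (1 + z * y) = z * (t + y) := by rw [mul_add, hz]
    have e3 : (1 - z * y) = z * (t - y) := by rw [mul_sub, hz]
    calc P * (1 + z * y) + Q' * (1 - z * y)
        = 2 ^ h * s * F * (1 + z * y) + 2 ^ h * s * F * (1 - z * y)
          + u' * (y - t) * (1 + z * y) + v' * (y + t) * (1 - z * y) := by rw [hP', hQ'']; ring
      _ = 2 ^ (h + 1) * s * F + (u' * (y - t) * (1 + z * y) + v' * (y + t) * (1 - z * y)) := by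
          rw [pow_succ]; ring
      _ = 2 ^ (h + 1) * s * F + z * (u' - v') * (y ^ 2 - t ^ 2) := by
          rw [e2, e3]; ring

end Pool.Agent.Helper62
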