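import Mathlib
import Pool.Agent.Helper62.Func2

set_option autoImplicit false
set_option linter.unusedSectionVars false

namespace Pool.Agent.Helper62

open Polynomial

variable {w : ℕ}

section hom

variable {Q Q' : Type} [CommRing Q] [Algebra (ZMod (2 ^ w)) Q] [CommRing Q']
  [Algebra (ZMod (2 ^ w)) Q']

theorem map_evB (f : Q →ₐ[ZMod (2 ^ w)] Q') (x : Q) (B : Block) :
    f (evB (w := w) x B) = evB (w := w) (f x) B := by
  induction B with
  | nil => simp [evB]
  | cons c B ih => simp [evB, ih]

theorem map_evA (f : Q →ₐ[ZMod (2 ^ w)] Q') (x Y : Q) (A : Arr) :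
    f (evA (w := w) x Y A) = evA (w := w) (f x) (f Y) A := by
  induction A with
  | nil => simp [evA]
  | cons c A ih => simp [evA, ih, map_evB]

end hom

theorem coeff_evB (B : Block) (i : ℕ) :
    (evB (w := w) (X : (ZMod (2 ^ w))[X]) B).coeff i = cv w (B.getD i []) := by
  induction B generalizing i with
  | nil => simp [evB, cv, val]
  | cons c B ih =>
    cases i with
    | zero => simp [evB, Polynomial.algebraMap_eq]
    | succ i => simp [evB, Polynomial.algebraMap_eq, coeff_X_mul, ih, coeff_C]

theorem evB_mem_degreeLT (B : Block) (n : ℕ) (h : B.length ≤ n) :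
    evB (w := w) (X : (ZMod (2 ^ w))[X]) B ∈ degreeLT (ZMod (2 ^ w)) n := by
  rw [mem_degreeLT, degree_lt_iff_coeff_zero]
  intro m hm
  rw [coeff_evB, List.getD_eq_default _ _ (by omega)]
  simp [cv, val]

theorem evB_C (B : Block) :
    evB (w := w) (C (X : (ZMod (2 ^ w))[X]) : (ZMod (2 ^ w))[X][X]) B =
      C (evB (w := w) (X : (ZMod (2 ^ w))[X]) B) := by
  induction B with
  | nil => simp [evB]
  | cons c B ih =>
    simp only [evB, ih, map_add, map_mul]
    congr 1

theorem coeff_evA (A : Arr) (i : ℕ) :
    (evA (w := w) (C (X : (ZMod (2 ^ w))[X]) : (ZMod (2 ^ w))[X][X]) X A).coeff i =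
      evB (w := w) (X : (ZMod (2 ^ w))[X]) (A.getD i []) := by
  induction A generalizing i with
  | nil => simp [evA, evB]
  | cons c A ih =>
    cases i with
    | zero => simp [evA, evB_C]
    | succ i => simp [evA, coeff_X_mul, ih, evB_C, coeff_C]

theorem natDegree_evA_lt (A : Arr) (m : ℕ) (hm : 0 < m) (h : A.length ≤ m) :
    (evA (w := w) (C (X : (ZMod (2 ^ w))[X]) : (ZMod (2 ^ w))[X][X]) X A).natDegree < m := by
  rw [Nat.lt_iff_le_pred hm, natDegree_le_iff_coeff_eq_zero]
  intro N hN
  rw [coeff_evA, List.getD_eq_default _ _ (by omega)]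
  simp [evB]

/-- zero padding -/
def padA (r : ℕ) : ℕ → Block → Arr
  | 0, _ => []
  | H + 1, B => (B.take r ++ zeroBl (B.take r)) :: padA r H (B.drop r)

theorem wf_padA (r H : ℕ) {B : Block} (h : WfB (H * r) w B) : WfA H (2 * r) w (padA r H B) := by
  induction H generalizing B with
  | zero => exact ⟨rfl, by simp [padA]⟩
  | succ H ih =>
    have h1 := h.take r (by rw [Nat.succ_mul]; omega)
    have h2 := h.drop r
    rw [show (H + 1) * r - r = H * r by rw [Nat.succ_mul]; omega] at h2
    obtain ⟨h3, h4⟩ := ih h2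
    refine ⟨by simp [padA, h3], ?_⟩
    intro z hz
    rcases List.mem_cons.1 hz with rfl | hz
    · have := h1.append h1.zero
      rwa [← two_mul] at this
    · exact h4 z hz

theorem padA_getD (r H : ℕ) {B : Block} (h : WfB (H * r) w B) (i : ℕ) :
    evB (w := w) (X : (ZMod (2 ^ w))[X]) ((padA r H B).getD i []) ∈
      degreeLT (ZMod (2 ^ w)) r := by
  induction H generalizing B i with
  | zero => simp [padA, evB]
  | succ H ih =>
    have h1 := h.take r (by rw [Nat.succ_mul]; omega)
    have h2 := h.drop r
    rw [show (H + 1) * r - r = H * r by rw [Nat.succ_mul]; omega] at h2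
    cases i with
    | zero =>
      simp only [padA, List.getD_cons_zero]
      rw [evB_append, evB_zero, mul_zero, add_zero]
      exact evB_mem_degreeLT _ _ (by rw [h1.1])
    | succ i => simpa [padA] using ih h2 i

theorem evA_padA {Q : Type} [CommRing Q] [Algebra (ZMod (2 ^ w)) Q] (x : Q) (r H : ℕ)
    {B : Block} (h : WfB (H * r) w B) :
    evA (w := w) x (x ^ r) (padA r H B) = evB (w := w) x B := by
  induction H generalizing B with
  | zero =>
    have : B = [] := by have := h.1; simpa using this
    subst this; simp [padA, evA, evB]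
  | succ H ih =>
    have h1 := h.take r (by rw [Nat.succ_mul]; omega)
    have h2 := h.drop r
    rw [show (H + 1) * r - r = H * r by rw [Nat.succ_mul]; omega] at h2
    simp only [padA, evA]
    rw [ih h2, evB_append, evB_zero, mul_zero, add_zero]
    conv_rhs => rw [← List.take_append_drop r B, evB_append, h1.1]

/-- lower and upper parts of the blocks -/
def loA (r : ℕ) (C : Arr) : Block := C.flatMap (List.take r)
def hiA (r : ℕ) (C : Arr) : Block := C.flatMap (List.drop r)

def unpad (r : ℕ) (C : Arr) : Block := addBl (loA r C) (rotF r (hiA r C))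

theorem wf_loA {r H : ℕ} {C : Arr} (h : WfA H (2 * r) w C) : WfB (H * r) w (loA r C) := by
  induction C generalizing H with
  | nil =>
    obtain ⟨h1, -⟩ := h
    simp only [List.length_nil] at h1
    subst h1
    exact ⟨by simp [loA], by simp [loA]⟩
  | cons B C ih =>
    obtain ⟨h1, h2⟩ := h
    simp only [List.length_cons] at h1
    subst h1
    have h3 := ih (H := C.length) ⟨rfl, fun x hx => h2 x (by simp [hx])⟩
    have h4 := (h2 B (by simp)).take r (by omega)
    have := h4.append h3
    rw [show r + C.length * r = (C.length + 1) * r by ring] at this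
    simpa [loA] using this

theorem wf_hiA {r H : ℕ} {C : Arr} (h : WfA H (2 * r) w C) : WfB (H * r) w (hiA r C) := by
  induction C generalizing H with
  | nil =>
    obtain ⟨h1, -⟩ := h
    simp only [List.length_nil] at h1
    subst h1
    exact ⟨by simp [hiA], by simp [hiA]⟩
  | cons B C ih =>
    obtain ⟨h1, h2⟩ := h
    simp only [List.length_cons] at h1
    subst h1
    have h3 := ih (H := C.length) ⟨rfl, fun x hx => h2 x (by simp [hx])⟩
    have h4 := (h2 B (by simp)).drop r
    rw [show 2 * r - r = r by omega] at h4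
    have := h4.append h3
    rw [show r + C.length * r = (C.length + 1) * r by ring] at this
    simpa [hiA] using this

theorem wf_unpad {r H : ℕ} {C : Arr} (h : WfA H (2 * r) w C) (hH : 0 < H) :
    WfB (H * r) w (unpad r C) :=
  (wf_loA h).add ((wf_hiA h).rotF r (Nat.le_mul_of_pos_left r hH))

theorem evA_lohi {Q : Type} [CommRing Q] [Algebra (ZMod (2 ^ w)) Q] (x : Q) {r H : ℕ}
    {C : Arr} (h : WfA H (2 * r) w C) :
    evA (w := w) x (x ^ r) C = evB (w := w) x (loA r C) + x ^ r * evB (w := w) x (hiA r C) := by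
  induction C generalizing H with
  | nil => simp [evA, loA, hiA, evB]
  | cons B C ih =>
    obtain ⟨h1, h2⟩ := h
    simp only [List.length_cons] at h1
    subst h1
    have h3 := ih (H := C.length) ⟨rfl, fun x hx => h2 x (by simp [hx])⟩
    have h4 := (h2 B (by simp)).take r (by omega)
    have h5 := (h2 B (by simp)).drop r
    rw [show 2 * r - r = r by omega] at h5
    have h6 : evB (w := w) x B = evB (w := w) x (B.take r) + x ^ r * evB (w := w) x (B.drop r) := by
      conv_lhs => rw [← List.take_append_drop r B, evB_append, h4.1]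
    simp only [evA, loA, hiA, List.flatMap_cons] at h3 ⊢
    rw [h3, evB_append, evB_append, h4.1, h5.1, h6]
    ring

theorem evB_unpad {Q : Type} [CommRing Q] [Algebra (ZMod (2 ^ w)) Q] (x : Q) {r H : ℕ}
    (hH : 0 < H) (hx : x ^ (H * r) = -1) {C : Arr} (h : WfA H (2 * r) w C) :
    evB (w := w) x (unpad r C) = evA (w := w) x (x ^ r) C := by
  have hle : r ≤ H * r := Nat.le_mul_of_pos_left r hH
  rw [unpad, evB_add x (wf_loA h) ((wf_hiA h).rotF r hle), evB_rotF x hx (wf_hiA h) r hle,
    evA_lohi x h]

/-- lifting the congruence -/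
theorem lift_cong {r m : ℕ} (hr : 0 < r) (hm : 0 < m) (s : ℕ) {a b : Block} {C' : Arr}
    (ha : WfB (m * r) w a) (hb : WfB (m * r) w b) (hC : WfA m (2 * r) w C')
    (hcong : ∀ (Q : Type) [CommRing Q] [Algebra (ZMod (2 ^ w)) Q] (x Y : Q), x ^ (2 * r) = -1 →
      ∃ u : Q, evA (w := w) x Y C' = s * (evA (w := w) x Y (padA r m a) *
        evA (w := w) x Y (padA r m b)) + u * (Y ^ m + 1))
    (Q : Type) [CommRing Q] [Algebra (ZMod (2 ^ w)) Q] (x : Q) (hx : x ^ (m * r) = -1) :
    evA (w := w) x (x ^ r) C' = s * (evB (w := w) x a * evB (w := w) x b) := by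
  classical
  rcases Nat.eq_zero_or_pos w with hw | hw
  · -- trivial ring
    subst hw
    haveI : Subsingleton (ZMod (2 ^ 0)) := by
      rw [pow_zero]; exact inferInstanceAs (Subsingleton (Fin 1))
    haveI : Subsingleton Q := by
      refine ⟨fun p q => ?_⟩
      have h10 : (1 : Q) = 0 := by
        have := congrArg (algebraMap (ZMod (2 ^ 0)) Q) (Subsingleton.elim (1 : ZMod (2 ^ 0)) 0)
        simpa using this
      rw [← one_mul p, ← one_mul q, h10, zero_mul, zero_mul]
    exact Subsingleton.elim _ _
  haveI : Fact (1 < 2 ^ w) := ⟨Nat.one_lt_two_pow hw.ne'⟩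
  haveI : Nontrivial (ZMod (2 ^ w)) := ZMod.nontrivial _
  let R := ZMod (2 ^ w)
  let x₀ : R[X][X] := C (X : R[X])
  let pa := evA (w := w) x₀ X (padA r m a)
  let pb := evA (w := w) x₀ X (padA r m b)
  let pc := evA (w := w) x₀ X C'
  let p := pa * pb
  let W : R[X][X] := ∑ i ∈ Finset.range m, monomial i (p.coeff i - p.coeff (m + i))
  let G : R[X][X] := ∑ i ∈ Finset.range m, monomial i (p.coeff (m + i))
  have hpa : pa.natDegree < m := natDegree_evA_lt _ m hm (by rw [(wf_padA r m ha).1])
  have hpb : pb.natDegree < m := natDegree_evA_lt _ m hm (by rw [(wf_padA r m hb).1])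
  have hpc : pc.natDegree < m := natDegree_evA_lt _ m hm (by rw [hC.1])
  have hp : p.natDegree < m + m := lt_of_le_of_lt natDegree_mul_le (by omega)
  have hpW : p = W + (X ^ m + 1) * G := by
    conv_lhs => rw [as_sum_range' p (m + m) hp, Finset.sum_range_add]
    simp only [W, G]
    rw [add_mul, one_mul, Finset.mul_sum, ← Finset.sum_add_distrib, ← Finset.sum_add_distrib,
      ← Finset.sum_add_distrib]
    refine Finset.sum_congr rfl fun i _ => ?_
    rw [X_pow_mul_monomial, map_sub, add_comm i m]
    ring
  have hcoef : ∀ i, p.coeff i ∈ degreeLT R (2 * r) := by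
    intro i
    rw [coeff_mul]
    refine Submodule.sum_mem _ fun ij _ => ?_
    have h1 : pa.coeff ij.1 ∈ degreeLT R r := by
      rw [coeff_evA]; exact padA_getD r m ha _
    have h2 : pb.coeff ij.2 ∈ degreeLT R r := by
      rw [coeff_evA]; exact padA_getD r m hb _
    rw [mem_degreeLT] at h1 h2 ⊢
    by_cases h10 : pa.coeff ij.1 = 0
    · rw [h10, zero_mul, degree_zero]; exact WithBot.bot_lt_coe _
    by_cases h20 : pb.coeff ij.2 = 0
    · rw [h20, mul_zero, degree_zero]; exact WithBot.bot_lt_coe _
    rw [← natDegree_lt_iff_degree_lt h10] at h1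
    rw [← natDegree_lt_iff_degree_lt h20] at h2
    refine lt_of_le_of_lt degree_le_natDegree ?_
    have : (pa.coeff ij.1 * pb.coeff ij.2).natDegree < 2 * r :=
      lt_of_le_of_lt natDegree_mul_le (by omega)
    exact_mod_cast this
  have hWdeg : W.natDegree < m := by
    rw [Nat.lt_iff_le_pred hm, natDegree_le_iff_coeff_eq_zero]
    intro N hN
    simp only [W, finsetSum_coeff, coeff_monomial]
    refine Finset.sum_eq_zero fun i hi => ?_
    rw [if_neg]
    have := Finset.mem_range.1 hi
    omega
  have hWcoef : ∀ i, W.coeff i ∈ degreeLT R (2 * r) := by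
    intro i
    simp only [W, finsetSum_coeff, coeff_monomial]
    refine Submodule.sum_mem _ fun j _ => ?_
    split_ifs
    · exact Submodule.sub_mem _ (hcoef _) (hcoef _)
    · exact Submodule.zero_mem _
  -- the main claim
  have hmain : pc = s * W := by
    let f : R[X] := X ^ (2 * r) + 1
    let φ : R[X] →ₐ[R] AdjoinRoot f := AdjoinRoot.mkₐ f
    let Φ : R[X][X] →ₐ[R] (AdjoinRoot f)[X] := mapAlgHom φ
    have hΦx : (Φ x₀) ^ (2 * r) = -1 := by
      have h1 : x₀ ^ (2 * r) + 1 = C f := by simp [x₀, f]
      have h2 : Φ (C f) = 0 := by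
        simp only [Φ, coe_mapAlgHom, map_C]
        have : φ f = 0 := AdjoinRoot.mk_self
        simp [this]
      rw [← h1, map_add, map_pow, map_one] at h2
      exact eq_neg_of_add_eq_zero_left h2
    obtain ⟨u, hu⟩ := hcong (AdjoinRoot f)[X] (Φ x₀) (Φ X) hΦx
    rw [← map_evA Φ, ← map_evA Φ, ← map_evA Φ, ← map_mul] at hu
    change Φ pc = s * Φ p + u * _ at hu
    have hΦX : Φ (X : R[X][X]) = X := by simp [Φ]
    rw [hpW, map_add, map_mul, map_add, map_pow, map_one, hΦX] at hu
    have hdvd : (X ^ m + 1 : (AdjoinRoot f)[X]) ∣ Φ pc - s * Φ W := by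
      refine ⟨s * Φ G + u, ?_⟩
      rw [hu]; ring
    have hmonic : (X ^ m + 1 : (AdjoinRoot f)[X]).Monic := by
      simpa using monic_X_pow_add_C (1 : AdjoinRoot f) hm.ne'
    have hfmonic : f.Monic := by
      simpa using monic_X_pow_add_C (1 : R) (n := 2 * r) (by omega)
    have hfdeg : f.natDegree = 2 * r := by
      simpa using natDegree_X_pow_add_C (n := 2 * r) (r := (1 : R))
    have hzero : Φ pc - s * Φ W = 0 := by
      rcases subsingleton_or_nontrivial (AdjoinRoot f) with hs | hs
      · exact Subsingleton.elim _ _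
      by_contra hne
      have h0 : (X ^ m + 1 : (AdjoinRoot f)[X]).natDegree = m := by
        simpa using natDegree_X_pow_add_C (n := m) (r := (1 : AdjoinRoot f))
      refine hmonic.not_dvd_of_natDegree_lt hne ?_ hdvd
      rw [h0]
      refine lt_of_le_of_lt (natDegree_sub_le _ _) ?_
      have h1 : (Φ pc).natDegree < m := lt_of_le_of_lt natDegree_map_le hpc
      have h2 : ((s : (AdjoinRoot f)[X]) * Φ W).natDegree < m := by
        refine lt_of_le_of_lt (natDegree_mul_le) ?_
        rw [natDegree_natCast, zero_add]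
        exact lt_of_le_of_lt natDegree_map_le hWdeg
      exact max_lt h1 h2
    have hzero' : Φ (pc - s * W) = 0 := by
      rw [map_sub, map_mul, map_natCast]; exact hzero
    rw [← sub_eq_zero]
    ext1 i
    rw [coeff_zero]
    have hi : φ ((pc - s * W).coeff i) = 0 := by
      have := congrArg (fun q => coeff q i) hzero'
      simpa [Φ, coeff_map] using this
    have hi2 : f ∣ (pc - s * W).coeff i := AdjoinRoot.mk_eq_zero.1 hi
    have hi3 : (pc - s * W).coeff i ∈ degreeLT R (2 * r) := by
      rw [coeff_sub]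
      refine Submodule.sub_mem _ ?_ ?_
      · rw [coeff_evA]
        refine evB_mem_degreeLT _ _ ?_
        rcases lt_or_ge i m with h | h
        · rw [List.getD_eq_getElem _ _ (by rw [hC.1]; exact h)]
          exact (hC.2 _ (List.getElem_mem _)).1.le
        · rw [List.getD_eq_default _ _ (by rw [hC.1]; exact h)]
          simp
      · rw [← nsmul_eq_mul, coeff_smul]
        exact Submodule.smul_of_tower_mem _ s (hWcoef i)
    by_contra hne
    refine hfmonic.not_dvd_of_natDegree_lt hne ?_ hi2
    rw [mem_degreeLT, ← natDegree_lt_iff_degree_lt hne] at hi3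
    rw [hfdeg]; exact hi3
  -- evaluation
  let ev : R[X][X] →+* Q := eval₂RingHom (aeval x).toRingHom (x ^ r)
  have hevx : ∀ A : Arr, ev (evA (w := w) x₀ X A) = evA (w := w) x (x ^ r) A := by
    intro A
    have hB : ∀ B : Block, ev (C (evB (w := w) (X : R[X]) B)) = evB (w := w) x B := by
      intro B
      simp only [ev, coe_eval₂RingHom, eval₂_C]
      exact (map_evB (aeval x) X B).trans (by simp)
    induction A with
    | nil => simp [evA]
    | cons B A ih =>
      simp only [evA, map_add, map_mul, ih]
      congr 1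
      · rw [evB_C]; exact hB B
      · congr 1; simp [ev]
  have h1 : ev pc = s * ev W := by rw [hmain, map_mul, map_natCast]
  have h2 : ev p = ev W := by
    rw [hpW, map_add, map_mul]
    have : ev (X ^ m + 1) = 0 := by
      simp only [ev, coe_eval₂RingHom, eval₂_add, eval₂_pow, eval₂_X, eval₂_one]
      rw [← pow_mul, mul_comm r m, hx, neg_add_cancel]
    rw [this, zero_mul, add_zero]
  rw [← h2] at h1
  rw [← evA_padA x r m ha, ← evA_padA x r m hb, ← hevx, ← hevx, ← hevx, ← map_mul]
  exact h1

end Pool.Agent.Helper62
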