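import Mathlib
import Pool.Agent.Helper62.Func3

set_option autoImplicit false
set_option linter.unusedSectionVars false

namespace Pool.Agent.Helper62

open Polynomial

variable {w : ℕ}

/-- product modulo `X^(2^k)+1`, scaled by `2^(EE k)` -/
def negaF : ℕ → Block → Block → Block
  | k => fun a b => if _h : k ≤ 2 then horner b a else
    unpad (2 ^ (k / 2)) (convF (negaF (k / 2 + 1)) (2 ^ (k / 2)) ((k + 1) / 2) (2 ^ (k / 2))
      (padA (2 ^ (k / 2)) (2 ^ ((k + 1) / 2)) a) (padA (2 ^ (k / 2)) (2 ^ ((k + 1) / 2)) b))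
  termination_by k => k
  decreasing_by omega

def EE : ℕ → ℕ
  | k => if _h : k ≤ 2 then 0 else (k + 1) / 2 + EE (k / 2 + 1)
  termination_by k => k
  decreasing_by omega

theorem negaF_base {k : ℕ} (h : k ≤ 2) (a b : Block) : negaF k a b = horner b a := by
  rw [negaF]; simp [h]

theorem negaF_step {k : ℕ} (h : 2 < k) (a b : Block) : negaF k a b =
    unpad (2 ^ (k / 2)) (convF (negaF (k / 2 + 1)) (2 ^ (k / 2)) ((k + 1) / 2) (2 ^ (k / 2))
      (padA (2 ^ (k / 2)) (2 ^ ((k + 1) / 2)) a) (padA (2 ^ (k / 2)) (2 ^ ((k + 1) / 2)) b)) := by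
  rw [negaF]; simp [not_le.2 h]

theorem EE_base {k : ℕ} (h : k ≤ 2) : EE k = 0 := by
  rw [EE]; simp [h]

theorem EE_step {k : ℕ} (h : 2 < k) : EE k = (k + 1) / 2 + EE (k / 2 + 1) := by
  rw [EE]; simp [not_le.2 h]

theorem two_pow_split (k : ℕ) : 2 ^ ((k + 1) / 2) * 2 ^ (k / 2) = 2 ^ k := by
  rw [← pow_add]; congr 1; omega

theorem wf_negaF (k : ℕ) : ∀ (a b : Block), WfB (2 ^ k) w a → WfB (2 ^ k) w b →
    WfB (2 ^ k) w (negaF k a b) := by
  induction k using Nat.strong_induction_on with
  | _ k ih =>
    intro a b ha hb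
    rcases Nat.lt_or_ge 2 k with hk | hk
    · rw [negaF_step hk]
      have ih' := ih (k / 2 + 1) (by omega)
      rw [pow_succ, mul_comm] at ih'
      rw [← two_pow_split k] at ha hb ⊢
      exact wf_unpad (wf_convF ih' _ _ (Or.inl (by
        have := Nat.pos_of_ne_zero (pow_ne_zero (k / 2) (two_ne_zero)); omega))
        (wf_padA _ _ ha) (wf_padA _ _ hb)) (by positivity)
    · rw [negaF_base hk]
      exact hb.horner Nat.one_le_two_pow a

theorem evB_negaF (k : ℕ) : ∀ (Q : Type) [CommRing Q] [Algebra (ZMod (2 ^ w)) Q] (x : Q),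
    x ^ (2 ^ k) = -1 → ∀ (a b : Block), WfB (2 ^ k) w a → WfB (2 ^ k) w b →
    evB (w := w) x (negaF k a b) = (2 ^ EE k : ℕ) * (evB (w := w) x a * evB (w := w) x b) := by
  induction k using Nat.strong_induction_on with
  | _ k ih =>
    intro Q _ _ x hx a b ha hb
    rcases Nat.lt_or_ge 2 k with hk | hk
    · rw [negaF_step hk, EE_step hk]
      have ih' := ih (k / 2 + 1) (by omega)
      have hwN := wf_negaF (w := w) (k / 2 + 1)
      have e2 : 2 ^ (k / 2 + 1) = 2 * 2 ^ (k / 2) := by rw [pow_succ, mul_comm]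
      rw [e2] at ih' hwN
      rw [← two_pow_split k] at ha hb hx
      have hpos : 0 < 2 ^ (k / 2) := by positivity
      have hpos' : 0 < 2 ^ ((k + 1) / 2) := by positivity
      have hwC := wf_convF hwN ((k + 1) / 2) (2 ^ (k / 2)) (Or.inl (by omega))
        (wf_padA _ _ ha) (wf_padA _ _ hb)
      rw [evB_unpad x hpos' hx hwC]
      have := lift_cong hpos hpos' (2 ^ ((k + 1) / 2) * 2 ^ EE (k / 2 + 1)) ha hb hwC
        (fun Q' _ _ x' Y' hx' => by
          obtain ⟨u, hu⟩ := evA_convF hwN x' hx'
            (fun a b ha hb => ih' Q' x' hx' a b ha hb) Y' ((k + 1) / 2) (2 ^ (k / 2))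
            (by omega) (by
              rw [← e2]; exact pow_dvd_pow 2 (by omega)) (by
              rw [show 4 * 2 ^ (k / 2) = 2 ^ (k / 2 + 2) by rw [pow_add]; ring]
              exact pow_dvd_pow 2 (by omega)) (wf_padA _ _ ha) (wf_padA _ _ hb)
            (-1) (fun _ => hx'.symm)
          exact ⟨u, by rw [hu]; push_cast; ring⟩) Q x hx
      rw [this]
      push_cast
      rw [pow_add]
    · rw [negaF_base hk, EE_base hk]
      rw [evB_horner x hx Nat.one_le_two_pow hb a]
      simp

theorem EE_le (k : ℕ) : EE k ≤ 2 * k := by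
  induction k using Nat.strong_induction_on with
  | _ k ih =>
    rcases Nat.lt_or_ge 2 k with hk | hk
    · rw [EE_step hk]
      rcases Nat.lt_or_ge 3 k with h3 | h3
      · have := ih (k / 2 + 1) (by omega)
        rcases Nat.lt_or_ge 4 k with h4 | h4
        · omega
        · have : k = 4 := by omega
          subst this
          rw [EE_step (by norm_num)]
          norm_num
          rw [EE_base (by norm_num)]
          norm_num
      · have : k = 3 := by omega
        subst this
        norm_num
        rw [EE_base (by norm_num)]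
        norm_num
    · rw [EE_base hk]; omega

/-! ### from polynomials to integers -/

/-- one coefficient for each bit -/
def expC (w : ℕ) (b : Bool) : Coef := b :: List.replicate (w - 1) false

/-- expanded and zero padded -/
def expB (w : ℕ) (a : List Bool) : Block := a.map (expC w) ++ zeroBl (a.map (expC w))

/-- `ℕ`-valued evaluation of a block at `2` -/
def natB : Block → ℕ
  | [] => 0
  | c :: B => val c + 2 * natB B

theorem val_replicate_false (n : ℕ) : val (List.replicate n false) = 0 := by
  induction n with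
  | zero => rfl
  | succ n ih => simp [List.replicate_succ, val, ih]

theorem val_expC (w : ℕ) (b : Bool) : val (expC w b) = b.toNat := by
  simp [expC, val, val_replicate_false]

theorem wf_expB {w : ℕ} (hw : 0 < w) (a : List Bool) : WfB (2 * a.length) w (expB w a) := by
  have h : WfB a.length w (a.map (expC w)) := by
    refine ⟨by simp, ?_⟩
    intro x hx
    obtain ⟨b, -, rfl⟩ := List.mem_map.1 hx
    simp [expC]; omega
  have := h.append h.zero
  rwa [← two_mul] at this

/-- polynomial over `ℕ` of a bit list -/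
noncomputable def polyN : List Bool → ℕ[X]
  | [] => 0
  | b :: a => C b.toNat + X * polyN a

theorem polyN_eval (a : List Bool) : (polyN a).eval 2 = val a := by
  induction a with
  | nil => simp [polyN, val]
  | cons b a ih => simp [polyN, val, ih]

theorem evB_expB {w : ℕ} (a : List Bool) :
    evB (w := w) (X : (ZMod (2 ^ w))[X]) (expB w a) =
      (polyN a).map (Nat.castRingHom (ZMod (2 ^ w))) := by
  rw [expB, evB_append, evB_zero, mul_zero, add_zero]
  induction a with
  | nil => simp [evB, polyN]
  | cons b a ih =>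
    simp only [List.map_cons, evB, polyN, Polynomial.map_add, Polynomial.map_mul, map_X, map_C, ih]
    congr 1
    simp [cv, val_expC]

theorem polyN_coeff_le (a : List Bool) (i : ℕ) : (polyN a).coeff i ≤ 1 := by
  induction a generalizing i with
  | nil => simp [polyN]
  | cons b a ih =>
    cases i with
    | zero => simp [polyN]; cases b <;> simp
    | succ i => simp [polyN, coeff_X_mul, coeff_C]; exact ih i

theorem polyN_natDegree (a : List Bool) (n : ℕ) (h : a.length ≤ n) : (polyN a).coeff n = 0 := by
  induction a generalizing n with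
  | nil => simp [polyN]
  | cons b a ih =>
    cases n with
    | zero => simp at h
    | succ n =>
      simp [polyN, coeff_X_mul, coeff_C]
      exact ih n (by simpa using h)

theorem polyN_mul_coeff_le (a b : List Bool) (i : ℕ) : (polyN a * polyN b).coeff i ≤ a.length := by
  rw [coeff_mul, Finset.Nat.sum_antidiagonal_eq_sum_range_succ
    (fun i j => (polyN a).coeff i * (polyN b).coeff j)]
  calc ∑ k ∈ Finset.range i.succ, (polyN a).coeff k * (polyN b).coeff (i - k)
      ≤ ∑ k ∈ Finset.range i.succ, if k < a.length then 1 else 0 := by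
        refine Finset.sum_le_sum fun k _ => ?_
        split_ifs with h
        · exact (Nat.mul_le_mul (polyN_coeff_le a k) (polyN_coeff_le b _)).trans (by norm_num)
        · rw [polyN_natDegree a k (not_lt.1 h), zero_mul]
    _ ≤ a.length := by
        rw [Finset.sum_ite, Finset.sum_const_zero, add_zero, Finset.sum_const, smul_eq_mul, mul_one]
        calc _ ≤ (Finset.range a.length).card := by
              refine Finset.card_le_card fun k hk => ?_
              simp only [Finset.mem_filter, Finset.mem_range] at hk ⊢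
              exact hk.2
          _ = a.length := Finset.card_range _

theorem polyN_mul_coeff_zero (a b : List Bool) (i : ℕ) (h : a.length + b.length ≤ i) :
    (polyN a * polyN b).coeff i = 0 := by
  rw [coeff_mul]
  refine Finset.sum_eq_zero fun ij hij => ?_
  have hij := Finset.HasAntidiagonal.mem_antidiagonal.1 hij
  rcases Nat.lt_or_ge ij.1 a.length with h1 | h1
  · rw [polyN_natDegree b ij.2 (by omega), mul_zero]
  · rw [polyN_natDegree a ij.1 h1, zero_mul]

theorem natB_eq_eval (B : Block) (P : ℕ[X]) (h : ∀ i, val (B.getD i []) = P.coeff i) :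
    natB B = P.eval 2 := by
  have h0 : ∀ i, B.length ≤ i → P.coeff i = 0 := by
    intro i hi
    rw [← h, List.getD_eq_default _ _ hi]; rfl
  have : P = ∑ i ∈ Finset.range B.length, monomial i (val (B.getD i [])) := by
    ext i
    simp only [finsetSum_coeff, coeff_monomial]
    rw [Finset.sum_ite_eq' ]
    split_ifs with h1
    · exact (h i).symm
    · exact h0 i (by simpa using h1)
  rw [this]
  clear this h0 h
  rw [eval_finsetSum]
  simp only [eval_monomial]
  induction B with
  | nil => simp [natB]
  | cons c B ih =>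
    rw [List.length_cons, Finset.sum_range_succ']
    simp only [natB, ih, List.getD_cons_zero, List.getD_cons_succ, pow_zero, mul_one]
    rw [add_comm, Finset.mul_sum]
    congr 1
    refine Finset.sum_congr rfl fun i _ => ?_
    rw [pow_succ]; ring

/-- The multiplication theorem: the block computed by `negaF` represents the scaled product. -/
theorem natB_negaF {κ w : ℕ} (hw : EE (κ + 1) + κ < w) (a b : List Bool)
    (ha : a.length = 2 ^ κ) (hb : b.length = 2 ^ κ) :
    natB (negaF (κ + 1) (expB w a) (expB w b)) = 2 ^ EE (κ + 1) * (val a * val b) ∧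
    ∀ c ∈ negaF (κ + 1) (expB w a) (expB w b), val c ≤ 2 ^ (EE (κ + 1) + κ) := by
  have hwa := wf_expB (w := w) (by omega) a
  have hwb := wf_expB (w := w) (by omega) b
  rw [ha, ← pow_succ'] at hwa
  rw [hb, ← pow_succ'] at hwb
  set D := negaF (κ + 1) (expB w a) (expB w b) with hD
  have hwD : WfB (2 ^ (κ + 1)) w D := wf_negaF _ _ _ hwa hwb
  let R := ZMod (2 ^ w)
  let f : R[X] := X ^ (2 ^ (κ + 1)) + 1
  have hpos : 2 ^ (κ + 1) ≠ 0 := by positivity
  have hfmonic : f.Monic := by simpa using monic_X_pow_add_C (1 : R) hpos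
  -- equality in the quotient ring
  have h1 : (AdjoinRoot.mk f) (evB (w := w) (X : R[X]) D) = AdjoinRoot.mk f
      ((2 ^ EE (κ + 1) : ℕ) * (evB (w := w) (X : R[X]) (expB w a) *
        evB (w := w) (X : R[X]) (expB w b))) := by
    have hx : (AdjoinRoot.mkₐ f X) ^ (2 ^ (κ + 1)) = (-1 : AdjoinRoot f) := by
      have h2 : AdjoinRoot.mkₐ f (X ^ (2 ^ (κ + 1)) + 1) = 0 := AdjoinRoot.mk_self
      rw [map_add, map_pow, map_one] at h2
      exact eq_neg_of_add_eq_zero_left h2
    have h3 := evB_negaF (w := w) (κ + 1) (AdjoinRoot f) (AdjoinRoot.mkₐ f X) hx _ _ hwa hwb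
    rw [← map_evB (AdjoinRoot.mkₐ f), ← map_evB (AdjoinRoot.mkₐ f),
      ← map_evB (AdjoinRoot.mkₐ f)] at h3
    rw [map_mul, map_mul, map_natCast]
    exact h3
  have hsm : (2 ^ EE (κ + 1) : ℕ) * (evB (w := w) (X : R[X]) (expB w a) *
        evB (w := w) (X : R[X]) (expB w b)) =
      ((2 ^ EE (κ + 1) : ℕ) • (polyN a * polyN b)).map (Nat.castRingHom R) := by
    simp only [R, evB_expB, nsmul_eq_mul, Polynomial.map_mul, Polynomial.map_natCast]
  rw [hsm] at h1
  set P : ℕ[X] := (2 ^ EE (κ + 1) : ℕ) • (polyN a * polyN b) with hP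
  have hPle : ∀ i, P.coeff i ≤ 2 ^ (EE (κ + 1) + κ) := by
    intro i
    rw [hP, coeff_smul, smul_eq_mul, pow_add]
    refine Nat.mul_le_mul le_rfl ?_
    rw [← ha]; exact polyN_mul_coeff_le a b i
  have hP0 : ∀ i, 2 ^ (κ + 1) ≤ i → P.coeff i = 0 := by
    intro i hi
    rw [hP, coeff_smul, polyN_mul_coeff_zero a b i (by
      rw [ha, hb, ← two_mul, ← pow_succ']; exact hi), smul_zero]
  have h2 : evB (w := w) (X : R[X]) D = P.map (Nat.castRingHom R) := by
    rw [← sub_eq_zero]
    by_contra hne
    have hdvd : f ∣ evB (w := w) (X : R[X]) D - P.map (Nat.castRingHom R) :=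
      AdjoinRoot.mk_eq_mk.1 h1
    have hdeg : evB (w := w) (X : R[X]) D - P.map (Nat.castRingHom R) ∈
        degreeLT R (2 ^ (κ + 1)) := by
      refine Submodule.sub_mem _ (evB_mem_degreeLT _ _ (by rw [hwD.1])) ?_
      rw [mem_degreeLT, degree_lt_iff_coeff_zero]
      intro m hm
      rw [coeff_map, hP0 m hm, map_zero]
    refine hfmonic.not_dvd_of_degree_lt hne ?_ hdvd
    rw [mem_degreeLT] at hdeg
    refine hdeg.trans_le ?_
    rcases subsingleton_or_nontrivial R with hs | hs
    · exfalso; exact hne (Subsingleton.elim _ _)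
    · rw [Polynomial.degree_eq_natDegree hfmonic.ne_zero]
      have : f.natDegree = 2 ^ (κ + 1) := by
        simpa using natDegree_X_pow_add_C (n := 2 ^ (κ + 1)) (r := (1 : R))
      rw [this]
  have h3 : ∀ i, val (D.getD i []) = P.coeff i := by
    intro i
    have h4 : cv w (D.getD i []) = ((P.coeff i : ℕ) : ZMod (2 ^ w)) := by
      rw [← coeff_evB, h2, coeff_map]; rfl
    rw [cv] at h4
    have hlt : val (D.getD i []) < 2 ^ w := by
      rcases lt_or_ge i D.length with h | h
      · rw [List.getD_eq_getElem _ _ h]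
        have := val_lt D[i]
        rwa [hwD.2 _ (List.getElem_mem _)] at this
      · rw [List.getD_eq_default _ _ h]; simp [val]
    have hlt2 : P.coeff i < 2 ^ w :=
      (hPle i).trans_lt (Nat.pow_lt_pow_right (by norm_num) (by omega))
    have h5 := (ZMod.natCast_eq_natCast_iff' _ _ _).1 h4
    rwa [Nat.mod_eq_of_lt hlt, Nat.mod_eq_of_lt hlt2] at h5
  refine ⟨?_, ?_⟩
  · rw [natB_eq_eval D P h3, hP, eval_smul, eval_mul, polyN_eval, polyN_eval, smul_eq_mul]
  · intro c hc
    obtain ⟨i, hi, rfl⟩ := List.getElem_of_mem hc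
    have := h3 i
    rw [List.getD_eq_getElem _ _ hi] at this
    rw [this]; exact hPle i

end Pool.Agent.Helper62
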