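import Mathlib
import Pool.Agent.Helper62.Func4

set_option autoImplicit false
set_option linter.unusedSectionVars false

namespace Pool.Agent.Helper62

/-- carry release: the bits of `val t + Σ val c_i 2^i`. -/
def release : Coef → Block → List Bool
  | _, [] => []
  | t, c :: B => (addB false t c).headD false ::
      release ((addB false t c).tail ++ [false]) B

theorem release_length (t : Coef) (B : Block) : (release t B).length = B.length := by
  induction B generalizing t with
  | nil => rfl
  | cons c B ih => simp [release, ih]

theorem val_append (x y : Coef) : val (x ++ y) = val x + 2 ^ x.length * val y := by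
  induction x with
  | nil => simp [val]
  | cons a x ih => simp [val, ih, pow_succ]; ring

theorem val_drop (x : Coef) (n : ℕ) : val (x.drop n) = val x / 2 ^ n := by
  induction n generalizing x with
  | zero => simp
  | succ n ih =>
    cases x with
    | nil => simp [val]
    | cons a x =>
      simp only [List.drop_succ_cons, ih, val, pow_succ]
      rw [mul_comm (2 ^ n) 2, ← Nat.div_div_eq_div_mul]
      congr 1
      cases a <;> simp <;> omega

theorem val_take (x : Coef) (n : ℕ) : val (x.take n) = val x % 2 ^ n := by
  induction n generalizing x with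
  | zero => simp [val, Nat.mod_one]
  | succ n ih =>
    cases x with
    | nil => simp [val]
    | cons a x =>
      simp only [List.take_succ_cons, ih, val, pow_succ]
      rw [mul_comm (2 ^ n) 2, Nat.mod_mul]
      have e1 : (a.toNat + 2 * val x) / 2 = val x := by cases a <;> simp <;> omega
      have e2 : (a.toNat + 2 * val x) % 2 = a.toNat := by cases a <;> simp <;> omega
      rw [e1, e2]

theorem val_release {w M : ℕ} (hw : 0 < w) (hM : M + M < 2 ^ w) (t : Coef) (B : Block)
    (ht : t.length = w) (htM : val t ≤ M) (hB : ∀ c ∈ B, c.length = w)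
    (hBM : ∀ c ∈ B, val c ≤ M) :
    val (release t B) = (val t + natB B) % 2 ^ B.length := by
  induction B generalizing t with
  | nil => simp [release, val, natB, Nat.mod_one]
  | cons c B ih =>
    have hc := hB c (by simp)
    have hcM := hBM c (by simp)
    obtain ⟨q, hq⟩ := val_addB false t c (by rw [ht, hc])
    have hlen : (addB false t c).length = w := by rw [addB_length _ _ _ (by rw [ht, hc]), ht]
    have hlt := val_lt (addB false t c)
    rw [hlen] at hlt
    rw [ht] at hq
    simp only [Bool.toNat_false, add_zero] at hq
    have hq0 : q = 0 := by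
      rcases Nat.eq_zero_or_pos q with h | h
      · exact h
      · exfalso
        have : 2 ^ w ≤ 2 ^ w * q := Nat.le_mul_of_pos_right _ h
        omega
    subst hq0
    rw [mul_zero, add_zero] at hq
    obtain ⟨s, l, hsl⟩ : ∃ s l, addB false t c = s :: l := by
      cases h : addB false t c with
      | nil => rw [h] at hlen; simp at hlen; omega
      | cons s l => exact ⟨s, l, rfl⟩
    rw [hsl] at hq hlen hlt
    simp only [release, hsl, List.headD_cons, List.tail_cons]
    have hl : (l ++ [false]).length = w := by simpa using hlen
    have hval : val (l ++ [false]) = val l := by simp [val_append, val]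
    simp only [val] at hq
    have := ih (l ++ [false]) hl (by rw [hval]; omega) (fun c hc => hB c (by simp [hc]))
      (fun c hc => hBM c (by simp [hc]))
    simp only [val, this, natB, hval, List.length_cons]
    rw [pow_succ, mul_comm (2 ^ B.length) 2, Nat.mod_mul]
    have e : val t + (val c + 2 * natB B) = s.toNat + 2 * (val l + natB B) := by omega
    rw [e]
    have e1 : (s.toNat + 2 * (val l + natB B)) / 2 = val l + natB B := by
      cases s <;> simp <;> omega
    have e2 : (s.toNat + 2 * (val l + natB B)) % 2 = s.toNat := by
      cases s <;> simp <;> omega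
    rw [e1, e2]

/-- the product of two bit lists as computed by the machine -/
def mulF (κ w : ℕ) (a b : List Bool) : List Bool :=
  (release (List.replicate w false) (negaF (κ + 1) (expB w a) (expB w b))).drop (EE (κ + 1))

theorem mulF_length {κ w : ℕ} (hw : 0 < w) (a b : List Bool)
    (ha : a.length = 2 ^ κ) (hb : b.length = 2 ^ κ) :
    (mulF κ w a b).length = 2 ^ (κ + 1) - EE (κ + 1) := by
  have hwa := wf_expB (w := w) hw a
  have hwb := wf_expB (w := w) hw b
  rw [ha, ← pow_succ'] at hwa
  rw [hb, ← pow_succ'] at hwb
  rw [mulF, List.length_drop, release_length, (wf_negaF _ _ _ hwa hwb).1]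

theorem val_mulF {κ w : ℕ} (hw : EE (κ + 1) + κ + 1 < w) (a b : List Bool)
    (ha : a.length = 2 ^ κ) (hb : b.length = 2 ^ κ) (hE : EE (κ + 1) ≤ 2 ^ (κ + 1)) :
    val (mulF κ w a b) = (val a * val b) % 2 ^ (2 ^ (κ + 1) - EE (κ + 1)) := by
  have hwa := wf_expB (w := w) (by omega) a
  have hwb := wf_expB (w := w) (by omega) b
  rw [ha, ← pow_succ'] at hwa
  rw [hb, ← pow_succ'] at hwb
  have hwD := wf_negaF (w := w) _ _ _ hwa hwb
  obtain ⟨h1, h2⟩ := natB_negaF (κ := κ) (w := w) (by omega) a b ha hb
  rw [mulF, val_drop, val_release (w := w) (M := 2 ^ (EE (κ + 1) + κ)) (by omega) (by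
    rw [← two_mul, ← pow_succ']; exact Nat.pow_lt_pow_right (by norm_num) (by omega)) _ _ (by simp)
    (by rw [val_replicate_false]; positivity) hwD.2 h2, val_replicate_false, zero_add, h1, hwD.1]
  set N := 2 ^ (κ + 1)
  set e := EE (κ + 1)
  conv_lhs => rw [show N = e + (N - e) by omega]
  rw [pow_add 2 e, Nat.mul_mod_mul_left, Nat.mul_div_cancel_left _ (by positivity)]

end Pool.Agent.Helper62
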