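import Mathlib
import Pool.Agent.Helper62.Basic
import Pool.Agent.Helper62.Func2

/-!
Encodings of coefficients, blocks and arrays by symbol lists and the effect of the basic
transducers on them.
-/

set_option autoImplicit false
set_option linter.unusedSectionVars false

namespace Pool.Agent.Helper62

/-! ### encodings -/

def encC (x : Coef) : List Sym := x.map bit ++ [.c]
def flat (B : Block) : List Sym := B.flatMap encC
def body (A : Arr) : List Sym := A.flatMap fun B => flat B ++ [.d]

theorem flat_nil : flat [] = [] := rfl
theorem flat_cons (x : Coef) (B : Block) : flat (x :: B) = x.map bit ++ .c :: flat B := by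
  simp [flat, encC]
theorem flat_append (B B' : Block) : flat (B ++ B') = flat B ++ flat B' := by
  simp [flat]
theorem body_nil : body [] = [] := rfl
theorem body_cons (B : Block) (A : Arr) : body (B :: A) = flat B ++ .d :: body A := by
  simp [body]
theorem body_append (A A' : Arr) : body (A ++ A') = body A ++ body A' := by
  simp [body]

theorem flat_length {K w : ℕ} {B : Block} (h : WfB K w B) : (flat B).length = K * (w + 1) := by
  obtain ⟨rfl, h⟩ := h
  induction B with
  | nil => simp [flat]
  | cons x B ih =>
    rw [flat_cons, List.length_append, List.length_cons, ih fun x hx => h x (by simp [hx]),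
      List.length_map, h x (by simp), List.length_cons]
    ring

theorem body_length {H K w : ℕ} {A : Arr} (h : WfA H K w A) :
    (body A).length = H * (K * (w + 1) + 1) := by
  obtain ⟨rfl, h⟩ := h
  induction A with
  | nil => simp [body]
  | cons x A ih =>
    rw [body_cons, List.length_append, List.length_cons, ih fun x hx => h x (by simp [hx]),
      flat_length (h x (by simp)), List.length_cons]
    ring

theorem bit_isC (b : Bool) : isC (bit b) = false := by cases b <;> rfl
theorem bit_isD (b : Bool) : isD (bit b) = false := by cases b <;> rfl
theorem bit_isE (b : Bool) : isE (bit b) = false := by cases b <;> rfl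

theorem bits_isC (x : Coef) : ∀ s ∈ x.map bit, isC s = false := by
  intro s hs; obtain ⟨b, -, rfl⟩ := List.mem_map.1 hs; exact bit_isC b
theorem bits_isD (x : Coef) : ∀ s ∈ x.map bit, isD s = false := by
  intro s hs; obtain ⟨b, -, rfl⟩ := List.mem_map.1 hs; exact bit_isD b
theorem bits_isE (x : Coef) : ∀ s ∈ x.map bit, isE s = false := by
  intro s hs; obtain ⟨b, -, rfl⟩ := List.mem_map.1 hs; exact bit_isE b

theorem flat_isD (B : Block) : ∀ s ∈ flat B, isD s = false := by
  intro s hs
  simp only [flat, List.mem_flatMap, encC, List.mem_append, List.mem_singleton] at hs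
  obtain ⟨x, -, h | rfl⟩ := hs
  · exact bits_isD x s h
  · rfl

theorem flat_isE (B : Block) : ∀ s ∈ flat B, isE s = false := by
  intro s hs
  simp only [flat, List.mem_flatMap, encC, List.mem_append, List.mem_singleton] at hs
  obtain ⟨x, -, h | rfl⟩ := hs
  · exact bits_isE x s h
  · rfl

theorem body_isE (A : Arr) : ∀ s ∈ body A, isE s = false := by
  intro s hs
  simp only [body, List.mem_flatMap, List.mem_append, List.mem_singleton] at hs
  obtain ⟨x, -, h | rfl⟩ := hs
  · exact flat_isE x s h
  · rfl

/-! ### transducers -/

theorem outs_append_bits (f : Bool → Sym → Bool) (g : Bool → Sym → Option Sym) (a : Bool)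
    (l l' : List Sym) :
    outs f g a (l ++ l') = outs f g a l ++ outs f g (l.foldl f a) l' := by
  induction l generalizing a with
  | nil => rfl
  | cons s l ih => simp [outs, ih]

theorem outs_none (f : Bool → Sym → Bool) (a : Bool) (l : List Sym) :
    outs f (fun _ _ => none) a l = [] := by
  induction l generalizing a with
  | nil => rfl
  | cons s l ih => simp [outs, ih]

def gCopy : Bool → Sym → Option Sym := fun _ s => some s
def fId : Bool → Sym → Bool := fun a _ => a

theorem outs_copy (f : Bool → Sym → Bool) (a : Bool) (l : List Sym) :
    outs f gCopy a l = l := by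
  induction l generalizing a with
  | nil => rfl
  | cons s l ih => simp [outs, gCopy, ih]

/-- a transducer implementing a map on coefficients -/
structure CoefTr (f : Bool → Sym → Bool) (g : Bool → Sym → Option Sym) (φ : Coef → Coef) :
    Prop where
  coef : ∀ (x : Coef) (rest : List Sym), outs f g false (x.map bit ++ .c :: rest) =
    (φ x).map bit ++ .c :: outs f g false rest
  dd : ∀ rest, outs f g false (.d :: rest) = .d :: outs f g false rest

section
variable {f : Bool → Sym → Bool} {g : Bool → Sym → Option Sym} {φ : Coef → Coef}

theorem CoefTr.flat_append (h : CoefTr f g φ) (B : Block) (rest : List Sym) :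
    outs f g false (flat B ++ rest) = flat (B.map φ) ++ outs f g false rest := by
  induction B with
  | nil => simp [flat]
  | cons x B ih =>
    rw [flat_cons, List.append_assoc, List.cons_append, h.coef, ih, List.map_cons, flat_cons,
      List.append_assoc, List.cons_append]

theorem CoefTr.flat (h : CoefTr f g φ) (B : Block) :
    outs f g false (flat B) = Pool.Agent.Helper62.flat (B.map φ) := by
  have := h.flat_append B []
  simpa [outs] using this

theorem CoefTr.body (h : CoefTr f g φ) (A : Arr) :
    outs f g false (body A) = Pool.Agent.Helper62.body (A.map (List.map φ)) := by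
  induction A with
  | nil => rfl
  | cons B A ih =>
    rw [body_cons, h.flat_append, h.dd, ih, List.map_cons, body_cons]

end

def fNeg : Bool → Sym → Bool
  | _, .i => true
  | s, .o => s
  | _, _ => false

def gNeg : Bool → Sym → Option Sym
  | false, .i => some .i
  | true, .i => some .o
  | false, .o => some .o
  | true, .o => some .i
  | _, s => some s

theorem coefTr_neg : CoefTr fNeg gNeg (negB false) where
  coef x rest := by
    suffices h : ∀ s, outs fNeg gNeg s (x.map bit ++ .c :: rest) =
        (negB s x).map bit ++ .c :: outs fNeg gNeg false rest from h false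
    induction x with
    | nil => intro s; cases s <;> simp [outs, gNeg, fNeg, negB]
    | cons b x ih =>
      intro s
      cases s <;> cases b <;> simp [outs, gNeg, fNeg, negB, bit, ih]
  dd rest := by simp [outs, gNeg, fNeg]

def gZero : Bool → Sym → Option Sym
  | _, .i => some .o
  | _, s => some s

theorem coefTr_zero : CoefTr fId gZero zeroB where
  coef x rest := by
    induction x with
    | nil => simp [outs, gZero, fId, zeroB]
    | cons b x ih =>
      cases b <;> simp [outs, gZero, fId, zeroB, bit] at ih ⊢ <;> exact ih
  dd rest := by simp [outs, gZero, fId]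

def fDbl : Bool → Sym → Bool
  | _, .i => true
  | _, _ => false

def gDbl : Bool → Sym → Option Sym
  | p, .i => some (bit p)
  | p, .o => some (bit p)
  | _, s => some s

theorem coefTr_dbl : CoefTr fDbl gDbl (dblB false) where
  coef x rest := by
    suffices h : ∀ s, outs fDbl gDbl s (x.map bit ++ .c :: rest) =
        (dblB s x).map bit ++ .c :: outs fDbl gDbl false rest from h false
    induction x with
    | nil => intro s; cases s <;> simp [outs, gDbl, fDbl, dblB]
    | cons b x ih =>
      intro s
      cases s <;> cases b <;> simp [outs, gDbl, fDbl, dblB, bit, ih]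
  dd rest := by simp [outs, gDbl, fDbl]

/-! addition and subtraction -/

def symB : Sym → Bool
  | .i => true
  | _ => false

theorem symB_bit (b : Bool) : symB (bit b) = b := by cases b <;> rfl

def isBit : Sym → Bool
  | .o => true
  | .i => true
  | _ => false

def fAS : Bool × Bool → Sym → Sym → Bool × Bool := fun a x y =>
  if isBit x then (maj a.1 (symB x) (symB y), maj a.2 (symB x) (!symB y)) else (false, true)

def gAdd : Bool × Bool → Sym → Sym → Option Sym := fun a x y =>
  if isBit x then some (bit (xor3 a.1 (symB x) (symB y))) else some x

def gSub : Bool × Bool → Sym → Sym → Option Sym := fun a x y =>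
  if isBit x then some (bit (xor3 a.2 (symB x) (!symB y))) else some x

def gSnd : Bool × Bool → Sym → Sym → Option Sym := fun _ _ y => some y

theorem isBit_bit (b : Bool) : isBit (bit b) = true := by cases b <;> rfl

theorem zouts_add_coef (a : Bool × Bool) (x y : Coef) (h : x.length = y.length)
    (rest rest' : List Sym) :
    zouts fAS gAdd a (x.map bit ++ .c :: rest) (y.map bit ++ .c :: rest') =
      (addB a.1 x y).map bit ++ .c :: zouts fAS gAdd (false, true) rest rest' := by
  induction x generalizing a y with
  | nil =>
    obtain rfl : y = [] := by simpa using h.symm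
    simp [zouts, gAdd, fAS, addB, isBit]
  | cons b x ih =>
    cases y with
    | nil => simp at h
    | cons b' y =>
      simp only [List.map_cons, List.cons_append, zouts, gAdd, isBit_bit, if_true, symB_bit,
        Option.toList_some, addB]
      rw [ih _ y (by simpa using h)]
      simp [fAS, isBit_bit, symB_bit]

theorem zouts_sub_coef (a : Bool × Bool) (x y : Coef) (h : x.length = y.length)
    (rest rest' : List Sym) :
    zouts fAS gSub a (x.map bit ++ .c :: rest) (y.map bit ++ .c :: rest') =
      (addB a.2 x (y.map not)).map bit ++ .c :: zouts fAS gSub (false, true) rest rest' := by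
  induction x generalizing a y with
  | nil =>
    obtain rfl : y = [] := by simpa using h.symm
    simp [zouts, gSub, fAS, addB, isBit]
  | cons b x ih =>
    cases y with
    | nil => simp at h
    | cons b' y =>
      simp only [List.map_cons, List.cons_append, zouts, gSub, isBit_bit, if_true, symB_bit,
        Option.toList_some, addB]
      rw [ih _ y (by simpa using h)]
      simp [fAS, isBit_bit, symB_bit]

theorem zouts_snd (f : Bool × Bool → Sym → Sym → Bool × Bool) (a : Bool × Bool)
    (l l' : List Sym) (h : l.length = l'.length) : zouts f gSnd a l l' = l' := by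
  induction l generalizing a l' with
  | nil =>
    obtain rfl : l' = [] := by simpa using h.symm
    rfl
  | cons s l ih =>
    cases l' with
    | nil => simp at h
    | cons s' l' => simp [zouts, gSnd, ih _ l' (by simpa using h)]

section
variable {w : ℕ}

theorem zouts_add_flat {K : ℕ} {B B' : Block} (h : WfB K w B) (h' : WfB K w B')
    (rest rest' : List Sym) :
    zouts fAS gAdd (false, true) (flat B ++ rest) (flat B' ++ rest') =
      flat (addBl B B') ++ zouts fAS gAdd (false, true) rest rest' := by
  induction B generalizing K B' with
  | nil =>
    obtain rfl : B' = [] := by have := h'.1; rw [← h.1] at this; simpa using this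
    simp [flat, addBl]
  | cons x B ih =>
    cases B' with
    | nil => have := h'.1; rw [← h.1] at this; simp at this
    | cons x' B' =>
      obtain ⟨hK, hB⟩ := h
      obtain ⟨hK', hB'⟩ := h'
      rw [flat_cons, flat_cons, List.append_assoc, List.cons_append, List.append_assoc,
        List.cons_append, zouts_add_coef _ _ _ (by rw [hB x (by simp), hB' x' (by simp)]),
        ih (K := B.length) (B' := B') ⟨rfl, fun x hx => hB x (by simp [hx])⟩
        ⟨by simp at hK hK'; omega, fun x hx => hB' x (by simp [hx])⟩]
      simp [addBl, flat_cons]

theorem zouts_sub_flat {K : ℕ} {B B' : Block} (h : WfB K w B) (h' : WfB K w B')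
    (rest rest' : List Sym) :
    zouts fAS gSub (false, true) (flat B ++ rest) (flat B' ++ rest') =
      flat (subBl B B') ++ zouts fAS gSub (false, true) rest rest' := by
  induction B generalizing K B' with
  | nil =>
    obtain rfl : B' = [] := by have := h'.1; rw [← h.1] at this; simpa using this
    simp [flat, subBl]
  | cons x B ih =>
    cases B' with
    | nil => have := h'.1; rw [← h.1] at this; simp at this
    | cons x' B' =>
      obtain ⟨hK, hB⟩ := h
      obtain ⟨hK', hB'⟩ := h'
      rw [flat_cons, flat_cons, List.append_assoc, List.cons_append, List.append_assoc,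
        List.cons_append, zouts_sub_coef _ _ _ (by rw [hB x (by simp), hB' x' (by simp)]),
        ih (K := B.length) (B' := B') ⟨rfl, fun x hx => hB x (by simp [hx])⟩
        ⟨by simp at hK hK'; omega, fun x hx => hB' x (by simp [hx])⟩]
      simp [subBl, subB, flat_cons]

theorem zouts_add_body {H K : ℕ} {A A' : Arr} (h : WfA H K w A) (h' : WfA H K w A') :
    zouts fAS gAdd (false, true) (body A) (body A') = body (addA A A') := by
  induction A generalizing H A' with
  | nil =>
    obtain rfl : A' = [] := by have := h'.1; rw [← h.1] at this; simpa using this
    rfl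
  | cons x A ih =>
    cases A' with
    | nil => have := h'.1; rw [← h.1] at this; simp at this
    | cons x' A' =>
      obtain ⟨hK, hB⟩ := h
      obtain ⟨hK', hB'⟩ := h'
      rw [body_cons, body_cons, zouts_add_flat (hB x (by simp)) (hB' x' (by simp))]
      have := ih (H := A.length) (A' := A') ⟨rfl, fun x hx => hB x (by simp [hx])⟩
        ⟨by simp at hK hK'; omega, fun x hx => hB' x (by simp [hx])⟩
      simp only [zouts, gAdd, fAS, isBit, Bool.false_eq_true, if_false, this]
      simp [addA, body_cons]

theorem zouts_sub_body {H K : ℕ} {A A' : Arr} (h : WfA H K w A) (h' : WfA H K w A') :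
    zouts fAS gSub (false, true) (body A) (body A') = body (subA A A') := by
  induction A generalizing H A' with
  | nil =>
    obtain rfl : A' = [] := by have := h'.1; rw [← h.1] at this; simpa using this
    rfl
  | cons x A ih =>
    cases A' with
    | nil => have := h'.1; rw [← h.1] at this; simp at this
    | cons x' A' =>
      obtain ⟨hK, hB⟩ := h
      obtain ⟨hK', hB'⟩ := h'
      rw [body_cons, body_cons, zouts_sub_flat (hB x (by simp)) (hB' x' (by simp))]
      have := ih (H := A.length) (A' := A') ⟨rfl, fun x hx => hB x (by simp [hx])⟩
        ⟨by simp at hK hK'; omega, fun x hx => hB' x (by simp [hx])⟩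
      simp only [zouts, gSub, fAS, isBit, Bool.false_eq_true, if_false, this]
      simp [subA, body_cons]

end

/-! selection by masks -/

def selO : List Sym → Block → Block
  | .o :: mk, x :: B => x :: selO mk B
  | _ :: mk, _ :: B => selO mk B
  | _, _ => []

def selI : List Sym → Block → Block
  | .o :: mk, _ :: B => selI mk B
  | _ :: mk, x :: B => x :: selI mk B
  | _, _ => []

/-- mask with `e` trailing marks among `n` -/
def mask (n e : ℕ) : List Sym := List.replicate (n - e) .o ++ List.replicate e .i

theorem selO_replicate_o (n : ℕ) (mk : List Sym) (B : Block) (h : n ≤ B.length) :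
    selO (List.replicate n .o ++ mk) B = B.take n ++ selO mk (B.drop n) := by
  induction n generalizing B with
  | zero => simp
  | succ n ih =>
    cases B with
    | nil => simp at h
    | cons x B => simp [List.replicate_succ, selO, ih B (by simpa using h)]

theorem selI_replicate_o (n : ℕ) (mk : List Sym) (B : Block) (h : n ≤ B.length) :
    selI (List.replicate n .o ++ mk) B = selI mk (B.drop n) := by
  induction n generalizing B with
  | zero => simp
  | succ n ih =>
    cases B with
    | nil => simp at h
    | cons x B => simp [List.replicate_succ, selI, ih B (by simpa using h)]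

theorem selO_replicate_i (n : ℕ) (mk : List Sym) (B : Block) (h : n ≤ B.length) :
    selO (List.replicate n .i ++ mk) B = selO mk (B.drop n) := by
  induction n generalizing B with
  | zero => simp
  | succ n ih =>
    cases B with
    | nil => simp at h
    | cons x B => simp [List.replicate_succ, selO, ih B (by simpa using h)]

theorem selI_replicate_i (n : ℕ) (mk : List Sym) (B : Block) (h : n ≤ B.length) :
    selI (List.replicate n .i ++ mk) B = B.take n ++ selI mk (B.drop n) := by
  induction n generalizing B with
  | zero => simp
  | succ n ih =>
    cases B with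
    | nil => simp at h
    | cons x B => simp [List.replicate_succ, selI, ih B (by simpa using h)]

theorem selO_nil (mk : List Sym) : selO mk [] = [] := by
  cases mk with
  | nil => rfl
  | cons s mk => cases s <;> rfl
theorem selI_nil (mk : List Sym) : selI mk [] = [] := by
  cases mk with
  | nil => rfl
  | cons s mk => cases s <;> rfl

theorem sel_mask {n e : ℕ} {B : Block} (h : B.length = n) (he : e ≤ n) :
    selO (mask n e) B = B.take (n - e) ∧ selI (mask n e) B = B.drop (n - e) := by
  constructor
  · rw [mask, selO_replicate_o _ _ _ (by omega),
      ← List.append_nil (List.replicate e Sym.i), selO_replicate_i _ _ _ (by simp; omega)]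
    simp [selO]
  · rw [mask, selI_replicate_o _ _ _ (by omega),
      ← List.append_nil (List.replicate e Sym.i), selI_replicate_i _ _ _ (by simp; omega)]
    simp only [selI, List.append_nil]
    rw [List.take_of_length_le (by simp; omega)]

theorem sel_mask_rev {n e : ℕ} {B : Block} (h : B.length = n) (he : e ≤ n) :
    selI (mask n e).reverse B = B.take e ∧ selO (mask n e).reverse B = B.drop e := by
  have hr : (mask n e).reverse = List.replicate e Sym.i ++ List.replicate (n - e) Sym.o := by
    simp [mask]
  rw [hr]
  constructor
  · rw [selI_replicate_i _ _ _ (by omega),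
      ← List.append_nil (List.replicate (n - e) Sym.o), selI_replicate_o _ _ _ (by simp; omega)]
    simp [selI]
  · rw [selO_replicate_i _ _ _ (by omega),
      ← List.append_nil (List.replicate (n - e) Sym.o), selO_replicate_o _ _ _ (by simp; omega)]
    simp only [selO, List.append_nil]
    rw [List.take_of_length_le (by simp; omega)]

theorem mask_length {n e : ℕ} (he : e ≤ n) : (mask n e).length = n := by
  simp [mask]; omega

theorem mask_isC (n e : ℕ) : ∀ s ∈ mask n e, isC s = false := by
  intro s hs
  simp only [mask, List.mem_append, List.mem_replicate] at hs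
  rcases hs with ⟨-, rfl⟩ | ⟨-, rfl⟩ <;> rfl

theorem mask_oi (n e : ℕ) : ∀ s ∈ mask n e, s = .o ∨ s = .i := by
  intro s hs
  simp only [mask, List.mem_append, List.mem_replicate] at hs
  rcases hs with ⟨-, rfl⟩ | ⟨-, rfl⟩ <;> simp

end Pool.Agent.Helper62
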