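import Mathlib
import Pool.Agent.Helper62.Enc

/-!
The stacks of the multiplication procedures as a record.
-/

set_option autoImplicit false
set_option linter.unusedSectionVars false

namespace Pool.Agent.Helper62

/-- stack names; `o k` are the stacks which are not used by the multiplication procedures -/
inductive WW (O : Type) where
  | pa
  | pb
  | pc
  | sh
  | sm
  | sk
  | sw
  | se
  | t1
  | t2
  | t3
  | t4
  | t5
  | t6
  | t7
  | t8
  | o (k : O)
  deriving DecidableEq

/-- contents of the stacks -/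
structure Mem (O : Type) where
  pa : List Sym
  pb : List Sym
  pc : List Sym
  sh : List Sym
  sm : List Sym
  sk : List Sym
  sw : List Sym
  se : List Sym
  t1 : List Sym
  t2 : List Sym
  t3 : List Sym
  t4 : List Sym
  t5 : List Sym
  t6 : List Sym
  t7 : List Sym
  t8 : List Sym
  o : O → List Sym

variable {O : Type}

def Mem.get (m : Mem O) : WW O → List Sym
  | .pa => m.pa
  | .pb => m.pb
  | .pc => m.pc
  | .sh => m.sh
  | .sm => m.sm
  | .sk => m.sk
  | .sw => m.sw
  | .se => m.se
  | .t1 => m.t1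
  | .t2 => m.t2
  | .t3 => m.t3
  | .t4 => m.t4
  | .t5 => m.t5
  | .t6 => m.t6
  | .t7 => m.t7
  | .t8 => m.t8
  | .o k => m.o k

variable [DecidableEq O]

def Mem.set (m : Mem O) : WW O → List Sym → Mem O
  | .pa, l => { m with pa := l }
  | .pb, l => { m with pb := l }
  | .pc, l => { m with pc := l }
  | .sh, l => { m with sh := l }
  | .sm, l => { m with sm := l }
  | .sk, l => { m with sk := l }
  | .sw, l => { m with sw := l }
  | .se, l => { m with se := l }
  | .t1, l => { m with t1 := l }
  | .t2, l => { m with t2 := l }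
  | .t3, l => { m with t3 := l }
  | .t4, l => { m with t4 := l }
  | .t5, l => { m with t5 := l }
  | .t6, l => { m with t6 := l }
  | .t7, l => { m with t7 := l }
  | .t8, l => { m with t8 := l }
  | .o k, l => { m with o := Function.update m.o k l }

theorem Mem.get_set (m : Mem O) (X : WW O) (l : List Sym) :
    (m.set X l).get = Function.update m.get X l := by
  funext Y
  by_cases h : Y = X
  · subst h
    cases Y <;> simp [Mem.get, Mem.set]
  · rw [Function.update_of_ne h]
    cases X <;> cases Y <;> first | rfl | (exact absurd rfl h) | skip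
    rename_i k k'
    have : k' ≠ k := fun hk => h (by rw [hk])
    simp [Mem.get, Mem.set, Function.update_of_ne this]

/-- Running time semantics on records. -/
abbrev RM (E : Pr → Cm (WW O)) (c : Cm (WW O)) (m m' : Mem O) (B : ℕ) : Prop :=
  R E c m.get m'.get B

section rules

variable {E : Pr → Cm (WW O)}

theorem mv_m {X Y : WW O} (hXY : X ≠ Y) {stop : Sym → Bool} {l : List Sym}
    (hl : ∀ s ∈ l, stop s = false) {t : Sym} (ht : stop t = true) {rest : List Sym}
    {m : Mem O} (hS : m.get X = l ++ t :: rest) :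
    RM E (mv X Y stop) m ((m.set X rest).set Y (l.reverse ++ m.get Y)) (2 * l.length + 1) := by
  rw [RM, Mem.get_set, Mem.get_set]
  exact mv_spec E hXY stop hl ht hS

theorem mvd_m {X Y : WW O} (hXY : X ≠ Y) {stop : Sym → Bool} {l : List Sym}
    (hl : ∀ s ∈ l, stop s = false) {t : Sym} (ht : stop t = true) {rest : List Sym}
    {m : Mem O} (hS : m.get X = l ++ t :: rest) :
    RM E (mvd X Y stop) m ((m.set X rest).set Y ((l.flatMap fun s => [s, s]).reverse ++ m.get Y))
      (2 * l.length + 1) := by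
  rw [RM, Mem.get_set, Mem.get_set]
  exact mvd_spec hXY stop hl ht hS

theorem push_m (X : WW O) (s : Sym) (m : Mem O) :
    RM E (.act [pushc X s]) m (m.set X (s :: m.get X)) 1 := by
  rw [RM, Mem.get_set]
  exact R.push X s _

theorem pop_m (X : WW O) (m : Mem O) :
    RM E (.act [popx X]) m (m.set X (m.get X).tail) 1 := by
  rw [RM, Mem.get_set]
  exact R.pop X _

theorem pass_m {X Y1 Y2 Y3 : WW O} (h1 : X ≠ Y1) (h2 : X ≠ Y2) (h3 : X ≠ Y3)
    (h12 : Y1 ≠ Y2) (h13 : Y1 ≠ Y3) (h23 : Y2 ≠ Y3) {stop : Sym → Bool}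
    {f : Bool → Sym → Bool} {g1 g2 g3 : Bool → Sym → Option Sym} {a0 : Bool}
    {l : List Sym}
    (hl : ∀ s ∈ l, stop s = false) {t : Sym} (ht : stop t = true) {rest : List Sym}
    {m : Mem O} (hS : m.get X = l ++ t :: rest) :
    RM E (pass X Y1 Y2 Y3 stop f g1 g2 g3 a0) m
      ((((m.set X rest).set Y1 ((outs f g1 a0 l).reverse ++ m.get Y1)).set
        Y2 ((outs f g2 a0 l).reverse ++ m.get Y2)).set
        Y3 ((outs f g3 a0 l).reverse ++ m.get Y3))
      (2 * l.length + 2) := by
  rw [RM, Mem.get_set, Mem.get_set, Mem.get_set, Mem.get_set]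
  exact pass_spec E h1 h2 h3 h12 h13 h23 stop f g1 g2 g3 a0 hl ht hS

theorem zip_m {X1 X2 Y1 Y2 : WW O} (h0 : X1 ≠ X2)
    (h11 : X1 ≠ Y1) (h12 : X1 ≠ Y2) (h21 : X2 ≠ Y1) (h22 : X2 ≠ Y2)
    (hy : Y1 ≠ Y2) {stop : Sym → Bool}
    {f : Bool × Bool → Sym → Sym → Bool × Bool}
    {g1 g2 : Bool × Bool → Sym → Sym → Option Sym} {a0 : Bool × Bool}
    {l l' : List Sym} (hll : l.length = l'.length)
    (hl : ∀ s ∈ l, stop s = false) {t t' : Sym} (ht : stop t = true) {rest rest' : List Sym}
    {m : Mem O}
    (hS : m.get X1 = l ++ t :: rest) (hS' : m.get X2 = l' ++ t' :: rest') :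
    RM E (zip X1 X2 Y1 Y2 stop f g1 g2 a0) m
      ((((m.set X1 rest).set X2 rest').set Y1 ((zouts f g1 a0 l l').reverse ++ m.get Y1)).set
        Y2 ((zouts f g2 a0 l l').reverse ++ m.get Y2))
      (2 * l.length + 2) := by
  rw [RM, Mem.get_set, Mem.get_set, Mem.get_set, Mem.get_set]
  exact zip_spec E h0 h11 h12 h21 h22 hy stop f g1 g2 a0 hll hl ht hS hS'

theorem forS_nil_m {M M' : WW O} {bO bI : Cm (WW O)} {m : Mem O} {rest : List Sym}
    (hS : m.get M = .c :: rest) :
    RM E (forS M M' bO bI) m (m.set M rest) 1 := by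
  rw [RM, Mem.get_set]
  exact R.forS_nil hS

theorem forS_o_m {M M' : WW O} (hM : M ≠ M') {bO bI : Cm (WW O)} {m m' m'' : Mem O}
    {l : List Sym} {B₁ B₂ : ℕ}
    (hS : m.get M = .o :: l)
    (h : RM E bO ((m.set M l).set M' (.o :: m.get M')) m' B₁)
    (h' : RM E (forS M M' bO bI) m' m'' B₂) :
    RM E (forS M M' bO bI) m m'' (B₁ + B₂ + 3) := by
  rw [RM, Mem.get_set, Mem.get_set] at h
  exact R.forS_o hM hS h h'

theorem forS_i_m {M M' : WW O} (hM : M ≠ M') {bO bI : Cm (WW O)} {m m' m'' : Mem O}
    {s : Sym} {l : List Sym} {B₁ B₂ : ℕ}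
    (hS : m.get M = s :: l) (hs : s ≠ .c) (hs' : s ≠ .o)
    (h : RM E bI ((m.set M l).set M' (s :: m.get M')) m' B₁)
    (h' : RM E (forS M M' bO bI) m' m'' B₂) :
    RM E (forS M M' bO bI) m m'' (B₁ + B₂ + 3) := by
  rw [RM, Mem.get_set, Mem.get_set] at h
  exact R.forS_i hM hS hs hs' h h'

/-- single output transducer -/
def tr (X Y : WW O) (stop : Sym → Bool) (f : Bool → Sym → Bool)
    (g : Bool → Sym → Option Sym) : Cm (WW O) :=
  pass X Y .t7 .t8 stop f g (fun _ _ => none) (fun _ _ => none) false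

theorem Mem.set_get (m : Mem O) (X : WW O) : m.set X (m.get X) = m := by
  cases X <;> simp [Mem.set, Mem.get]

theorem Mem.get_set_of_ne (m : Mem O) {X Y : WW O} (h : Y ≠ X) (l : List Sym) :
    (m.set X l).get Y = m.get Y := by
  rw [Mem.get_set, Function.update_of_ne h]

theorem Mem.get_set_self (m : Mem O) (X : WW O) (l : List Sym) :
    (m.set X l).get X = l := by
  rw [Mem.get_set, Function.update_self]

theorem tr_m {X Y : WW O} (hXY : X ≠ Y) (hX7 : X ≠ .t7) (hX8 : X ≠ .t8) (hY7 : Y ≠ .t7)
    (hY8 : Y ≠ .t8) {stop : Sym → Bool} {f : Bool → Sym → Bool}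
    {g : Bool → Sym → Option Sym} {l : List Sym}
    (hl : ∀ s ∈ l, stop s = false) {t : Sym} (ht : stop t = true) {rest : List Sym}
    {m : Mem O} (hS : m.get X = l ++ t :: rest) :
    RM E (tr X Y stop f g) m
      ((m.set X rest).set Y ((outs f g false l).reverse ++ m.get Y)) (2 * l.length + 2) := by
  have h := pass_m (E := E) (f := f) (g1 := g) (g2 := fun _ _ => none) (g3 := fun _ _ => none)
    (a0 := false) hXY hX7 hX8 hY7 hY8 (Y2 := .t7) (Y3 := .t8) (by nofun) hl ht hS
  refine R.of_eq h (congrArg _ ?_)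
  simp only [outs_none, List.reverse_nil, List.nil_append]
  have e1 : m.get .t7 = ((m.set X rest).set Y ((outs f g false l).reverse ++ m.get Y)).get .t7 := by
    rw [Mem.get_set_of_ne _ hY7.symm, Mem.get_set_of_ne _ hX7.symm]
  rw [e1, Mem.set_get]
  have e2 : m.get .t8 = ((m.set X rest).set Y ((outs f g false l).reverse ++ m.get Y)).get .t8 := by
    rw [Mem.get_set_of_ne _ hY8.symm, Mem.get_set_of_ne _ hX8.symm]
  rw [e2, Mem.set_get]

/-- double output transducer -/
def tr2 (X Y Y' : WW O) (stop : Sym → Bool) (f : Bool → Sym → Bool)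
    (g g' : Bool → Sym → Option Sym) : Cm (WW O) :=
  pass X Y Y' .t8 stop f g g' (fun _ _ => none) false

theorem tr2_m {X Y Y' : WW O} (hXY : X ≠ Y) (hXY' : X ≠ Y') (hYY' : Y ≠ Y') (hX8 : X ≠ .t8)
    (hY8 : Y ≠ .t8) (hY'8 : Y' ≠ .t8)
    {stop : Sym → Bool} {f : Bool → Sym → Bool}
    {g g' : Bool → Sym → Option Sym} {l : List Sym}
    (hl : ∀ s ∈ l, stop s = false) {t : Sym} (ht : stop t = true) {rest : List Sym}
    {m : Mem O} (hS : m.get X = l ++ t :: rest) :
    RM E (tr2 X Y Y' stop f g g') m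
      (((m.set X rest).set Y ((outs f g false l).reverse ++ m.get Y)).set Y'
        ((outs f g' false l).reverse ++ m.get Y')) (2 * l.length + 2) := by
  have h := pass_m (E := E) (f := f) (g1 := g) (g2 := g') (g3 := fun _ _ => none)
    (a0 := false) hXY hXY' hX8 hYY' hY8 (Y3 := .t8) hY'8 hl ht hS
  refine R.of_eq h (congrArg _ ?_)
  simp only [outs_none, List.reverse_nil, List.nil_append]
  have e2 : m.get .t8 = (((m.set X rest).set Y ((outs f g false l).reverse ++ m.get Y)).set Y'
        ((outs f g' false l).reverse ++ m.get Y')).get .t8 := by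
    rw [Mem.get_set_of_ne _ hY'8.symm, Mem.get_set_of_ne _ hY8.symm, Mem.get_set_of_ne _ hX8.symm]
  rw [e2, Mem.set_get]

/-- push a terminator, then move up to the terminator -/
def revE (X Y : WW O) : Cm (WW O) := .seq (.act [pushc Y .e]) (mv X Y isE)
def revC (X Y : WW O) : Cm (WW O) := .seq (.act [pushc Y .c]) (mv X Y isC)

theorem Mem.set_set_self (m : Mem O) (X : WW O) (l l' : List Sym) :
    (m.set X l).set X l' = m.set X l' := by
  cases X <;> simp [Mem.set]

theorem Mem.set_comm (m : Mem O) {X Y : WW O} (h : X ≠ Y) (l l' : List Sym) :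
    (m.set X l).set Y l' = (m.set Y l').set X l := by
  cases X <;> cases Y <;> first | rfl | (exact absurd rfl h) | skip
  rename_i k k'
  have : k ≠ k' := fun hk => h (by rw [hk])
  simp [Mem.set, Function.update_comm this]

theorem revE_m {X Y : WW O} (hXY : X ≠ Y) {l : List Sym}
    (hl : ∀ s ∈ l, isE s = false) {rest : List Sym}
    {m : Mem O} (hS : m.get X = l ++ .e :: rest) :
    RM E (revE X Y) m ((m.set X rest).set Y (l.reverse ++ .e :: m.get Y))
      (2 * l.length + 2) := by
  have h := R.seq (push_m (E := E) Y .e m) (mv_m (E := E) hXY hl rfl (t := .e)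
    (m := m.set Y (.e :: m.get Y)) (by rw [Mem.get_set_of_ne _ hXY]; exact hS))
  refine (R.of_eq h (congrArg _ ?_)).mono (by omega)
  rw [Mem.get_set_self, Mem.set_comm _ hXY.symm, Mem.set_set_self]

theorem revC_m {X Y : WW O} (hXY : X ≠ Y) {l : List Sym}
    (hl : ∀ s ∈ l, isC s = false) {rest : List Sym}
    {m : Mem O} (hS : m.get X = l ++ .c :: rest) :
    RM E (revC X Y) m ((m.set X rest).set Y (l.reverse ++ .c :: m.get Y))
      (2 * l.length + 2) := by
  have h := R.seq (push_m (E := E) Y .c m) (mv_m (E := E) hXY hl rfl (t := .c)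
    (m := m.set Y (.c :: m.get Y)) (by rw [Mem.get_set_of_ne _ hXY]; exact hS))
  refine (R.of_eq h (congrArg _ ?_)).mono (by omega)
  rw [Mem.get_set_self, Mem.set_comm _ hXY.symm, Mem.set_set_self]

/-- move one coefficient, with its terminator -/
def mvc (X Y : WW O) : Cm (WW O) := .seq (mv X Y isC) (.act [pushc Y .c])

theorem mvc_m {X Y : WW O} (hXY : X ≠ Y) {l : List Sym}
    (hl : ∀ s ∈ l, isC s = false) {rest : List Sym}
    {m : Mem O} (hS : m.get X = l ++ .c :: rest) :
    RM E (mvc X Y) m ((m.set X rest).set Y ((l ++ [Sym.c]).reverse ++ m.get Y))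
      (2 * l.length + 2) := by
  have h := R.seq (mv_m (E := E) hXY hl (t := .c) rfl hS) (push_m (E := E) Y .c _)
  refine (R.of_eq h (congrArg _ ?_)).mono (by omega)
  rw [Mem.get_set_self, Mem.set_set_self]
  simp

/-- move one block, with its terminator -/
def mvb (X Y : WW O) : Cm (WW O) := .seq (mv X Y isD) (.act [pushc Y .d])

theorem mvb_m {X Y : WW O} (hXY : X ≠ Y) {l : List Sym}
    (hl : ∀ s ∈ l, isD s = false) {rest : List Sym}
    {m : Mem O} (hS : m.get X = l ++ .d :: rest) :
    RM E (mvb X Y) m ((m.set X rest).set Y ((l ++ [Sym.d]).reverse ++ m.get Y))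
      (2 * l.length + 2) := by
  have h := R.seq (mv_m (E := E) hXY hl (t := .d) rfl hS) (push_m (E := E) Y .d _)
  refine (R.of_eq h (congrArg _ ?_)).mono (by omega)
  rw [Mem.get_set_self, Mem.set_set_self]
  simp

/-- discard up to the terminator -/
def dropC (X : WW O) : Cm (WW O) := .loop [popx X] (fun r => goOn isC r.x) (.act [])

theorem dropC_m {X : WW O} {l : List Sym}
    (hl : ∀ s ∈ l, isC s = false) {rest : List Sym}
    {m : Mem O} (hS : m.get X = l ++ .c :: rest) :
    RM E (dropC X) m (m.set X rest) (2 * l.length + 1) := by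
  rw [RM, Mem.get_set]
  intro r i o
  refine ⟨{ r with x := some .c }, ?_⟩
  generalize m.get = S at hS ⊢
  unfold dropC
  induction l generalizing r S with
  | nil => exact Runs.loop_done (by simp [runOps, Op.run, hS]) rfl
  | cons a l ih =>
    have h1 := ih (fun s hs => hl s (by simp [hs])) { r with x := some a }
      (Function.update S X (l ++ .c :: rest)) (by simp)
    refine (Runs.loop_step (s₁ := ⟨{ r with x := some a }, i, o,
      Function.update S X (l ++ .c :: rest)⟩) (by simp [runOps, Op.run, hS])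
      (by simp [goOn, hl a (by simp)]) (Runs.act' rfl) (s'' := _) ?_).mono
      (B := 1 + (2 * l.length + 1) + 1) (by simp; omega)
    simp only [runOps, Function.update_idem] at h1 ⊢
    exact h1

def dropE (X : WW O) : Cm (WW O) := .loop [popx X] (fun r => goOn isE r.x) (.act [])

theorem dropE_m {X : WW O} {l : List Sym}
    (hl : ∀ s ∈ l, isE s = false) {rest : List Sym}
    {m : Mem O} (hS : m.get X = l ++ .e :: rest) :
    RM E (dropE X) m (m.set X rest) (2 * l.length + 1) := by
  rw [RM, Mem.get_set]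
  intro r i o
  refine ⟨{ r with x := some .e }, ?_⟩
  generalize m.get = S at hS ⊢
  unfold dropE
  induction l generalizing r S with
  | nil => exact Runs.loop_done (by simp [runOps, Op.run, hS]) rfl
  | cons a l ih =>
    have h1 := ih (fun s hs => hl s (by simp [hs])) { r with x := some a }
      (Function.update S X (l ++ .e :: rest)) (by simp)
    refine (Runs.loop_step (s₁ := ⟨{ r with x := some a }, i, o,
      Function.update S X (l ++ .e :: rest)⟩) (by simp [runOps, Op.run, hS])
      (by simp [goOn, hl a (by simp)]) (Runs.act' rfl) (s'' := _) ?_).mono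
      (B := 1 + (2 * l.length + 1) + 1) (by simp; omega)
    simp only [runOps, Function.update_idem] at h1 ⊢
    exact h1

end rules

end Pool.Agent.Helper62
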