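import Mathlib
import Pool.Agent.Helper62.Stk

/-!
The multiplication procedures.
-/

set_option autoImplicit false
set_option linter.unusedSectionVars false

namespace Pool.Agent.Helper62

variable {O : Type} [DecidableEq O]

abbrev C (O : Type) := Cm (WW O)

def psh (X : WW O) (s : Sym) : C O := .act [pushc X s]
def pp (X : WW O) : C O := .act [popx X]

def isTop (s : Sym) : Option Sym → Bool := fun x => decide (x = some s)
def notTop (s : Sym) : Option Sym → Bool := fun x => decide (x ≠ some s)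
def bitTop : Option Sym → Bool := fun x => decide (x = some .o) || decide (x = some .i)

/-- sum of two flat lists -/
def add1 (X1 X2 Y : WW O) (stop : Sym → Bool) : C O :=
  zip X1 X2 Y .t7 stop fAS gAdd (fun _ _ _ => none) (false, true)

/-- sum and difference -/
def addsub (X1 X2 Y1 Y2 : WW O) : C O := zip X1 X2 Y1 Y2 isE fAS gAdd gSub (false, true)

/-- distribute the first block of `t1` according to the mask -/
def routeB : C O :=
  sq [psh .t5 .c, forS .sm .t5 (mvc .t1 .t2) (mvc .t1 .t3), revC .t5 .sm]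

def flushO : C O := .seq (revE .t2 .t6) (mv .t6 .t4 isE)
def flushN : C O := .seq (revE .t3 .t6) (tr .t6 .t4 isE fNeg gNeg)

def blkF : C O :=
  sq [psh .t2 .e, psh .t3 .e, routeB, pp .t1, flushN, flushO, psh .t4 .d]
def blkI : C O :=
  sq [psh .t2 .e, psh .t3 .e, routeB, pp .t1, flushO, flushN, psh .t4 .d]

/-- rotations: from `t1` to `t4` (reversed) -/
def rotFC : C O := .seq (whileTop .t1 (notTop .e) blkF) (pp .t1)
def rotIC : C O := .seq (whileTop .t1 (notTop .e) blkI) (pp .t1)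

/-- splitting, twiddling, sum and difference -/
def fwd (P : WW O) : C O :=
  sq [psh .t7 .e, psh .t5 .c, forS .sh .t5 (mvb P .t7) (mvb P .t7), revC .t5 .sh,
    revE P .t2, revE .t2 .t1, psh .t4 .e, rotFC, revE .t4 .t1, revE .t7 .t2,
    psh .t3 .e, psh .t4 .e, addsub .t2 .t1 .t3 .t4, revE .t4 P, revE .t3 P]

def revSm : C O := sq [revC .sm .t5, revC .t5 .t6, revC .t6 .sm]

def inv : C O :=
  sq [revE .pc .t2, revE .t2 .t1, psh .t3 .e, psh .t4 .e, addsub .pc .t1 .t3 .t4,
    revE .t4 .t1, revSm, psh .t4 .e, rotIC, revSm, psh .pc .e, mv .t4 .pc isE, mv .t3 .pc isE]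

def fTog : Bool → Sym → Bool := fun a _ => !a
def gSndT : Bool → Sym → Option Sym := fun a s => if a then some s else none
def gFst (s : Sym) : Bool → Sym → Option Sym := fun a _ => if a then none else some s

def lowM : C O :=
  sq [psh .t1 .c, psh .t2 .c, psh .t3 .c,
    pass .sm .t1 .t2 .t3 isC fTog gCopy gSndT (gFst .o) false,
    revC .t1 .sm, revC .t2 .sm, mv .t3 .sm isC]
def highM : C O :=
  sq [psh .t1 .c, psh .t2 .c, psh .t3 .c,
    pass .sm .t1 .t2 .t3 isC fTog gCopy gSndT (gFst .i) false,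
    revC .t1 .sm, revC .t3 .sm, mv .t2 .sm isC]

def halfSh : C O :=
  sq [psh .t1 .c, psh .t2 .c, tr2 .sh .t1 .t2 isC fTog gCopy gSndT, revC .t1 .sh, revC .t2 .sh]

def convC : C O :=
  sq [pp .sh,
    ifTop .sh (isTop .c)
      (sq [psh .sh .m, .call .nega])
      (sq [psh .sh .m, halfSh, fwd .pa, fwd .pb, lowM, .call .conv, dropC .sm, highM,
        .call .conv, dropC .sm, inv, dropC .sh])]

/-- doubling of the top segment -/
def dbl (X : WW O) : C O := sq [psh .t6 .c, mvd X .t6 isC, revC .t6 X]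

def forD (M : WW O) (b : C O) : C O := .loop [popx M] (fun r => goOn isC r.x) b

def pad (P : WW O) : C O :=
  sq [psh .t4 .e, psh .t3 .c,
    forS .sh .t3
      (sq [psh .t5 .c, forS .sm .t5
        (sq [psh .t2 .c, tr2 P .t4 .t2 isC fId gCopy gZero, psh .t4 .c]) (mvc .t2 .t4),
        revC .t5 .sm, psh .t4 .d])
      (sq [psh .t5 .c, forS .sm .t5
        (sq [psh .t2 .c, tr2 P .t4 .t2 isC fId gCopy gZero, psh .t4 .c]) (mvc .t2 .t4),
        revC .t5 .sm, psh .t4 .d]),
    revC .t3 .sh, pp P, pp P, revE .t4 P]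

def gDropD : Bool → Sym → Option Sym
  | _, .d => none
  | _, s => some s

def unpadC : C O :=
  sq [revE .pc .t2, revE .t2 .t1, psh .t2 .e, psh .t3 .e,
    whileTop .t1 (notTop .e) (sq [psh .t3 .d, routeB, pp .t1]), pp .t1,
    psh .t4 .e, mv .t3 .t4 isD, psh .t5 .e, tr .t4 .t5 isE fNeg gNeg, revE .t3 .t4,
    tr .t4 .t5 isE fId gDropD, revE .t5 .t4, revE .t2 .t1, psh .t2 .e,
    add1 .t1 .t4 .t2 isE, psh .pc .e, psh .pc .d, mv .t2 .pc isE]

/-- push a zero copy of the array on `pb` onto `pc` -/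
def zeroPc : C O :=
  sq [psh .t2 .e, psh .t3 .e, tr2 .pb .t2 .t3 isE fId gCopy gZero, revE .t2 .pb, revE .t3 .pc]
def dblPc : C O := sq [psh .t2 .e, tr .pc .t2 isE fDbl gDbl, revE .t2 .pc]
def addPb : C O :=
  sq [psh .t2 .e, psh .t3 .e, zip .pc .pb .t2 .t3 isE fAS gAdd gSnd (false, true),
    revE .t3 .pb, revE .t2 .pc]

def base : C O :=
  sq [.act [pushc .sm .c, pushc .sm .i, pushc .sm .o, pushc .sm .o, pushc .sm .o],
    revE .pa .t1, pp .t1, zeroPc,
    whileTop .t1 (notTop .e)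
      (sq [pp .t1, revE .pc .t2, revE .t2 .t1, psh .t4 .e, rotFC, revE .t4 .pc, zeroPc,
        whileTop .t1 bitTop
          (ifTop .t1 (isTop .i) (sq [pp .t1, dblPc, addPb]) (sq [pp .t1, dblPc])),
        revE .pc .t2, revE .t2 .t3, psh .t4 .e, add1 .pc .t3 .t4 isE, revE .t4 .pc]),
    pp .t1, dropE .pb, dropC .sm]

def negaRec : C O :=
  sq [psh .t1 .c, psh .t2 .c, psh .t3 .c,
    pass .sk .t1 .t2 .t3 isC fTog gCopy (gFst .m) gSndT false, revC .t1 .sk,
    .act [pushc .sh .c, pushc .sh .m, pushc .sh .m], forD .t2 (dbl .sh),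
    .act [pushc .sm .c, pushc .sm .i, pushc .sm .i, pushc .sm .o, pushc .sm .o],
    psh .sk .c, forS .t3 .sk (dbl .sm) (dbl .sm),
    pad .pa, pad .pb, .call .conv, unpadC, dropC .sh, dropC .sm, dropC .sk]

def negaC : C O := ifTop .sk (isTop .c) base negaRec

/-- expansion of a bit string into a block -/
def expand (P : WW O) : C O :=
  sq [psh .t1 .e,
    forS P .t1
      (sq [psh .t5 .c, forS .sw .t5 (psh .t1 .o) (psh .t1 .o), revC .t5 .sw, psh .t1 .c])
      (sq [psh .t5 .c, forS .sw .t5 (psh .t1 .o) (psh .t1 .o), revC .t5 .sw, psh .t1 .c]),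
    psh P .e, psh P .d, psh .t2 .e, tr2 .t1 P .t2 isE fId gZero gCopy,
    revE .t2 .t1, mv .t1 P isE]

def releaseC : C O :=
  sq [psh .t1 .c, psh .t5 .c, forS .sw .t5 (psh .t1 .o) (psh .t1 .o), revC .t5 .sw, psh .t1 .o,
    psh .t3 .c,
    whileTop .pc (notTop .d)
      (sq [psh .t2 .c, add1 .pc .t1 .t2 isC, psh .t1 .c, psh .t1 .o, mv .t2 .t1 isC,
        .act [popx .t1, pushx .t3]]),
    pp .pc, pp .pc, dropC .t1, revC .t3 .pc]

/-- copy of the top segment -/
def dupSeg (X : WW O) : C O :=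
  sq [psh .t1 .c, psh .t2 .c, tr2 X .t1 .t2 isC fId gCopy gCopy, revC .t1 X, revC .t2 X]

def mulC : C O :=
  sq [psh .sw .c, .act (List.replicate 7 (pushc .sw .m)), psh .t5 .c,
    forS .sk .t5 (.act []) (.act (List.replicate 4 (pushc .sw .m))), revC .t5 .sk,
    dupSeg .sk, pp .sk,
    psh .se .c, dupSeg .sk, revC .sk .t1,
    whileTop .t1 (notTop .c)
      (sq [psh .t2 .c, psh .t3 .c, tr2 .t1 .t2 .t3 isC fTog (gFst .m) gSndT,
        mv .t2 .se isC, psh .se .m, revC .t3 .t1]),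
    pp .t1,
    expand .pa, expand .pb, .call .nega, releaseC, forD .se (pp .pc), dropC .sk, dropC .sw]

end Pool.Agent.Helper62
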