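import Mathlib
import Pool.Agent.Helper62.Prog

/-!
Specification of the rotation programs.
-/

set_option autoImplicit false
set_option linter.unusedSectionVars false

namespace Pool.Agent.Helper62

variable {O : Type} [DecidableEq O] {E : Pr → C O}

theorem RM.cast {c : C O} {m m' m'' : Mem O} {B : ℕ} (h : RM E c m m' B) (e : m' = m'') :
    RM E c m m'' B := e ▸ h

theorem RM.seq {c c' : C O} {m m' m'' : Mem O} {B B' : ℕ} (h : RM E c m m' B)
    (h' : RM E c' m' m'' B') : RM E (.seq c c') m m'' (B + B') := R.seq h h'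

theorem RM.mono {c : C O} {m m' : Mem O} {B B' : ℕ} (h : RM E c m m' B) (hB : B ≤ B') :
    RM E c m m' B' := R.mono h hB

/-- sequential composition with a change of the bound -/
theorem RM.step {c c' : C O} {m m' m'' : Mem O} {B B' B'' : ℕ} (h : RM E c m m' B)
    (h' : RM E c' m' m'' B') (hB : B + B' ≤ B'') : RM E (.seq c c') m m'' B'' :=
  (R.seq h h').mono hB

theorem rr {α : Type} (l r : List α) : l.reverse.reverse ++ r = l ++ r := by
  rw [List.reverse_reverse]

theorem isE_rev {l : List Sym} (h : ∀ s ∈ l, isE s = false) : ∀ s ∈ l.reverse, isE s = false :=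
  fun s hs => h s (by simpa using hs)

theorem isC_rev {l : List Sym} (h : ∀ s ∈ l, isC s = false) : ∀ s ∈ l.reverse, isC s = false :=
  fun s hs => h s (by simpa using hs)

theorem route_loop {w : ℕ} (mk : List Sym) (hmk : ∀ s ∈ mk, s = .o ∨ s = .i) (B : Block)
    (hB : WfB mk.length w B) (sm0 rest1 : List Sym) (m : Mem O) (h1 : m.sm = mk ++ .c :: sm0)
    (h2 : m.t1 = flat B ++ rest1) :
    RM E (forS .sm .t5 (mvc .t1 .t2) (mvc .t1 .t3)) m
      (((((m.set .sm sm0).set .t1 rest1).set .t2 ((flat (selO mk B)).reverse ++ m.t2)).set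
               .t3 ((flat (selI mk B)).reverse ++ m.t3)).set .t5 (mk.reverse ++ m.t5))
      (mk.length * (2 * w + 5) + 1) := by
  induction mk generalizing B m with
  | nil =>
    obtain rfl : B = [] := by simpa using hB.1
    refine ((forS_nil_m (M := .sm) (m := m) (rest := sm0) h1).cast ?_).mono (by simp)
    cases m
    simp only [flat_nil, List.nil_append] at h2
    simp [Mem.set, selO, selI, flat_nil, h2]
  | cons s mk ih =>
    obtain ⟨hB1, hB2⟩ := hB
    cases B with
    | nil => simp at hB1
    | cons x B =>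
      have hx : x.length = w := hB2 x (by simp)
      have hB' : WfB mk.length w B := ⟨by simpa using hB1, fun y hy => hB2 y (by simp [hy])⟩
      rw [flat_cons, List.append_assoc, List.cons_append] at h2
      rcases hmk s (by simp) with rfl | rfl
      · have hb := mvc_m (E := E) (X := .t1) (Y := .t2) (by nofun) (bits_isC x)
          (m := (m.set .sm (mk ++ .c :: sm0)).set .t5 (.o :: m.get .t5)) (by exact h2)
        have := forS_o_m (m := m) (M := .sm) (l := mk ++ .c :: sm0) (by nofun) h1 hb
          (ih (fun s hs => hmk s (by simp [hs])) B hB' _ rfl rfl)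
        refine (this.cast ?_).mono ?_
        · simp [Mem.set, Mem.get, selO, selI, flat_cons]
        · simp only [List.length_map, hx, List.length_cons]; ring_nf; omega
      · have hb := mvc_m (E := E) (X := .t1) (Y := .t3) (by nofun) (bits_isC x)
          (m := (m.set .sm (mk ++ .c :: sm0)).set .t5 (.i :: m.get .t5)) (by exact h2)
        have := forS_i_m (m := m) (M := .sm) (s := .i) (l := mk ++ .c :: sm0) (by nofun) h1
          (by nofun) (by nofun) hb
          (ih (fun s hs => hmk s (by simp [hs])) B hB' _ rfl rfl)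
        refine (this.cast ?_).mono ?_
        · simp [Mem.set, Mem.get, selO, selI, flat_cons]
        · simp only [List.length_map, hx, List.length_cons]; ring_nf; omega

theorem isC_oi {s : Sym} (h : s = .o ∨ s = .i) : isC s = false := by
  rcases h with rfl | rfl <;> rfl

theorem routeB_spec {w : ℕ} (mk : List Sym) (hmk : ∀ s ∈ mk, s = .o ∨ s = .i) (B : Block)
    (hB : WfB mk.length w B) (sm0 rest1 : List Sym) (m : Mem O) (h1 : m.sm = mk ++ .c :: sm0)
    (h2 : m.t1 = flat B ++ rest1) :
    RM E routeB m
      (((m.set .t1 rest1).set .t2 ((flat (selO mk B)).reverse ++ m.t2)).set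
               .t3 ((flat (selI mk B)).reverse ++ m.t3))
      (mk.length * (2 * w + 7) + 4) := by
  unfold routeB sq sq sq
  refine RM.step (push_m .t5 .c m) (RM.step (route_loop mk hmk B hB sm0 rest1 _ h1 h2)
    ((revC_m (X := .t5) (Y := .sm) (by nofun) (l := mk.reverse)
      (fun s hs => isC_oi (hmk s (by simpa using hs))) rfl).cast ?_) le_rfl) ?_
  · cases m; simp only [Mem.set, Mem.get] at h1 ⊢; simp [h1]
  · simp only [List.length_reverse]; ring_nf; omega

theorem flushO_spec (l q2 : List Sym) (hl : ∀ s ∈ l, isE s = false) (m : Mem O)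
    (h : m.t2 = l.reverse ++ .e :: q2) :
    RM E flushO m ((m.set .t2 q2).set .t4 (l.reverse ++ m.t4)) (4 * l.length + 3) := by
  unfold flushO
  refine RM.step (revE_m (X := .t2) (Y := .t6) (by nofun) (l := l.reverse)
    (isE_rev hl) h)
    ((mv_m (X := .t6) (Y := .t4) (by nofun) (l := l) hl (t := .e) rfl (rest := m.t6)
      (rr _ _)).cast ?_) ?_
  · simp [Mem.set, Mem.get]
  · simp; omega

theorem flushN_spec (B : Block) (q3 : List Sym) (m : Mem O)
    (h : m.t3 = (flat B).reverse ++ .e :: q3) :
    RM E flushN m ((m.set .t3 q3).set .t4 ((flat (negBl B)).reverse ++ m.t4))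
      (4 * (flat B).length + 4) := by
  unfold flushN
  refine RM.step (revE_m (X := .t3) (Y := .t6) (by nofun) (l := (flat B).reverse)
    (isE_rev (flat_isE B)) h)
    ((tr_m (X := .t6) (Y := .t4) (f := fNeg) (g := gNeg) (by nofun) (by nofun) (by nofun)
      (by nofun) (by nofun) (l := flat B) (flat_isE B)
      (t := .e) rfl (rest := m.t6) (rr _ _)).cast ?_) ?_
  · rw [coefTr_neg.flat]; simp [Mem.set, Mem.get, negBl]
  · simp; omega

theorem flat_rotF {n e w : ℕ} {B : Block} (hB : WfB n w B) (he : e ≤ n) :
    flat (rotF e B) = flat (negBl (selI (mask n e) B)) ++ flat (selO (mask n e) B) := by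
  obtain ⟨h1, h2⟩ := sel_mask hB.1 he
  rw [rotF, h1, h2, flat_append, hB.1]

theorem flat_rotI {n e w : ℕ} {B : Block} (hB : WfB n w B) (he : e ≤ n) :
    flat (rotI e B) = flat (selO (mask n e).reverse B) ++
      flat (negBl (selI (mask n e).reverse B)) := by
  obtain ⟨h1, h2⟩ := sel_mask_rev hB.1 he
  rw [rotI, h1, h2, flat_append]

theorem sel_length (mk : List Sym) (hmk : ∀ s ∈ mk, s = .o ∨ s = .i) (B : Block)
    (h : B.length = mk.length) : (selO mk B).length + (selI mk B).length = mk.length := by
  induction mk generalizing B with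
  | nil => simp [selO, selI]
  | cons s mk ih =>
    cases B with
    | nil => simp at h
    | cons x B =>
      have := ih (fun s hs => hmk s (by simp [hs])) B (by simpa using h)
      rcases hmk s (by simp) with rfl | rfl <;> simp [selO, selI] <;> omega

theorem sel_mem (mk : List Sym) (B : Block) :
    (∀ x ∈ selO mk B, x ∈ B) ∧ (∀ x ∈ selI mk B, x ∈ B) := by
  induction mk generalizing B with
  | nil => simp [selO, selI]
  | cons s mk ih =>
    cases B with
    | nil => simp [selO_nil, selI_nil]
    | cons y B =>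
      obtain ⟨h1, h2⟩ := ih B
      constructor
      · intro x hx
        cases s <;> simp only [selO, List.mem_cons] at hx ⊢
        · rcases hx with rfl | hx
          · simp
          · exact Or.inr (h1 x hx)
        all_goals exact Or.inr (h1 x hx)
      · intro x hx
        cases s <;> simp only [selI, List.mem_cons] at hx ⊢
        · exact Or.inr (h2 x hx)
        all_goals
          rcases hx with rfl | hx
          · simp
          · exact Or.inr (h2 x hx)

theorem blkF_spec {n e w : ℕ} {B : Block} (hB : WfB n w B) (he : e ≤ n)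
    (sm0 rest1 : List Sym) (m : Mem O) (h1 : m.sm = mask n e ++ .c :: sm0)
    (h2 : m.t1 = flat B ++ .d :: rest1) :
    RM E blkF m ((m.set .t1 rest1).set .t4 ((flat (rotF e B) ++ [Sym.d]).reverse ++ m.t4))
      (n * (6 * w + 11) + 15) := by
  have hlen : (mask n e).length = n := mask_length he
  have hs := sel_length (mask n e) (mask_oi n e) B (by rw [hlen, hB.1])
  rw [hlen] at hs
  obtain ⟨hmO, hmI⟩ := sel_mem (mask n e) B
  have hO : WfB (selO (mask n e) B).length w (selO (mask n e) B) :=
    ⟨rfl, fun x hx => hB.2 x (hmO x hx)⟩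
  have hI : WfB (selI (mask n e) B).length w (selI (mask n e) B) :=
    ⟨rfl, fun x hx => hB.2 x (hmI x hx)⟩
  have lO := flat_length hO
  have lI := flat_length hI
  unfold blkF sq sq sq sq sq sq sq
  refine RM.step (push_m .t2 .e m) (RM.step (push_m .t3 .e _) (RM.step
    (routeB_spec (w := w) (mask n e) (mask_oi n e) B (by rw [hlen]; exact hB) sm0 (.d :: rest1) _ h1 h2)
    (RM.step (pop_m .t1 _)
    (RM.step (flushN_spec (selI (mask n e) B) m.t3 _ rfl)
    (RM.step (flushO_spec (flat (selO (mask n e) B)) m.t2 (flat_isE _) _ rfl)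
    ((push_m .t4 .d _).cast ?_) le_rfl) le_rfl) le_rfl) le_rfl) le_rfl) ?_
  · simp [Mem.set, Mem.get, flat_rotF hB he]
  · rw [lO, lI, hlen]
    have : (selO (mask n e) B).length * (w + 1) + (selI (mask n e) B).length * (w + 1)
      = n * (w + 1) := by rw [← add_mul, hs]
    nlinarith [this]

theorem blkI_spec {n e w : ℕ} {B : Block} (hB : WfB n w B) (he : e ≤ n)
    (sm0 rest1 : List Sym) (m : Mem O) (h1 : m.sm = (mask n e).reverse ++ .c :: sm0)
    (h2 : m.t1 = flat B ++ .d :: rest1) :
    RM E blkI m ((m.set .t1 rest1).set .t4 ((flat (rotI e B) ++ [Sym.d]).reverse ++ m.t4))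
      (n * (6 * w + 11) + 15) := by
  have hlen : (mask n e).reverse.length = n := by rw [List.length_reverse, mask_length he]
  have hoi : ∀ s ∈ (mask n e).reverse, s = .o ∨ s = .i := fun s hs =>
    mask_oi n e s (by simpa using hs)
  have hs := sel_length (mask n e).reverse hoi B (by rw [hlen, hB.1])
  rw [hlen] at hs
  obtain ⟨hmO, hmI⟩ := sel_mem (mask n e).reverse B
  have hO : WfB (selO (mask n e).reverse B).length w (selO (mask n e).reverse B) :=
    ⟨rfl, fun x hx => hB.2 x (hmO x hx)⟩
  have hI : WfB (selI (mask n e).reverse B).length w (selI (mask n e).reverse B) :=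
    ⟨rfl, fun x hx => hB.2 x (hmI x hx)⟩
  have lO := flat_length hO
  have lI := flat_length hI
  unfold blkI sq sq sq sq sq sq sq
  refine RM.step (push_m .t2 .e m) (RM.step (push_m .t3 .e _) (RM.step
    (routeB_spec (w := w) (mask n e).reverse hoi B (by rw [hlen]; exact hB) sm0 (.d :: rest1) _ h1 h2)
    (RM.step (pop_m .t1 _)
    (RM.step (flushO_spec (flat (selO (mask n e).reverse B)) m.t2 (flat_isE _) _ rfl)
    (RM.step (flushN_spec (selI (mask n e).reverse B) m.t3 _ rfl)
    ((push_m .t4 .d _).cast ?_) le_rfl) le_rfl) le_rfl) le_rfl) le_rfl) ?_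
  · simp [Mem.set, Mem.get, flat_rotI hB he]
  · rw [lO, lI, hlen]
    have : (selO (mask n e).reverse B).length * (w + 1) + (selI (mask n e).reverse B).length * (w + 1)
      = n * (w + 1) := by rw [← add_mul, hs]
    nlinarith [this]

theorem notTop_flat_d {B : Block} {rest : List Sym} :
    notTop .e (flat B ++ .d :: rest).head? = true := by
  cases B with
  | nil => rfl
  | cons x B =>
    cases x with
    | nil => rfl
    | cons b x => cases b <;> rfl

theorem rotF_loop {H n e w : ℕ} {A : Arr} (hA : WfA H n w A) (he : e ≤ n)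
    (sm0 rest1 : List Sym) (m : Mem O) (h1 : m.sm = mask n e ++ .c :: sm0)
    (h2 : m.t1 = body A ++ .e :: rest1) :
    RM E (whileTop .t1 (notTop .e) blkF) m
      ((m.set .t1 (.e :: rest1)).set .t4 ((body (rotFA e A)).reverse ++ m.t4))
      (H * (n * (6 * w + 11) + 16) + 1) := by
  obtain ⟨rfl, hA⟩ := hA
  induction A generalizing m with
  | nil =>
    have h2' : m.t1 = .e :: rest1 := h2
    refine ((R.while_done (S := m.get) (by simp [Mem.get, h2', notTop])).of_eq (congrArg _ ?_)).mono
      (by simp)
    cases m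
    simp only at h2'
    simp [rotFA, body_nil, h2', Mem.set]
  | cons B A ih =>
    rw [body_cons, List.append_assoc, List.cons_append] at h2
    have hb := blkF_spec (E := E) (hA B (by simp)) he sm0 _ m h1 h2
    have := R.while_step (X := (WW.t1 : WW O)) (p := notTop .e) (S := m.get) (by
      simp only [Mem.get, h2]; exact notTop_flat_d) hb
      (ih _ h1 rfl (fun x hx => hA x (by simp [hx])))
    refine (RM.cast this ?_).mono ?_
    · simp [rotFA, body_cons, Mem.set]
    · simp only [List.length_cons]; ring_nf; omega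

theorem rotI_loop {H n e w : ℕ} {A : Arr} (hA : WfA H n w A) (he : e ≤ n)
    (sm0 rest1 : List Sym) (m : Mem O) (h1 : m.sm = (mask n e).reverse ++ .c :: sm0)
    (h2 : m.t1 = body A ++ .e :: rest1) :
    RM E (whileTop .t1 (notTop .e) blkI) m
      ((m.set .t1 (.e :: rest1)).set .t4 ((body (rotIA e A)).reverse ++ m.t4))
      (H * (n * (6 * w + 11) + 16) + 1) := by
  obtain ⟨rfl, hA⟩ := hA
  induction A generalizing m with
  | nil =>
    have h2' : m.t1 = .e :: rest1 := h2
    refine ((R.while_done (S := m.get) (by simp [Mem.get, h2', notTop])).of_eq (congrArg _ ?_)).mono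
      (by simp)
    cases m
    simp only at h2'
    simp [rotIA, body_nil, h2', Mem.set]
  | cons B A ih =>
    rw [body_cons, List.append_assoc, List.cons_append] at h2
    have hb := blkI_spec (E := E) (hA B (by simp)) he sm0 _ m h1 h2
    have := R.while_step (X := (WW.t1 : WW O)) (p := notTop .e) (S := m.get) (by
      simp only [Mem.get, h2]; exact notTop_flat_d) hb
      (ih _ h1 rfl (fun x hx => hA x (by simp [hx])))
    refine (RM.cast this ?_).mono ?_
    · simp [rotIA, body_cons, Mem.set]
    · simp only [List.length_cons]; ring_nf; omega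

theorem rotFC_spec {H n e w : ℕ} {A : Arr} (hA : WfA H n w A) (he : e ≤ n)
    (sm0 rest1 : List Sym) (m : Mem O) (h1 : m.sm = mask n e ++ .c :: sm0)
    (h2 : m.t1 = body A ++ .e :: rest1) :
    RM E rotFC m
      ((m.set .t1 rest1).set .t4 ((body (rotFA e A)).reverse ++ m.t4))
      (H * (n * (6 * w + 11) + 16) + 2) := by
  unfold rotFC
  exact RM.step (rotF_loop hA he sm0 rest1 m h1 h2) (pop_m .t1 _) (by omega)

theorem rotIC_spec {H n e w : ℕ} {A : Arr} (hA : WfA H n w A) (he : e ≤ n)
    (sm0 rest1 : List Sym) (m : Mem O) (h1 : m.sm = (mask n e).reverse ++ .c :: sm0)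
    (h2 : m.t1 = body A ++ .e :: rest1) :
    RM E rotIC m
      ((m.set .t1 rest1).set .t4 ((body (rotIA e A)).reverse ++ m.t4))
      (H * (n * (6 * w + 11) + 16) + 2) := by
  unfold rotIC
  exact RM.step (rotI_loop hA he sm0 rest1 m h1 h2) (pop_m .t1 _) (by omega)

end Pool.Agent.Helper62
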