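import Mathlib
import Pool.Agent.Helper62.Spec1

/-!
Specification of the splitting and recombination programs.
-/

set_option autoImplicit false
set_option linter.unusedSectionVars false

namespace Pool.Agent.Helper62

variable {O : Type} [DecidableEq O] {E : Pr → C O}

theorem marks_isC (n : ℕ) : ∀ s ∈ List.replicate n Sym.m, isC s = false := by
  intro s hs
  rw [List.eq_of_mem_replicate hs]; rfl

theorem rep_shift (n : ℕ) (l : List Sym) :
    List.replicate n Sym.m ++ Sym.m :: l = List.replicate (n + 1) Sym.m ++ l := by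
  rw [List.replicate_succ', List.append_assoc]; rfl

theorem split_loop_pa {K w : ℕ} (A : Arr)
    (hA : ∀ B ∈ A, WfB K w B) (sh0 rest : List Sym) (m : Mem O)
    (h1 : m.sh = List.replicate A.length .m ++ .c :: sh0)
    (h2 : m.pa = body A ++ rest) :
    RM E (forS .sh .t5 (mvb .pa .t7) (mvb .pa .t7)) m
      ((((m.set .sh sh0).set .t5 (List.replicate A.length .m ++ m.t5)).set .pa rest).set
               .t7 ((body A).reverse ++ m.t7))
      (A.length * (2 * (K * (w + 1)) + 5) + 1) := by
  induction A generalizing m with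
  | nil =>
    refine ((forS_nil_m (M := .sh) (m := m) (rest := sh0) h1).cast ?_).mono (by simp)
    cases m
    simp only [body_nil, List.nil_append] at h2
    simp [Mem.set, body_nil, h2]
  | cons B A ih =>
    have hB := hA B (by simp)
    rw [body_cons, List.append_assoc, List.cons_append] at h2
    have h1' : m.get .sh = .m :: (List.replicate A.length .m ++ .c :: sh0) := by
      rw [List.length_cons, List.replicate_succ] at h1; exact h1
    have hb := mvb_m (E := E) (X := .pa) (Y := .t7) (by nofun) (flat_isD B)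
      (m := ((m.set .sh (List.replicate A.length .m ++ .c :: sh0)).set .t5
        (.m :: m.get .t5))) h2
    have := forS_i_m (m := m) (M := .sh) (M' := .t5) (bO := mvb .pa .t7) (s := .m)
      (by nofun) h1' (by nofun) (by nofun) hb (ih (fun x hx => hA x (by simp [hx])) _ rfl rfl)
    refine (this.cast ?_).mono ?_
    · simp [Mem.set, Mem.get, body_cons, rep_shift]
    · rw [flat_length hB]
      simp only [List.length_cons]; ring_nf; omega

theorem split_loop_pb {K w : ℕ} (A : Arr)
    (hA : ∀ B ∈ A, WfB K w B) (sh0 rest : List Sym) (m : Mem O)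
    (h1 : m.sh = List.replicate A.length .m ++ .c :: sh0)
    (h2 : m.pb = body A ++ rest) :
    RM E (forS .sh .t5 (mvb .pb .t7) (mvb .pb .t7)) m
      ((((m.set .sh sh0).set .t5 (List.replicate A.length .m ++ m.t5)).set .pb rest).set
               .t7 ((body A).reverse ++ m.t7))
      (A.length * (2 * (K * (w + 1)) + 5) + 1) := by
  induction A generalizing m with
  | nil =>
    refine ((forS_nil_m (M := .sh) (m := m) (rest := sh0) h1).cast ?_).mono (by simp)
    cases m
    simp only [body_nil, List.nil_append] at h2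
    simp [Mem.set, body_nil, h2]
  | cons B A ih =>
    have hB := hA B (by simp)
    rw [body_cons, List.append_assoc, List.cons_append] at h2
    have h1' : m.get .sh = .m :: (List.replicate A.length .m ++ .c :: sh0) := by
      rw [List.length_cons, List.replicate_succ] at h1; exact h1
    have hb := mvb_m (E := E) (X := .pb) (Y := .t7) (by nofun) (flat_isD B)
      (m := ((m.set .sh (List.replicate A.length .m ++ .c :: sh0)).set .t5
        (.m :: m.get .t5))) h2
    have := forS_i_m (m := m) (M := .sh) (M' := .t5) (bO := mvb .pb .t7) (s := .m)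
      (by nofun) h1' (by nofun) (by nofun) hb (ih (fun x hx => hA x (by simp [hx])) _ rfl rfl)
    refine (this.cast ?_).mono ?_
    · simp [Mem.set, Mem.get, body_cons, rep_shift]
    · rw [flat_length hB]
      simp only [List.length_cons]; ring_nf; omega

theorem addsub_spec {H K w : ℕ} {A A' : Arr} (h : WfA H K w A) (h' : WfA H K w A')
    {X1 X2 Y1 Y2 : WW O} (h0 : X1 ≠ X2)
    (h11 : X1 ≠ Y1) (h12 : X1 ≠ Y2) (h21 : X2 ≠ Y1) (h22 : X2 ≠ Y2)
    (hy : Y1 ≠ Y2) {rest rest' : List Sym} {m : Mem O}
    (h1 : m.get X1 = body A ++ .e :: rest) (h2 : m.get X2 = body A' ++ .e :: rest') :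
    RM E (addsub X1 X2 Y1 Y2) m
      ((((m.set X1 rest).set X2 rest').set Y1 ((body (addA A A')).reverse ++ m.get Y1)).set Y2
        ((body (subA A A')).reverse ++ m.get Y2))
      (2 * (H * (K * (w + 1) + 1)) + 2) := by
  have := zip_m (E := E) (f := fAS) (g1 := gAdd) (g2 := gSub) (a0 := (false, true))
    h0 h11 h12 h21 h22 hy (by rw [body_length h, body_length h']) (body_isE A) rfl h1 h2
  rw [zouts_add_body h h', zouts_sub_body h h', body_length h] at this
  exact this

theorem fwd_spec_pa {h' K e w : ℕ} {A : Arr}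
    (hA : WfA (h' + h') K w A) (he : e ≤ K) (sm0 sh0 rest : List Sym) (m : Mem O)
    (h1 : m.sm = mask K e ++ .c :: sm0) (h2 : m.sh = List.replicate h' .m ++ .c :: sh0)
    (h3 : m.pa = body A ++ .e :: rest) :
    RM E (fwd .pa) m
      (m.set .pa (body (addA (A.take h') (rotFA e (A.drop h'))) ++ .e ::
        (body (subA (A.take h') (rotFA e (A.drop h'))) ++ .e :: rest)))
      (40 * (h' * (K * (w + 2) + 1)) + 100) := by
  have hA1 := hA.take h' (by omega)
  have hA2 := hA.drop h'
  rw [Nat.add_sub_cancel] at hA2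
  have hA3 := hA2.rotF he
  have hsplit : m.pa = body (A.take h') ++ (body (A.drop h') ++ .e :: rest) := by
    rw [h3, ← List.append_assoc, ← body_append, List.take_append_drop]
  have hl1 := hA1.1
  generalize A.take h' = A1 at hA1 hA3 hsplit hl1 ⊢
  generalize A.drop h' = A2 at hA2 hA3 hsplit ⊢
  have l1 := body_length hA1
  have l2 := body_length hA2
  have l3 := body_length hA3
  have lS := body_length (hA1.add hA3)
  have lD := body_length (hA1.sub hA3)
  obtain ⟨pa, pb, pc, sh, sm, sk, sw, se, t1, t2, t3, t4, t5, t6, t7, t8, o⟩ := m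
  simp only at h1 h2 hsplit
  rw [← hl1] at h2
  subst h1 h2 hsplit
  unfold fwd
  simp only [sq]
  refine RM.mono (RM.seq (push_m .t7 .e _) (RM.seq (push_m .t5 .c _) (RM.seq
    (split_loop_pa A1 hA1.2 sh0 _ _ rfl rfl) (RM.seq
    (revC_m (X := .t5) (Y := .sh) (by nofun) (l := List.replicate A1.length .m)
      (marks_isC _) (rest := t5) rfl) (RM.seq
    (revE_m (X := .pa) (Y := .t2) (by nofun) (l := body A2) (body_isE _) (rest := rest) rfl)
    (RM.seq
    (revE_m (X := .t2) (Y := .t1) (by nofun) (l := (body A2).reverse)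
      (isE_rev (body_isE A2)) (rest := t2) rfl) (RM.seq
    (push_m .t4 .e _) (RM.seq
    (rotFC_spec hA2 he sm0 t1 _ rfl (rr _ _)) (RM.seq
    (revE_m (X := .t4) (Y := .t1) (by nofun) (l := (body (rotFA e A2)).reverse)
      (isE_rev (body_isE _)) (rest := t4) rfl) (RM.seq
    (revE_m (X := .t7) (Y := .t2) (by nofun) (l := (body A1).reverse)
      (isE_rev (body_isE _)) (rest := t7) rfl) (RM.seq
    (push_m .t3 .e _) (RM.seq
    (push_m .t4 .e _) (RM.seq
    (addsub_spec hA1 hA3 (by nofun) (by nofun) (by nofun) (by nofun) (by nofun) (by nofun)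
      (rest := t2) (rest' := t1) (rr _ _) (rr _ _))
    (RM.seq
    (revE_m (X := .t4) (Y := .pa) (by nofun) (l := (body (subA A1 (rotFA e A2))).reverse)
      (isE_rev (body_isE _)) (rest := t4) rfl)
    ((revE_m (X := .t3) (Y := .pa) (by nofun) (l := (body (addA A1 (rotFA e A2))).reverse)
      (isE_rev (body_isE _)) (rest := t3) rfl).cast ?_)
    ))))))))))))))
    ?_
  · simp [Mem.set, Mem.get]
  · simp only [List.length_reverse, List.length_replicate, l1, l2, l3, lS, lD, hl1]
    ring_nf; omega

theorem fwd_spec_pb {h' K e w : ℕ} {A : Arr}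
    (hA : WfA (h' + h') K w A) (he : e ≤ K) (sm0 sh0 rest : List Sym) (m : Mem O)
    (h1 : m.sm = mask K e ++ .c :: sm0) (h2 : m.sh = List.replicate h' .m ++ .c :: sh0)
    (h3 : m.pb = body A ++ .e :: rest) :
    RM E (fwd .pb) m
      (m.set .pb (body (addA (A.take h') (rotFA e (A.drop h'))) ++ .e ::
        (body (subA (A.take h') (rotFA e (A.drop h'))) ++ .e :: rest)))
      (40 * (h' * (K * (w + 2) + 1)) + 100) := by
  have hA1 := hA.take h' (by omega)
  have hA2 := hA.drop h'
  rw [Nat.add_sub_cancel] at hA2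
  have hA3 := hA2.rotF he
  have hsplit : m.pb = body (A.take h') ++ (body (A.drop h') ++ .e :: rest) := by
    rw [h3, ← List.append_assoc, ← body_append, List.take_append_drop]
  have hl1 := hA1.1
  generalize A.take h' = A1 at hA1 hA3 hsplit hl1 ⊢
  generalize A.drop h' = A2 at hA2 hA3 hsplit ⊢
  have l1 := body_length hA1
  have l2 := body_length hA2
  have l3 := body_length hA3
  have lS := body_length (hA1.add hA3)
  have lD := body_length (hA1.sub hA3)
  obtain ⟨pa, pb, pc, sh, sm, sk, sw, se, t1, t2, t3, t4, t5, t6, t7, t8, o⟩ := m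
  simp only at h1 h2 hsplit
  rw [← hl1] at h2
  subst h1 h2 hsplit
  unfold fwd
  simp only [sq]
  refine RM.mono (RM.seq (push_m .t7 .e _) (RM.seq (push_m .t5 .c _) (RM.seq
    (split_loop_pb A1 hA1.2 sh0 _ _ rfl rfl) (RM.seq
    (revC_m (X := .t5) (Y := .sh) (by nofun) (l := List.replicate A1.length .m)
      (marks_isC _) (rest := t5) rfl) (RM.seq
    (revE_m (X := .pb) (Y := .t2) (by nofun) (l := body A2) (body_isE _) (rest := rest) rfl)
    (RM.seq
    (revE_m (X := .t2) (Y := .t1) (by nofun) (l := (body A2).reverse)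
      (isE_rev (body_isE A2)) (rest := t2) rfl) (RM.seq
    (push_m .t4 .e _) (RM.seq
    (rotFC_spec hA2 he sm0 t1 _ rfl (rr _ _)) (RM.seq
    (revE_m (X := .t4) (Y := .t1) (by nofun) (l := (body (rotFA e A2)).reverse)
      (isE_rev (body_isE _)) (rest := t4) rfl) (RM.seq
    (revE_m (X := .t7) (Y := .t2) (by nofun) (l := (body A1).reverse)
      (isE_rev (body_isE _)) (rest := t7) rfl) (RM.seq
    (push_m .t3 .e _) (RM.seq
    (push_m .t4 .e _) (RM.seq
    (addsub_spec hA1 hA3 (by nofun) (by nofun) (by nofun) (by nofun) (by nofun) (by nofun)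
      (rest := t2) (rest' := t1) (rr _ _) (rr _ _))
    (RM.seq
    (revE_m (X := .t4) (Y := .pb) (by nofun) (l := (body (subA A1 (rotFA e A2))).reverse)
      (isE_rev (body_isE _)) (rest := t4) rfl)
    ((revE_m (X := .t3) (Y := .pb) (by nofun) (l := (body (addA A1 (rotFA e A2))).reverse)
      (isE_rev (body_isE _)) (rest := t3) rfl).cast ?_)
    ))))))))))))))
    ?_
  · simp [Mem.set, Mem.get]
  · simp only [List.length_reverse, List.length_replicate, l1, l2, l3, lS, lD, hl1]
    ring_nf; omega

end Pool.Agent.Helper62
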