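import Mathlib
import Pool.Agent.Helper62.Spec2

/-!
Specification of the inverse step, of the mask programs and of the fused recursion.
-/

set_option autoImplicit false
set_option linter.unusedSectionVars false

namespace Pool.Agent.Helper62

variable {O : Type} [DecidableEq O] {E : Pr → C O}

theorem revSm_spec (l sm0 : List Sym) (hl : ∀ s ∈ l, isC s = false) (m : Mem O)
    (h1 : m.sm = l ++ .c :: sm0) :
    RM E revSm m (m.set .sm (l.reverse ++ .c :: sm0)) (6 * l.length + 6) := by
  obtain ⟨pa, pb, pc, sh, sm, sk, sw, se, t1, t2, t3, t4, t5, t6, t7, t8, o⟩ := m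
  simp only at h1
  subst h1
  unfold revSm
  simp only [sq]
  refine RM.mono (RM.seq (revC_m (X := .sm) (Y := .t5) (by nofun) hl rfl) (RM.seq
    (revC_m (X := .t5) (Y := .t6) (by nofun) (l := l.reverse) (isC_rev hl) (rest := t5) rfl)
    ((revC_m (X := .t6) (Y := .sm) (by nofun) (l := l) hl (rest := t6)
      (rr _ _)).cast ?_))) ?_
  · simp [Mem.set, Mem.get]
  · simp only [List.length_reverse]; omega

theorem inv_spec {h' K e w : ℕ} {P Q : Arr}
    (hP : WfA h' K w P) (hQ : WfA h' K w Q) (he : e ≤ K) (sm0 rest : List Sym) (m : Mem O)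
    (h1 : m.sm = mask K e ++ .c :: sm0)
    (h3 : m.pc = body Q ++ .e :: (body P ++ .e :: rest)) :
    RM E inv m
      (m.set .pc (body (addA P Q ++ rotIA e (subA P Q)) ++ .e :: rest))
      (40 * (h' * (K * (w + 2) + 1)) + 12 * K + 100) := by
  have lP := body_length hP
  have lQ := body_length hQ
  have lS := body_length (hP.add hQ)
  have lD := body_length (hP.sub hQ)
  have lR := body_length ((hP.sub hQ).rotI he)
  have lm := mask_length he
  obtain ⟨pa, pb, pc, sh, sm, sk, sw, se, t1, t2, t3, t4, t5, t6, t7, t8, o⟩ := m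
  simp only at h1 h3
  subst h1 h3
  unfold inv
  simp only [sq]
  refine RM.mono (RM.seq
    (revE_m (X := .pc) (Y := .t2) (by nofun) (body_isE _) rfl) (RM.seq
    (revE_m (X := .t2) (Y := .t1) (by nofun) (l := (body Q).reverse)
      (isE_rev (body_isE _)) (rest := t2) rfl) (RM.seq
    (push_m .t3 .e _) (RM.seq
    (push_m .t4 .e _) (RM.seq
    (addsub_spec hP hQ (by nofun) (by nofun) (by nofun) (by nofun) (by nofun) (by nofun)
      (rest := rest) (rest' := t1) rfl (rr _ _))
    (RM.seq
    (revE_m (X := .t4) (Y := .t1) (by nofun) (l := (body (subA P Q)).reverse)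
      (isE_rev (body_isE _)) (rest := t4) rfl) (RM.seq
    (revSm_spec (mask K e) sm0 (mask_isC K e) _ rfl) (RM.seq
    (push_m .t4 .e _) (RM.seq
    (rotIC_spec (hP.sub hQ) he sm0 t1 _ rfl (rr _ _)) (RM.seq
    (revSm_spec (mask K e).reverse sm0 (isC_rev (mask_isC K e)) _ rfl) (RM.seq
    (push_m .pc .e _) (RM.seq
    (mv_m (X := .t4) (Y := .pc) (by nofun) (l := (body (rotIA e (subA P Q))).reverse)
      (isE_rev (body_isE _)) (t := .e) rfl (rest := t4) rfl)
    ((mv_m (X := .t3) (Y := .pc) (by nofun) (l := (body (addA P Q)).reverse)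
      (isE_rev (body_isE _)) (t := .e) rfl (rest := t3) rfl).cast ?_)))))))))))))
    ?_
  · simp [Mem.set, Mem.get, body_append]
  · simp only [List.length_reverse, lP, lQ, lS, lD, lR, lm]
    ring_nf; omega

/-! ### alternate symbols -/

def odds {α : Type} : List α → List α
  | [] => []
  | [_] => []
  | _ :: y :: l => y :: odds l

theorem outs_sndT (l : List Sym) : outs fTog gSndT false l = odds l := by
  induction l using odds.induct with
  | case1 => rfl
  | case2 x => simp [outs, gSndT, odds]
  | case3 x y l ih => simp [outs, gSndT, fTog, odds, ih]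

theorem outs_fst (s : Sym) (l : List Sym) :
    outs fTog (gFst s) false l = List.replicate ((l.length + 1) / 2) s := by
  induction l using odds.induct with
  | case1 => rfl
  | case2 x => simp [outs, gFst]
  | case3 x y l ih =>
    simp only [outs, gFst, fTog, Bool.false_eq_true, if_false, Option.toList_some, Bool.not_false,
      if_true, Option.toList_none, List.nil_append, Bool.not_true, ih, List.length_cons]
    rw [show (l.length + 1 + 1 + 1) / 2 = (l.length + 1) / 2 + 1 by omega, List.replicate_succ]
    rfl

theorem odds_length {α : Type} (l : List α) : (odds l).length = l.length / 2 := by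
  induction l using odds.induct with
  | case1 => simp [odds]
  | case2 x => simp [odds]
  | case3 x y l ih => simp only [odds, List.length_cons, ih]; omega

theorem odds_mem {α : Type} (l : List α) : ∀ x ∈ odds l, x ∈ l := by
  induction l using odds.induct with
  | case1 => simp [odds]
  | case2 x => simp [odds]
  | case3 x y l ih =>
    intro z hz
    simp only [odds, List.mem_cons] at hz ⊢
    rcases hz with rfl | hz
    · simp
    · exact Or.inr (Or.inr (ih z hz))

theorem odds_replicate_append {α : Type} (a : α) (n : ℕ) (l : List α) :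
    odds (List.replicate (2 * n) a ++ l) = List.replicate n a ++ odds l := by
  induction n with
  | zero => simp
  | succ n ih =>
    rw [show 2 * (n + 1) = 2 * n + 1 + 1 by ring, List.replicate_succ, List.replicate_succ,
      List.replicate_succ, List.cons_append, List.cons_append, odds, ih, List.cons_append]

theorem odds_replicate {α : Type} (a : α) (n : ℕ) :
    odds (List.replicate (2 * n) a) = List.replicate n a := by
  have := odds_replicate_append a n []
  simpa [odds] using this

theorem odds_replicate' {α : Type} (a : α) (n : ℕ) :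
    odds (List.replicate n a) = List.replicate (n / 2) a := by
  have h := odds_length (List.replicate n a)
  rw [List.length_replicate] at h
  rw [← h, List.eq_replicate_of_mem (a := a)
    (fun x hx => List.eq_of_mem_replicate (odds_mem _ x hx))]
  simp

theorem low_mask {r e : ℕ} (he : e ≤ 2 * r) (hev : 2 * (e / 2) = e) :
    List.replicate r Sym.o ++ odds (mask (2 * r) e) = mask (2 * r) (e / 2) := by
  rw [mask, mask, show 2 * r - e = 2 * (r - e / 2) by omega, odds_replicate_append]
  conv_lhs => rw [show List.replicate e Sym.i = List.replicate (2 * (e / 2)) Sym.i by rw [hev]]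
  rw [odds_replicate, ← List.append_assoc, ← List.replicate_add]
  congr 2; omega

theorem high_mask {r e : ℕ} (he : e ≤ 2 * r) (hev : 2 * (e / 2) = e) :
    odds (mask (2 * r) e) ++ List.replicate r Sym.i = mask (2 * r) (e / 2 + r) := by
  rw [mask, mask, show 2 * r - e = 2 * (r - e / 2) by omega, odds_replicate_append]
  conv_lhs => rw [show List.replicate e Sym.i = List.replicate (2 * (e / 2)) Sym.i by rw [hev]]
  rw [odds_replicate, List.append_assoc, ← List.replicate_add]
  congr 2; omega

theorem lowM_spec {r : ℕ} (l sm0 : List Sym) (hl : ∀ s ∈ l, isC s = false)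
    (hlen : l.length = 2 * r) (m : Mem O)
    (h1 : m.sm = l ++ .c :: sm0) :
    RM E lowM m (m.set .sm ((List.replicate r .o ++ odds l) ++ .c :: (l ++ .c :: sm0)))
      (16 * r + 20) := by
  have hr : (l.length + 1) / 2 = r := by omega
  obtain ⟨pa, pb, pc, sh, sm, sk, sw, se, t1, t2, t3, t4, t5, t6, t7, t8, o⟩ := m
  simp only at h1
  subst h1
  unfold lowM
  simp only [sq]
  refine RM.mono (RM.seq (push_m .t1 .c _) (RM.seq (push_m .t2 .c _) (RM.seq (push_m .t3 .c _)
    (RM.seq ((pass_m (X := .sm) (Y1 := .t1) (Y2 := .t2) (Y3 := .t3) (by nofun) (by nofun)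
      (by nofun) (by nofun) (by nofun) (by nofun) hl (t := .c) rfl (rest := sm0) rfl).cast
      (by rw [outs_copy, outs_sndT, outs_fst, hr])) (RM.seq
    (revC_m (X := .t1) (Y := .sm) (by nofun) (l := l.reverse) (isC_rev hl) (rest := t1) rfl)
    (RM.seq
    (revC_m (X := .t2) (Y := .sm) (by nofun) (l := (odds l).reverse)
      (isC_rev (fun s hs => hl s (odds_mem l s hs))) (rest := t2) rfl)
    ((mv_m (X := .t3) (Y := .sm) (by nofun) (l := (List.replicate r Sym.o).reverse)
      (t := .c) (fun s hs => by
        rw [List.reverse_replicate] at hs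
        rw [List.eq_of_mem_replicate hs]; rfl) rfl (rest := t3) rfl).cast ?_)))))))
    ?_
  · simp [Mem.set, Mem.get]
  · simp only [List.length_reverse, odds_length, hlen, List.length_replicate]; omega

theorem highM_spec {r : ℕ} (l sm0 : List Sym) (hl : ∀ s ∈ l, isC s = false)
    (hlen : l.length = 2 * r) (m : Mem O)
    (h1 : m.sm = l ++ .c :: sm0) :
    RM E highM m (m.set .sm ((odds l ++ List.replicate r .i) ++ .c :: (l ++ .c :: sm0)))
      (16 * r + 20) := by
  have hr : (l.length + 1) / 2 = r := by omega
  obtain ⟨pa, pb, pc, sh, sm, sk, sw, se, t1, t2, t3, t4, t5, t6, t7, t8, o⟩ := m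
  simp only at h1
  subst h1
  unfold highM
  simp only [sq]
  refine RM.mono (RM.seq (push_m .t1 .c _) (RM.seq (push_m .t2 .c _) (RM.seq (push_m .t3 .c _)
    (RM.seq ((pass_m (X := .sm) (Y1 := .t1) (Y2 := .t2) (Y3 := .t3) (by nofun) (by nofun)
      (by nofun) (by nofun) (by nofun) (by nofun) hl (t := .c) rfl (rest := sm0) rfl).cast
      (by rw [outs_copy, outs_sndT, outs_fst, hr])) (RM.seq
    (revC_m (X := .t1) (Y := .sm) (by nofun) (l := l.reverse) (isC_rev hl) (rest := t1) rfl)
    (RM.seq
    (revC_m (X := .t3) (Y := .sm) (by nofun) (l := (List.replicate r Sym.i).reverse)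
      (fun s hs => by
        rw [List.reverse_replicate] at hs
        rw [List.eq_of_mem_replicate hs]; rfl) (rest := t3) rfl)
    ((mv_m (X := .t2) (Y := .sm) (by nofun) (l := (odds l).reverse)
      (t := .c) (isC_rev (fun s hs => hl s (odds_mem l s hs))) rfl (rest := t2)
      rfl).cast ?_)))))))
    ?_
  · simp [Mem.set, Mem.get]
  · simp only [List.length_reverse, odds_length, hlen, List.length_replicate]; omega

theorem halfSh_spec {h' : ℕ} (sh0 : List Sym) (m : Mem O)
    (h1 : m.sh = List.replicate (2 * h') .m ++ .c :: sh0) :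
    RM E halfSh m (m.set .sh (List.replicate h' .m ++ .c ::
      (List.replicate (2 * h') .m ++ .c :: sh0))) (12 * h' + 20) := by
  obtain ⟨pa, pb, pc, sh, sm, sk, sw, se, t1, t2, t3, t4, t5, t6, t7, t8, o⟩ := m
  simp only at h1
  subst h1
  unfold halfSh
  simp only [sq]
  refine RM.mono (RM.seq (push_m .t1 .c _) (RM.seq (push_m .t2 .c _)
    (RM.seq ((tr2_m (X := .sh) (Y := .t1) (Y' := .t2) (by nofun) (by nofun)
      (by nofun) (by nofun) (by nofun) (by nofun) (marks_isC _) (t := .c) rfl
      (rest := sh0) rfl).cast
      (by rw [outs_copy, outs_sndT, odds_replicate]))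
    (RM.seq
    (revC_m (X := .t1) (Y := .sh) (by nofun) (l := (List.replicate (2 * h') .m).reverse)
      (isC_rev (marks_isC _)) (rest := t1) rfl)
    ((revC_m (X := .t2) (Y := .sh) (by nofun) (l := (List.replicate h' .m).reverse)
      (isC_rev (marks_isC _)) (rest := t2) rfl).cast ?_)))))
    ?_
  · simp [Mem.set, Mem.get]
  · simp only [List.length_replicate, List.length_reverse]; omega

end Pool.Agent.Helper62
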