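import Mathlib
import Pool.Agent.Helper62.Spec3
import Pool.Agent.Helper62.Func5

/-!
Specification of the fused recursion.
-/

set_option autoImplicit false
set_option linter.unusedSectionVars false

namespace Pool.Agent.Helper62

variable {O : Type} [DecidableEq O] {E : Pr → C O}

theorem call_m {q : Pr} {m m' : Mem O} {B : ℕ} (h : RM E (E q) m m' B) :
    RM E (.call q) m m' (B + 2) := R.call h

theorem ifTop_true_m {X : WW O} {p : Option Sym → Bool} {c₁ c₂ : C O} {m m' : Mem O}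
    {B : ℕ} (hp : p (m.get X).head? = true) (h : RM E c₁ m m' B) :
    RM E (ifTop X p c₁ c₂) m m' (B + 1) := R.ifTop_true hp h

theorem ifTop_false_m {X : WW O} {p : Option Sym → Bool} {c₁ c₂ : C O} {m m' : Mem O}
    {B : ℕ} (hp : p (m.get X).head? = false) (h : RM E c₂ m m' B) :
    RM E (ifTop X p c₁ c₂) m m' (B + 1) := R.ifTop_false hp h

/-- specification of `nega` -/
def NegaOK (E : Pr → C O) (w k T : ℕ) : Prop :=
  ∀ (a b : Block) (sk0 ra rb rc : List Sym) (m : Mem O), WfB (2 ^ k) w a → WfB (2 ^ k) w b →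
    m.sk = List.replicate (k - 2) .m ++ .c :: sk0 → m.pa = body [a] ++ .e :: ra →
    m.pb = body [b] ++ .e :: rb → m.pc = rc →
    RM E (E .nega) m
      (((m.set .pa ra).set .pb rb).set .pc (body [negaF k a b] ++ .e :: rc)) T

/-- time of `conv` -/
def Tconv (T K w h : ℕ) : ℕ := 2 ^ h * (T + 12) + 600 * (h * (2 ^ h * (K * (w + 2))))

theorem conv_spec (hE : E .conv = convC) {w k T r : ℕ} (hr : 2 ^ k = 2 * r)
    (hN : NegaOK E w k T) (h e : ℕ)
    (he : e < 2 * r) (hd : 2 ^ h ∣ 2 * e) (hd' : 2 ^ h ∣ 4 * r)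
    (A B : Arr) (hA : WfA (2 ^ h) (2 * r) w A) (hB : WfA (2 ^ h) (2 * r) w B)
    (sk0 sh0 sm0 ra rb rc : List Sym) (m : Mem O)
    (h1 : m.sk = List.replicate (k - 2) .m ++ .c :: sk0)
    (h2 : m.sh = List.replicate (2 ^ h) .m ++ .c :: sh0)
    (h3 : h ≠ 0 → m.sm = mask (2 * r) e ++ .c :: sm0)
    (h4 : m.pa = body A ++ .e :: ra) (h5 : m.pb = body B ++ .e :: rb) (h6 : m.pc = rc) :
    RM E (E .conv) m
      (((m.set .pa ra).set .pb rb).set .pc (body (convF (negaF k) r h e A B) ++ .e :: rc))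
      (Tconv T (2 * r) w h) := by
  have hwN := wf_negaF (w := w) k
  rw [hr] at hwN
  induction h generalizing e A B sh0 sm0 ra rb rc m with
  | zero =>
    obtain ⟨hA1, hA2⟩ := hA
    obtain ⟨hB1, hB2⟩ := hB
    rw [pow_zero] at hA1 hB1
    obtain ⟨a, rfl⟩ := List.length_eq_one_iff.1 hA1
    obtain ⟨b, rfl⟩ := List.length_eq_one_iff.1 hB1
    obtain ⟨pa, pb, pc, sh, sm, sk, sw, se, t1, t2, t3, t4, t5, t6, t7, t8, o⟩ := m
    simp only [pow_zero] at h1 h2 h4 h5 h6
    subst h1 h2 h4 h5 h6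
    rw [hE]
    unfold convC
    simp only [sq]
    refine RM.mono (RM.seq (pop_m .sh _) (ifTop_true_m rfl (RM.seq (push_m .sh .m _)
      ((call_m (hN a b sk0 ra rb pc _ ?_ ?_ rfl rfl rfl rfl)).cast ?_)))) ?_
    · rw [hr]; exact hA2 a (by simp)
    · rw [hr]; exact hB2 b (by simp)
    · simp [Mem.set, Mem.get, convF]
    · simp only [Tconv, pow_zero]; omega
  | succ h ih =>
    have hA0 := hA
    have hB0 := hB
    rw [pow_succ, mul_two] at hA0 hB0
    obtain ⟨hA1, hA2, hA3⟩ := hA.halves (e := e) (by omega)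
    obtain ⟨hB1, hB2, hB3⟩ := hB.halves (e := e) (by omega)
    have hle : 2 ^ h ∣ e := by
      rw [pow_succ, mul_comm] at hd
      exact (Nat.mul_dvd_mul_iff_left (by norm_num)).1 hd
    have hle' : 2 ^ h ∣ 2 * r := by
      rw [pow_succ, mul_comm, show 4 * r = 2 * (2 * r) by ring] at hd'
      exact (Nat.mul_dvd_mul_iff_left (by norm_num)).1 hd'
    have hev : h ≠ 0 → 2 * (e / 2) = e := by
      intro h0
      have : 2 ∣ e := (dvd_pow_self 2 h0).trans hle
      omega
    have hdiv1 : 2 ^ h ∣ 2 * (e / 2) := by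
      rcases eq_or_ne h 0 with h0 | h0
      · subst h0; simp
      · rw [hev h0]; exact hle
    have hdiv2 : 2 ^ h ∣ 4 * r := by
      have : (4 : ℕ) * r = 2 * (2 * r) := by ring
      rw [this]; exact hle'.mul_left 2
    have hdiv3 : 2 ^ h ∣ 2 * (e / 2 + r) := by
      rw [mul_add]; exact dvd_add hdiv1 hle'
    have h3' := h3 (by omega)
    have hP := wf_convF hwN h (e / 2) (Or.inl (by omega)) (hA1.add hA3) (hB1.add hB3)
    have hQ := wf_convF hwN h (e / 2 + r) (Or.inl (by omega)) (hA1.sub hA3) (hB1.sub hB3)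
    have hlm : (mask (2 * r) e).length = 2 * r := mask_length (by omega)
    have hpow : 0 < 2 ^ h := by positivity
    obtain ⟨N, hN'⟩ : ∃ N, 2 * 2 ^ h = N + 1 + 1 := ⟨2 * 2 ^ h - 2, by omega⟩
    obtain ⟨pa, pb, pc, sh, sm, sk, sw, se, t1, t2, t3, t4, t5, t6, t7, t8, o⟩ := m
    simp only at h1 h2 h3' h4 h5 h6
    rw [pow_succ, mul_comm (2 ^ h) 2] at h2
    clear h3
    subst h1 h3' h4 h5 h6
    have hsh : sh = .m :: .m :: (List.replicate N .m ++ .c :: sh0) := by
      rw [h2, hN', List.replicate_succ, List.replicate_succ]; rfl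
    rw [hE]
    unfold convC
    simp only [sq]
    have hl1 : ∀ s ∈ List.replicate r Sym.o ++ odds (mask (2 * r) e), isC s = false := by
      intro s hs
      rcases List.mem_append.1 hs with hs | hs
      · rw [List.eq_of_mem_replicate hs]; rfl
      · exact mask_isC _ _ s (odds_mem _ s hs)
    have hl2 : ∀ s ∈ odds (mask (2 * r) e) ++ List.replicate r Sym.i, isC s = false := by
      intro s hs
      rcases List.mem_append.1 hs with hs | hs
      · exact mask_isC _ _ s (odds_mem _ s hs)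
      · rw [List.eq_of_mem_replicate hs]; rfl
    have hll1 : (List.replicate r Sym.o ++ odds (mask (2 * r) e)).length = 2 * r := by
      rw [List.length_append, List.length_replicate, odds_length, hlm]; omega
    have hll2 : (odds (mask (2 * r) e) ++ List.replicate r Sym.i).length = 2 * r := by
      rw [List.length_append, List.length_replicate, odds_length, hlm]; omega
    subst hsh
    refine RM.mono (RM.seq (pop_m .sh _) (ifTop_false_m rfl (RM.seq (push_m .sh .m _) (RM.seq
      (halfSh_spec (h' := 2 ^ h) sh0 _ h2) (RM.seq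
      (fwd_spec_pa hA0 (by omega) sm0 (List.replicate (2 * 2 ^ h) .m ++ .c :: sh0) ra _ rfl rfl
        rfl) (RM.seq
      (fwd_spec_pb hB0 (by omega) sm0 (List.replicate (2 * 2 ^ h) .m ++ .c :: sh0) rb _ rfl rfl
        rfl) (RM.seq
      (lowM_spec (mask (2 * r) e) sm0 (mask_isC _ _) hlm _ rfl) (RM.seq
      (call_m (ih (e / 2) (by omega) hdiv1 hdiv2 _ _ (hA1.add hA3) (hB1.add hB3)
        (List.replicate (2 * 2 ^ h) .m ++ .c :: sh0) (mask (2 * r) e ++ .c :: sm0)
        _ _ _ _ rfl rfl (fun h0 => by rw [← low_mask (by omega) (hev h0)]; rfl) rfl rfl rfl))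
      (RM.seq
      (dropC_m (X := .sm) hl1 (rest := mask (2 * r) e ++ .c :: sm0) rfl) (RM.seq
      (highM_spec (mask (2 * r) e) sm0 (mask_isC _ _) hlm _ rfl) (RM.seq
      (call_m (ih (e / 2 + r) (by omega) hdiv3 hdiv2 _ _ (hA1.sub hA3) (hB1.sub hB3)
        (List.replicate (2 * 2 ^ h) .m ++ .c :: sh0) (mask (2 * r) e ++ .c :: sm0)
        _ _ _ _ rfl rfl (fun h0 => by rw [← high_mask (by omega) (hev h0)]; rfl) rfl rfl rfl))
      (RM.seq
      (dropC_m (X := .sm) hl2 (rest := mask (2 * r) e ++ .c :: sm0) rfl) (RM.seq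
      (inv_spec hP hQ (by omega) sm0 pc _ rfl rfl)
      ((dropC_m (X := .sh) (l := List.replicate (2 ^ h) .m) (marks_isC _)
        (rest := List.replicate (2 * 2 ^ h) .m ++ .c :: sh0) rfl).cast ?_)))))))))))))) ?_
    · simp [Mem.set, Mem.get, convF]
      exact h2.symm
    · rw [hll1, hll2, List.length_replicate]
      have hr1 : 1 ≤ r := by
        rcases Nat.eq_zero_or_pos r with h0 | h0
        · exfalso
          rw [h0, mul_zero] at hr
          exact absurd hr (by positivity)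
        · exact h0
      obtain ⟨p, hp⟩ : ∃ p, p = 2 ^ h := ⟨_, rfl⟩
      obtain ⟨u, hu⟩ : ∃ u, u = w + 2 := ⟨_, rfl⟩
      simp only [Tconv, pow_succ, ← hp, ← hu]
      rw [← hp] at hpow
      have hu2 : 2 ≤ u := by omega
      have a1 : 2 * p ≤ p * r * u := by
        calc 2 * p = p * 1 * 2 := by ring
          _ ≤ p * r * u := Nat.mul_le_mul (Nat.mul_le_mul le_rfl hr1) hu2
      have a2 : 2 * r ≤ p * r * u := by
        calc 2 * r = 1 * r * 2 := by ring
          _ ≤ p * r * u := Nat.mul_le_mul (Nat.mul_le_mul hpow le_rfl) hu2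
      have a3 : 1 * 1 * 2 ≤ p * r * u := Nat.mul_le_mul (Nat.mul_le_mul hpow hr1) hu2
      nlinarith [a1, a2, a3]

end Pool.Agent.Helper62
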