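import Mathlib
import Pool.Agent.Helper62.Spec4

/-!
Doubling loops, padding.
-/

set_option autoImplicit false
set_option linter.unusedSectionVars false

namespace Pool.Agent.Helper62

variable {O : Type} [DecidableEq O] {E : Pr → C O}

theorem forD_nil_m {M : WW O} {b : C O} {m : Mem O} {rest : List Sym}
    (hS : m.get M = .c :: rest) : RM E (forD M b) m (m.set M rest) 1 := by
  rw [RM, Mem.get_set]
  intro r i o
  exact ⟨{ r with x := some .c }, Runs.loop_done (by simp [runOps, Op.run, hS]) rfl⟩

theorem forD_cons_m {M : WW O} {b : C O} {m m' m'' : Mem O} {s : Sym} {l : List Sym}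
    {B₁ B₂ : ℕ} (hS : m.get M = s :: l) (hs : isC s = false)
    (h : RM E b (m.set M l) m' B₁) (h' : RM E (forD M b) m' m'' B₂) :
    RM E (forD M b) m m'' (B₁ + B₂ + 1) := by
  rw [RM, Mem.get_set] at h
  intro r i o
  obtain ⟨r', h⟩ := h { r with x := some s } i o
  obtain ⟨r'', h'⟩ := h' r' i o
  exact ⟨r'', Runs.loop_step (by simp [runOps, Op.run, hS]) (by simp [goOn, hs]) h h'⟩

theorem dup_replicate (n : ℕ) (s : Sym) :
    (List.replicate n s).flatMap (fun s => [s, s]) = List.replicate (2 * n) s := by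
  induction n with
  | zero => rfl
  | succ n ih =>
    rw [show 2 * (n + 1) = 2 * n + 1 + 1 by ring, List.replicate_succ, List.flatMap_cons, ih,
      List.replicate_succ, List.replicate_succ]
    rfl

theorem dup_mask (n e : ℕ) :
    (mask n e).flatMap (fun s => [s, s]) = mask (2 * n) (2 * e) := by
  rw [mask, List.flatMap_append, dup_replicate, dup_replicate, mask, Nat.mul_sub]

theorem dup_isC {l : List Sym} (h : ∀ s ∈ l, isC s = false) :
    ∀ s ∈ l.flatMap (fun s => [s, s]), isC s = false := by
  intro s hs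
  simp only [List.mem_flatMap, List.mem_cons, List.not_mem_nil, or_false, or_self] at hs
  obtain ⟨x, hx, rfl⟩ := hs
  exact h _ hx

theorem dup_length (l : List Sym) : (l.flatMap (fun s => [s, s])).length = 2 * l.length := by
  induction l with
  | nil => rfl
  | cons a l ih => rw [List.flatMap_cons, List.length_append, ih]; simp; ring

theorem dbl_sh_spec {l rest : List Sym} (hl : ∀ s ∈ l, isC s = false) (m : Mem O)
    (h : m.sh = l ++ .c :: rest) :
    RM E (dbl .sh) m (m.set .sh (l.flatMap (fun s => [s, s]) ++ .c :: rest))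
      (6 * l.length + 4) := by
  obtain ⟨pa, pb, pc, sh, sm, sk, sw, se, t1, t2, t3, t4, t5, t6, t7, t8, o⟩ := m
  simp only at h
  subst h
  unfold dbl
  simp only [sq]
  refine RM.mono (RM.seq (push_m .t6 .c _) (RM.seq
    (mvd_m (X := .sh) (Y := .t6) (by nofun) hl (t := .c) rfl (rest := rest) rfl)
    ((revC_m (X := .t6) (Y := .sh) (by nofun) (l := (l.flatMap (fun s => [s, s])).reverse)
      (isC_rev (dup_isC hl)) (rest := t6) rfl).cast ?_))) ?_
  · simp [Mem.set, Mem.get]
  · rw [List.length_reverse, dup_length]; omega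

theorem dbl_sm_spec {l rest : List Sym} (hl : ∀ s ∈ l, isC s = false) (m : Mem O)
    (h : m.sm = l ++ .c :: rest) :
    RM E (dbl .sm) m (m.set .sm (l.flatMap (fun s => [s, s]) ++ .c :: rest))
      (6 * l.length + 4) := by
  obtain ⟨pa, pb, pc, sh, sm, sk, sw, se, t1, t2, t3, t4, t5, t6, t7, t8, o⟩ := m
  simp only at h
  subst h
  unfold dbl
  simp only [sq]
  refine RM.mono (RM.seq (push_m .t6 .c _) (RM.seq
    (mvd_m (X := .sm) (Y := .t6) (by nofun) hl (t := .c) rfl (rest := rest) rfl)
    ((revC_m (X := .t6) (Y := .sm) (by nofun) (l := (l.flatMap (fun s => [s, s])).reverse)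
      (isC_rev (dup_isC hl)) (rest := t6) rfl).cast ?_))) ?_
  · simp [Mem.set, Mem.get]
  · rw [List.length_reverse, dup_length]; omega

theorem dblLoop_sh {H : ℕ} (hH : 0 < H) (j : ℕ) (rest r2 : List Sym) (m : Mem O)
    (h : m.sh = List.replicate H .m ++ .c :: rest)
    (h2 : m.t2 = List.replicate j .m ++ .c :: r2) :
    RM E (forD .t2 (dbl .sh)) m
      ((m.set .t2 r2).set .sh (List.replicate (H * 2 ^ j) .m ++ .c :: rest))
      (12 * (H * 2 ^ j) - 11 * H) := by
  induction j generalizing H m with
  | zero =>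
    refine ((forD_nil_m (M := .t2) (m := m) (rest := r2) h2).cast ?_).mono (by
      rw [pow_zero]; omega)
    cases m; simp only at h; simp [Mem.set, h]
  | succ j ih =>
    obtain ⟨pa, pb, pc, sh, sm, sk, sw, se, t1, t2, t3, t4, t5, t6, t7, t8, o⟩ := m
    simp only at h h2
    rw [List.replicate_succ] at h2
    subst h h2
    have e1 : H * 2 ^ (j + 1) = 2 * H * 2 ^ j := by rw [pow_succ]; ring
    refine RM.mono (RM.cast (forD_cons_m (M := .t2) (s := .m)
      (l := List.replicate j .m ++ .c :: r2) rfl rfl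
      ((dbl_sh_spec (marks_isC H) _ rfl).cast (by rw [dup_replicate]))
      (ih (H := 2 * H) (by omega) _ rfl rfl)) ?_) ?_
    · rw [e1]; simp [Mem.set]
    · rw [List.length_replicate, e1]
      have h1 : 2 * H ≤ 2 * H * 2 ^ j := Nat.le_mul_of_pos_right _ (by positivity)
      omega

theorem dblLoop_sm {ρ : ℕ} (hρ : 0 < ρ) (j : ℕ) (rest r3 : List Sym) (m : Mem O)
    (h : m.sm = mask (2 * ρ) ρ ++ .c :: rest)
    (h3 : m.t3 = List.replicate j .m ++ .c :: r3) :
    RM E (forS .t3 .sk (dbl .sm) (dbl .sm)) m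
      (((m.set .t3 r3).set .sk (List.replicate j .m ++ m.sk)).set .sm
        (mask (2 * (ρ * 2 ^ j)) (ρ * 2 ^ j) ++ .c :: rest))
      (24 * (ρ * 2 ^ j) - 20 * ρ) := by
  induction j generalizing ρ m with
  | zero =>
    refine ((forS_nil_m (M := .t3) (m := m) (rest := r3) h3).cast ?_).mono (by
      rw [pow_zero]; omega)
    cases m; simp only at h; simp [Mem.set, h]
  | succ j ih =>
    obtain ⟨pa, pb, pc, sh, sm, sk, sw, se, t1, t2, t3, t4, t5, t6, t7, t8, o⟩ := m
    simp only at h h3
    rw [List.replicate_succ] at h3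
    subst h h3
    have e1 : ρ * 2 ^ (j + 1) = 2 * ρ * 2 ^ j := by rw [pow_succ]; ring
    refine RM.mono (RM.cast (forS_i_m (M := .t3) (M' := .sk) (bO := dbl .sm) (s := .m)
      (l := List.replicate j .m ++ .c :: r3) (by nofun) rfl (by nofun) (by nofun)
      ((dbl_sm_spec (mask_isC (2 * ρ) ρ) _ rfl).cast (by rw [dup_mask]))
      (ih (ρ := 2 * ρ) (by omega) _ rfl rfl)) ?_) ?_
    · rw [e1]; simp [Mem.set, Mem.get, rep_shift]
    · rw [mask_length (by omega), e1]
      have h1 : 2 * ρ ≤ 2 * ρ * 2 ^ j := Nat.le_mul_of_pos_right _ (by positivity)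
      omega

/-! ### padding -/

/-- block of zeros -/
def ZB (n w : ℕ) : Block := List.replicate n (List.replicate w false)

theorem zeroBl_eq {n w : ℕ} {B : Block} (h : WfB n w B) : zeroBl B = ZB n w := by
  rw [ZB, List.eq_replicate_iff]
  refine ⟨by rw [zeroBl, List.length_map, h.1], ?_⟩
  intro x hx
  obtain ⟨y, hy, rfl⟩ := List.mem_map.1 hx
  rw [zeroB, List.eq_replicate_iff]
  refine ⟨by rw [List.length_map, h.2 y hy], ?_⟩
  intro b hb
  obtain ⟨-, -, rfl⟩ := List.mem_map.1 hb
  rfl

theorem ZB_succ (n w : ℕ) : ZB (n + 1) w = List.replicate w false :: ZB n w := rfl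

theorem ZB_snoc (n w : ℕ) : ZB n w ++ [List.replicate w false] = ZB (n + 1) w := by
  rw [ZB, ZB, List.replicate_succ']

theorem outs_zero_bits (x : Coef) (a : Bool) :
    outs fId gZero a (x.map bit) = List.replicate x.length .o := by
  induction x with
  | nil => rfl
  | cons b x ih => cases b <;> simp [outs, gZero, fId, bit, ih, List.replicate_succ]

theorem padI_loop (n : ℕ) {w : ℕ} (P : C O) (sm0 t20 : List Sym) (m : Mem O)
    (h1 : m.sm = List.replicate n .i ++ .c :: sm0) (h2 : m.t2 = flat (ZB n w) ++ t20) :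
    RM E (forS .sm .t5 P (mvc .t2 .t4)) m
      ((((m.set .sm sm0).set .t2 t20).set .t4 ((flat (ZB n w)).reverse ++ m.t4)).set .t5
        (List.replicate n .i ++ m.t5))
      (n * (2 * w + 7) + 1) := by
  induction n generalizing m with
  | zero =>
    refine ((forS_nil_m (M := .sm) (m := m) (rest := sm0) h1).cast ?_).mono (by simp)
    cases m
    simp only [ZB, List.replicate_zero, flat_nil, List.nil_append] at h2
    simp [Mem.set, ZB, flat_nil, h2]
  | succ n ih =>
    rw [ZB_succ, flat_cons, List.append_assoc, List.cons_append] at h2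
    rw [List.replicate_succ] at h1
    obtain ⟨pa, pb, pc, sh, sm, sk, sw, se, t1, t2, t3, t4, t5, t6, t7, t8, o⟩ := m
    simp only at h1 h2
    subst h1 h2
    refine RM.mono (RM.cast (forS_i_m (M := .sm) (M' := .t5) (bO := P) (s := .i)
      (l := List.replicate n .i ++ .c :: sm0) (by nofun) rfl (by nofun) (by nofun)
      (mvc_m (X := .t2) (Y := .t4) (by nofun) (bits_isC (List.replicate w false)) rfl)
      (ih _ rfl rfl)) ?_) ?_
    · have : List.replicate n Sym.i ++ Sym.i :: t5 = List.replicate (n + 1) Sym.i ++ t5 := by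
        rw [List.replicate_succ', List.append_assoc]; rfl
      simp [Mem.set, Mem.get, ZB_succ, flat_cons, this]
    · simp only [List.length_map, List.length_replicate]; ring_nf; omega

theorem padO_spec_pa {w : ℕ} (x : Coef) (hx : x.length = w) (rest : List Sym) (m : Mem O)
    (h : m.pa = x.map bit ++ .c :: rest) :
    RM E (sq [psh .t2 .c, tr2 .pa .t4 .t2 isC fId gCopy gZero, psh .t4 .c]) m
      (((m.set .pa rest).set .t4 ((x.map bit ++ [Sym.c]).reverse ++ m.t4)).set .t2
        ((List.replicate w false).map bit ++ .c :: m.t2)) (2 * w + 4) := by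
  obtain ⟨pa, pb, pc, sh, sm, sk, sw, se, t1, t2, t3, t4, t5, t6, t7, t8, o⟩ := m
  simp only at h
  subst h
  simp only [sq]
  refine RM.mono (RM.seq (push_m .t2 .c _) (RM.seq
    (tr2_m (X := .pa) (Y := .t4) (Y' := .t2) (by nofun) (by nofun) (by nofun) (by nofun)
      (by nofun) (by nofun) (bits_isC x) (t := .c) rfl (rest := rest) rfl)
    ((push_m .t4 .c _).cast ?_))) ?_
  · rw [outs_copy, outs_zero_bits]
    simp [Mem.set, Mem.get, hx, bit]
  · rw [List.length_map, hx]; omega

theorem padM_loop_pa {w : ℕ} (n p : ℕ) (B : Block) (hB : WfB n w B) (sm0 rest t20 : List Sym)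
    (m : Mem O) (h1 : m.sm = List.replicate n .o ++ (List.replicate (p + n) .i ++ .c :: sm0))
    (h2 : m.pa = flat B ++ rest) (h3 : m.t2 = flat (ZB p w) ++ t20) :
    RM E (forS .sm .t5 (sq [psh .t2 .c, tr2 .pa .t4 .t2 isC fId gCopy gZero, psh .t4 .c])
      (mvc .t2 .t4)) m
      (((((m.set .sm sm0).set .t2 t20).set .pa rest).set .t4
        ((flat (B ++ ZB (p + n) w)).reverse ++ m.t4)).set .t5
        (List.replicate (p + n) .i ++ (List.replicate n .o ++ m.t5)))
      ((p + 2 * n) * (2 * w + 7) + 1) := by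
  induction n generalizing p B m with
  | zero =>
    obtain rfl : B = [] := by simpa using hB.1
    refine ((padI_loop p _ sm0 t20 m h1 h3).cast ?_).mono (by
      simp)
    cases m
    simp only [flat_nil, List.nil_append] at h2
    simp [Mem.set, h2]
  | succ n ih =>
    obtain ⟨hB1, hB2⟩ := hB
    cases B with
    | nil => simp at hB1
    | cons x B =>
      have hx : x.length = w := hB2 x (by simp)
      rw [flat_cons, List.append_assoc, List.cons_append] at h2
      rw [List.replicate_succ, show p + (n + 1) = p + 1 + n by ring] at h1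
      obtain ⟨pa, pb, pc, sh, sm, sk, sw, se, t1, t2, t3, t4, t5, t6, t7, t8, o⟩ := m
      simp only at h1 h2 h3
      subst h1 h2 h3
      refine RM.mono (RM.cast (forS_o_m (M := .sm) (M' := .t5) (bI := mvc .t2 .t4)
        (l := List.replicate n .o ++ (List.replicate (p + 1 + n) .i ++ .c :: sm0)) (by nofun)
        rfl (padO_spec_pa x hx (flat B ++ rest) _ rfl)
        (ih (p + 1) B ⟨by simpa using hB1, fun y hy => hB2 y (by simp [hy])⟩ _ rfl rfl
          (show _ = flat (List.replicate w false :: ZB p w) ++ t20 by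
            rw [flat_cons, List.append_assoc]; rfl))) ?_) ?_
      · have e1 : List.replicate n Sym.o ++ Sym.o :: t5 =
            List.replicate (n + 1) Sym.o ++ t5 := by
          rw [List.replicate_succ', List.append_assoc]; rfl
        have e2 : p + 1 + n = p + (n + 1) := by ring
        simp [Mem.set, Mem.get, flat_cons, e1, e2]
      · ring_nf; omega

theorem padO_spec_pb {w : ℕ} (x : Coef) (hx : x.length = w) (rest : List Sym) (m : Mem O)
    (h : m.pb = x.map bit ++ .c :: rest) :
    RM E (sq [psh .t2 .c, tr2 .pb .t4 .t2 isC fId gCopy gZero, psh .t4 .c]) m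
      (((m.set .pb rest).set .t4 ((x.map bit ++ [Sym.c]).reverse ++ m.t4)).set .t2
        ((List.replicate w false).map bit ++ .c :: m.t2)) (2 * w + 4) := by
  obtain ⟨pa, pb, pc, sh, sm, sk, sw, se, t1, t2, t3, t4, t5, t6, t7, t8, o⟩ := m
  simp only at h
  subst h
  simp only [sq]
  refine RM.mono (RM.seq (push_m .t2 .c _) (RM.seq
    (tr2_m (X := .pb) (Y := .t4) (Y' := .t2) (by nofun) (by nofun) (by nofun) (by nofun)
      (by nofun) (by nofun) (bits_isC x) (t := .c) rfl (rest := rest) rfl)
    ((push_m .t4 .c _).cast ?_))) ?_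
  · rw [outs_copy, outs_zero_bits]
    simp [Mem.set, Mem.get, hx, bit]
  · rw [List.length_map, hx]; omega

theorem padM_loop_pb {w : ℕ} (n p : ℕ) (B : Block) (hB : WfB n w B) (sm0 rest t20 : List Sym)
    (m : Mem O) (h1 : m.sm = List.replicate n .o ++ (List.replicate (p + n) .i ++ .c :: sm0))
    (h2 : m.pb = flat B ++ rest) (h3 : m.t2 = flat (ZB p w) ++ t20) :
    RM E (forS .sm .t5 (sq [psh .t2 .c, tr2 .pb .t4 .t2 isC fId gCopy gZero, psh .t4 .c])
      (mvc .t2 .t4)) m
      (((((m.set .sm sm0).set .t2 t20).set .pb rest).set .t4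
        ((flat (B ++ ZB (p + n) w)).reverse ++ m.t4)).set .t5
        (List.replicate (p + n) .i ++ (List.replicate n .o ++ m.t5)))
      ((p + 2 * n) * (2 * w + 7) + 1) := by
  induction n generalizing p B m with
  | zero =>
    obtain rfl : B = [] := by simpa using hB.1
    refine ((padI_loop p _ sm0 t20 m h1 h3).cast ?_).mono (by
      simp)
    cases m
    simp only [flat_nil, List.nil_append] at h2
    simp [Mem.set, h2]
  | succ n ih =>
    obtain ⟨hB1, hB2⟩ := hB
    cases B with
    | nil => simp at hB1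
    | cons x B =>
      have hx : x.length = w := hB2 x (by simp)
      rw [flat_cons, List.append_assoc, List.cons_append] at h2
      rw [List.replicate_succ, show p + (n + 1) = p + 1 + n by ring] at h1
      obtain ⟨pa, pb, pc, sh, sm, sk, sw, se, t1, t2, t3, t4, t5, t6, t7, t8, o⟩ := m
      simp only at h1 h2 h3
      subst h1 h2 h3
      refine RM.mono (RM.cast (forS_o_m (M := .sm) (M' := .t5) (bI := mvc .t2 .t4)
        (l := List.replicate n .o ++ (List.replicate (p + 1 + n) .i ++ .c :: sm0)) (by nofun)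
        rfl (padO_spec_pb x hx (flat B ++ rest) _ rfl)
        (ih (p + 1) B ⟨by simpa using hB1, fun y hy => hB2 y (by simp [hy])⟩ _ rfl rfl
          (show _ = flat (List.replicate w false :: ZB p w) ++ t20 by
            rw [flat_cons, List.append_assoc]; rfl))) ?_) ?_
      · have e1 : List.replicate n Sym.o ++ Sym.o :: t5 =
            List.replicate (n + 1) Sym.o ++ t5 := by
          rw [List.replicate_succ', List.append_assoc]; rfl
        have e2 : p + 1 + n = p + (n + 1) := by ring
        simp [Mem.set, Mem.get, flat_cons, e1, e2]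
      · ring_nf; omega

end Pool.Agent.Helper62
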