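import Mathlib
import Pool.Agent.Helper62.Spec5

/-!
Padding and its inverse.
-/

set_option autoImplicit false
set_option linter.unusedSectionVars false

namespace Pool.Agent.Helper62

variable {O : Type} [DecidableEq O] {E : Pr → C O}

theorem mask_half (r : ℕ) : mask (2 * r) r = List.replicate r .o ++ List.replicate r .i := by
  rw [mask]; congr 2; omega

theorem mask_half_rev (r : ℕ) :
    (mask (2 * r) r).reverse = List.replicate r .i ++ List.replicate r .o := by
  rw [mask_half]; simp

/-- body of the outer loop of `pad` -/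
def padBlk (P : WW O) : C O :=
  sq [psh .t5 .c, forS .sm .t5
        (sq [psh .t2 .c, tr2 P .t4 .t2 isC fId gCopy gZero, psh .t4 .c]) (mvc .t2 .t4),
        revC .t5 .sm, psh .t4 .d]

theorem padBlk_spec_pa {r w : ℕ} (B : Block) (hB : WfB r w B) (sm0 rest : List Sym)
    (m : Mem O) (h1 : m.sm = mask (2 * r) r ++ .c :: sm0)
    (h2 : m.pa = flat B ++ rest) :
    RM E (padBlk .pa) m
      ((m.set .pa rest).set .t4 ((flat (B ++ zeroBl B) ++ [Sym.d]).reverse ++ m.t4))
      (2 * r * (2 * w + 9) + 6) := by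
  obtain ⟨pa, pb, pc, sh, sm, sk, sw, se, t1, t2, t3, t4, t5, t6, t7, t8, o⟩ := m
  simp only at h1 h2
  subst h1 h2
  unfold padBlk
  simp only [sq]
  refine RM.mono (RM.seq (push_m .t5 .c _) (RM.seq
    (padM_loop_pa r 0 B hB sm0 rest t2 _ (show mask (2 * r) r ++ .c :: sm0 = _ by
      rw [mask_half, List.append_assoc, zero_add]) rfl rfl) (RM.seq
    (revC_m (X := .t5) (Y := .sm) (by nofun) (l := (mask (2 * r) r).reverse)
      (isC_rev (mask_isC _ _)) (rest := t5) (show List.replicate (0 + r) Sym.i ++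
        (List.replicate r Sym.o ++ .c :: t5) = _ by
          rw [mask_half_rev, List.append_assoc, zero_add]))
    ((push_m .t4 .d _).cast ?_)))) ?_
  · rw [zero_add, ← zeroBl_eq hB]
    simp [Mem.set, Mem.get]
  · rw [List.length_reverse, mask_length (by omega)]; ring_nf; omega

theorem padLoop_pa {r w : ℕ} (H : ℕ) (B : Block) (hB : WfB (H * r) w B)
    (sm0 sh0 rest : List Sym)
    (m : Mem O) (h1 : m.sm = mask (2 * r) r ++ .c :: sm0)
    (h2 : m.pa = flat B ++ rest) (h3 : m.sh = List.replicate H .m ++ .c :: sh0) :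
    RM E (forS .sh .t3 (padBlk .pa) (padBlk .pa)) m
      ((((m.set .sh sh0).set .pa rest).set .t4 ((body (padA r H B)).reverse ++ m.t4)).set .t3
        (List.replicate H .m ++ m.t3))
      (H * (2 * r * (2 * w + 9) + 9) + 1) := by
  induction H generalizing B m with
  | zero =>
    obtain rfl : B = [] := by simpa using hB.1
    refine ((forS_nil_m (M := .sh) (m := m) (rest := sh0) h3).cast ?_).mono (by simp)
    cases m
    simp only [flat_nil, List.nil_append] at h2
    simp [Mem.set, h2, padA, body_nil]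
  | succ H ih =>
    have hB1 := hB.take r (by rw [Nat.succ_mul]; omega)
    have hB2 := hB.drop r
    rw [show (H + 1) * r - r = H * r by rw [Nat.succ_mul]; omega] at hB2
    have hs : flat B = flat (B.take r) ++ flat (B.drop r) := by
      rw [← flat_append, List.take_append_drop]
    rw [hs, List.append_assoc] at h2
    rw [List.replicate_succ] at h3
    obtain ⟨pa, pb, pc, sh, sm, sk, sw, se, t1, t2, t3, t4, t5, t6, t7, t8, o⟩ := m
    simp only at h1 h2 h3
    subst h1 h2 h3
    refine RM.mono (RM.cast (forS_i_m (M := .sh) (M' := .t3) (bO := padBlk .pa) (s := .m)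
      (l := List.replicate H .m ++ .c :: sh0) (by nofun) rfl (by nofun) (by nofun)
      (padBlk_spec_pa (B.take r) hB1 sm0 _ _ rfl rfl)
      (ih (B.drop r) hB2 _ rfl rfl rfl)) ?_) ?_
    · simp [Mem.set, Mem.get, padA, body_cons, rep_shift]
    · ring_nf; omega

theorem pad_spec_pa {r w : ℕ} (H : ℕ) (B : Block) (hB : WfB (H * r) w B)
    (sm0 sh0 rest : List Sym)
    (m : Mem O) (h1 : m.sm = mask (2 * r) r ++ .c :: sm0)
    (h2 : m.pa = body [B] ++ .e :: rest) (h3 : m.sh = List.replicate H .m ++ .c :: sh0) :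
    RM E (pad .pa) m (m.set .pa (body (padA r H B) ++ .e :: rest))
      (20 * (H * (r * (w + 4))) + 20 * H + 20) := by
  have lp := body_length (wf_padA r H hB)
  have h2' : m.pa = flat B ++ (.d :: .e :: rest) := by
    rw [h2]; simp [body]
  clear h2
  obtain ⟨pa, pb, pc, sh, sm, sk, sw, se, t1, t2, t3, t4, t5, t6, t7, t8, o⟩ := m
  simp only at h1 h2' h3
  subst h1 h2' h3
  show RM E (sq [psh .t4 .e, psh .t3 .c, forS .sh .t3 (padBlk .pa) (padBlk .pa),
    revC .t3 .sh, pp .pa, pp .pa, revE .t4 .pa]) _ _ _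
  simp only [sq]
  refine RM.mono (RM.seq (push_m .t4 .e _) (RM.seq (push_m .t3 .c _) (RM.seq
    (padLoop_pa H B hB sm0 sh0 _ _ rfl rfl rfl) (RM.seq
    (revC_m (X := .t3) (Y := .sh) (by nofun) (l := List.replicate H .m)
      (marks_isC _) (rest := t3) rfl) (RM.seq
    (pop_m .pa _) (RM.seq
    (pop_m .pa _)
    ((revE_m (X := .t4) (Y := .pa) (by nofun) (l := (body (padA r H B)).reverse)
      (isE_rev (body_isE _)) (rest := t4) rfl).cast ?_))))))) ?_
  · simp [Mem.set, Mem.get]
  · rw [List.length_reverse, lp, List.length_replicate]; ring_nf; omega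

theorem padBlk_spec_pb {r w : ℕ} (B : Block) (hB : WfB r w B) (sm0 rest : List Sym)
    (m : Mem O) (h1 : m.sm = mask (2 * r) r ++ .c :: sm0)
    (h2 : m.pb = flat B ++ rest) :
    RM E (padBlk .pb) m
      ((m.set .pb rest).set .t4 ((flat (B ++ zeroBl B) ++ [Sym.d]).reverse ++ m.t4))
      (2 * r * (2 * w + 9) + 6) := by
  obtain ⟨pa, pb, pc, sh, sm, sk, sw, se, t1, t2, t3, t4, t5, t6, t7, t8, o⟩ := m
  simp only at h1 h2
  subst h1 h2
  unfold padBlk
  simp only [sq]
  refine RM.mono (RM.seq (push_m .t5 .c _) (RM.seq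
    (padM_loop_pb r 0 B hB sm0 rest t2 _ (show mask (2 * r) r ++ .c :: sm0 = _ by
      rw [mask_half, List.append_assoc, zero_add]) rfl rfl) (RM.seq
    (revC_m (X := .t5) (Y := .sm) (by nofun) (l := (mask (2 * r) r).reverse)
      (isC_rev (mask_isC _ _)) (rest := t5) (show List.replicate (0 + r) Sym.i ++
        (List.replicate r Sym.o ++ .c :: t5) = _ by
          rw [mask_half_rev, List.append_assoc, zero_add]))
    ((push_m .t4 .d _).cast ?_)))) ?_
  · rw [zero_add, ← zeroBl_eq hB]
    simp [Mem.set, Mem.get]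
  · rw [List.length_reverse, mask_length (by omega)]; ring_nf; omega

theorem padLoop_pb {r w : ℕ} (H : ℕ) (B : Block) (hB : WfB (H * r) w B)
    (sm0 sh0 rest : List Sym)
    (m : Mem O) (h1 : m.sm = mask (2 * r) r ++ .c :: sm0)
    (h2 : m.pb = flat B ++ rest) (h3 : m.sh = List.replicate H .m ++ .c :: sh0) :
    RM E (forS .sh .t3 (padBlk .pb) (padBlk .pb)) m
      ((((m.set .sh sh0).set .pb rest).set .t4 ((body (padA r H B)).reverse ++ m.t4)).set .t3
        (List.replicate H .m ++ m.t3))
      (H * (2 * r * (2 * w + 9) + 9) + 1) := by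
  induction H generalizing B m with
  | zero =>
    obtain rfl : B = [] := by simpa using hB.1
    refine ((forS_nil_m (M := .sh) (m := m) (rest := sh0) h3).cast ?_).mono (by simp)
    cases m
    simp only [flat_nil, List.nil_append] at h2
    simp [Mem.set, h2, padA, body_nil]
  | succ H ih =>
    have hB1 := hB.take r (by rw [Nat.succ_mul]; omega)
    have hB2 := hB.drop r
    rw [show (H + 1) * r - r = H * r by rw [Nat.succ_mul]; omega] at hB2
    have hs : flat B = flat (B.take r) ++ flat (B.drop r) := by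
      rw [← flat_append, List.take_append_drop]
    rw [hs, List.append_assoc] at h2
    rw [List.replicate_succ] at h3
    obtain ⟨pa, pb, pc, sh, sm, sk, sw, se, t1, t2, t3, t4, t5, t6, t7, t8, o⟩ := m
    simp only at h1 h2 h3
    subst h1 h2 h3
    refine RM.mono (RM.cast (forS_i_m (M := .sh) (M' := .t3) (bO := padBlk .pb) (s := .m)
      (l := List.replicate H .m ++ .c :: sh0) (by nofun) rfl (by nofun) (by nofun)
      (padBlk_spec_pb (B.take r) hB1 sm0 _ _ rfl rfl)
      (ih (B.drop r) hB2 _ rfl rfl rfl)) ?_) ?_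
    · simp [Mem.set, Mem.get, padA, body_cons, rep_shift]
    · ring_nf; omega

theorem pad_spec_pb {r w : ℕ} (H : ℕ) (B : Block) (hB : WfB (H * r) w B)
    (sm0 sh0 rest : List Sym)
    (m : Mem O) (h1 : m.sm = mask (2 * r) r ++ .c :: sm0)
    (h2 : m.pb = body [B] ++ .e :: rest) (h3 : m.sh = List.replicate H .m ++ .c :: sh0) :
    RM E (pad .pb) m (m.set .pb (body (padA r H B) ++ .e :: rest))
      (20 * (H * (r * (w + 4))) + 20 * H + 20) := by
  have lp := body_length (wf_padA r H hB)
  have h2' : m.pb = flat B ++ (.d :: .e :: rest) := by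
    rw [h2]; simp [body]
  clear h2
  obtain ⟨pa, pb, pc, sh, sm, sk, sw, se, t1, t2, t3, t4, t5, t6, t7, t8, o⟩ := m
  simp only at h1 h2' h3
  subst h1 h2' h3
  show RM E (sq [psh .t4 .e, psh .t3 .c, forS .sh .t3 (padBlk .pb) (padBlk .pb),
    revC .t3 .sh, pp .pb, pp .pb, revE .t4 .pb]) _ _ _
  simp only [sq]
  refine RM.mono (RM.seq (push_m .t4 .e _) (RM.seq (push_m .t3 .c _) (RM.seq
    (padLoop_pb H B hB sm0 sh0 _ _ rfl rfl rfl) (RM.seq
    (revC_m (X := .t3) (Y := .sh) (by nofun) (l := List.replicate H .m)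
      (marks_isC _) (rest := t3) rfl) (RM.seq
    (pop_m .pb _) (RM.seq
    (pop_m .pb _)
    ((revE_m (X := .t4) (Y := .pb) (by nofun) (l := (body (padA r H B)).reverse)
      (isE_rev (body_isE _)) (rest := t4) rfl).cast ?_))))))) ?_
  · simp [Mem.set, Mem.get]
  · rw [List.length_reverse, lp, List.length_replicate]; ring_nf; omega

/-! ### the inverse -/

def hiD (r : ℕ) (A : Arr) : List Sym := A.flatMap fun B => .d :: flat (B.drop r)

theorem hiD_append (r : ℕ) (A A' : Arr) : hiD r (A ++ A') = hiD r A ++ hiD r A' := by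
  simp [hiD]

theorem hiD_isE (r : ℕ) (A : Arr) : ∀ s ∈ hiD r A, isE s = false := by
  intro s hs
  simp only [hiD, List.mem_flatMap, List.mem_cons] at hs
  obtain ⟨x, -, rfl | h⟩ := hs
  · rfl
  · exact flat_isE _ s h

theorem outs_dropD_flat (B : Block) (rest : List Sym) :
    outs fId gDropD false (flat B ++ rest) = flat B ++ outs fId gDropD false rest := by
  induction B with
  | nil => rfl
  | cons x B ih =>
    rw [flat_cons, List.append_assoc, List.cons_append]
    have hx : ∀ rest, outs fId gDropD false (x.map bit ++ .c :: rest) =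
        x.map bit ++ .c :: outs fId gDropD false rest := by
      intro rest
      induction x with
      | nil => simp [outs, gDropD, fId]
      | cons b x ih => cases b <;> simp [outs, gDropD, fId, bit, ih]
    rw [hx, ih]
    simp

theorem outs_dropD (r : ℕ) (A : Arr) :
    outs fId gDropD false (hiD r A) = flat (hiA r A) := by
  induction A with
  | nil => rfl
  | cons B A ih =>
    have : hiD r (B :: A) = .d :: (flat (B.drop r) ++ hiD r A) := by simp [hiD]
    rw [this]
    have h2 : outs fId gDropD false (.d :: (flat (B.drop r) ++ hiD r A)) =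
      outs fId gDropD false (flat (B.drop r) ++ hiD r A) := by simp [outs, gDropD, fId]
    rw [h2, outs_dropD_flat, ih]
    simp [hiA, flat_append]

theorem hiD_length {H r w : ℕ} {A : Arr} (hA : WfA H (2 * r) w A) :
    (hiD r A).length = H * (r * (w + 1) + 1) := by
  obtain ⟨rfl, h⟩ := hA
  induction A with
  | nil => simp [hiD]
  | cons B A ih =>
    have h1 := (h B (by simp)).drop r
    rw [show 2 * r - r = r by omega] at h1
    have : hiD r (B :: A) = .d :: (flat (B.drop r) ++ hiD r A) := by simp [hiD]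
    rw [this, List.length_cons, List.length_append, ih fun x hx => h x (by simp [hx]),
      flat_length h1, List.length_cons]
    ring

/-- body of the loop of `unpad` -/
def unpadBlk : C O := sq [psh .t3 .d, routeB, pp .t1]

theorem unpadBlk_spec {r w : ℕ} (B : Block) (hB : WfB (2 * r) w B) (sm0 rest : List Sym)
    (m : Mem O) (h1 : m.sm = mask (2 * r) r ++ .c :: sm0)
    (h2 : m.t1 = flat B ++ .d :: rest) :
    RM E unpadBlk m
      (((m.set .t1 rest).set .t2 ((flat (B.take r)).reverse ++ m.t2)).set .t3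
        ((.d :: flat (B.drop r)).reverse ++ m.t3))
      (2 * r * (2 * w + 7) + 6) := by
  have hlen : (mask (2 * r) r).length = 2 * r := mask_length (by omega)
  obtain ⟨hs1, hs2⟩ := sel_mask hB.1 (show r ≤ 2 * r by omega)
  rw [show 2 * r - r = r by omega] at hs1 hs2
  obtain ⟨pa, pb, pc, sh, sm, sk, sw, se, t1, t2, t3, t4, t5, t6, t7, t8, o⟩ := m
  simp only at h1 h2
  subst h1 h2
  unfold unpadBlk
  simp only [sq]
  refine RM.mono (RM.seq (push_m .t3 .d _) (RM.seq
    (routeB_spec (w := w) (mask (2 * r) r) (mask_oi _ _) B (by rw [hlen]; exact hB) sm0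
      (.d :: rest) _ rfl rfl)
    ((pop_m .t1 _).cast ?_))) ?_
  · rw [hs1, hs2]
    simp [Mem.set, Mem.get]
  · rw [hlen]; omega

theorem unpadLoop {H r w : ℕ} (A : Arr) (hA : WfA H (2 * r) w A) (sm0 rest : List Sym)
    (m : Mem O) (h1 : m.sm = mask (2 * r) r ++ .c :: sm0)
    (h2 : m.t1 = body A ++ .e :: rest) :
    RM E (whileTop .t1 (notTop .e) unpadBlk) m
      (((m.set .t1 (.e :: rest)).set .t2 ((flat (loA r A)).reverse ++ m.t2)).set .t3
        ((hiD r A).reverse ++ m.t3))
      (H * (2 * r * (2 * w + 7) + 7) + 1) := by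
  obtain ⟨rfl, hA⟩ := hA
  induction A generalizing m with
  | nil =>
    have h2' : m.t1 = .e :: rest := h2
    refine ((R.while_done (S := m.get) (by simp [Mem.get, h2', notTop])).of_eq
      (congrArg _ ?_)).mono (by simp)
    cases m
    simp only at h2'
    simp [loA, hiD, flat_nil, h2', Mem.set]
  | cons B A ih =>
    rw [body_cons, List.append_assoc, List.cons_append] at h2
    obtain ⟨pa, pb, pc, sh, sm, sk, sw, se, t1, t2, t3, t4, t5, t6, t7, t8, o⟩ := m
    simp only at h1 h2
    subst h1 h2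
    refine RM.mono (RM.cast (R.while_step (X := (WW.t1 : WW O)) (p := notTop .e)
      notTop_flat_d (unpadBlk_spec B (hA B (by simp)) sm0 _ _ rfl rfl)
      (ih _ rfl rfl (fun x hx => hA x (by simp [hx])))) ?_) ?_
    · simp [loA, hiD, flat_append, Mem.set]
    · simp only [List.length_cons]; ring_nf; omega

theorem unpad_spec {H r w : ℕ} (A : Arr) (hA : WfA (H + 1) (2 * r) w A)
    (sm0 rest : List Sym)
    (m : Mem O) (h1 : m.sm = mask (2 * r) r ++ .c :: sm0)
    (h2 : m.pc = body A ++ .e :: rest) :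
    RM E unpadC m
      (m.set .pc (body [unpad r A] ++ .e :: rest))
      (60 * ((H + 1) * (r * (w + 4))) + 60 * (H + 1) + 60) := by
  obtain ⟨A', Bl, rfl⟩ : ∃ A' Bl, A = A' ++ [Bl] := by
    rcases List.eq_nil_or_concat A with h | ⟨A', Bl, h⟩
    · exfalso; have := hA.1; rw [h] at this; simp at this
    · exact ⟨A', Bl, by rw [h]; simp⟩
  have hA' : WfA H (2 * r) w A' := ⟨by have := hA.1; simpa using this,
    fun x hx => hA.2 x (by simp [hx])⟩
  have hBl : WfB (2 * r) w Bl := hA.2 Bl (by simp)
  have hBh := hBl.drop r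
  rw [show 2 * r - r = r by omega] at hBh
  have hlo := wf_loA hA
  have hhi := wf_hiA hA
  have hrot := hhi.rotF r (Nat.le_mul_of_pos_left r (Nat.succ_pos H))
  have hiEq : hiA r (A' ++ [Bl]) = hiA r A' ++ Bl.drop r := by simp [hiA]
  have hrotEq : rotF r (hiA r (A' ++ [Bl])) = negBl (Bl.drop r) ++ hiA r A' := by
    have hl : (hiA r A').length = H * r := (wf_hiA hA').1
    have e1 : (hiA r A' ++ Bl.drop r).length - r = (hiA r A').length := by
      rw [List.length_append, hl, hBh.1]; omega
    rw [rotF, hiEq, e1, List.drop_left, List.take_left]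
  have hiDEq : hiD r (A' ++ [Bl]) = hiD r A' ++ .d :: flat (Bl.drop r) := by
    rw [hiD_append]; simp [hiD]
  have lA := body_length hA
  have lhiD := hiD_length hA'
  have lBh := flat_length hBh
  have llo := flat_length hlo
  have lrot := flat_length hrot
  have lsum := flat_length (hlo.add hrot)
  obtain ⟨pa, pb, pc, sh, sm, sk, sw, se, t1, t2, t3, t4, t5, t6, t7, t8, o⟩ := m
  simp only at h1 h2
  subst h1 h2
  show RM E (sq [revE .pc .t2, revE .t2 .t1, psh .t2 .e, psh .t3 .e,
    whileTop .t1 (notTop .e) unpadBlk, pp .t1,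
    psh .t4 .e, mv .t3 .t4 isD, psh .t5 .e, tr .t4 .t5 isE fNeg gNeg, revE .t3 .t4,
    tr .t4 .t5 isE fId gDropD, revE .t5 .t4, revE .t2 .t1, psh .t2 .e,
    add1 .t1 .t4 .t2 isE, psh .pc .e, psh .pc .d, mv .t2 .pc isE]) _ _ _
  simp only [sq]
  have hadd : ∀ (m : Mem O), m.t1 = flat (loA r (A' ++ [Bl])) ++ .e :: t1 →
      m.t4 = flat (rotF r (hiA r (A' ++ [Bl]))) ++ .e :: t4 →
      RM E (add1 .t1 .t4 .t2 isE) m (((m.set .t1 t1).set .t4 t4).set .t2
        ((flat (unpad r (A' ++ [Bl]))).reverse ++ m.get .t2))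
        (2 * ((H + 1) * r * (w + 1)) + 2) := by
    intro m hm1 hm4
    have := zip_m (E := E) (X1 := .t1) (X2 := .t4) (Y1 := .t2) (Y2 := .t7) (f := fAS)
      (g1 := gAdd) (g2 := fun _ _ _ => none) (a0 := (false, true)) (m := m)
      (by nofun) (by nofun) (by nofun) (by nofun) (by nofun) (by nofun)
      (by rw [llo, lrot]) (flat_isE _) rfl hm1 hm4
    have e1 := zouts_add_flat hlo hrot [] []
    rw [List.append_nil, List.append_nil] at e1
    rw [e1, llo] at this
    have e2 : ∀ (f : Bool × Bool → Sym → Sym → Bool × Bool) a l l',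
        zouts f (fun _ _ _ => none) a l l' = [] := by
      intro f a l
      induction l generalizing a with
      | nil => intro l'; rfl
      | cons s l ih => intro l'; cases l' with
        | nil => rfl
        | cons s' l' => simp [zouts, ih]
    rw [e2] at this
    refine this.cast ?_
    cases m
    simp [Mem.set, Mem.get, zouts, unpad]
  refine RM.mono (RM.seq
    (revE_m (X := .pc) (Y := .t2) (by nofun) (body_isE _) rfl) (RM.seq
    (revE_m (X := .t2) (Y := .t1) (by nofun) (l := (body (A' ++ [Bl])).reverse)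
      (isE_rev (body_isE _)) (rest := t2) rfl) (RM.seq
    (push_m .t2 .e _) (RM.seq (push_m .t3 .e _) (RM.seq
    (unpadLoop _ hA sm0 t1 _ rfl (rr _ _)) (RM.seq
    (pop_m .t1 _) (RM.seq
    (push_m .t4 .e _) (RM.seq
    (mv_m (X := .t3) (Y := .t4) (by nofun) (l := (flat (Bl.drop r)).reverse) (t := .d)
      (fun s hs => flat_isD _ s (by simpa using hs)) rfl
      (rest := (hiD r A').reverse ++ .e :: t3)
      (show (hiD r (A' ++ [Bl])).reverse ++ .e :: t3 = _ by
        rw [hiDEq, List.reverse_append, List.append_assoc, List.reverse_cons, List.append_assoc]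
        rfl)) (RM.seq
    (push_m .t5 .e _) (RM.seq
    (tr_m (X := .t4) (Y := .t5) (f := fNeg) (g := gNeg) (by nofun) (by nofun) (by nofun)
      (by nofun) (by nofun) (l := flat (Bl.drop r)) (flat_isE _)
      (t := .e) rfl (rest := t4) (rr _ _)) (RM.seq
    (revE_m (X := .t3) (Y := .t4) (by nofun) (l := (hiD r A').reverse)
      (isE_rev (hiD_isE _ _)) (rest := t3) rfl) (RM.seq
    (tr_m (X := .t4) (Y := .t5) (f := fId) (g := gDropD) (by nofun) (by nofun) (by nofun)
      (by nofun) (by nofun) (l := hiD r A') (hiD_isE _ _)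
      (t := .e) rfl (rest := t4) (rr _ _)) (RM.seq
    (revE_m (X := .t5) (Y := .t4) (by nofun)
      (l := (flat (rotF r (hiA r (A' ++ [Bl])))).reverse)
      (isE_rev (flat_isE _)) (rest := t5) (show (outs fId gDropD false (hiD r A')).reverse ++
        ((outs fNeg gNeg false (flat (Bl.drop r))).reverse ++ .e :: t5) = _ by
        rw [outs_dropD, coefTr_neg.flat, hrotEq, flat_append, List.reverse_append,
          List.append_assoc]
        rfl)) (RM.seq
    (revE_m (X := .t2) (Y := .t1) (by nofun)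
      (l := (flat (loA r (A' ++ [Bl]))).reverse)
      (isE_rev (flat_isE _)) (rest := t2) rfl) (RM.seq
    (push_m .t2 .e _) (RM.seq
    (hadd _ (rr _ _) (rr _ _)) (RM.seq
    (push_m .pc .e _) (RM.seq (push_m .pc .d _)
    ((mv_m (X := .t2) (Y := .pc) (by nofun)
      (l := (flat (unpad r (A' ++ [Bl]))).reverse) (t := .e)
      (isE_rev (flat_isE _)) rfl (rest := t2) rfl).cast ?_))))))))))))))))))) ?_
  · simp [Mem.set, Mem.get, body]
  · rw [List.length_reverse, List.length_reverse, List.length_reverse, List.length_reverse,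
      List.length_reverse, List.length_reverse]
    rw [lA, lhiD, lBh, llo, lrot]
    have : (flat (unpad r (A' ++ [Bl]))).length = (H + 1) * r * (w + 1) := lsum
    rw [this]
    ring_nf; omega

end Pool.Agent.Helper62
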