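import Mathlib
import Pool.Agent.Helper62.Spec6

/-!
The base case of the multiplication modulo `X^4+1`.
-/

set_option autoImplicit false
set_option linter.unusedSectionVars false

namespace Pool.Agent.Helper62

variable {O : Type} [DecidableEq O] {E : Pr → C O}

theorem zouts_none (f : Bool × Bool → Sym → Sym → Bool × Bool) (a : Bool × Bool)
    (l l' : List Sym) : zouts f (fun _ _ _ => none) a l l' = [] := by
  induction l generalizing a l' with
  | nil => rfl
  | cons s l ih =>
    cases l' with
    | nil => rfl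
    | cons s' l' => simp [zouts, ih]

theorem add1_spec {H K w : ℕ} {A A' : Arr} (h : WfA H K w A) (h' : WfA H K w A')
    {X1 X2 Y : WW O} (h0 : X1 ≠ X2) (h11 : X1 ≠ Y) (h21 : X2 ≠ Y)
    (h17 : X1 ≠ .t7) (h27 : X2 ≠ .t7) (h37 : Y ≠ .t7)
    {rest rest' : List Sym} {m : Mem O}
    (h1 : m.get X1 = body A ++ .e :: rest) (h2 : m.get X2 = body A' ++ .e :: rest') :
    RM E (add1 X1 X2 Y isE) m
      (((m.set X1 rest).set X2 rest').set Y ((body (addA A A')).reverse ++ m.get Y))
      (2 * (H * (K * (w + 1) + 1)) + 2) := by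
  have := zip_m (E := E) (Y1 := Y) (Y2 := .t7) (f := fAS) (g1 := gAdd)
    (g2 := fun _ _ _ => none) (a0 := (false, true))
    h0 h11 h17 h21 h27 h37 (by rw [body_length h, body_length h']) (body_isE A) rfl h1 h2
  rw [zouts_add_body h h', zouts_none, body_length h] at this
  refine this.cast ?_
  simp only [List.reverse_nil, List.nil_append]
  have e1 : m.get .t7 = (((m.set X1 rest).set X2 rest').set Y
      ((body (addA A A')).reverse ++ m.get Y)).get .t7 := by
    rw [Mem.get_set_of_ne _ h37.symm, Mem.get_set_of_ne _ h27.symm, Mem.get_set_of_ne _ h17.symm]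
  rw [e1, Mem.set_get]

theorem one_block {K w : ℕ} {b : Block} (h : WfB K w b) : WfA 1 K w [b] :=
  ⟨rfl, by simpa using h⟩

section
variable {K w : ℕ} {b : Block}

theorem zeroPc_spec (hb : WfB K w b) (rb : List Sym) (m : Mem O)
    (h : m.pb = body [b] ++ .e :: rb) :
    RM E zeroPc m (m.set .pc (body [zeroBl b] ++ .e :: m.pc)) (6 * (K * (w + 1) + 1) + 8) := by
  have l1 := body_length (one_block hb)
  have l2 := body_length (one_block hb.zero)
  obtain ⟨pa, pb, pc, sh, sm, sk, sw, se, t1, t2, t3, t4, t5, t6, t7, t8, o⟩ := m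
  simp only at h
  subst h
  unfold zeroPc
  simp only [sq]
  refine RM.mono (RM.seq (push_m .t2 .e _) (RM.seq (push_m .t3 .e _) (RM.seq
    (tr2_m (X := .pb) (Y := .t2) (Y' := .t3) (by nofun) (by nofun) (by nofun) (by nofun)
      (by nofun) (by nofun) (body_isE [b]) (t := .e) rfl (rest := rb) rfl) (RM.seq
    (revE_m (X := .t2) (Y := .pb) (by nofun) (l := (body [b]).reverse)
      (isE_rev (body_isE _)) (rest := t2) (show (outs fId gCopy false (body [b])).reverse ++
        .e :: t2 = _ by rw [outs_copy]))
    (RM.cast (revE_m (X := .t3) (Y := .pc) (by nofun) (l := (body [zeroBl b]).reverse)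
      (isE_rev (body_isE _)) (rest := t3) (show (outs fId gZero false (body [b])).reverse ++
        .e :: t3 = _ by rw [coefTr_zero.body]; rfl)) ?_))))) ?_
  · simp [Mem.set, Mem.get]
  · rw [List.length_reverse, List.length_reverse, l1, l2]; ring_nf; omega

theorem dblPc_spec {x : Block} (hx : WfB K w x) (rc : List Sym) (m : Mem O)
    (h : m.pc = body [x] ++ .e :: rc) :
    RM E dblPc m (m.set .pc (body [dblBl x] ++ .e :: rc)) (4 * (K * (w + 1) + 1) + 5) := by
  have l1 := body_length (one_block hx)
  have l2 := body_length (one_block hx.dbl)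
  obtain ⟨pa, pb, pc, sh, sm, sk, sw, se, t1, t2, t3, t4, t5, t6, t7, t8, o⟩ := m
  simp only at h
  subst h
  unfold dblPc
  simp only [sq]
  refine RM.mono (RM.seq (push_m .t2 .e _) (RM.seq
    (tr_m (X := .pc) (Y := .t2) (f := fDbl) (g := gDbl) (by nofun) (by nofun) (by nofun)
      (by nofun) (by nofun) (body_isE [x]) (t := .e) rfl (rest := rc) rfl)
    (RM.cast (revE_m (X := .t2) (Y := .pc) (by nofun) (l := (body [dblBl x]).reverse)
      (isE_rev (body_isE _)) (rest := t2) (show (outs fDbl gDbl false (body [x])).reverse ++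
        .e :: t2 = _ by rw [coefTr_dbl.body]; rfl)) ?_))) ?_
  · simp [Mem.set, Mem.get]
  · rw [List.length_reverse, l1, l2]; ring_nf; omega

theorem addPb_spec {x : Block} (hx : WfB K w x) (hb : WfB K w b) (rb rc : List Sym)
    (m : Mem O)
    (h : m.pc = body [x] ++ .e :: rc) (h2 : m.pb = body [b] ++ .e :: rb) :
    RM E addPb m (m.set .pc (body [addBl x b] ++ .e :: rc)) (6 * (K * (w + 1) + 1) + 8) := by
  have l1 := body_length (one_block hx)
  have l2 := body_length (one_block hb)
  have l3 := body_length (one_block (hx.add hb))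
  obtain ⟨pa, pb, pc, sh, sm, sk, sw, se, t1, t2, t3, t4, t5, t6, t7, t8, o⟩ := m
  simp only at h h2
  subst h h2
  unfold addPb
  simp only [sq]
  refine RM.mono (RM.seq (push_m .t2 .e _) (RM.seq (push_m .t3 .e _) (RM.seq
    (zip_m (X1 := .pc) (X2 := .pb) (Y1 := .t2) (Y2 := .t3) (f := fAS)
      (g1 := gAdd) (g2 := gSnd) (a0 := (false, true)) (by nofun) (by nofun) (by nofun)
      (by nofun) (by nofun) (by nofun) (by rw [l1, l2]) (body_isE [x]) (t := .e) rfl rfl rfl)
    (RM.seq
    (revE_m (X := .t3) (Y := .pb) (by nofun) (l := (body [b]).reverse)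
      (isE_rev (body_isE _)) (rest := t3) (show (zouts fAS gSnd (false, true) (body [x])
        (body [b])).reverse ++ .e :: t3 = _ by rw [zouts_snd _ _ _ _ (by rw [l1, l2])]))
    (RM.cast (revE_m (X := .t2) (Y := .pc) (by nofun) (l := (body [addBl x b]).reverse)
      (isE_rev (body_isE _)) (rest := t2) (show (zouts fAS gAdd (false, true) (body [x])
        (body [b])).reverse ++ .e :: t2 = _ by
          rw [zouts_add_body (one_block hx) (one_block hb)]; rfl)) ?_))))) ?_
  · simp [Mem.set, Mem.get]
  · rw [List.length_reverse, List.length_reverse, l1, l2, l3]; ring_nf; omega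

/-- one step of the double-and-add scheme -/
def stepB (b : Block) (T : Block) (x : Bool) : Block :=
  if x then addBl (dblBl T) b else dblBl T

theorem smulBl_eq (b : Block) (x : Coef) :
    smulBl b x = x.reverse.foldl (stepB b) (zeroBl b) := by
  rw [List.foldl_reverse]
  induction x with
  | nil => rfl
  | cons a x ih => simp only [smulBl, List.foldr_cons, ← ih]; rfl

theorem horner_eq (b : Block) (a : Block) :
    horner b a = a.reverse.foldl (fun T x => addBl (rotF 1 T) (smulBl b x)) (zeroBl b) := by
  rw [List.foldl_reverse]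
  induction a with
  | nil => rfl
  | cons x a ih => simp only [horner, List.foldr_cons, ← ih]

theorem wf_stepB (hb : WfB K w b) {T : Block} (hT : WfB K w T) (x : Bool) :
    WfB K w (stepB b T x) := by
  unfold stepB
  split_ifs
  · exact hT.dbl.add hb
  · exact hT.dbl

theorem bits_loop (hb : WfB K w b) (l : List Bool) (T : Block) (hT : WfB K w T)
    (rb rc r1 : List Sym) (hr1 : bitTop r1.head? = false) (m : Mem O)
    (h1 : m.t1 = l.map bit ++ r1)
    (h2 : m.pb = body [b] ++ .e :: rb) (h3 : m.pc = body [T] ++ .e :: rc) :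
    RM E (whileTop .t1 bitTop
          (ifTop .t1 (isTop .i) (sq [pp .t1, dblPc, addPb]) (sq [pp .t1, dblPc]))) m
      ((m.set .t1 r1).set .pc (body [l.foldl (stepB b) T] ++ .e :: rc))
      (l.length * (10 * (K * (w + 1) + 1) + 20) + 1) := by
  induction l generalizing T m with
  | nil =>
    simp only [List.map_nil, List.nil_append] at h1
    refine ((R.while_done (S := m.get) (by simp [Mem.get, h1, hr1])).of_eq
      (congrArg _ ?_)).mono (by simp)
    cases m
    simp only at h1 h3
    simp [h1, h3, Mem.set]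
  | cons x l ih =>
    obtain ⟨pa, pb, pc, sh, sm, sk, sw, se, t1, t2, t3, t4, t5, t6, t7, t8, o⟩ := m
    simp only at h1 h2 h3
    subst h1 h2 h3
    cases x with
    | false =>
      refine RM.mono (RM.cast (R.while_step (X := (WW.t1 : WW O)) (p := bitTop) rfl
        (ifTop_false_m (X := .t1) rfl (by
          simp only [sq]
          exact RM.seq (pop_m .t1 _) (dblPc_spec hT rc _ rfl)))
        (ih (dblBl T) hT.dbl _ rfl rfl rfl)) ?_) ?_
      · simp [Mem.set, stepB]
      · simp only [List.length_cons]; ring_nf; omega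
    | true =>
      refine RM.mono (RM.cast (R.while_step (X := (WW.t1 : WW O)) (p := bitTop) rfl
        (ifTop_true_m (X := .t1) rfl (by
          simp only [sq]
          exact RM.seq (pop_m .t1 _) (RM.seq (dblPc_spec hT rc _ rfl)
            (addPb_spec hT.dbl hb rb rc _ rfl rfl))))
        (ih (addBl (dblBl T) b) (hT.dbl.add hb) _ rfl rfl rfl)) ?_) ?_
      · simp [Mem.set, stepB]
      · simp only [List.length_cons]; ring_nf; omega

end

/-- reversed stream of coefficients -/
def strm (L : List Coef) : List Sym := L.flatMap fun x => .c :: (x.map bit).reverse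

theorem strm_reverse (a : Block) : strm a.reverse = (flat a).reverse := by
  induction a with
  | nil => rfl
  | cons x a ih =>
    rw [List.reverse_cons, flat_cons, List.reverse_append, List.reverse_cons, ← ih, strm, strm,
      List.flatMap_append]
    simp

/-- body of the outer loop -/
def baseBlk : C O :=
  sq [pp .t1, revE .pc .t2, revE .t2 .t1, psh .t4 .e, rotFC, revE .t4 .pc, zeroPc,
        whileTop .t1 bitTop
          (ifTop .t1 (isTop .i) (sq [pp .t1, dblPc, addPb]) (sq [pp .t1, dblPc])),
        revE .pc .t2, revE .t2 .t3, psh .t4 .e, add1 .pc .t3 .t4 isE, revE .t4 .pc]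

theorem baseBlk_spec {w : ℕ} {b acc : Block} (hb : WfB 4 w b) (ha : WfB 4 w acc)
    (x : Coef) (hx : x.length = w)
    (rb rc r1 sm0 : List Sym) (hr1 : bitTop r1.head? = false) (m : Mem O)
    (h1 : m.t1 = .c :: ((x.map bit).reverse ++ r1))
    (h2 : m.pb = body [b] ++ .e :: rb) (h3 : m.pc = body [acc] ++ .e :: rc)
    (h4 : m.sm = mask 4 1 ++ .c :: sm0) :
    RM E baseBlk m
      ((m.set .t1 r1).set .pc (body [addBl (rotF 1 acc) (smulBl b x)] ++ .e :: rc))
      (w * (10 * (4 * (w + 1) + 1) + 20) + 24 * (4 * (w + 1) + 1) + 24 * w + 100) := by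
  have hsm := hb.smul x
  have hrot := ha.rotF 1 (by norm_num)
  have hsum := hrot.add hsm
  have l1 := body_length (one_block ha)
  have l2 := body_length (one_block hrot)
  have l3 := body_length (one_block hsm)
  have l4 := body_length (one_block hsum)
  obtain ⟨pa, pb, pc, sh, sm, sk, sw, se, t1, t2, t3, t4, t5, t6, t7, t8, o⟩ := m
  simp only at h1 h2 h3 h4
  rw [← List.map_reverse] at h1
  subst h1 h2 h3 h4
  unfold baseBlk
  simp only [sq]
  refine RM.mono (RM.seq (pop_m .t1 _) (RM.seq
    (revE_m (X := .pc) (Y := .t2) (by nofun) (body_isE [acc]) (rest := rc) rfl) (RM.seq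
    (revE_m (X := .t2) (Y := .t1) (by nofun) (l := (body [acc]).reverse)
      (isE_rev (body_isE _)) (rest := t2) rfl) (RM.seq
    (push_m .t4 .e _) (RM.seq
    (rotFC_spec (one_block ha) (e := 1) (by norm_num) sm0 (x.reverse.map bit ++ r1) _ rfl
      (rr _ _)) (RM.seq
    (revE_m (X := .t4) (Y := .pc) (by nofun) (l := (body [rotF 1 acc]).reverse)
      (isE_rev (body_isE _)) (rest := t4) rfl) (RM.seq
    (zeroPc_spec hb rb _ rfl) (RM.seq
    (bits_loop hb x.reverse (zeroBl b) hb.zero rb (body [rotF 1 acc] ++ .e :: rc) r1 hr1 _ rfl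
      rfl (show body [zeroBl b] ++ .e :: ((body [rotF 1 acc]).reverse.reverse ++ .e :: rc) = _
        by rw [List.reverse_reverse])) (RM.seq
    (revE_m (X := .pc) (Y := .t2) (by nofun) (l := body [smulBl b x]) (body_isE _)
      (rest := body [rotF 1 acc] ++ .e :: rc) (show body [x.reverse.foldl (stepB b) (zeroBl b)]
        ++ .e :: (body [rotF 1 acc] ++ .e :: rc) = _ by rw [smulBl_eq])) (RM.seq
    (revE_m (X := .t2) (Y := .t3) (by nofun) (l := (body [smulBl b x]).reverse)
      (isE_rev (body_isE _)) (rest := t2) rfl) (RM.seq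
    (push_m .t4 .e _) (RM.seq
    (add1_spec (one_block hrot) (one_block hsm) (by nofun) (by nofun) (by nofun) (by nofun)
      (by nofun) (by nofun) (rest := rc) (rest' := t3) rfl (rr _ _))
    ((revE_m (X := .t4) (Y := .pc) (by nofun)
      (l := (body [addBl (rotF 1 acc) (smulBl b x)]).reverse)
      (isE_rev (body_isE _)) (rest := t4) rfl).cast ?_))))))))))))) ?_
  · simp [Mem.set, Mem.get]
  · simp only [List.length_reverse]
    rw [l1, l2, l3, l4, hx]; ring_nf; omega

end Pool.Agent.Helper62
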