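import Mathlib
import Pool.Agent.Helper62.Spec7

/-!
Specification of the base case and of the procedure `nega`.
-/

set_option autoImplicit false
set_option linter.unusedSectionVars false

namespace Pool.Agent.Helper62

variable {O : Type} [DecidableEq O] {E : Pr → C O}

def stepA (b T : Block) (x : Coef) : Block := addBl (rotF 1 T) (smulBl b x)

theorem strm_head (L : List Coef) (r : List Sym) : bitTop (strm L ++ .e :: r).head? = false := by
  cases L with
  | nil => rfl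
  | cons x L => rfl

theorem baseLoop {w : ℕ} {b : Block} (hb : WfB 4 w b) (L : List Coef)
    (hL : ∀ x ∈ L, x.length = w) (acc : Block) (ha : WfB 4 w acc)
    (rb rc r1 sm0 : List Sym) (m : Mem O)
    (h1 : m.t1 = strm L ++ .e :: r1)
    (h2 : m.pb = body [b] ++ .e :: rb) (h3 : m.pc = body [acc] ++ .e :: rc)
    (h4 : m.sm = mask 4 1 ++ .c :: sm0) :
    RM E (whileTop .t1 (notTop .e) baseBlk) m
      ((m.set .t1 (.e :: r1)).set .pc (body [L.foldl (stepA b) acc] ++ .e :: rc))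
      (L.length * (w * (10 * (4 * (w + 1) + 1) + 20) + 24 * (4 * (w + 1) + 1) + 24 * w + 101)
        + 1) := by
  induction L generalizing acc m with
  | nil =>
    have h1' : m.t1 = .e :: r1 := h1
    refine ((R.while_done (S := m.get) (by simp [Mem.get, h1', notTop])).of_eq
      (congrArg _ ?_)).mono (by simp)
    cases m
    simp only at h1' h3
    simp [h1', h3, Mem.set]
  | cons x L ih =>
    have h1' : m.t1 = .c :: ((x.map bit).reverse ++ (strm L ++ .e :: r1)) := by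
      rw [h1]; simp [strm]
    clear h1
    obtain ⟨pa, pb, pc, sh, sm, sk, sw, se, t1, t2, t3, t4, t5, t6, t7, t8, o⟩ := m
    simp only at h1' h2 h3 h4
    subst h1' h2 h3 h4
    have hacc : WfB 4 w (addBl (rotF 1 acc) (smulBl b x)) :=
      (ha.rotF 1 (by norm_num)).add (hb.smul x)
    refine RM.mono (RM.cast (R.while_step (X := (WW.t1 : WW O)) (p := notTop .e) rfl
      (baseBlk_spec hb ha x (hL x (by simp)) rb rc _ sm0 (strm_head L r1) _ rfl rfl rfl rfl)
      (ih (fun y hy => hL y (by simp [hy])) _ hacc _ rfl rfl rfl rfl)) ?_) ?_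
    · simp [Mem.set, stepA]
    · simp only [List.length_cons]; ring_nf; omega

theorem push_list_m (X : WW O) (l : List Sym) (m : Mem O) :
    RM E (.act (l.map fun s => pushc X s)) m (m.set X (l.reverse ++ m.get X)) 1 := by
  intro r i o
  refine ⟨r, Runs.act' ?_⟩
  rw [Mem.get_set]
  generalize m.get = S
  induction l generalizing S with
  | nil => simp [runOps]
  | cons a l ih =>
    simp only [List.map_cons, runOps, Op.run]
    rw [ih]
    simp

/-- time of the base case -/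
def Tbase (w : ℕ) : ℕ := 400 * ((w + 2) * (w + 2)) + 1000

theorem base_spec {w : ℕ} {a b : Block} (ha : WfB 4 w a) (hb : WfB 4 w b)
    (ra rb rc : List Sym) (m : Mem O)
    (h1 : m.pa = body [a] ++ .e :: ra) (h2 : m.pb = body [b] ++ .e :: rb) (h3 : m.pc = rc) :
    RM E base m
      (((m.set .pa ra).set .pb rb).set .pc (body [horner b a] ++ .e :: rc)) (Tbase w) := by
  have l1 := body_length (one_block ha)
  have l2 := body_length (one_block hb)
  obtain ⟨pa, pb, pc, sh, sm, sk, sw, se, t1, t2, t3, t4, t5, t6, t7, t8, o⟩ := m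
  simp only at h1 h2 h3
  subst h1 h2 h3
  show RM E (sq [.act ([Sym.c, .i, .o, .o, .o].map fun s => pushc .sm s),
    revE .pa .t1, pp .t1, zeroPc, whileTop .t1 (notTop .e) baseBlk,
    pp .t1, dropE .pb, dropC .sm]) _ _ _
  simp only [sq]
  refine RM.mono (RM.seq (push_list_m .sm _ _) (RM.seq
    (revE_m (X := .pa) (Y := .t1) (by nofun) (body_isE [a]) (rest := ra) rfl) (RM.seq
    (pop_m .t1 _) (RM.seq
    (zeroPc_spec hb rb _ rfl) (RM.seq
    (baseLoop hb a.reverse (fun x hx => ha.2 x (by simpa using hx)) (zeroBl b) hb.zero rb pc t1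
      sm _ (show ((body [a]).reverse ++ .e :: t1).tail = _ by
        rw [strm_reverse]; simp [body]) rfl rfl rfl) (RM.seq
    (pop_m .t1 _) (RM.seq
    (dropE_m (X := .pb) (body_isE [b]) (rest := rb) rfl)
    (RM.cast (dropC_m (X := .sm) (l := mask 4 1) (mask_isC _ _) (rest := sm) rfl) ?_)))))))) ?_
  · rw [horner_eq]
    simp [Mem.set, Mem.get, stepA]
  · rw [l1, l2, List.length_reverse, ha.1, mask_length (by norm_num)]
    simp only [Tbase]
    ring_nf; omega

theorem two_pow_eq (j : ℕ) : 2 * 2 ^ j = 2 ^ (j + 1) := by rw [pow_succ, mul_comm]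

/-- time of `nega` -/
def Tnega (w k : ℕ) : ℕ := 3000 * (2 ^ k * ((k - 1) ^ 2 * ((w + 4) * (w + 4))))

theorem key_ineq (k : ℕ) (hk : 3 ≤ k) :
    6000 * (k / 2) ^ 2 + 1200 * ((k + 1) / 2) + 412 ≤ 3000 * (k - 1) ^ 2 := by
  rcases Nat.even_or_odd' k with ⟨p, rfl | rfl⟩
  · obtain ⟨q, rfl⟩ : ∃ q, p = q + 2 := ⟨p - 2, by omega⟩
    rw [show 2 * (q + 2) / 2 = q + 2 by omega, show (2 * (q + 2) + 1) / 2 = q + 2 by omega,
      show 2 * (q + 2) - 1 = 2 * q + 3 by omega]
    nlinarith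
  · obtain ⟨q, rfl⟩ : ∃ q, p = q + 1 := ⟨p - 1, by omega⟩
    rw [show (2 * (q + 1) + 1) / 2 = q + 1 by omega,
      show (2 * (q + 1) + 1 + 1) / 2 = q + 2 by omega,
      show 2 * (q + 1) + 1 - 1 = 2 * q + 2 by omega]
    nlinarith

theorem negaRec_spec (hE : E .conv = convC) {w k T : ℕ} (hk : 3 ≤ k)
    (hN : NegaOK E w (k / 2 + 1) T) {a b : Block} (ha : WfB (2 ^ k) w a) (hb : WfB (2 ^ k) w b)
    (sk0 ra rb rc : List Sym) (m : Mem O)
    (h0 : m.sk = List.replicate (k - 2) .m ++ .c :: sk0)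
    (h1 : m.pa = body [a] ++ .e :: ra) (h2 : m.pb = body [b] ++ .e :: rb) (h3 : m.pc = rc) :
    RM E negaRec m
      (((m.set .pa ra).set .pb rb).set .pc (body [negaF k a b] ++ .e :: rc))
      (2 ^ ((k + 1) / 2) * T + 2 ^ k * ((w + 4) * (1200 * ((k + 1) / 2) + 412))) := by
  obtain ⟨j, rfl⟩ : ∃ j, k = j + 2 := ⟨k - 2, by omega⟩
  have ek1 : (j + 2) / 2 = j / 2 + 1 := by omega
  have ek2 : (j + 2 + 1) / 2 = (j + 1) / 2 + 1 := by omega
  have ek3 : j + 2 - 2 = j := by omega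
  rw [ek3] at h0
  have hr : 2 * 2 ^ (j / 2) = 2 ^ ((j + 2) / 2) := by rw [ek1, two_pow_eq]
  have hH : 2 * 2 ^ ((j + 1) / 2) = 2 ^ ((j + 2 + 1) / 2) := by rw [ek2, two_pow_eq]
  have hsplit := two_pow_split (j + 2)
  have hr' : 2 ^ ((j + 2) / 2 + 1) = 2 * 2 ^ ((j + 2) / 2) := by rw [pow_succ, mul_comm]
  have hrpos : 0 < 2 ^ ((j + 2) / 2) := by positivity
  have hHpos : 0 < 2 ^ ((j + 2 + 1) / 2) := by positivity
  have hnega : negaF (j + 2) a b = unpad (2 ^ ((j + 2) / 2)) (convF (negaF ((j + 2) / 2 + 1))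
      (2 ^ ((j + 2) / 2)) ((j + 2 + 1) / 2) (2 ^ ((j + 2) / 2))
      (padA (2 ^ ((j + 2) / 2)) (2 ^ ((j + 2 + 1) / 2)) a)
      (padA (2 ^ ((j + 2) / 2)) (2 ^ ((j + 2 + 1) / 2)) b)) := negaF_step (by omega) a b
  have ha' := ha
  have hb' := hb
  rw [← hsplit] at ha' hb'
  have hwN := wf_negaF (w := w) ((j + 2) / 2 + 1)
  rw [hr'] at hwN
  have hpa := wf_padA _ _ ha'
  have hpb := wf_padA _ _ hb'
  have hwC := wf_convF hwN ((j + 2 + 1) / 2) (2 ^ ((j + 2) / 2)) (Or.inl (by omega)) hpa hpb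
  have hj1 : 1 ≤ j := by omega
  have hjlt : j + 2 < 2 ^ (j + 2) := Nat.lt_two_pow_self
  obtain ⟨H', hH'⟩ : ∃ H', 2 ^ ((j + 2 + 1) / 2) = H' + 1 := ⟨2 ^ ((j + 2 + 1) / 2) - 1, by omega⟩
  have hconv := conv_spec (O := O) (E := E) hE (k := (j + 2) / 2 + 1) (r := 2 ^ ((j + 2) / 2))
    hr' hN ((j + 2 + 1) / 2) (2 ^ ((j + 2) / 2)) (by omega)
    (by rw [← hr']; exact pow_dvd_pow 2 (by omega))
    (by
      rw [show 4 * 2 ^ ((j + 2) / 2) = 2 ^ ((j + 2) / 2 + 2) by rw [pow_add]; ring]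
      exact pow_dvd_pow 2 (by omega)) _ _ hpa hpb
  have ek4 : (j + 2) / 2 + 1 - 2 = j / 2 := by omega
  rw [ek4] at hconv
  rw [hnega]
  generalize hr0 : 2 ^ ((j + 2) / 2) = r at *
  generalize hH0 : 2 ^ ((j + 2 + 1) / 2) = H at *
  generalize hCdef : convF (negaF ((j + 2) / 2 + 1)) r ((j + 2 + 1) / 2) r (padA r H a)
    (padA r H b) = Cr at *
  have hwC' : WfA (H' + 1) (2 * r) w Cr := by rw [← hH']; exact hwC
  have hunp := unpad_spec (O := O) (E := E) _ hwC'
  obtain ⟨pa, pb, pc, sh, sm, sk, sw, se, t1, t2, t3, t4, t5, t6, t7, t8, o⟩ := m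
  simp only at h0 h1 h2 h3
  subst h0 h1 h2 h3
  show RM E (sq [psh .t1 .c, psh .t2 .c, psh .t3 .c,
    pass .sk .t1 .t2 .t3 isC fTog gCopy (gFst .m) gSndT false, revC .t1 .sk,
    .act ([Sym.c, .m, .m].map fun s => pushc .sh s), forD .t2 (dbl .sh),
    .act ([Sym.c, .i, .i, .o, .o].map fun s => pushc .sm s),
    psh .sk .c, forS .t3 .sk (dbl .sm) (dbl .sm),
    pad .pa, pad .pb, .call .conv, unpadC, dropC .sh, dropC .sm, dropC .sk]) _ _ _
  simp only [sq]
  refine RM.mono (RM.seq (push_m .t1 .c _) (RM.seq (push_m .t2 .c _) (RM.seq (push_m .t3 .c _)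
    (RM.seq (pass_m (X := .sk) (Y1 := .t1) (Y2 := .t2) (Y3 := .t3) (by nofun) (by nofun)
      (by nofun) (by nofun) (by nofun) (by nofun) (marks_isC j) (t := .c) rfl (rest := sk0) rfl)
    (RM.seq
    (revC_m (X := .t1) (Y := .sk) (by nofun) (l := (List.replicate j Sym.m).reverse)
      (isC_rev (marks_isC _)) (rest := t1) (show (outs fTog gCopy false
        (List.replicate j Sym.m)).reverse ++ .c :: t1 = _ by rw [outs_copy])) (RM.seq
    (push_list_m .sh _ _) (RM.seq
    (dblLoop_sh (H := 2) (by norm_num) ((j + 1) / 2) sh t2 _ rfl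
      (show (outs fTog (gFst .m) false (List.replicate j Sym.m)).reverse ++ .c :: t2 = _ by
        rw [outs_fst, List.reverse_replicate, List.length_replicate])) (RM.seq
    (push_list_m .sm _ _) (RM.seq
    (push_m .sk .c _) (RM.seq
    (dblLoop_sm (ρ := 2) (by norm_num) (j / 2) sm t3 _ rfl
      (show (outs fTog gSndT false (List.replicate j Sym.m)).reverse ++ .c :: t3 = _ by
        rw [outs_sndT, odds_replicate', List.reverse_replicate])) (RM.seq
    (pad_spec_pa H a ha' sm sh ra _ (show mask (2 * (2 * 2 ^ (j / 2))) (2 * 2 ^ (j / 2)) ++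
      .c :: sm = _ by rw [hr]) rfl (show List.replicate (2 * 2 ^ ((j + 1) / 2)) Sym.m ++
      .c :: sh = _ by rw [hH])) (RM.seq
    (pad_spec_pb H b hb' sm sh rb _ (show mask (2 * (2 * 2 ^ (j / 2))) (2 * 2 ^ (j / 2)) ++
      .c :: sm = _ by rw [hr]) rfl (show List.replicate (2 * 2 ^ ((j + 1) / 2)) Sym.m ++
      .c :: sh = _ by rw [hH])) (RM.seq
    (call_m (hconv (List.replicate j .m ++ .c :: sk0) sh sm ra rb pc _
      (show List.replicate (j / 2) Sym.m ++ .c :: ((List.replicate j Sym.m).reverse.reverse ++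
        .c :: sk0) = _ by rw [List.reverse_reverse])
      (show List.replicate (2 * 2 ^ ((j + 1) / 2)) Sym.m ++
      .c :: sh = _ by rw [hH]) (fun _ => (show mask (2 * (2 * 2 ^ (j / 2))) (2 * 2 ^ (j / 2)) ++
      .c :: sm = _ by rw [hr])) rfl rfl rfl)) (RM.seq
    (hunp sm pc _ (show mask (2 * (2 * 2 ^ (j / 2))) (2 * 2 ^ (j / 2)) ++
      .c :: sm = _ by rw [hr]) rfl) (RM.seq
    (dropC_m (X := .sh) (l := List.replicate (2 * 2 ^ ((j + 1) / 2)) Sym.m) (marks_isC _)
      (rest := sh) rfl) (RM.seq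
    (dropC_m (X := .sm) (l := mask (2 * (2 * 2 ^ (j / 2))) (2 * 2 ^ (j / 2))) (mask_isC _ _)
      (rest := sm) rfl)
    (RM.cast (dropC_m (X := .sk) (l := List.replicate (j / 2) Sym.m) (marks_isC _)
      (rest := List.replicate j .m ++ .c :: sk0) (show List.replicate (j / 2) Sym.m ++
        .c :: ((List.replicate j Sym.m).reverse.reverse ++ .c :: sk0) = _ by
          rw [List.reverse_reverse])) ?_))))))))))))))))) ?_
  · simp [Mem.set, Mem.get]
  · simp only [List.length_replicate, List.length_reverse, mask_length (show r ≤ 2 * r by omega), hr, hH, Tconv]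
    have hj2 : j / 2 ≤ j := Nat.div_le_self _ _
    have hjK : j + 2 < H * r := hsplit ▸ hjlt
    have h8 : 8 ≤ H * r := by
      rw [hsplit]
      calc 8 = 2 ^ 3 := by norm_num
        _ ≤ 2 ^ (j + 2) := Nat.pow_le_pow_right (by norm_num) (by omega)
    rw [← hH', hH0, ← hsplit]
    clear hunp hconv hnega hCdef hwC hwC' hpa hpb ha' hb' ha hb hwN hN hjlt ek1 ek2 ek3 ek4 hr' hr0 hH0
      hsplit hH'
    generalize (j + 2 + 1) / 2 = q
    generalize hK : H * r = K at *
    have hH2 : 2 ≤ H := by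
      have : 0 < 2 ^ ((j + 1) / 2) := by positivity
      omega
    have hr2 : 2 ≤ r := by
      have : 0 < 2 ^ (j / 2) := by positivity
      omega
    have f1 : 2 * H ≤ K := by rw [← hK]; nlinarith
    have f2 : 2 * r ≤ K := by rw [← hK]; nlinarith
    have f3 : H * (r * (w + 4)) = K * (w + 4) := by rw [← mul_assoc, hK]
    have f4 : H * (2 * r * (w + 2)) = 2 * (K * (w + 2)) := by rw [← hK]; ring
    have f5 : q * (2 * (K * (w + 2))) ≤ 2 * (q * (K * (w + 4))) := by
      have : q * (K * (w + 2)) ≤ q * (K * (w + 4)) := by gcongr; omega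
      calc q * (2 * (K * (w + 2))) = 2 * (q * (K * (w + 2))) := by ring
        _ ≤ _ := by omega
    have f6 : K * ((w + 4) * (1200 * q + 412)) =
        1200 * (q * (K * (w + 4))) + 412 * (K * (w + 4)) := by ring
    have f7 : 4 * K ≤ K * (w + 4) := by nlinarith
    have f8 : H * (T + 12) = H * T + 12 * H := by ring
    rw [f3, f4, f6, f8]
    generalize q * (2 * (K * (w + 2))) = A1 at *
    generalize q * (K * (w + 4)) = A2 at *
    generalize K * (w + 4) = A3 at *
    generalize H * T = A4 at *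
    have g1 : 12 * H - 11 * 2 ≤ 12 * H := Nat.sub_le _ _
    have g2 : 24 * r - 20 * 2 ≤ 24 * r := Nat.sub_le _ _
    clear f3 f4 f6 f8 hr hH hK hH2 hr2
    generalize 12 * H - 11 * 2 = A5 at *
    generalize 24 * r - 20 * 2 = A6 at *
    linarith

theorem nega_time {w k : ℕ} (hk : 3 ≤ k) :
    2 ^ ((k + 1) / 2) * Tnega w (k / 2 + 1) + 2 ^ k * ((w + 4) * (1200 * ((k + 1) / 2) + 412)) + 1
      ≤ Tnega w k := by
  have hs := two_pow_split k
  have h1 := key_ineq k hk
  have e1 : 2 ^ ((k + 1) / 2) * Tnega w (k / 2 + 1) =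
      2 ^ k * (((w + 4) * (w + 4)) * (6000 * (k / 2) ^ 2)) := by
    rw [Tnega, ← hs, Nat.add_sub_cancel, pow_succ]
    ring
  have e2 : Tnega w k = 2 ^ k * (((w + 4) * (w + 4)) * (3000 * (k - 1) ^ 2)) := by
    rw [Tnega]; ring
  have hpos : 1 ≤ 2 ^ k := Nat.one_le_two_pow
  rw [e1, e2]
  have e3 : (w + 4) * (1200 * ((k + 1) / 2) + 412) + 1 ≤
      ((w + 4) * (w + 4)) * (1200 * ((k + 1) / 2) + 412) := by
    obtain ⟨X, hX⟩ : ∃ X, 1200 * ((k + 1) / 2) + 412 = X + 1 := ⟨_, rfl⟩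
    rw [hX]
    have : 1 ≤ (w + 4) * (X + 1) := Nat.mul_pos (by omega) (by omega)
    calc (w + 4) * (X + 1) + 1 ≤ 4 * ((w + 4) * (X + 1)) := by omega
      _ ≤ (w + 4) * ((w + 4) * (X + 1)) := by gcongr; omega
      _ = _ := by ring
  calc _ ≤ 2 ^ k * (((w + 4) * (w + 4)) * (6000 * (k / 2) ^ 2)) +
        2 ^ k * ((w + 4) * (1200 * ((k + 1) / 2) + 412) + 1) := by
        rw [mul_add (2 ^ k) _ 1]; omega
    _ ≤ 2 ^ k * (((w + 4) * (w + 4)) * (6000 * (k / 2) ^ 2)) +
        2 ^ k * (((w + 4) * (w + 4)) * (1200 * ((k + 1) / 2) + 412)) := by gcongr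
    _ = 2 ^ k * (((w + 4) * (w + 4)) * (6000 * (k / 2) ^ 2 + 1200 * ((k + 1) / 2) + 412)) := by
        ring
    _ ≤ _ := by gcongr

theorem nega_spec (hE : E .conv = convC) (hE' : E .nega = negaC) {w : ℕ} (k : ℕ) (hk : 2 ≤ k) :
    NegaOK E w k (Tnega w k) := by
  induction k using Nat.strong_induction_on with
  | _ k ih =>
    intro a b sk0 ra rb rc m ha hb h0 h1 h2 h3
    rw [hE', negaC]
    rcases Nat.lt_or_ge 2 k with h | h
    · obtain ⟨j, rfl⟩ : ∃ j, k = j + 3 := ⟨k - 3, by omega⟩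
      refine RM.mono (ifTop_false_m (by
        show isTop .c m.sk.head? = false
        rw [h0, show j + 3 - 2 = j + 1 by omega]; rfl)
        (negaRec_spec hE h (ih ((j + 3) / 2 + 1) (by omega) (by omega)) ha hb sk0 ra rb rc m
          h0 h1 h2 h3)) (nega_time h)
    · obtain rfl : k = 2 := by omega
      rw [negaF_base le_rfl]
      refine RM.mono (ifTop_true_m (by
        show isTop .c m.sk.head? = true
        rw [h0]; rfl)
        (base_spec ha hb ra rb rc m h1 h2 h3)) ?_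
      simp only [Tbase, Tnega]
      nlinarith

end Pool.Agent.Helper62
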