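import Mathlib
import Pool.Agent.Helper62.Spec8

/-!
Expansion of bit strings into blocks, carry release, and the procedure `mul`.
-/

set_option autoImplicit false
set_option linter.unusedSectionVars false

namespace Pool.Agent.Helper62

variable {O : Type} [DecidableEq O] {E : Pr → C O}

theorem rep_shift' (s : Sym) (n : ℕ) (l : List Sym) :
    List.replicate n s ++ s :: l = s :: (List.replicate n s ++ l) := by
  induction n with
  | zero => rfl
  | succ n ih => simp [List.replicate_succ, ih]

/-- all bits replaced by zero -/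
def zsym : Sym → Sym
  | .i => .o
  | s => s

theorem outs_gZero (a : Bool) (l : List Sym) : outs fId gZero a l = l.map zsym := by
  induction l generalizing a with
  | nil => rfl
  | cons s l ih => cases s <;> simp [outs, gZero, zsym, ih]

theorem flat_zsym (B : Block) : (flat B).map zsym = flat (zeroBl B) := by
  rw [← outs_gZero false, coefTr_zero.flat]; rfl

theorem swLoop (n : ℕ) (sw0 : List Sym) (m : Mem O)
    (h : m.sw = List.replicate n .m ++ .c :: sw0) :
    RM E (forS .sw .t5 (psh .t1 .o) (psh .t1 .o)) m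
      (((m.set .sw sw0).set .t5 (List.replicate n .m ++ m.t5)).set .t1
        (List.replicate n .o ++ m.t1)) (4 * n + 1) := by
  induction n generalizing m with
  | zero =>
    refine ((forS_nil_m (M := .sw) (m := m) (rest := sw0) h).cast ?_).mono (by omega)
    cases m; simp [Mem.set]
  | succ n ih =>
    obtain ⟨pa, pb, pc, sh, sm, sk, sw, se, t1, t2, t3, t4, t5, t6, t7, t8, o⟩ := m
    simp only at h
    subst h
    refine RM.mono (RM.cast (forS_i_m (M := .sw) (M' := .t5) (bO := psh .t1 .o) (s := .m)
      (l := List.replicate n .m ++ .c :: sw0) (by nofun) rfl (by nofun) (by nofun)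
      (push_m .t1 .o _) (ih _ rfl)) ?_) ?_
    · simp [Mem.set, Mem.get, rep_shift', List.replicate_succ]
    · omega

/-- push `w - 1` zeros and a terminator -/
def swBlk : C O :=
  sq [psh .t5 .c, forS .sw .t5 (psh .t1 .o) (psh .t1 .o), revC .t5 .sw, psh .t1 .c]

theorem swBlk_spec (n : ℕ) (sw0 : List Sym) (m : Mem O)
    (h : m.sw = List.replicate n .m ++ .c :: sw0) :
    RM E swBlk m (m.set .t1 (.c :: (List.replicate n .o ++ m.t1))) (6 * n + 6) := by
  obtain ⟨pa, pb, pc, sh, sm, sk, sw, se, t1, t2, t3, t4, t5, t6, t7, t8, o⟩ := m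
  simp only at h
  subst h
  unfold swBlk
  simp only [sq]
  refine RM.mono (RM.seq (push_m .t5 .c _) (RM.seq (swLoop n sw0 _ rfl) (RM.seq
    (revC_m (X := .t5) (Y := .sw) (by nofun) (l := List.replicate n Sym.m) (marks_isC _)
      (rest := t5) rfl)
    (RM.cast (push_m .t1 .c _) ?_)))) ?_
  · simp [Mem.set, Mem.get]
  · simp; omega

theorem expLoop_pa (n : ℕ) (a : List Bool) (sw0 rest : List Sym) (m : Mem O)
    (h : m.sw = List.replicate n .m ++ .c :: sw0)
    (h1 : m.pa = a.map bit ++ .c :: rest) :
    RM E (forS .pa .t1 swBlk swBlk) m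
      ((m.set .pa rest).set .t1 ((flat (a.map (expC (n + 1)))).reverse ++ m.t1))
      (a.length * (6 * n + 9) + 1) := by
  induction a generalizing m with
  | nil =>
    refine ((forS_nil_m (M := .pa) (m := m) (rest := rest) h1).cast ?_).mono (by omega)
    cases m; simp [Mem.set, flat]
  | cons b a ih =>
    obtain ⟨pa, pb, pc, sh, sm, sk, sw, se, t1, t2, t3, t4, t5, t6, t7, t8, o⟩ := m
    simp only at h h1
    subst h h1
    cases b with
    | false =>
      refine RM.mono (RM.cast (forS_o_m (M := .pa) (M' := .t1)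
        (l := a.map bit ++ .c :: rest) (by nofun) rfl
        (swBlk_spec n sw0 _ rfl) (ih _ rfl rfl)) ?_) ?_
      · simp [Mem.set, Mem.get, flat_cons, expC, bit]
      · simp only [List.length_cons]; ring_nf; omega
    | true =>
      refine RM.mono (RM.cast (forS_i_m (M := .pa) (M' := .t1) (s := .i)
        (l := a.map bit ++ .c :: rest) (by nofun) rfl (by nofun) (by nofun)
        (swBlk_spec n sw0 _ rfl) (ih _ rfl rfl)) ?_) ?_
      · simp [Mem.set, Mem.get, flat_cons, expC, bit]
      · simp only [List.length_cons]; ring_nf; omega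

theorem expLoop_pb (n : ℕ) (a : List Bool) (sw0 rest : List Sym) (m : Mem O)
    (h : m.sw = List.replicate n .m ++ .c :: sw0)
    (h1 : m.pb = a.map bit ++ .c :: rest) :
    RM E (forS .pb .t1 swBlk swBlk) m
      ((m.set .pb rest).set .t1 ((flat (a.map (expC (n + 1)))).reverse ++ m.t1))
      (a.length * (6 * n + 9) + 1) := by
  induction a generalizing m with
  | nil =>
    refine ((forS_nil_m (M := .pb) (m := m) (rest := rest) h1).cast ?_).mono (by omega)
    cases m; simp [Mem.set, flat]
  | cons b a ih =>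
    obtain ⟨pa, pb, pc, sh, sm, sk, sw, se, t1, t2, t3, t4, t5, t6, t7, t8, o⟩ := m
    simp only at h h1
    subst h h1
    cases b with
    | false =>
      refine RM.mono (RM.cast (forS_o_m (M := .pb) (M' := .t1)
        (l := a.map bit ++ .c :: rest) (by nofun) rfl
        (swBlk_spec n sw0 _ rfl) (ih _ rfl rfl)) ?_) ?_
      · simp [Mem.set, Mem.get, flat_cons, expC, bit]
      · simp only [List.length_cons]; ring_nf; omega
    | true =>
      refine RM.mono (RM.cast (forS_i_m (M := .pb) (M' := .t1) (s := .i)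
        (l := a.map bit ++ .c :: rest) (by nofun) rfl (by nofun) (by nofun)
        (swBlk_spec n sw0 _ rfl) (ih _ rfl rfl)) ?_) ?_
      · simp [Mem.set, Mem.get, flat_cons, expC, bit]
      · simp only [List.length_cons]; ring_nf; omega

theorem wf_expC (n : ℕ) (a : List Bool) : WfB a.length (n + 1) (a.map (expC (n + 1))) := by
  refine ⟨by simp, ?_⟩
  intro x hx
  obtain ⟨b, _, rfl⟩ := List.mem_map.1 hx
  simp [expC]

theorem expand_spec_pa (n : ℕ) (a : List Bool) (sw0 rest : List Sym) (m : Mem O)
    (h : m.sw = List.replicate n .m ++ .c :: sw0)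
    (h1 : m.pa = a.map bit ++ .c :: rest) :
    RM E (expand .pa) m (m.set .pa (body [expB (n + 1) a] ++ .e :: rest))
      (20 * (a.length * (n + 2)) + 20) := by
  have hl := flat_length (wf_expC n a)
  obtain ⟨pa, pb, pc, sh, sm, sk, sw, se, t1, t2, t3, t4, t5, t6, t7, t8, o⟩ := m
  simp only at h h1
  subst h h1
  show RM E (sq [psh .t1 .e, forS .pa .t1 swBlk swBlk,
    psh .pa .e, psh .pa .d, psh .t2 .e, tr2 .t1 .pa .t2 isE fId gZero gCopy,
    revE .t2 .t1, mv .t1 .pa isE]) _ _ _
  simp only [sq]
  refine RM.mono (RM.seq (push_m .t1 .e _) (RM.seq (expLoop_pa n a sw0 rest _ rfl rfl)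
    (RM.seq (push_m .pa .e _) (RM.seq (push_m .pa .d _) (RM.seq (push_m .t2 .e _) (RM.seq
    (tr2_m (X := .t1) (Y := .pa) (Y' := .t2) (by nofun) (by nofun) (by nofun) (by nofun)
      (by nofun) (by nofun) (isE_rev (flat_isE (a.map (expC (n + 1))))) (t := .e) rfl
      (rest := t1) rfl) (RM.seq
    (revE_m (X := .t2) (Y := .t1) (by nofun) (l := (flat (a.map (expC (n + 1)))))
      (flat_isE _) (rest := t2) (show (outs fId gCopy false
        (flat (a.map (expC (n + 1)))).reverse).reverse ++ .e :: t2 = _ by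
          rw [outs_copy, List.reverse_reverse]))
    (RM.cast (mv_m (X := .t1) (Y := .pa) (by nofun) (l := (flat (a.map (expC (n + 1)))).reverse)
      (isE_rev (flat_isE _)) (t := .e) rfl (rest := t1) rfl) ?_)))))))) ?_
  · simp [Mem.set, Mem.get, body, expB, flat_append, outs_gZero, ← List.map_reverse, flat_zsym]

  · rw [List.length_reverse, hl]; ring_nf; omega

theorem expand_spec_pb (n : ℕ) (a : List Bool) (sw0 rest : List Sym) (m : Mem O)
    (h : m.sw = List.replicate n .m ++ .c :: sw0)
    (h1 : m.pb = a.map bit ++ .c :: rest) :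
    RM E (expand .pb) m (m.set .pb (body [expB (n + 1) a] ++ .e :: rest))
      (20 * (a.length * (n + 2)) + 20) := by
  have hl := flat_length (wf_expC n a)
  obtain ⟨pa, pb, pc, sh, sm, sk, sw, se, t1, t2, t3, t4, t5, t6, t7, t8, o⟩ := m
  simp only at h h1
  subst h h1
  show RM E (sq [psh .t1 .e, forS .pb .t1 swBlk swBlk,
    psh .pb .e, psh .pb .d, psh .t2 .e, tr2 .t1 .pb .t2 isE fId gZero gCopy,
    revE .t2 .t1, mv .t1 .pb isE]) _ _ _
  simp only [sq]
  refine RM.mono (RM.seq (push_m .t1 .e _) (RM.seq (expLoop_pb n a sw0 rest _ rfl rfl)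
    (RM.seq (push_m .pb .e _) (RM.seq (push_m .pb .d _) (RM.seq (push_m .t2 .e _) (RM.seq
    (tr2_m (X := .t1) (Y := .pb) (Y' := .t2) (by nofun) (by nofun) (by nofun) (by nofun)
      (by nofun) (by nofun) (isE_rev (flat_isE (a.map (expC (n + 1))))) (t := .e) rfl
      (rest := t1) rfl) (RM.seq
    (revE_m (X := .t2) (Y := .t1) (by nofun) (l := (flat (a.map (expC (n + 1)))))
      (flat_isE _) (rest := t2) (show (outs fId gCopy false
        (flat (a.map (expC (n + 1)))).reverse).reverse ++ .e :: t2 = _ by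
          rw [outs_copy, List.reverse_reverse]))
    (RM.cast (mv_m (X := .t1) (Y := .pb) (by nofun) (l := (flat (a.map (expC (n + 1)))).reverse)
      (isE_rev (flat_isE _)) (t := .e) rfl (rest := t1) rfl) ?_)))))))) ?_
  · simp [Mem.set, Mem.get, body, expB, flat_append, outs_gZero, ← List.map_reverse, flat_zsym]

  · rw [List.length_reverse, hl]; ring_nf; omega

end Pool.Agent.Helper62
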