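import Mathlib
import Pool.Agent.Helper62.Spec9

/-!
The carry release and the procedure `mul`.
-/

set_option autoImplicit false
set_option linter.unusedSectionVars false

namespace Pool.Agent.Helper62

variable {O : Type} [DecidableEq O] {E : Pr → C O}

theorem xor3_comm (c a b : Bool) : xor3 c a b = xor3 c b a := by
  cases a <;> cases b <;> cases c <;> rfl

theorem maj_comm (c a b : Bool) : maj c a b = maj c b a := by
  cases a <;> cases b <;> cases c <;> rfl

theorem addB_comm (c : Bool) (x y : Coef) : addB c x y = addB c y x := by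
  induction x generalizing c y with
  | nil => cases y <;> simp [addB]
  | cons a x ih =>
    cases y with
    | nil => simp [addB]
    | cons b y => simp [addB, ih, xor3_comm, maj_comm]

theorem zouts_add_bits (a : Bool × Bool) (x y : Coef) (h : x.length = y.length) :
    zouts fAS gAdd a (x.map bit) (y.map bit) = (addB a.1 x y).map bit := by
  induction x generalizing a y with
  | nil =>
    obtain rfl : y = [] := by simpa using h.symm
    simp [zouts, addB]
  | cons b x ih =>
    cases y with
    | nil => simp at h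
    | cons b' y =>
      simp only [List.map_cons, zouts, gAdd, isBit_bit, if_true, symB_bit,
        Option.toList_some, addB]
      rw [ih _ y (by simpa using h)]
      simp [fAS, isBit_bit, symB_bit]

theorem addC_m {x y : Coef} (hxy : x.length = y.length)
    {X1 X2 Y : WW O} (h0 : X1 ≠ X2) (h11 : X1 ≠ Y) (h21 : X2 ≠ Y)
    (h17 : X1 ≠ .t7) (h27 : X2 ≠ .t7) (h37 : Y ≠ .t7)
    {rest rest' : List Sym} {m : Mem O}
    (h1 : m.get X1 = x.map bit ++ .c :: rest) (h2 : m.get X2 = y.map bit ++ .c :: rest') :
    RM E (add1 X1 X2 Y isC) m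
      (((m.set X1 rest).set X2 rest').set Y (((addB false x y).map bit).reverse ++ m.get Y))
      (2 * x.length + 2) := by
  have := zip_m (E := E) (Y1 := Y) (Y2 := .t7) (f := fAS) (g1 := gAdd)
    (g2 := fun _ _ _ => none) (a0 := (false, true))
    h0 h11 h17 h21 h27 h37 (by simpa using hxy) (bits_isC x) rfl h1 h2
  rw [zouts_add_bits _ _ _ hxy, zouts_none, List.length_map] at this
  refine this.cast ?_
  simp only [List.reverse_nil, List.nil_append]
  have e1 : m.get .t7 = (((m.set X1 rest).set X2 rest').set Y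
      (((addB false x y).map bit).reverse ++ m.get Y)).get .t7 := by
    rw [Mem.get_set_of_ne _ h37.symm, Mem.get_set_of_ne _ h27.symm, Mem.get_set_of_ne _ h17.symm]
  rw [e1, Mem.set_get]

theorem mv1_m {X Y : WW O} (hXY : X ≠ Y) {s : Sym} {l : List Sym} {m : Mem O}
    (h : m.get X = s :: l) :
    RM E (.act [popx X, pushx Y]) m ((m.set X l).set Y (s :: m.get Y)) 1 := by
  intro r i o
  refine ⟨{ r with x := some s }, Runs.act' ?_⟩
  rw [Mem.get_set, Mem.get_set]
  simp only [runOps, Op.run, h]
  simp [Function.update_of_ne hXY.symm]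

/-- one step of the carry release -/
def relBlk : C O :=
  sq [psh .t2 .c, add1 .pc .t1 .t2 isC, psh .t1 .c, psh .t1 .o, mv .t2 .t1 isC,
        .act [popx .t1, pushx .t3]]

theorem relBlk_spec {n : ℕ} (x T : Coef) (hx : x.length = n + 1) (hT : T.length = n + 1)
    (rest r1 : List Sym) (m : Mem O)
    (h1 : m.pc = x.map bit ++ .c :: rest) (h2 : m.t1 = T.map bit ++ .c :: r1) :
    RM E relBlk m
      (((m.set .pc rest).set .t1 (((addB false T x).tail ++ [false]).map bit ++ .c :: r1)).set
        .t3 (bit ((addB false T x).headD false) :: m.t3))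
      (4 * n + 11) := by
  have hl : (addB false x T).length = n + 1 := by rw [addB_length _ _ _ (by rw [hx, hT]), hx]
  obtain ⟨pa, pb, pc, sh, sm, sk, sw, se, t1, t2, t3, t4, t5, t6, t7, t8, o⟩ := m
  simp only at h1 h2
  subst h1 h2
  unfold relBlk
  simp only [sq]
  rw [addB_comm false T x]
  obtain ⟨b, y, hy⟩ : ∃ b y, addB false x T = b :: y := by
    cases h : addB false x T with
    | nil => rw [h] at hl; simp at hl
    | cons b y => exact ⟨b, y, rfl⟩
  refine RM.mono (RM.seq (push_m .t2 .c _) (RM.seq
    (addC_m (x := x) (y := T) (by rw [hx, hT]) (X1 := .pc) (X2 := .t1) (Y := .t2) (by nofun)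
      (by nofun) (by nofun) (by nofun) (by nofun) (by nofun) rfl rfl) (RM.seq
    (push_m .t1 .c _) (RM.seq (push_m .t1 .o _) (RM.seq
    (mv_m (X := .t2) (Y := .t1) (by nofun) (l := ((addB false x T).map bit).reverse)
      (isC_rev (bits_isC _)) (t := .c) rfl (rest := t2) rfl)
    (RM.cast (mv1_m (X := .t1) (Y := .t3) (by nofun) (s := bit b)
      (l := y.map bit ++ .o :: .c :: r1) (show ((addB false x T).map bit).reverse.reverse ++
        .o :: .c :: r1 = _ by rw [List.reverse_reverse, hy]; rfl)) ?_)))))) ?_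
  · simp [Mem.set, Mem.get, hy, bit]
  · rw [List.length_reverse, List.length_map, hl, hx]; omega

theorem relLoop {n : ℕ} (B : Block) (K : ℕ) (hB : WfB K (n + 1) B) (T : Coef)
    (hT : T.length = n + 1)
    (rest r1 : List Sym) (m : Mem O)
    (h1 : m.pc = flat B ++ .d :: rest) (h2 : m.t1 = T.map bit ++ .c :: r1) :
    ∃ T' : Coef, T'.length = n + 1 ∧
    RM E (whileTop .pc (notTop .d) relBlk) m
      (((m.set .pc (.d :: rest)).set .t1 (T'.map bit ++ .c :: r1)).set
        .t3 (((release T B).map bit).reverse ++ m.t3))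
      (K * (4 * n + 12) + 1) := by
  induction B generalizing T m K with
  | nil =>
    refine ⟨T, hT, RM.mono (R.of_eq (R.while_done (S := m.get) (by
      simp [Mem.get, h1, flat, notTop])) (congrArg _ ?_)) (by omega)⟩
    obtain ⟨pa, pb, pc, sh, sm, sk, sw, se, t1, t2, t3, t4, t5, t6, t7, t8, o⟩ := m
    simp only at h1 h2
    subst h1 h2
    simp [Mem.set, release, flat]
  | cons x B ih =>
    obtain ⟨hK, hw⟩ := hB
    have hx : x.length = n + 1 := hw x (by simp)
    have hl : (addB false T x).length = n + 1 := by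
      rw [addB_length _ _ _ (by rw [hx, hT]), hT]
    rw [flat_cons, List.append_assoc] at h1
    obtain ⟨T', hT', hrun⟩ := ih (K := B.length) ⟨rfl, fun y hy => hw y (by simp [hy])⟩
      ((addB false T x).tail ++ [false]) (by simp [hl])
      (((m.set .pc (flat B ++ .d :: rest)).set .t1
        (((addB false T x).tail ++ [false]).map bit ++ .c :: r1)).set
        .t3 (bit ((addB false T x).headD false) :: m.t3)) rfl rfl
    refine ⟨T', hT', ?_⟩
    obtain ⟨pa, pb, pc, sh, sm, sk, sw, se, t1, t2, t3, t4, t5, t6, t7, t8, o⟩ := m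
    simp only at h1 h2
    subst h1 h2
    refine RM.mono (RM.cast (R.while_step (X := (WW.pc : WW O)) (p := notTop .d) (by
        obtain ⟨b, x', rfl⟩ : ∃ b x', x = b :: x' := by
          cases x with
          | nil => simp at hx
          | cons b x' => exact ⟨b, x', rfl⟩
        cases b <;> rfl)
      (relBlk_spec x T hx hT _ r1 _ rfl rfl) hrun) ?_) ?_
    · simp [Mem.set, release]
    · rw [← hK, List.length_cons]; ring_nf; omega

theorem releaseC_spec {n K : ℕ} (B : Block) (hB : WfB K (n + 1) B) (sw0 rc : List Sym)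
    (m : Mem O) (h : m.sw = List.replicate n .m ++ .c :: sw0)
    (h1 : m.pc = body [B] ++ .e :: rc) :
    RM E releaseC m (m.set .pc ((release (List.replicate (n + 1) false) B).map bit ++ .c :: rc))
      (K * (4 * n + 14) + 8 * n + 20) := by
  obtain ⟨pa, pb, pc, sh, sm, sk, sw, se, t1, t2, t3, t4, t5, t6, t7, t8, o⟩ := m
  simp only at h h1
  have h1' : pc = flat B ++ .d :: .e :: rc := by rw [h1]; simp [body]
  clear h1
  subst h h1'
  have hrl : (release (List.replicate (n + 1) false) B).length = K := by
    rw [release_length, hB.1]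
  obtain ⟨T', hT', hrun⟩ := relLoop (O := O) (E := E) B K hB (List.replicate (n + 1) false)
    (by simp) (.e :: rc) t1 ⟨pa, pb, flat B ++ .d :: .e :: rc, sh, sm, sk,
      (List.replicate n Sym.m).reverse ++ .c :: sw0, se,
      .o :: (List.replicate n .o ++ .c :: t1), t2, .c :: t3, t4, t5, t6, t7, t8, o⟩ rfl
      (by simp [List.replicate_succ, bit])
  show RM E (sq [psh .t1 .c, psh .t5 .c, forS .sw .t5 (psh .t1 .o) (psh .t1 .o), revC .t5 .sw,
    psh .t1 .o, psh .t3 .c, whileTop .pc (notTop .d) relBlk,
    pp .pc, pp .pc, dropC .t1, revC .t3 .pc]) _ _ _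
  simp only [sq]
  refine RM.mono (RM.seq (push_m .t1 .c _) (RM.seq (push_m .t5 .c _) (RM.seq
    (swLoop n sw0 _ rfl) (RM.seq
    (revC_m (X := .t5) (Y := .sw) (by nofun) (l := List.replicate n Sym.m) (marks_isC _)
      (rest := t5) rfl) (RM.seq
    (push_m .t1 .o _) (RM.seq (push_m .t3 .c _) (RM.seq
    hrun (RM.seq (pop_m .pc _) (RM.seq (pop_m .pc _) (RM.seq
    (dropC_m (X := .t1) (l := T'.map bit) (bits_isC _) (rest := t1) rfl)
    (RM.cast (revC_m (X := .t3) (Y := .pc) (by nofun)
      (l := ((release (List.replicate (n + 1) false) B).map bit).reverse)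
      (isC_rev (bits_isC _)) (rest := t3) rfl) ?_))))))))))) ?_
  · simp [Mem.set, Mem.get]
  · rw [List.length_reverse, List.length_map, List.length_map, List.length_replicate, hrl, hT']
    ring_nf; omega

end Pool.Agent.Helper62
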