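import Mathlib
import Pool.Agent.Helper62.Spec10

/-!
The procedure `mul`.
-/

set_option autoImplicit false
set_option linter.unusedSectionVars false

namespace Pool.Agent.Helper62

variable {O : Type} [DecidableEq O] {E : Pr → C O}

theorem skip_m (m : Mem O) : RM E (.act []) m m 1 := R.skip _

theorem wLoop (κ : ℕ) (sk0 : List Sym) (m : Mem O)
    (h : m.sk = List.replicate κ .m ++ .c :: sk0) :
    RM E (forS .sk .t5 (.act []) (.act (List.replicate 4 (pushc .sw .m)))) m
      (((m.set .sk sk0).set .t5 (List.replicate κ .m ++ m.t5)).set .sw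
        (List.replicate (4 * κ) .m ++ m.sw)) (4 * κ + 1) := by
  induction κ generalizing m with
  | zero =>
    refine ((forS_nil_m (M := .sk) (m := m) (rest := sk0) h).cast ?_).mono (by omega)
    cases m; simp [Mem.set]
  | succ n ih =>
    obtain ⟨pa, pb, pc, sh, sm, sk, sw, se, t1, t2, t3, t4, t5, t6, t7, t8, o⟩ := m
    simp only at h
    subst h
    refine RM.mono (RM.cast (forS_i_m (M := .sk) (M' := .t5) (s := .m)
      (l := List.replicate n .m ++ .c :: sk0) (by nofun) rfl (by nofun) (by nofun)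
      (push_list_m .sw [.m, .m, .m, .m] _) (ih _ rfl)) ?_) ?_
    · simp [Mem.set, Mem.get, rep_shift, List.replicate_succ, Nat.mul_add]
    · omega

theorem dupSk_spec (j : ℕ) (sk0 : List Sym) (m : Mem O)
    (h : m.sk = List.replicate j .m ++ .c :: sk0) :
    RM E (dupSeg .sk) m (m.set .sk (List.replicate j .m ++ .c :: (List.replicate j .m ++
      .c :: sk0))) (6 * j + 8) := by
  obtain ⟨pa, pb, pc, sh, sm, sk, sw, se, t1, t2, t3, t4, t5, t6, t7, t8, o⟩ := m
  simp only at h
  subst h
  unfold dupSeg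
  simp only [sq]
  refine RM.mono (RM.seq (push_m .t1 .c _) (RM.seq (push_m .t2 .c _) (RM.seq
    (tr2_m (X := .sk) (Y := .t1) (Y' := .t2) (by nofun) (by nofun) (by nofun) (by nofun)
      (by nofun) (by nofun) (marks_isC j) (t := .c) rfl (rest := sk0) rfl) (RM.seq
    (revC_m (X := .t1) (Y := .sk) (by nofun) (l := (List.replicate j Sym.m).reverse)
      (isC_rev (marks_isC _)) (rest := t1) (show (outs fId gCopy false
        (List.replicate j Sym.m)).reverse ++ .c :: t1 = _ by rw [outs_copy]))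
    (RM.cast (revC_m (X := .t2) (Y := .sk) (by nofun) (l := (List.replicate j Sym.m).reverse)
      (isC_rev (marks_isC _)) (rest := t2) (show (outs fId gCopy false
        (List.replicate j Sym.m)).reverse ++ .c :: t2 = _ by rw [outs_copy])) ?_))))) ?_
  · simp [Mem.set, Mem.get]
  · rw [List.length_reverse, List.length_replicate]; omega

theorem EE_eq (j : ℕ) (hj : 1 ≤ j) : EE (j + 2) = (j + 1) / 2 + 1 + EE (j / 2 + 2) := by
  rw [EE_step (by omega)]
  congr 1
  · omega
  · congr 1; omega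

theorem eeLoop (j : ℕ) (r1 : List Sym) (m : Mem O)
    (h : m.t1 = List.replicate j .m ++ .c :: r1) :
    RM E (whileTop .t1 (notTop .c)
      (sq [psh .t2 .c, psh .t3 .c, tr2 .t1 .t2 .t3 isC fTog (gFst .m) gSndT,
        mv .t2 .se isC, psh .se .m, revC .t3 .t1])) m
      ((m.set .t1 (.c :: r1)).set .se (List.replicate (EE (j + 2)) .m ++ m.se))
      (26 * j + 1) := by
  induction j using Nat.strong_induction_on generalizing m with
  | _ j ih =>
    rcases Nat.eq_zero_or_pos j with rfl | hj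
    · refine RM.mono (R.of_eq (R.while_done (S := m.get) (by
        simp [Mem.get, h, notTop])) (congrArg _ ?_)) (by omega)
      obtain ⟨pa, pb, pc, sh, sm, sk, sw, se, t1, t2, t3, t4, t5, t6, t7, t8, o⟩ := m
      simp only at h
      subst h
      simp [Mem.set, EE_base]
    · obtain ⟨pa, pb, pc, sh, sm, sk, sw, se, t1, t2, t3, t4, t5, t6, t7, t8, o⟩ := m
      simp only at h
      subst h
      rw [EE_eq j hj]
      refine RM.mono (RM.cast (R.while_step (X := (WW.t1 : WW O)) (p := notTop .c) (by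
        obtain ⟨q, rfl⟩ : ∃ q, j = q + 1 := ⟨j - 1, by omega⟩
        rfl) (by
          simp only [sq]
          exact RM.seq (push_m .t2 .c _) (RM.seq (push_m .t3 .c _) (RM.seq
            (tr2_m (X := .t1) (Y := .t2) (Y' := .t3) (by nofun) (by nofun) (by nofun)
              (by nofun) (by nofun) (by nofun) (marks_isC j) (t := .c) rfl (rest := r1) rfl)
            (RM.seq (mv_m (X := .t2) (Y := .se) (by nofun) (l := List.replicate ((j + 1) / 2) .m)
              (marks_isC _) (t := .c) rfl (rest := t2) (show (outs fTog (gFst .m) false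
                (List.replicate j Sym.m)).reverse ++ .c :: t2 = _ by
                rw [outs_fst, List.reverse_replicate, List.length_replicate])) (RM.seq
            (push_m .se .m _)
            (revC_m (X := .t3) (Y := .t1) (by nofun) (l := List.replicate (j / 2) .m)
              (marks_isC _) (rest := t3) (show (outs fTog gSndT false
                (List.replicate j Sym.m)).reverse ++ .c :: t3 = _ by
                rw [outs_sndT, odds_replicate', List.reverse_replicate])))))))
        (ih (j / 2) (by omega) _ (show (List.replicate (j / 2) Sym.m).reverse ++ .c :: r1 = _ by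
          rw [List.reverse_replicate]))) ?_) ?_
      · simp only [Mem.set, Mem.get, List.reverse_replicate]
        have : List.replicate (EE (j / 2 + 2)) Sym.m ++ Sym.m :: (List.replicate ((j + 1) / 2)
            Sym.m ++ se) = List.replicate ((j + 1) / 2 + 1 + EE (j / 2 + 2)) .m ++ se := by
          rw [show (j + 1) / 2 + 1 + EE (j / 2 + 2) = EE (j / 2 + 2) + (1 + (j + 1) / 2) by ring,
            List.replicate_add, List.replicate_add]
          simp
        rw [this]
      · simp only [List.length_replicate]; omega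

theorem popLoop (e : ℕ) (se0 : List Sym) (m : Mem O)
    (h : m.se = List.replicate e .m ++ .c :: se0) :
    RM E (forD .se (pp .pc)) m ((m.set .se se0).set .pc (m.pc.drop e)) (4 * e + 4) := by
  induction e generalizing m with
  | zero =>
    refine ((forD_nil_m (M := .se) (m := m) (rest := se0) h).cast ?_).mono (by omega)
    cases m; simp [Mem.set]
  | succ n ih =>
    obtain ⟨pa, pb, pc, sh, sm, sk, sw, se, t1, t2, t3, t4, t5, t6, t7, t8, o⟩ := m
    simp only at h
    subst h
    refine RM.mono (RM.cast (forD_cons_m (M := .se) (s := .m)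
      (l := List.replicate n .m ++ .c :: se0) rfl rfl
      (pop_m .pc _) (ih _ rfl)) ?_) ?_
    · simp [Mem.set, Mem.get, ← List.drop_one, List.drop_drop, Nat.add_comm]
    · omega

/-- time of `mul` -/
def Tmul (κ : ℕ) : ℕ := 100000 * (2 ^ κ * (κ + 3) ^ 4)

theorem mul_time (κ : ℕ) (hκ : 1 ≤ κ) :
    Tnega (4 * κ + 7 + 1) (κ + 1) + 40 * (2 ^ κ * (4 * κ + 7 + 2)) +
      2 * 2 ^ κ * (4 * (4 * κ + 7) + 14) + 200 * κ + 400 ≤ Tmul κ := by
  have h1 : κ + 1 ≤ 2 ^ κ := Nat.lt_two_pow_self
  have e1 : Tnega (4 * κ + 7 + 1) (κ + 1) = 2 ^ κ * (96000 * (κ ^ 2 * (κ + 3) ^ 2)) := by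
    rw [Tnega, Nat.add_sub_cancel, pow_succ]; ring
  have e2 : Tmul κ = 2 ^ κ * (100000 * (κ + 3) ^ 4) := by rw [Tmul]; ring
  rw [e1, e2]
  calc _ ≤ 2 ^ κ * (96000 * (κ ^ 2 * (κ + 3) ^ 2)) + 40 * (2 ^ κ * (4 * κ + 7 + 2)) +
      2 * 2 ^ κ * (4 * (4 * κ + 7) + 14) + 2 ^ κ * 200 + 2 ^ κ * 200 := by omega
    _ = 2 ^ κ * (96000 * (κ ^ 2 * (κ + 3) ^ 2) + 40 * (4 * κ + 7 + 2) +
      2 * (4 * (4 * κ + 7) + 14) + 200 + 200) := by ring
    _ ≤ _ := by
      gcongr
      nlinarith [sq_nonneg (κ : ℤ), Nat.pos_of_ne_zero (show κ ≠ 0 by omega),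
        pow_pos (show 0 < κ + 3 by omega) 2]

theorem mulF_bits {κ n : ℕ} {a b : List Bool} (ha : a.length = 2 ^ κ) (hb : b.length = 2 ^ κ)
    (rc : List Sym) (hE : EE (κ + 1) ≤ 2 ^ (κ + 1)) :
    ((release (List.replicate (n + 1) false) (negaF (κ + 1) (expB (n + 1) a)
      (expB (n + 1) b))).map bit ++ .c :: rc).drop (EE (κ + 1)) =
      (mulF κ (n + 1) a b).map bit ++ .c :: rc := by
  have hwa := wf_expB (w := n + 1) (by omega) a
  have hwb := wf_expB (w := n + 1) (by omega) b
  rw [ha, ← pow_succ'] at hwa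
  rw [hb, ← pow_succ'] at hwb
  rw [List.drop_append_of_le_length, mulF, List.map_drop]
  rw [List.length_map, release_length, (wf_negaF _ _ _ hwa hwb).1]
  exact hE

theorem mul_arith (A1 A2 A3 A4 κ j e : ℕ) (hT : A1 + 40 * A2 + A3 + 200 * κ + 400 ≤ A4)
    (he : e ≤ 2 * (κ + 1)) (hj : j ≤ κ) :
    1 + (1 + (1 + (4 * κ + 1 + (2 * κ + 2 + (6 * κ + 8 + (1 + (1 + (6 * j + 8 + (2 * j + 2 +
      (26 * j + 1 + (1 + (20 * A2 + 20 + (20 * A2 + 20 + (A1 + 2 + (A3 + 8 * (4 * κ + 7) + 20 +
        (4 * e + 4 + (2 * j + 1 + (2 * (4 * κ + 7) + 1)))))))))))))))))) ≤ A4 := by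
  linarith

theorem mulC_spec (hE : E .conv = convC) (hE' : E .nega = negaC) {κ : ℕ} (hκ : 1 ≤ κ)
    {a b : List Bool} (ha : a.length = 2 ^ κ) (hb : b.length = 2 ^ κ)
    (hEE : EE (κ + 1) ≤ 2 ^ (κ + 1))
    (sk0 ra rb rc : List Sym) (m : Mem O) (h0 : m.sk = List.replicate κ .m ++ .c :: sk0)
    (h1 : m.pa = a.map bit ++ .c :: ra) (h2 : m.pb = b.map bit ++ .c :: rb)
    (h3 : m.pc = rc) :
    RM E mulC m (((m.set .pa ra).set .pb rb).set .pc
      ((mulF κ (4 * κ + 7 + 1) a b).map bit ++ .c :: rc)) (Tmul κ) := by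
  have hwa := wf_expB (w := 4 * κ + 7 + 1) (by omega) a
  have hwb := wf_expB (w := 4 * κ + 7 + 1) (by omega) b
  rw [ha, ← pow_succ'] at hwa
  rw [hb, ← pow_succ'] at hwb
  have hwn := wf_negaF (w := 4 * κ + 7 + 1) _ _ _ hwa hwb
  have hN := nega_spec (O := O) hE hE' (w := 4 * κ + 7 + 1) (κ + 1) (by omega)
  have hEEle := EE_le (κ + 1)
  obtain ⟨j, hj⟩ : ∃ j, κ = j + 1 := ⟨κ - 1, by omega⟩
  have hjj : κ + 1 - 2 = j := by omega
  have hT := mul_time κ hκ
  obtain ⟨pa, pb, pc, sh, sm, sk, sw, se, t1, t2, t3, t4, t5, t6, t7, t8, o⟩ := m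
  simp only at h0 h1 h2 h3
  subst h0 h1 h2 h3
  unfold mulC
  simp only [sq]
  refine RM.mono (RM.seq (push_m .sw .c _) (RM.seq
    (push_list_m .sw (List.replicate 7 .m) _) (RM.seq
    (push_m .t5 .c _) (RM.seq
    (wLoop κ sk0 _ rfl) (RM.seq
    (revC_m (X := .t5) (Y := .sk) (by nofun) (l := List.replicate κ Sym.m) (marks_isC _)
      (rest := t5) rfl) (RM.seq
    (dupSk_spec κ sk0 _ (show (List.replicate κ Sym.m).reverse ++ .c :: sk0 = _ by
      rw [List.reverse_replicate])) (RM.seq
    (pop_m .sk _) (RM.seq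
    (push_m .se .c _) (RM.seq
    (dupSk_spec j (List.replicate κ Sym.m ++ .c :: sk0) _
      (show (List.replicate κ Sym.m ++ .c :: (List.replicate κ Sym.m ++ .c :: sk0)).tail = _ by
        rw [hj]; rfl)) (RM.seq
    (revC_m (X := .sk) (Y := .t1) (by nofun) (l := List.replicate j Sym.m) (marks_isC _)
      (rest := List.replicate j Sym.m ++ .c :: (List.replicate κ Sym.m ++ .c :: sk0)) rfl)
      (RM.seq
    (eeLoop j t1 _ (show (List.replicate j Sym.m).reverse ++ .c :: t1 = _ by
      rw [List.reverse_replicate])) (RM.seq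
    (pop_m .t1 _) (RM.seq
    (expand_spec_pa (4 * κ + 7) a sw ra _ (show List.replicate (4 * κ) Sym.m ++
      ((List.replicate 7 Sym.m).reverse ++ .c :: sw) = _ by
        rw [List.reverse_replicate, ← List.append_assoc, ← List.replicate_add]) rfl) (RM.seq
    (expand_spec_pb (4 * κ + 7) b sw rb _ (show List.replicate (4 * κ) Sym.m ++
      ((List.replicate 7 Sym.m).reverse ++ .c :: sw) = _ by
        rw [List.reverse_replicate, ← List.append_assoc, ← List.replicate_add]) rfl) (RM.seq
    (call_m (hN _ _ (List.replicate κ Sym.m ++ .c :: sk0) ra rb pc _ hwa hwb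
      (show List.replicate j Sym.m ++ .c :: (List.replicate κ Sym.m ++ .c :: sk0) = _ by
        rw [hjj]) rfl rfl rfl)) (RM.seq
    (releaseC_spec _ hwn sw pc _ (show List.replicate (4 * κ) Sym.m ++
      ((List.replicate 7 Sym.m).reverse ++ .c :: sw) = _ by
        rw [List.reverse_replicate, ← List.append_assoc, ← List.replicate_add]) rfl) (RM.seq
    (popLoop (EE (j + 2)) se _ rfl) (RM.seq
    (dropC_m (X := .sk) (l := List.replicate j Sym.m) (marks_isC _)
      (rest := List.replicate κ Sym.m ++ .c :: sk0) rfl)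
    (RM.cast (dropC_m (X := .sw) (l := List.replicate (4 * κ + 7) Sym.m) (marks_isC _)
      (rest := sw) (show List.replicate (4 * κ) Sym.m ++
      ((List.replicate 7 Sym.m).reverse ++ .c :: sw) = _ by
        rw [List.reverse_replicate, ← List.append_assoc, ← List.replicate_add])) ?_)))))))))))))))))))
      ?_
  · have := mulF_bits (n := 4 * κ + 7) ha hb pc hEE
    have hj2 : EE (j + 2) = EE (κ + 1) := by rw [hj]
    rw [← hj2] at this
    simp only [Mem.set, Mem.get, List.tail_cons]
    rw [this]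
  · simp only [List.length_replicate, ha, hb]
    have hj2 : EE (j + 2) = EE (κ + 1) := by rw [hj]
    rw [hj2]
    have h5 : 2 ^ (κ + 1) * (4 * (4 * κ + 7) + 14) = 2 * 2 ^ κ * (4 * (4 * κ + 7) + 14) := by
      rw [pow_succ]; ring
    rw [h5]
    exact mul_arith _ _ _ _ _ _ _ hT hEEle (by omega)

end Pool.Agent.Helper62
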