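import Mathlib
import Pool.Agent.Helper62.Spec11

/-!
Basic commands for the stacks outside of the multiplication procedures.
-/

set_option autoImplicit false
set_option linter.unusedSectionVars false

namespace Pool.Agent.Helper62

variable {O : Type} [DecidableEq O] {E : Pr → C O}

def sqL : List (C O) → C O
  | [] => .act []
  | c :: l => .seq c (sqL l)

theorem Mem.ext_get {m m' : Mem O} (h : ∀ X, m.get X = m'.get X) : m = m' := by
  obtain ⟨pa, pb, pc, sh, sm, sk, sw, se, t1, t2, t3, t4, t5, t6, t7, t8, o⟩ := m
  obtain ⟨pa', pb', pc', sh', sm', sk', sw', se', t1', t2', t3', t4', t5', t6', t7', t8', o'⟩ := m'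
  have hpa := h .pa; have hpb := h .pb; have hpc := h .pc; have hsh := h .sh
  have hsm := h .sm; have hsk := h .sk; have hsw := h .sw; have hse := h .se
  have h1 := h .t1; have h2 := h .t2; have h3 := h .t3; have h4 := h .t4
  have h5 := h .t5; have h6 := h .t6; have h7 := h .t7; have h8 := h .t8
  have ho : o = o' := funext fun k => h (.o k)
  simp only [Mem.get] at hpa hpb hpc hsh hsm hsk hsw hse h1 h2 h3 h4 h5 h6 h7 h8
  subst hpa hpb hpc hsh hsm hsk hsw hse h1 h2 h3 h4 h5 h6 h7 h8 ho
  rfl

/-- copy the top segment of an outer stack -/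
def cpyP (k : O) (P : WW O) : C O :=
  sq [psh .t3 .c, mv (.o k) .t3 isC, psh (.o k) .c, psh P .c,
    tr2 .t3 (.o k) P isC fId gCopy gCopy]

theorem cpyP_m {k : O} {P : WW O} (h3 : P ≠ .t3) (h8 : P ≠ .t8) (hk : P ≠ .o k)
    {l rest : List Sym} (hl : ∀ s ∈ l, isC s = false) {m : Mem O}
    (h : m.o k = l ++ .c :: rest) :
    RM E (cpyP k P) m (m.set P (l ++ .c :: m.get P)) (4 * l.length + 6) := by
  have hg : m.get (.o k) = l ++ .c :: rest := h
  unfold cpyP
  simp only [sq]
  refine RM.mono (RM.seq (push_m .t3 .c _) (RM.seq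
    (mv_m (X := .o k) (Y := .t3) (by nofun) hl (t := .c) rfl (rest := rest) h) (RM.seq
    (push_m (.o k) .c _) (RM.seq (push_m P .c _)
    (RM.cast (tr2_m (X := .t3) (Y := .o k) (Y' := P) (by nofun) h3.symm hk.symm (by nofun)
      (by nofun) h8 (isC_rev hl) (t := .c) rfl (rest := m.t3) (by
        rw [Mem.get_set_of_ne _ h3.symm]; rfl)) ?_))))) ?_
  · refine Mem.ext_get fun X => ?_
    simp only [Mem.get_set, outs_copy, List.reverse_reverse]
    by_cases e3 : X = .t3
    · subst e3
      simp [Function.update_of_ne h3.symm, Mem.get]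
    · by_cases ek : X = .o k
      · subst ek
        simp [Function.update_of_ne hk.symm, hg]
      · by_cases eP : X = P
        · subst eP
          simp [Function.update_of_ne hk, Function.update_of_ne h3]
        · simp [Function.update_of_ne e3, Function.update_of_ne ek, Function.update_of_ne eP]
  · rw [List.length_reverse]; omega

def gOne : Bool → Sym → Option Sym := fun _ _ => some .i

theorem outs_gOne (f : Bool → Sym → Bool) (a : Bool) (l : List Sym) :
    outs f gOne a l = List.replicate l.length .i := by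
  induction l generalizing a with
  | nil => rfl
  | cons s l ih => simp [outs, gOne, ih, List.replicate_succ]

theorem bits_zsym (l : List Bool) : (l.map bit).map zsym = List.replicate l.length .o := by
  induction l with
  | nil => rfl
  | cons b l ih => cases b <;> simp [bit, zsym, List.replicate_succ] at ih ⊢ <;> exact ih

/-- sign extension to the double width -/
def sext (l : List Bool) : List Bool := l ++ List.replicate l.length (l.getLastD false)

/-- fill with copies of the sign bit -/
def fillS (k' : O) : C O :=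
  ifTop .t1 (isTop .i) (tr .t2 (.o k') isC fId gOne) (tr .t2 (.o k') isC fId gZero)

theorem fillS_m {k' : O} {l' : List Bool} {b : Bool} {r1 r2 : List Sym} {m : Mem O}
    (h1 : m.t1 = ((l' ++ [b]).map bit).reverse ++ r1)
    (h2 : m.t2 = ((l' ++ [b]).map bit).reverse ++ .c :: r2) :
    RM E (fillS k') m ((m.set .t2 r2).set (.o k')
      ((List.replicate (l'.length + 1) b).map bit ++ m.o k')) (2 * (l'.length + 1) + 3) := by
  have hc := bits_isC (l' ++ [b])
  cases b with
  | false =>
    refine RM.mono (ifTop_false_m (X := .t1) (by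
      show isTop .i (m.t1.head?) = _
      rw [h1]; simp [bit, isTop]) (RM.cast (tr_m (X := .t2) (Y := .o k') (by nofun)
        (by nofun) (by nofun) (by nofun) (by nofun) (isC_rev hc) (t := .c) rfl
        (rest := r2) h2) ?_)) ?_
    · rw [outs_gZero, ← List.map_reverse, List.reverse_reverse, bits_zsym, List.map_replicate]
      simp [bit]
      rfl
    · simp
  | true =>
    refine RM.mono (ifTop_true_m (X := .t1) (by
      show isTop .i (m.t1.head?) = _
      rw [h1]; simp [bit, isTop]) (RM.cast (tr_m (X := .t2) (Y := .o k') (by nofun)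
        (by nofun) (by nofun) (by nofun) (by nofun) (isC_rev hc) (t := .c) rfl
        (rest := r2) h2) ?_)) ?_
    · rw [outs_gOne, List.map_replicate]
      simp [bit]
      rfl
    · simp

/-- move the top segment of an outer stack to another outer stack, with sign extension -/
def ext (k k' : O) : C O :=
  sq [psh .t1 .c, psh .t2 .c, tr2 (.o k) .t1 .t2 isC fId gCopy gCopy, psh (.o k') .c,
    fillS k', mv .t1 (.o k') isC]

theorem ext_m {k k' : O} (hk : k ≠ k') {l : List Bool} (hl : 0 < l.length) {rest : List Sym}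
    {m : Mem O} (h : m.o k = l.map bit ++ .c :: rest) :
    RM E (ext k k') m ((m.set (.o k) rest).set (.o k') ((sext l).map bit ++ .c :: m.o k'))
      (6 * l.length + 9) := by
  unfold ext
  simp only [sq]
  obtain ⟨l', b, rfl⟩ : ∃ l' b, l = l' ++ [b] :=
    ⟨l.dropLast, l.getLast (by intro h; simp [h] at hl), (List.dropLast_append_getLast _).symm⟩
  have hs : sext (l' ++ [b]) = l' ++ [b] ++ List.replicate (l'.length + 1) b := by
    simp [sext]
  have hc := bits_isC (l' ++ [b])
  refine RM.mono (RM.seq (push_m .t1 .c _) (RM.seq (push_m .t2 .c _) (RM.seq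
    (tr2_m (X := .o k) (Y := .t1) (Y' := .t2) (by nofun) (by nofun) (by nofun) (by nofun)
      (by nofun) (by nofun) hc (t := .c) rfl (rest := rest) h) (RM.seq
    (push_m (.o k') .c _) (RM.seq
    (fillS_m (l' := l') (b := b) (r1 := .c :: m.t1) (r2 := m.t2)
      (show (outs fId gCopy false ((l' ++ [b]).map bit)).reverse ++ _ = _ by rw [outs_copy]; rfl)
      (show (outs fId gCopy false ((l' ++ [b]).map bit)).reverse ++ _ = _ by rw [outs_copy]; rfl))
    (RM.cast (mv_m (X := .t1) (Y := .o k') (by nofun) (isC_rev hc) (t := .c) rfl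
      (rest := m.t1) (show (outs fId gCopy false ((l' ++ [b]).map bit)).reverse ++ _ = _ by
        rw [outs_copy]; rfl)) ?_)))))) ?_
  · refine Mem.ext_get fun X => ?_
    simp only [Mem.get_set, outs_copy, List.reverse_reverse, hs]
    by_cases e3 : X = .t1
    · subst e3
      simp [Mem.get]
    · by_cases e4 : X = .t2
      · subst e4
        simp [Mem.get]
      · by_cases ek' : X = .o k'
        · subst ek'
          have hkk : (WW.o k' : WW O) ≠ .o k := fun e => hk (by injection e with e; exact e.symm)
          simp [Mem.get, Mem.set, Function.update_of_ne hkk, Function.update_of_ne hk.symm]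
        · by_cases ek : X = .o k
          · subst ek
            simp [Function.update_of_ne ek', Mem.get]
          · simp [Function.update_of_ne e3, Function.update_of_ne ek, Function.update_of_ne ek',
              Function.update_of_ne e4]
  · simp; omega

/-- push a zero string of the length of the top segment of `k'` onto `k` -/
def zeroO (k' k : O) : C O :=
  sq [psh .t1 .c, psh .t2 .c, tr2 (.o k') .t1 .t2 isC fId gCopy gZero, revC .t1 (.o k'),
    revC .t2 (.o k)]

theorem zeroO_m {k k' : O} (hk : k ≠ k') {l : List Bool} {rest : List Sym}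
    {m : Mem O} (h : m.o k' = l.map bit ++ .c :: rest) :
    RM E (zeroO k' k) m
      (m.set (.o k) ((List.replicate l.length false).map bit ++ .c :: m.o k))
      (6 * l.length + 8) := by
  unfold zeroO
  simp only [sq]
  have hc := bits_isC l
  have hkk : (WW.o k' : WW O) ≠ .o k := fun e => hk (by injection e with e; exact e.symm)
  refine RM.mono (RM.seq (push_m .t1 .c _) (RM.seq (push_m .t2 .c _) (RM.seq
    (tr2_m (X := .o k') (Y := .t1) (Y' := .t2) (by nofun) (by nofun) (by nofun) (by nofun)
      (by nofun) (by nofun) hc (t := .c) rfl (rest := rest) h) (RM.seq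
    (revC_m (X := .t1) (Y := .o k') (by nofun) (l := (l.map bit).reverse) (isC_rev hc)
      (rest := m.t1) (show (outs fId gCopy false (l.map bit)).reverse ++ _ = _ by
        rw [outs_copy]; rfl))
    (RM.cast (revC_m (X := .t2) (Y := .o k) (by nofun) (l := List.replicate l.length .o)
      (by simp [isC]) (rest := m.t2) (show (outs fId gZero false (l.map bit)).reverse ++ _ = _ by
        rw [outs_gZero, bits_zsym, List.reverse_replicate]; rfl)) ?_))))) ?_
  · refine Mem.ext_get fun X => ?_
    simp only [Mem.get_set, List.reverse_reverse]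
    by_cases e3 : X = .t1
    · subst e3
      simp [Mem.get]
    · by_cases e4 : X = .t2
      · subst e4
        simp [Mem.get]
      · by_cases ek' : X = .o k'
        · subst ek'
          simp [Mem.get, Function.update_of_ne hkk, h]
        · by_cases ek : X = .o k
          · subst ek
            simp [Function.update_of_ne ek', Mem.get, bit]
          · simp [Function.update_of_ne e3, Function.update_of_ne ek, Function.update_of_ne ek',
              Function.update_of_ne e4]
  · simp; omega

/-- general truncated addition of two segments -/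
theorem addT_m {x y : Coef} (hxy : x.length = y.length)
    {X1 X2 Y : WW O} (h0 : X1 ≠ X2) (h11 : X1 ≠ Y) (h21 : X2 ≠ Y)
    (h17 : X1 ≠ .t7) (h27 : X2 ≠ .t7) (h37 : Y ≠ .t7)
    {rest rest' : List Sym} {t : Sym} {m : Mem O}
    (h1 : m.get X1 = x.map bit ++ .c :: rest) (h2 : m.get X2 = y.map bit ++ t :: rest') :
    RM E (add1 X1 X2 Y isC) m
      (((m.set X1 rest).set X2 rest').set Y (((addB false x y).map bit).reverse ++ m.get Y))
      (2 * x.length + 2) := by
  have := zip_m (E := E) (Y1 := Y) (Y2 := .t7) (f := fAS) (g1 := gAdd)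
    (g2 := fun _ _ _ => none) (a0 := (false, true))
    h0 h11 h17 h21 h27 h37 (by simpa using hxy) (bits_isC x) rfl h1 h2
  rw [zouts_add_bits _ _ _ hxy, zouts_none, List.length_map] at this
  refine this.cast ?_
  simp only [List.reverse_nil, List.nil_append]
  have e1 : m.get .t7 = (((m.set X1 rest).set X2 rest').set Y
      (((addB false x y).map bit).reverse ++ m.get Y)).get .t7 := by
    rw [Mem.get_set_of_ne _ h37.symm, Mem.get_set_of_ne _ h27.symm, Mem.get_set_of_ne _ h17.symm]
  rw [e1, Mem.set_get]

/-- multiply and accumulate on bit strings -/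
def macF (κ : ℕ) (z a b : List Bool) : List Bool :=
  addB false z ((mulF κ (4 * κ + 7 + 1) a b).take (2 ^ κ))

def mac (kx ky kz : O) : C O :=
  sq [cpyP kx .pa, cpyP ky .pb, .call .mul, psh .t2 .c, add1 (.o kz) .pc .t2 isC, dropC .pc,
    revC .t2 (.o kz)]

/-- specification of the procedure `mul` -/
def MulOK (E : Pr → C O) : Prop :=
  ∀ (κ : ℕ), 4 ≤ κ → ∀ (a b : List Bool) (sk0 ra rb rc : List Sym) (m : Mem O),
    a.length = 2 ^ κ → b.length = 2 ^ κ → m.sk = List.replicate κ .m ++ .c :: sk0 →
    m.pa = a.map bit ++ .c :: ra → m.pb = b.map bit ++ .c :: rb → m.pc = rc →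
    RM E (E .mul) m (((m.set .pa ra).set .pb rb).set .pc
      ((mulF κ (4 * κ + 7 + 1) a b).map bit ++ .c :: rc)) (Tmul κ)

theorem four_pow {κ : ℕ} (hκ : 4 ≤ κ) : 2 * (κ + 1) + 1 ≤ 2 ^ κ := by
  obtain ⟨j, rfl⟩ : ∃ j, κ = j + 4 := ⟨κ - 4, by omega⟩
  induction j with
  | zero => norm_num
  | succ j ih =>
    have := ih (by omega)
    rw [show j + 1 + 4 = (j + 4) + 1 by ring, pow_succ]
    omega

theorem mulOK (hE : E .conv = convC) (hE' : E .nega = negaC) (hE'' : E .mul = mulC) :
    MulOK E := by
  intro κ hκ a b sk0 ra rb rc m ha hb h0 h1 h2 h3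
  rw [hE'']
  have h4 := four_pow hκ
  have h5 := EE_le (κ + 1)
  exact mulC_spec hE hE' (by omega) ha hb (by rw [pow_succ]; omega) sk0 ra rb rc m h0 h1 h2 h3

theorem mac_m (hM : MulOK E) {κ : ℕ} (hκ : 4 ≤ κ) {kx ky kz : O}
    {a b z : List Bool} (ha : a.length = 2 ^ κ) (hb : b.length = 2 ^ κ) (hz : z.length = 2 ^ κ)
    {sk0 rx ry rz : List Sym} {m : Mem O} (h0 : m.sk = List.replicate κ .m ++ .c :: sk0)
    (h1 : m.o kx = a.map bit ++ .c :: rx) (h2 : m.o ky = b.map bit ++ .c :: ry)
    (h3 : m.o kz = z.map bit ++ .c :: rz) :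
    RM E (mac kx ky kz) m (m.set (.o kz) ((macF κ z a b).map bit ++ .c :: rz))
      (Tmul κ + 18 * 2 ^ κ + 24) := by
  have h4 := four_pow hκ
  have h5 := EE_le (κ + 1)
  have hlen := mulF_length (w := 4 * κ + 7 + 1) (by omega) a b ha hb
  obtain ⟨y, t, y', hy, hyl⟩ : ∃ y t y', mulF κ (4 * κ + 7 + 1) a b = y ++ t :: y' ∧
      y.length = 2 ^ κ := by
    have hlt : 2 ^ κ < (mulF κ (4 * κ + 7 + 1) a b).length := by
      rw [hlen, pow_succ]; omega
    refine ⟨(mulF κ (4 * κ + 7 + 1) a b).take (2 ^ κ), (mulF κ (4 * κ + 7 + 1) a b)[2 ^ κ],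
      (mulF κ (4 * κ + 7 + 1) a b).drop (2 ^ κ + 1), ?_, ?_⟩
    · rw [List.getElem_cons_drop, List.take_append_drop]
    · rw [List.length_take]; omega
  have hyt : (mulF κ (4 * κ + 7 + 1) a b).take (2 ^ κ) = y := by
    rw [hy, ← hyl, List.take_left']
    rfl
  have hadd : (addB false z y).length = 2 ^ κ := by rw [addB_length _ _ _ (by rw [hz, hyl]), hz]
  have hy'l : y'.length ≤ 2 ^ κ := by
    rw [hy] at hlen
    simp only [List.length_append, List.length_cons] at hlen
    rw [pow_succ] at hlen
    omega
  unfold mac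
  simp only [sq]
  refine RM.mono (RM.seq (cpyP_m (P := .pa) (by nofun) (by nofun) (by nofun) (bits_isC a) h1)
    (RM.seq (cpyP_m (P := .pb) (by nofun) (by nofun) (by nofun) (bits_isC b) (rest := ry) h2)
    (RM.seq (call_m (hM κ hκ a b sk0 m.pa m.pb m.pc _ ha hb h0 rfl rfl rfl)) (RM.seq
    (push_m .t2 .c _) (RM.seq
    (addT_m (x := z) (y := y) (by rw [hz, hyl]) (X1 := .o kz) (X2 := .pc) (Y := .t2) (by nofun)
      (by nofun) (by nofun) (by nofun) (by nofun) (by nofun) (rest := rz) (t := bit t)
      (rest' := y'.map bit ++ .c :: m.pc) h3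
      (show (mulF κ (4 * κ + 7 + 1) a b).map bit ++ .c :: m.pc = _ by rw [hy]; simp)) (RM.seq
    (dropC_m (X := .pc) (l := y'.map bit) (bits_isC _) (rest := m.pc) rfl)
    (RM.cast (revC_m (X := .t2) (Y := .o kz) (by nofun)
      (l := ((addB false z y).map bit).reverse) (isC_rev (bits_isC _)) (rest := m.t2) rfl)
      ?_))))))) ?_
  · rw [macF, hyt]
    refine Mem.ext_get fun X => ?_
    simp only [Mem.get_set, List.reverse_reverse]
    by_cases e3 : X = .t2
    · subst e3
      simp [Mem.get]
    · by_cases e4 : X = .pa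
      · subst e4
        simp [Mem.get]
      · by_cases e5 : X = .pb
        · subst e5
          simp [Mem.get]
        · by_cases e6 : X = .pc
          · subst e6
            simp [Mem.get]
          · by_cases ek : X = .o kz
            · subst ek
              simp [Mem.get]
            · simp [Function.update_of_ne e3, Function.update_of_ne ek, Function.update_of_ne e5,
              Function.update_of_ne e4, Function.update_of_ne e6]
  · simp only [List.length_map, List.length_reverse, ha, hb, hz, hadd]
    generalize Tmul κ = T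
    omega

end Pool.Agent.Helper62
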