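import Mathlib
import Pool.Agent.Helper62.Top1

/-!
Matrices of bit strings on the outer stacks.
-/

set_option autoImplicit false
set_option linter.unusedSectionVars false

namespace Pool.Agent.Helper62

/-- names of the entries of the letter matrices -/
inductive Tm where
  | O | I | NI | X | Y | Z | NZ
  deriving DecidableEq, Fintype

/-- single outer stacks -/
inductive AA where
  | tm (t : Tm)
  | li | dm | cn | u1 | u2 | u3 | k1 | k2 | k3 | v | ca | r
  deriving DecidableEq, Fintype

/-- outer stacks: three families of `4 × 4` stacks and the single ones -/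
inductive OO where
  | mat (q : Fin 3) (i j : Fin 4)
  | one (a : AA)
  deriving DecidableEq, Fintype

abbrev P4 := Fin 4 × Fin 4
abbrev MO := Mem OO
abbrev CO := C OO

variable {E : Pr → CO}

def mt (q : Fin 3) (p : P4) : OO := .mat q p.1 p.2

theorem mt_inj {q q' : Fin 3} {p p' : P4} (h : mt q p = mt q' p') : q = q' ∧ p = p' := by
  unfold mt at h
  injection h with h1 h2 h3
  exact ⟨h1, Prod.ext h2 h3⟩

/-- the three stacks at a position -/
def Mem.rows (m : MO) (p : P4) (q : Fin 3) : List Sym := m.o (mt q p)

def Mem.setM (m : MO) (T : P4 → Fin 3 → List Sym) : MO :=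
  { m with o := fun k => match k with
      | .mat q i j => T (i, j) q
      | .one a => m.o (.one a) }

theorem rows_setM (m : MO) (T : P4 → Fin 3 → List Sym) : (m.setM T).rows = T := rfl

theorem setM_rows (m : MO) : m.setM m.rows = m := by
  obtain ⟨pa, pb, pc, sh, sm, sk, sw, se, t1, t2, t3, t4, t5, t6, t7, t8, o⟩ := m
  unfold Mem.setM
  congr 1
  funext k
  cases k <;> rfl

theorem setM_setM (m : MO) (T T' : P4 → Fin 3 → List Sym) : (m.setM T).setM T' = m.setM T' := by
  unfold Mem.setM
  congr 1

theorem setM_o_one (m : MO) (T : P4 → Fin 3 → List Sym) (a : AA) :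
    (m.setM T).o (.one a) = m.o (.one a) := rfl

theorem setM_o_mt (m : MO) (T : P4 → Fin 3 → List Sym) (q : Fin 3) (p : P4) :
    (m.setM T).o (mt q p) = T p q := rfl

theorem set_mt (m : MO) (T : P4 → Fin 3 → List Sym) (q : Fin 3) (p : P4) (l : List Sym) :
    (m.setM T).set (.o (mt q p)) l =
      m.setM (Function.update T p (Function.update (T p) q l)) := by
  unfold Mem.set Mem.setM
  simp only
  congr 1
  funext k
  cases k with
  | one a => rw [Function.update_of_ne (by unfold mt; nofun)]
  | mat q' i j =>
    by_cases hp : (i, j) = p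
    · subst hp
      by_cases hq : q' = q
      · subst hq
        refine (Function.update_self (β := fun _ => List Sym) (mt q' (i, j)) l _).trans ?_
        simp
      · rw [Function.update_of_ne (by
          intro h; exact hq (mt_inj (p := (i, j)) (p' := (i, j)) h).1)]
        simp [Function.update_of_ne hq]
    · rw [Function.update_of_ne (by intro h; exact hp (mt_inj (p := (i, j)) (p' := p) h).2)]
      simp only [Function.update_of_ne hp]

theorem set_one (m : MO) (T : P4 → Fin 3 → List Sym) (a : AA) (l : List Sym) :
    (m.setM T).set (.o (.one a)) l = (m.set (.o (.one a)) l).setM T := by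
  unfold Mem.set Mem.setM
  simp only
  congr 1
  funext k
  cases k with
  | one a' =>
    by_cases h : a' = a
    · subst h; simp
    · rw [Function.update_of_ne (by simpa using h)]
      simp only
      rw [Function.update_of_ne (by simpa using h)]
  | mat q' i j => rw [Function.update_of_ne (by nofun)]

theorem set_sk (m : MO) (T : P4 → Fin 3 → List Sym) (l : List Sym) :
    (m.setM T).set .sk l = (m.set .sk l).setM T := rfl

theorem set_mt' (m : MO) (q : Fin 3) (p : P4) (l : List Sym) :
    m.set (.o (mt q p)) l =
      m.setM (Function.update m.rows p (Function.update (m.rows p) q l)) := by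
  have := set_mt m m.rows q p l
  rwa [setM_rows] at this

/-- all positions -/
def allP : List P4 := (List.finRange 4).flatMap fun i => (List.finRange 4).map fun j => (i, j)

theorem allP_nodup : allP.Nodup := by decide
theorem allP_mem (p : P4) : p ∈ allP := by revert p; decide
theorem allP_length : allP.length = 16 := rfl

def all16 (cmd : P4 → CO) : CO := sqL (allP.map cmd)

theorem all_list {cmd : P4 → CO} {m : MO} {T T₁ : P4 → Fin 3 → List Sym} {B : ℕ}
    (h : ∀ (p : P4) (T' : P4 → Fin 3 → List Sym), (∀ p', T' p' = T p' ∨ T' p' = T₁ p') →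
      T' p = T p → RM E (cmd p) (m.setM T') (m.setM (Function.update T' p (T₁ p))) B)
    (l : List P4) (hl : l.Nodup) (T' : P4 → Fin 3 → List Sym)
    (h1 : ∀ p ∈ l, T' p = T p) (h2 : ∀ p, p ∉ l → T' p = T₁ p) :
    RM E (sqL (l.map cmd)) (m.setM T') (m.setM T₁) (l.length * B + 1) := by
  induction l generalizing T' with
  | nil =>
    have : T' = T₁ := funext fun p => h2 p (by simp)
    subst this
    exact (skip_m _).mono (by simp)
  | cons p l ih =>
    rw [List.nodup_cons] at hl
    refine RM.mono (RM.seq (h p T' (fun p' => ?_) (h1 p (by simp))) (ih hl.2 _ ?_ ?_)) ?_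
    · by_cases hp : p' ∈ p :: l
      · exact Or.inl (h1 p' hp)
      · exact Or.inr (h2 p' hp)
    · intro q hq
      have : q ≠ p := fun e => hl.1 (e ▸ hq)
      rw [Function.update_of_ne this]
      exact h1 q (by simp [hq])
    · intro q hq
      by_cases e : q = p
      · subst e; simp
      · rw [Function.update_of_ne e]
        exact h2 q (by simp [e, hq])
    · simp only [List.length_cons]; ring_nf; omega

theorem all16_m {cmd : P4 → CO} {m : MO} {T : P4 → Fin 3 → List Sym}
    (T₁ : P4 → Fin 3 → List Sym) {B : ℕ}
    (h : ∀ (p : P4) (T' : P4 → Fin 3 → List Sym), (∀ p', T' p' = T p' ∨ T' p' = T₁ p') →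
      T' p = T p → RM E (cmd p) (m.setM T') (m.setM (Function.update T' p (T₁ p))) B) :
    RM E (all16 cmd) (m.setM T) (m.setM T₁) (16 * B + 1) :=
  all_list h allP allP_nodup T (fun _ _ => rfl) (fun p hp => absurd (allP_mem p) hp)

/-- sign extension of all entries -/
theorem extAll_m {q : Fin 3} (hq : q ≠ 0) {W : ℕ} (hW : 0 < W) {F : P4 → List Bool}
    (hF : ∀ p, (F p).length = W)
    {m : MO} {T : P4 → Fin 3 → List Sym} {G : P4 → List Sym}
    (h : ∀ p, T p 0 = (F p).map bit ++ .c :: G p) :
    RM E (all16 fun p => ext (mt 0 p) (mt q p)) (m.setM T)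
      (m.setM fun p => Function.update (Function.update (T p) 0 (G p)) q
        ((sext (F p)).map bit ++ .c :: T p q)) (16 * (6 * W + 9) + 1) := by
  refine all16_m _ fun p T' h1 h2 => ?_
  refine RM.mono (RM.cast (ext_m (k := mt 0 p) (k' := mt q p) (fun e => hq (mt_inj e).1.symm)
    (l := F p) (by rw [hF]; exact hW) (rest := G p) ?_) ?_) (by rw [hF])
  · rw [setM_o_mt, h2, h]
  · rw [setM_o_mt, set_mt, set_mt, h2]
    simp [Function.update_idem]

end Pool.Agent.Helper62
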