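import Mathlib
import Pool.Agent.Helper62.Top2

/-!
The product tree of letter matrices.
-/

set_option autoImplicit false
set_option linter.unusedSectionVars false

namespace Pool.Agent.Helper62

variable {E : Pr → CO}

/-- entry of the product of two matrices of bit strings -/
def matF (κ : ℕ) (X Y : P4 → List Bool) (p : P4) : List Bool :=
  macF κ (macF κ (macF κ (macF κ (List.replicate (2 ^ κ) false)
    (X (p.1, 0)) (Y (0, p.2))) (X (p.1, 1)) (Y (1, p.2))) (X (p.1, 2)) (Y (2, p.2)))
    (X (p.1, 3)) (Y (3, p.2))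

theorem macF_length {κ : ℕ} (hκ : 4 ≤ κ) {z a b : List Bool} (hz : z.length = 2 ^ κ)
    (ha : a.length = 2 ^ κ) (hb : b.length = 2 ^ κ) : (macF κ z a b).length = 2 ^ κ := by
  have hlen := mulF_length (w := 4 * κ + 7 + 1) (by omega) a b ha hb
  have h4 := four_pow hκ
  have h5 := EE_le (κ + 1)
  rw [macF, addB_length, hz]
  rw [List.length_take, hlen, hz, pow_succ]
  omega

theorem matF_length {κ : ℕ} (hκ : 4 ≤ κ) {X Y : P4 → List Bool}
    (hX : ∀ p, (X p).length = 2 ^ κ) (hY : ∀ p, (Y p).length = 2 ^ κ) (p : P4) :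
    (matF κ X Y p).length = 2 ^ κ :=
  macF_length hκ (macF_length hκ (macF_length hκ (macF_length hκ (by simp)
    (hX _) (hY _)) (hX _) (hY _)) (hX _) (hY _)) (hX _) (hY _)

def macP (p : P4) (k : Fin 4) : CO := mac (mt 1 (p.1, k)) (mt 2 (k, p.2)) (mt 0 p)

def cell (p : P4) : CO :=
  sqL [zeroO (mt 1 (0, 0)) (mt 0 p), macP p 0, macP p 1, macP p 2, macP p 3]

/-- time of `cell` -/
def Tcell (κ : ℕ) : ℕ := 6 * 2 ^ κ + 8 + 4 * (Tmul κ + 18 * 2 ^ κ + 24) + 1

theorem macP_m (hM : MulOK E) {κ : ℕ} (hκ : 4 ≤ κ) {X Y : P4 → List Bool}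
    (hX : ∀ p, (X p).length = 2 ^ κ) (hY : ∀ p, (Y p).length = 2 ^ κ)
    {GX GY : P4 → List Sym} {z : List Bool} (hz : z.length = 2 ^ κ) {rz : List Sym}
    {sk0 : List Sym} {m : MO} (h0 : m.sk = List.replicate κ .m ++ .c :: sk0)
    (h1 : ∀ p, m.o (mt 1 p) = (X p).map bit ++ .c :: GX p)
    (h2 : ∀ p, m.o (mt 2 p) = (Y p).map bit ++ .c :: GY p) (p : P4) (k : Fin 4)
    (h3 : m.o (mt 0 p) = z.map bit ++ .c :: rz) :
    RM E (macP p k) m (m.set (.o (mt 0 p))
      ((macF κ z (X (p.1, k)) (Y (k, p.2))).map bit ++ .c :: rz))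
      (Tmul κ + 18 * 2 ^ κ + 24) :=
  mac_m hM hκ (hX _) (hY _) hz h0 (h1 _) (h2 _) h3

theorem cell_m (hM : MulOK E) {κ : ℕ} (hκ : 4 ≤ κ) {X Y : P4 → List Bool}
    (hX : ∀ p, (X p).length = 2 ^ κ) (hY : ∀ p, (Y p).length = 2 ^ κ)
    {GX GY : P4 → List Sym}
    {sk0 : List Sym} {m : MO} (h0 : m.sk = List.replicate κ .m ++ .c :: sk0)
    {T : P4 → Fin 3 → List Sym}
    (h1 : ∀ p, T p 1 = (X p).map bit ++ .c :: GX p)
    (h2 : ∀ p, T p 2 = (Y p).map bit ++ .c :: GY p) (p : P4) :
    RM E (cell p) (m.setM T) (m.setM (Function.update T p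
      (Function.update (T p) 0 ((matF κ X Y p).map bit ++ .c :: T p 0)))) (Tcell κ) := by
  have key : ∀ (z : List Bool) (rz : List Sym) (k : Fin 4), z.length = 2 ^ κ →
      RM E (macP p k) (m.setM (Function.update T p (Function.update (T p) 0
        (z.map bit ++ .c :: rz))))
        (m.setM (Function.update T p (Function.update (T p) 0
          ((macF κ z (X (p.1, k)) (Y (k, p.2))).map bit ++ .c :: rz))))
        (Tmul κ + 18 * 2 ^ κ + 24) := by
    intro z rz k hz
    have e : ∀ (q : Fin 3), q ≠ 0 → ∀ p' l, (Function.update T p (Function.update (T p) 0 l)) p' q =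
        T p' q := by
      intro q hq p' l
      by_cases h : p' = p
      · subst h; simp [Function.update_of_ne hq]
      · rw [Function.update_of_ne h]
    refine RM.cast (macP_m hM hκ hX hY (GX := GX) (GY := GY) hz (rz := rz) (sk0 := sk0)
      (m := m.setM (Function.update T p (Function.update (T p) 0 (z.map bit ++ .c :: rz)))) h0
      (fun p' => ?_) (fun p' => ?_) p k ?_) ?_
    · rw [setM_o_mt, e 1 (by decide), h1]
    · rw [setM_o_mt, e 2 (by decide), h2]
    · rw [setM_o_mt]; simp
    · rw [set_mt]; simp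
  have l1 := macF_length hκ (z := List.replicate (2 ^ κ) false) (by simp) (hX (p.1, 0))
    (hY (0, p.2))
  have l2 := macF_length hκ l1 (hX (p.1, 1)) (hY (1, p.2))
  have l3 := macF_length hκ l2 (hX (p.1, 2)) (hY (2, p.2))
  unfold cell
  simp only [sqL]
  refine RM.mono (RM.seq (RM.cast (zeroO_m (k := mt 0 p) (k' := mt 1 (0, 0))
    (fun e => by have := (mt_inj e).1; revert this; decide) (l := X (0, 0)) (rest := GX (0, 0))
    (by rw [setM_o_mt, h1])) ?_) (RM.seq (key _ (T p 0) 0 (by simp)) (RM.seq (key _ _ 1 l1)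
      (RM.seq (key _ _ 2 l2) (RM.seq (key _ _ 3 l3) (RM.cast (skip_m _) ?_)))))) ?_
  · rw [setM_o_mt, set_mt, hX]
  · rfl
  · rw [hX, Tcell]
    generalize Tmul κ = A
    omega

theorem cellAll_m (hM : MulOK E) {κ : ℕ} (hκ : 4 ≤ κ) {X Y : P4 → List Bool}
    (hX : ∀ p, (X p).length = 2 ^ κ) (hY : ∀ p, (Y p).length = 2 ^ κ)
    {GX GY : P4 → List Sym}
    {sk0 : List Sym} {m : MO} (h0 : m.sk = List.replicate κ .m ++ .c :: sk0)
    {T : P4 → Fin 3 → List Sym}
    (h1 : ∀ p, T p 1 = (X p).map bit ++ .c :: GX p)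
    (h2 : ∀ p, T p 2 = (Y p).map bit ++ .c :: GY p) :
    RM E (all16 cell) (m.setM T) (m.setM fun p =>
      Function.update (T p) 0 ((matF κ X Y p).map bit ++ .c :: T p 0)) (16 * Tcell κ + 1) := by
  refine all16_m _ fun p T' h3 h4 => ?_
  have e : ∀ (q : Fin 3), q ≠ 0 → ∀ p', T' p' q = T p' q := by
    intro q hq p'
    rcases h3 p' with h | h <;> rw [h]
    rw [Function.update_of_ne hq]
  refine RM.cast (cell_m hM hκ hX hY (GX := GX) (GY := GY) h0 (fun p' => ?_) (fun p' => ?_) p) ?_
  · rw [e 1 (by decide), h1]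
  · rw [e 2 (by decide), h2]
  · rw [h4]

theorem dropAll_m {q : Fin 3} {W : ℕ} {F : P4 → List Bool}
    (hF : ∀ p, (F p).length = W)
    {m : MO} {T : P4 → Fin 3 → List Sym} {G : P4 → List Sym}
    (h : ∀ p, T p q = (F p).map bit ++ .c :: G p) :
    RM E (all16 fun p => dropC (.o (mt q p))) (m.setM T)
      (m.setM fun p => Function.update (T p) q (G p)) (16 * (2 * W + 1) + 1) := by
  refine all16_m _ fun p T' h1 h2 => ?_
  refine RM.mono (RM.cast (dropC_m (X := .o (mt q p)) (l := (F p).map bit) (bits_isC _)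
    (rest := G p) ?_) ?_) (by rw [List.length_map, hF])
  · show (m.setM T').o (mt q p) = _
    rw [setM_o_mt, h2, h]
  · rw [set_mt, h2]

/-- letter matrices -/
def leafM : Option Letter → Matrix (Fin 4) (Fin 4) Tm
  | none => !![.I, .O, .O, .O; .O, .I, .O, .O; .O, .O, .I, .O; .O, .O, .O, .I]
  | some .a => !![.X, .O, .NI, .O; .O, .X, .O, .NI; .I, .O, .O, .O; .O, .I, .O, .O]
  | some .ai => !![.O, .O, .I, .O; .O, .O, .O, .I; .NI, .O, .X, .O; .O, .NI, .O, .X]
  | some .b => !![.O, .O, .O, .NI; .O, .O, .I, .Z; .NZ, .NI, .Y, .O; .I, .O, .O, .Y]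
  | some .bi => !![.Y, .O, .O, .I; .O, .Y, .NI, .NZ; .Z, .I, .O, .O; .NI, .O, .O, .O]

def lf (l : Option Letter) : CO :=
  all16 fun p => cpyP (.one (.tm (leafM l p.1 p.2))) (.o (mt 0 p))

theorem lf_m (l : Option Letter) {W : ℕ} {tp : Tm → List Bool} (hW : ∀ t, (tp t).length = W)
    {rt : Tm → List Sym} {m : MO}
    (ht : ∀ t, m.o (.one (.tm t)) = (tp t).map bit ++ .c :: rt t) {T : P4 → Fin 3 → List Sym} :
    RM E (lf l) (m.setM T) (m.setM fun p => Function.update (T p) 0
      ((tp (leafM l p.1 p.2)).map bit ++ .c :: T p 0)) (16 * (4 * W + 6) + 1) := by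
  refine all16_m _ fun p T' h1 h2 => ?_
  refine RM.mono (RM.cast (cpyP_m (k := .one (.tm (leafM l p.1 p.2))) (P := .o (mt 0 p))
    (by nofun) (by nofun) (by unfold mt; nofun) (l := (tp (leafM l p.1 p.2)).map bit)
    (rest := rt (leafM l p.1 p.2)) (bits_isC _) ?_) ?_) (by rw [List.length_map, hW])
  · rw [setM_o_one, ht]
  · show (m.setM T').set (.o (mt 0 p)) (_ ++ .c :: (m.setM T').o (mt 0 p)) = _
    rw [setM_o_mt, set_mt, h2]

def encL : Letter → Sym
  | .a => .o
  | .ai => .i
  | .b => .d
  | .bi => .e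

def decL : Sym → Option Letter
  | .o => some .a
  | .i => some .ai
  | .d => some .b
  | .e => some .bi
  | _ => none

theorem decL_encL (l : Letter) : decL (encL l) = some l := by cases l <;> rfl

def lis : WW OO := .o (.one .li)
def dms : WW OO := .o (.one .dm)

def leafC : CO :=
  ifTop lis (isTop .c) (lf none)
    (ifTop lis (isTop .o) (.seq (pp lis) (lf (some .a)))
      (ifTop lis (isTop .i) (.seq (pp lis) (lf (some .ai)))
        (ifTop lis (isTop .d) (.seq (pp lis) (lf (some .b)))
          (.seq (pp lis) (lf (some .bi))))))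

/-- time of a leaf -/
def Tleaf (W : ℕ) : ℕ := 16 * (4 * W + 6) + 6

theorem leafC_m {W : ℕ} {tp : Tm → List Bool} (hW : ∀ t, (tp t).length = W)
    {rt : Tm → List Sym} {m : MO}
    (ht : ∀ t, m.o (.one (.tm t)) = (tp t).map bit ++ .c :: rt t) {T : P4 → Fin 3 → List Sym}
    (w : List Letter) {li0 : List Sym} (hl : m.o (.one .li) = w.map encL ++ .c :: li0) :
    RM E leafC (m.setM T) ((m.set lis ((w.drop 1).map encL ++ .c :: li0)).setM
      fun p => Function.update (T p) 0
      ((tp (leafM w.head? p.1 p.2)).map bit ++ .c :: T p 0)) (Tleaf W) := by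
  have hg : (m.setM T).get lis = w.map encL ++ .c :: li0 := hl
  have hset : ∀ l, (m.setM T).set lis l = (m.set lis l).setM T := fun l => set_one m T .li l
  have ht' : ∀ l t, (m.set lis l).o (.one (.tm t)) = (tp t).map bit ++ .c :: rt t := by
    intro l t
    show Function.update m.o (.one .li) l (.one (.tm t)) = _
    rw [Function.update_of_ne (by nofun), ht]
  cases w with
  | nil =>
    refine RM.mono (RM.cast (ifTop_true_m (X := lis) (by rw [hg]; rfl) (lf_m none hW ht)) ?_) ?_
    · have : m.set lis (([] : List Letter).map encL ++ .c :: li0) = m := by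
        have := Mem.set_get m lis
        rw [show m.get lis = _ from hl] at this
        exact this
      simp only [List.drop_nil, List.head?_nil]
      rw [this]
    · simp [Tleaf]
  | cons x w =>
    have hpop : RM E (pp lis) (m.setM T) ((m.set lis (w.map encL ++ .c :: li0)).setM T) 1 := by
      refine RM.cast (pop_m lis _) ?_
      rw [hg, hset]; rfl
    cases x with
    | a =>
      refine RM.mono (ifTop_false_m (X := lis) (by rw [hg]; rfl)
        (ifTop_true_m (X := lis) (by rw [hg]; rfl) (RM.seq hpop (lf_m _ hW (ht' _))))) ?_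
      simp only [Tleaf]; omega
    | ai =>
      refine RM.mono (ifTop_false_m (X := lis) (by rw [hg]; rfl)
        (ifTop_false_m (X := lis) (by rw [hg]; rfl)
        (ifTop_true_m (X := lis) (by rw [hg]; rfl) (RM.seq hpop (lf_m _ hW (ht' _)))))) ?_
      simp only [Tleaf]; omega
    | b =>
      refine RM.mono (ifTop_false_m (X := lis) (by rw [hg]; rfl)
        (ifTop_false_m (X := lis) (by rw [hg]; rfl)
        (ifTop_false_m (X := lis) (by rw [hg]; rfl)
        (ifTop_true_m (X := lis) (by rw [hg]; rfl) (RM.seq hpop (lf_m _ hW (ht' _))))))) ?_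
      simp only [Tleaf]; omega
    | bi =>
      refine RM.mono (ifTop_false_m (X := lis) (by rw [hg]; rfl)
        (ifTop_false_m (X := lis) (by rw [hg]; rfl)
        (ifTop_false_m (X := lis) (by rw [hg]; rfl)
        (ifTop_false_m (X := lis) (by rw [hg]; rfl) (RM.seq hpop (lf_m _ hW (ht' _))))))) ?_
      simp only [Tleaf]; omega

def recC : CO :=
  sqL [pp dms, pp .sk, .call .prod, all16 fun p => ext (mt 0 p) (mt 1 p), .call .prod,
    all16 fun p => ext (mt 0 p) (mt 2 p), psh .sk .m, all16 cell,
    all16 fun p => dropC (.o (mt 1 p)), all16 fun p => dropC (.o (mt 2 p)), psh dms .m]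

def prodC : CO := ifTop dms (isTop .c) leafC recC

/-- result of the product tree -/
def prodF (κ₀ : ℕ) (tp : Tm → List Bool) : ℕ → List Letter → P4 → List Bool
  | 0, w => fun p => tp (leafM w.head? p.1 p.2)
  | d + 1, w => matF (κ₀ + (d + 1)) (fun p => sext (prodF κ₀ tp d w p))
      (fun p => sext (prodF κ₀ tp d (w.drop (2 ^ d)) p))

theorem sext_length (l : List Bool) : (sext l).length = 2 * l.length := by
  simp [sext]; ring

theorem prodF_length {κ₀ : ℕ} (hκ : 4 ≤ κ₀) {tp : Tm → List Bool}
    (hW : ∀ t, (tp t).length = 2 ^ κ₀) (d : ℕ) (w : List Letter) (p : P4) :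
    (prodF κ₀ tp d w p).length = 2 ^ (κ₀ + d) := by
  induction d generalizing w p with
  | zero => exact hW _
  | succ d ih =>
    have e : 2 ^ (κ₀ + (d + 1)) = 2 * 2 ^ (κ₀ + d) := by rw [← add_assoc, pow_succ, mul_comm]
    exact matF_length (by omega) (fun p => by rw [sext_length, ih, e])
      (fun p => by rw [sext_length, ih, e]) p

/-- time of `prod` -/
def Tprod (κ₀ : ℕ) : ℕ → ℕ
  | 0 => Tleaf (2 ^ κ₀) + 1
  | d + 1 => 2 * Tprod κ₀ d + 2 * (16 * (6 * 2 ^ (κ₀ + d) + 9) + 1) +
      (16 * Tcell (κ₀ + (d + 1)) + 1) + 2 * (16 * (2 * 2 ^ (κ₀ + (d + 1)) + 1) + 1) + 20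

theorem prod_spec (hM : MulOK E) (hP : E .prod = prodC) {κ₀ : ℕ} (hκ : 4 ≤ κ₀)
    {tp : Tm → List Bool} (hW : ∀ t, (tp t).length = 2 ^ κ₀) {rt : Tm → List Sym} (d : ℕ)
    (w : List Letter) (li0 dm0 sk0 : List Sym) (m : MO) (T : P4 → Fin 3 → List Sym)
    (ht : ∀ t, m.o (.one (.tm t)) = (tp t).map bit ++ .c :: rt t)
    (hd : m.o (.one .dm) = List.replicate d .m ++ .c :: dm0)
    (hs : m.sk = List.replicate (κ₀ + d) .m ++ .c :: sk0)
    (hl : m.o (.one .li) = w.map encL ++ .c :: li0) :
    RM E (E .prod) (m.setM T) ((m.set lis ((w.drop (2 ^ d)).map encL ++ .c :: li0)).setM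
      fun p => Function.update (T p) 0 ((prodF κ₀ tp d w p).map bit ++ .c :: T p 0))
      (Tprod κ₀ d) := by
  induction d generalizing w m T with
  | zero =>
    rw [hP]
    have hg : (m.setM T).get dms = .c :: dm0 := hd
    refine RM.mono (ifTop_true_m (X := dms) (by rw [hg]; rfl) (leafC_m hW ht w hl)) ?_
    simp [Tprod]
  | succ d ih =>
    rw [hP]
    have hg : (m.setM T).get dms = .m :: (List.replicate d .m ++ .c :: dm0) := by
      refine Eq.trans hd ?_; rfl
    set D' : List Sym := List.replicate d .m ++ .c :: dm0 with hD'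
    set K' : List Sym := List.replicate (κ₀ + d) .m ++ .c :: sk0 with hK'
    have hK : m.sk = .m :: K' := by rw [hs]; rfl
    set L1 : List Sym := (w.drop (2 ^ d)).map encL ++ .c :: li0 with hL1
    set L2 : List Sym := (w.drop (2 ^ (d + 1))).map encL ++ .c :: li0 with hL2
    have hL2' : ((w.drop (2 ^ d)).drop (2 ^ d)).map encL ++ .c :: li0 = L2 := by
      rw [hL2, List.drop_drop, pow_succ, mul_two]
    have e2 : 2 ^ (κ₀ + (d + 1)) = 2 * 2 ^ (κ₀ + d) := by rw [← add_assoc, pow_succ, mul_comm]
    have hF1 := prodF_length hκ hW d w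
    have hF2 := prodF_length hκ hW d (w.drop (2 ^ d))
    have hX : ∀ p, (sext (prodF κ₀ tp d w p)).length = 2 ^ (κ₀ + (d + 1)) := fun p => by
      rw [sext_length, hF1, e2]
    have hY : ∀ p, (sext (prodF κ₀ tp d (w.drop (2 ^ d)) p)).length = 2 ^ (κ₀ + (d + 1)) :=
      fun p => by rw [sext_length, hF2, e2]
    -- the successive base memories
    set m1 : MO := (m.set dms D').set .sk K' with hm1
    set m2 : MO := (m1.set lis L1).set lis L2 with hm2
    set m3 : MO := m2.set .sk (.m :: K') with hm3
    have one_ne : ∀ (a : AA) (l : List Sym) (mm : MO) (a' : AA), a' ≠ a →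
        (mm.set (.o (.one a)) l).o (.one a') = mm.o (.one a') := by
      intro a l mm a' h
      show Function.update mm.o (.one a) l (.one a') = _
      rw [Function.update_of_ne (by simpa using h)]
    have one_eq : ∀ (a : AA) (l : List Sym) (mm : MO),
        (mm.set (.o (.one a)) l).o (.one a) = l := by
      intro a l mm
      show Function.update mm.o (.one a) l (.one a) = _
      rw [Function.update_self]
    have ht1 : ∀ t, m1.o (.one (.tm t)) = (tp t).map bit ++ .c :: rt t := by
      intro t
      show (m.set dms D').o (.one (.tm t)) = _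
      rw [dms, one_ne _ _ _ _ (by nofun), ht]
    have ht2 : ∀ t, (m1.set lis L1).o (.one (.tm t)) = (tp t).map bit ++ .c :: rt t := by
      intro t
      rw [lis, one_ne _ _ _ _ (by nofun), ht1]
    have hd1 : m1.o (.one .dm) = D' := one_eq .dm D' m
    have hd2 : (m1.set lis L1).o (.one .dm) = D' := by rw [lis, one_ne _ _ _ _ (by nofun), hd1]
    have hl1 : m1.o (.one .li) = w.map encL ++ .c :: li0 := by
      show (m.set dms D').o (.one .li) = _
      rw [dms, one_ne _ _ _ _ (by nofun), hl]
    have hl2 : (m1.set lis L1).o (.one .li) = L1 := one_eq .li L1 m1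
    have s1 : RM E (pp dms) (m.setM T) ((m.set dms D').setM T) 1 := by
      refine RM.cast (pop_m dms _) ?_
      rw [hg]; exact set_one _ _ _ _
    have s2 : RM E (pp .sk) ((m.set dms D').setM T) (m1.setM T) 1 := by
      refine RM.cast (pop_m .sk _) ?_
      rw [show ((m.set dms D').setM T).get .sk = .m :: K' from hK]; rfl
    have s3 := ih w m1 T ht1 hd1 rfl hl1
    have s5 := ih (w.drop (2 ^ d)) (m1.set lis L1) (fun p => Function.update (T p) 1
      ((sext (prodF κ₀ tp d w p)).map bit ++ .c :: T p 1)) ht2 hd2 rfl hl2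
    rw [hL2'] at s5
    have hgoal : (fun p => Function.update (T p) 0 ((prodF κ₀ tp (d + 1) w p).map bit ++
        .c :: T p 0)) = fun p => Function.update (T p) 0 ((matF (κ₀ + (d + 1))
        (fun p => sext (prodF κ₀ tp d w p)) (fun p => sext (prodF κ₀ tp d (w.drop (2 ^ d)) p))
        p).map bit ++ .c :: T p 0) := rfl
    rw [hgoal]
    have hz : ∀ p, (prodF κ₀ tp d w p).length = 2 ^ (κ₀ + d) := hF1
    generalize prodF κ₀ tp d w = F1 at *
    generalize prodF κ₀ tp d (w.drop (2 ^ d)) = F2 at *
    have s4 : RM E (all16 fun p => ext (mt 0 p) (mt 1 p))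
        ((m1.set lis L1).setM fun p => Function.update (T p) 0 ((F1 p).map bit ++ .c :: T p 0))
        ((m1.set lis L1).setM fun p => Function.update (T p) 1
          ((sext (F1 p)).map bit ++ .c :: T p 1)) (16 * (6 * 2 ^ (κ₀ + d) + 9) + 1) := by
      refine RM.cast (extAll_m (E := E) (q := 1) (by decide) (by positivity) hF1
        (m := m1.set lis L1) (G := fun p => T p 0) (fun p => by simp)) (congrArg _ ?_)
      funext p q
      fin_cases q <;> simp [Function.update_apply]
    have s6 : RM E (all16 fun p => ext (mt 0 p) (mt 2 p))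
        (m2.setM fun p => Function.update (Function.update (T p) 1
          ((sext (F1 p)).map bit ++ .c :: T p 1)) 0 ((F2 p).map bit ++ .c ::
          Function.update (T p) 1 ((sext (F1 p)).map bit ++ .c :: T p 1) 0))
        (m2.setM fun p => Function.update (Function.update (T p) 1
          ((sext (F1 p)).map bit ++ .c :: T p 1)) 2
          ((sext (F2 p)).map bit ++ .c :: T p 2)) (16 * (6 * 2 ^ (κ₀ + d) + 9) + 1) := by
      refine RM.cast (extAll_m (E := E) (q := 2) (by decide) (by positivity) hF2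
        (m := m2) (G := fun p => T p 0) (fun p => by simp)) (congrArg _ ?_)
      funext p q
      fin_cases q <;> simp [Function.update_apply]
    have s7 : RM E (psh .sk .m)
        (m2.setM fun p => Function.update (Function.update (T p) 1
          ((sext (F1 p)).map bit ++ .c :: T p 1)) 2
          ((sext (F2 p)).map bit ++ .c :: T p 2))
        (m3.setM fun p => Function.update (Function.update (T p) 1
          ((sext (F1 p)).map bit ++ .c :: T p 1)) 2
          ((sext (F2 p)).map bit ++ .c :: T p 2)) 1 := push_m .sk .m _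
    have s8 := cellAll_m hM (κ := κ₀ + (d + 1)) (by omega) (X := fun p => sext (F1 p))
      (Y := fun p => sext (F2 p)) hX hY (GX := fun p => T p 1) (GY := fun p => T p 2)
      (sk0 := sk0) (m := m3) rfl
      (T := fun p => Function.update (Function.update (T p) 1
          ((sext (F1 p)).map bit ++ .c :: T p 1)) 2
          ((sext (F2 p)).map bit ++ .c :: T p 2)) (fun p => by simp) (fun p => by simp)
    generalize hR : matF (κ₀ + (d + 1)) (fun p => sext (F1 p)) (fun p => sext (F2 p)) = R at *
    have s9 := dropAll_m (E := E) (q := 1) (W := 2 ^ (κ₀ + (d + 1))) (F := fun p => sext (F1 p))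
      hX (m := m3) (T := fun p => Function.update (Function.update (Function.update (T p) 1
          ((sext (F1 p)).map bit ++ .c :: T p 1)) 2
          ((sext (F2 p)).map bit ++ .c :: T p 2)) 0 ((R p).map bit ++ .c ::
          Function.update (Function.update (T p) 1
          ((sext (F1 p)).map bit ++ .c :: T p 1)) 2
          ((sext (F2 p)).map bit ++ .c :: T p 2) 0)) (G := fun p => T p 1) (fun p => by simp)
    have s10 := dropAll_m (E := E) (q := 2) (W := 2 ^ (κ₀ + (d + 1)))
      (F := fun p => sext (F2 p))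
      hY (m := m3) (T := fun p => Function.update (Function.update (Function.update
          (Function.update (T p) 1
          ((sext (F1 p)).map bit ++ .c :: T p 1)) 2
          ((sext (F2 p)).map bit ++ .c :: T p 2)) 0 ((R p).map bit ++ .c ::
          Function.update (Function.update (T p) 1
          ((sext (F1 p)).map bit ++ .c :: T p 1)) 2
          ((sext (F2 p)).map bit ++ .c :: T p 2) 0)) 1 (T p 1)) (G := fun p => T p 2)
          (fun p => by simp)
    refine RM.mono (ifTop_false_m (X := dms) (by rw [hg]; rfl) (RM.seq s1 (RM.seq s2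
      (RM.seq (call_m s3) (RM.seq s4 (RM.seq (call_m s5) (RM.seq s6 (RM.seq s7 (RM.seq s8
      (RM.seq s9 (RM.seq s10 (RM.seq (push_m dms .m _) (RM.cast (skip_m _) ?_))))))))))))) ?_
    · have hD3 : ∀ T' : P4 → Fin 3 → List Sym, (m3.setM T').get dms = D' := by
        intro T'
        show m2.o (.one .dm) = D'
        rw [hm2, lis, one_ne _ _ _ _ (by nofun)]
        exact hd2
      rw [hD3]
      refine (set_one m3 _ .dm _).trans ?_
      have hbase : m3.set (.o (.one .dm)) (.m :: D') = m.set lis L2 := by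
        refine Mem.ext_get fun X => ?_
        rw [hm3, hm2, hm1]
        simp only [Mem.get_set]
        by_cases e1 : X = dms
        · subst e1
          rw [show (WW.o (.one .dm) : WW OO) = dms from rfl, Function.update_self,
            Function.update_of_ne (by unfold dms lis; nofun)]
          exact hd.symm
        · rw [show (WW.o (.one .dm) : WW OO) = dms from rfl, Function.update_of_ne e1]
          by_cases e2 : X = .sk
          · subst e2
            rw [Function.update_self, Function.update_of_ne (by unfold lis; nofun)]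
            exact hK.symm
          · rw [Function.update_of_ne e2]
            by_cases e3 : X = lis
            · subst e3; simp
            · rw [Function.update_of_ne e3, Function.update_of_ne e3, Function.update_of_ne e2,
                Function.update_of_ne e1, Function.update_of_ne e3]
      rw [hbase]
      congr 1
      funext p q
      fin_cases q <;> simp
    · simp only [Tprod]
      ring_nf
      omega

end Pool.Agent.Helper62
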