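import Mathlib
import Pool.Agent.Helper62.Top3

/-!
Counting loops.
-/

set_option autoImplicit false
set_option linter.unusedSectionVars false

namespace Pool.Agent.Helper62

section gen

variable {O : Type} [DecidableEq O] {E : Pr → C O}

theorem RM.cast_left {c : C O} {m m' m'' : Mem O} {B : ℕ} (h : RM E c m m' B) (e : m = m'') :
    RM E c m'' m' B := e ▸ h

/-- loop over a segment which is restored afterwards -/
def loopR (A : WW O) (bO bI : C O) : C O := sq [psh .t5 .c, forS A .t5 bO bI, revC .t5 A]

theorem loopR_aux {A : WW O} (hA : A ≠ .t5) {bO bI : C O} {l : List Sym}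
    (hl : ∀ s ∈ l, isC s = false) {rest r5 : List Sym} {M : ℕ → Mem O} {B : ℕ}
    (hb : ∀ i (hi : i < l.length) la l5, RM E (if l[i] = .o then bO else bI)
      (((M i).set A la).set .t5 l5) (((M (i + 1)).set A la).set .t5 l5) B)
    (l2 l1 : List Sym) (h : l1 ++ l2 = l) :
    RM E (forS A .t5 bO bI) (((M l1.length).set A (l2 ++ .c :: rest)).set .t5 (l1.reverse ++ r5))
      (((M l.length).set A rest).set .t5 (l.reverse ++ r5)) (l2.length * (B + 3) + 1) := by
  induction l2 generalizing l1 with
  | nil =>
    rw [List.append_nil] at h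
    subst h
    refine RM.mono (RM.cast (forS_nil_m (M := A) (rest := rest) (by
      rw [Mem.get_set_of_ne _ hA, Mem.get_set_self]; rfl)) ?_) (by simp)
    rw [Mem.set_comm _ hA.symm, Mem.set_set_self]
  | cons s l2 ih =>
    have hi : l1.length < l.length := by rw [← h]; simp
    have hs : l[l1.length] = s := by simp [← h]
    have hbi := hb l1.length hi (l2 ++ .c :: rest) (s :: (l1.reverse ++ r5))
    rw [hs] at hbi
    have h' := ih (l1 ++ [s]) (by simp [← h])
    rw [List.length_append, List.length_singleton, List.reverse_append, List.reverse_singleton,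
      List.singleton_append, List.cons_append] at h'
    have e : ((((M l1.length).set A (s :: l2 ++ .c :: rest)).set .t5 (l1.reverse ++ r5)).set A
        (l2 ++ .c :: rest)).set .t5 (s :: (((M l1.length).set A (s :: l2 ++ .c :: rest)).set .t5
        (l1.reverse ++ r5)).get .t5) = ((M l1.length).set A (l2 ++ .c :: rest)).set .t5
        (s :: (l1.reverse ++ r5)) := by
      rw [Mem.get_set_self, Mem.set_comm _ hA.symm, Mem.set_set_self, Mem.set_set_self]
    have hsc : s ≠ .c := by
      intro e
      have := hl s (by rw [← h]; simp)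
      rw [e] at this; exact absurd this (by decide)
    by_cases ho : s = .o
    · subst ho
      simp only [if_true] at hbi
      refine RM.mono (forS_o_m (M := A) (M' := .t5) (l := l2 ++ .c :: rest) hA (by
        rw [Mem.get_set_of_ne _ hA, Mem.get_set_self]; rfl) (by rw [e]; exact hbi) h') ?_
      simp only [List.length_cons]; ring_nf; omega
    · simp only [ho, if_false] at hbi
      refine RM.mono (forS_i_m (M := A) (M' := .t5) (s := s) (l := l2 ++ .c :: rest) hA (by
        rw [Mem.get_set_of_ne _ hA, Mem.get_set_self]; rfl) hsc ho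
        (by rw [e]; exact hbi) h') ?_
      simp only [List.length_cons]; ring_nf; omega

theorem loopR_m {A : WW O} (hA : A ≠ .t5) {bO bI : C O} {l : List Sym}
    (hl : ∀ s ∈ l, isC s = false) {rest : List Sym} {M : ℕ → Mem O} {B : ℕ}
    (hMA : (M 0).get A = l ++ .c :: rest) (hMA' : (M l.length).get A = l ++ .c :: rest)
    (hM5 : (M l.length).get .t5 = (M 0).get .t5)
    (hb : ∀ i (hi : i < l.length) la l5, RM E (if l[i] = .o then bO else bI)
      (((M i).set A la).set .t5 l5) (((M (i + 1)).set A la).set .t5 l5) B) :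
    RM E (loopR A bO bI) (M 0) (M l.length) (l.length * (B + 5) + 4) := by
  unfold loopR
  simp only [sq]
  have h1 := loopR_aux hA hl (rest := rest) (r5 := .c :: (M 0).get .t5) hb l [] (by simp)
  have e0 : ((M 0).set A (l ++ .c :: rest)) = M 0 := by rw [← hMA, Mem.set_get]
  simp only [List.length_nil, List.reverse_nil, List.nil_append] at h1
  rw [e0] at h1
  refine RM.mono (RM.seq (push_m .t5 .c _) (RM.seq h1
    (RM.cast (revC_m (X := .t5) (Y := A) hA.symm (l := l.reverse) (isC_rev hl)
      (rest := (M 0).get .t5) (by rw [Mem.get_set_self])) ?_))) ?_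
  · rw [Mem.set_set_self, Mem.get_set_of_ne _ hA, Mem.get_set_self, List.reverse_reverse,
      ← hMA', Mem.set_comm _ hA, Mem.set_set_self, ← hM5, Mem.set_comm _ hA.symm,
      Mem.set_get, Mem.set_get]
  · rw [List.length_reverse]; ring_nf; omega

/-- loops over marks -/
def loopN (A : WW O) (b : C O) : C O := loopR A b b

theorem loopN_m {A : WW O} (hA : A ≠ .t5) {b : C O} {n : ℕ}
    {rest : List Sym} {M : ℕ → Mem O} {B : ℕ}
    (hMA : (M 0).get A = List.replicate n .m ++ .c :: rest)
    (hMA' : (M n).get A = List.replicate n .m ++ .c :: rest)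
    (hM5 : (M n).get .t5 = (M 0).get .t5)
    (hb : ∀ i, i < n → ∀ la l5, RM E b
      (((M i).set A la).set .t5 l5) (((M (i + 1)).set A la).set .t5 l5) B) :
    RM E (loopN A b) (M 0) (M n) (n * (B + 5) + 4) := by
  have := loopR_m (E := E) hA (bO := b) (bI := b) (l := List.replicate n Sym.m) (marks_isC n)
    (rest := rest) (M := M) (B := B) hMA (by simpa using hMA') (by simpa using hM5)
    (fun i hi la l5 => by
      have := hb i (by simpa using hi) la l5
      simpa using this)
  simpa [loopN] using this

/-- push symbols `k` times -/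
theorem pushLoop {A D : WW O} (hA : A ≠ .t5) (hD : D ≠ .t5) (hAD : A ≠ D) (q : ℕ) (s : Sym)
    {n : ℕ} {rest : List Sym} {m : Mem O}
    (h : m.get A = List.replicate n .m ++ .c :: rest) :
    RM E (loopN A (.act (List.replicate q (pushc D s)))) m
      (m.set D (List.replicate (q * n) s ++ m.get D)) (6 * n + 4) := by
  have h1 := loopN_m (E := E) hA (b := .act (List.replicate q (pushc D s))) (n := n)
    (rest := rest) (M := fun i => m.set D (List.replicate (q * i) s ++ m.get D)) (B := 1)
    (by rw [Mem.get_set_of_ne _ hAD, h]) (by rw [Mem.get_set_of_ne _ hAD, h])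
    (by rw [Mem.get_set_of_ne _ hD.symm, Mem.get_set_of_ne _ hD.symm])
    (fun i hi la l5 => by
      have := push_list_m (E := E) D (List.replicate q s)
        (((m.set D (List.replicate (q * i) s ++ m.get D)).set A la).set .t5 l5)
      rw [List.map_replicate] at this
      refine RM.cast this ?_
      rw [Mem.get_set_of_ne _ hD, Mem.get_set_of_ne _ hAD.symm, Mem.get_set_self,
        List.reverse_replicate, ← List.append_assoc, ← List.replicate_add,
        Mem.set_comm _ hD.symm, Mem.set_comm _ hAD, Mem.set_set_self,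
        show q + q * i = q * (i + 1) by ring])
  refine RM.mono (RM.cast_left h1 ?_) (by ring_nf; omega)
  simp only [Nat.mul_zero, List.replicate_zero, List.nil_append, Mem.set_get]

/-- pop symbols -/
theorem popLoopR {A D : WW O} (hA : A ≠ .t5) (hD : D ≠ .t5) (hAD : A ≠ D)
    {n : ℕ} {rest : List Sym} {m : Mem O}
    (h : m.get A = List.replicate n .m ++ .c :: rest) :
    RM E (loopN A (pp D)) m (m.set D ((m.get D).drop n)) (6 * n + 4) := by
  have h1 := loopN_m (E := E) hA (b := pp D) (n := n)
    (rest := rest) (M := fun i => m.set D ((m.get D).drop i)) (B := 1)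
    (by rw [Mem.get_set_of_ne _ hAD, h]) (by rw [Mem.get_set_of_ne _ hAD, h])
    (by rw [Mem.get_set_of_ne _ hD.symm, Mem.get_set_of_ne _ hD.symm])
    (fun i hi la l5 => by
      refine RM.cast (pop_m D _) ?_
      rw [Mem.get_set_of_ne _ hD, Mem.get_set_of_ne _ hAD.symm, Mem.get_set_self,
        List.tail_drop, Mem.set_comm _ hD.symm, Mem.set_comm _ hAD, Mem.set_set_self])
  refine RM.mono (RM.cast_left h1 ?_) (by ring_nf; omega)
  simp only [List.drop_zero, Mem.set_get]

/-- doubling of the top segment of a general stack -/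
theorem dbl_m {X : WW O} (hX : X ≠ .t6) {l rest : List Sym} (hl : ∀ s ∈ l, isC s = false)
    {m : Mem O} (h : m.get X = l ++ .c :: rest) :
    RM E (dbl X) m (m.set X (l.flatMap (fun s => [s, s]) ++ .c :: rest)) (6 * l.length + 4) := by
  unfold dbl
  simp only [sq]
  refine RM.mono (RM.seq (push_m .t6 .c _) (RM.seq
    (mvd_m (X := X) (Y := .t6) hX hl (t := .c) rfl (rest := rest) (by
      rw [Mem.get_set_of_ne _ hX, h]))
    (RM.cast (revC_m (X := .t6) (Y := X) hX.symm (l := (l.flatMap fun s => [s, s]).reverse)
      (isC_rev (dup_isC hl)) (rest := m.get .t6) (by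
        rw [Mem.get_set_self, Mem.get_set_self])) ?_))) ?_
  · refine Mem.ext_get fun Y => ?_
    simp only [Mem.get_set, List.reverse_reverse]
    by_cases e1 : Y = X
    · subst e1; simp [Function.update_of_ne hX]
    · by_cases e2 : Y = .t6
      · subst e2; simp [Function.update_of_ne e1]
      · simp [Function.update_of_ne e1, Function.update_of_ne e2]
  · rw [List.length_reverse, dup_length]; omega

/-- repeated doubling -/
theorem dblRounds {A X : WW O} (hA : A ≠ .t5) (hX5 : X ≠ .t5) (hX6 : X ≠ .t6) (hAX : A ≠ X)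
    (hA6 : A ≠ .t6) (s : Sym) (hs : isC s = false) {n : ℕ} {q : ℕ} {rest restX : List Sym}
    {m : Mem O} (h : m.get A = List.replicate n .m ++ .c :: rest)
    (hX : m.get X = List.replicate q s ++ .c :: restX) :
    RM E (loopN A (dbl X)) m (m.set X (List.replicate (q * 2 ^ n) s ++ .c :: restX))
      (n * (6 * (q * 2 ^ n) + 9) + 4) := by
  have h1 := loopN_m (E := E) hA (b := dbl X) (n := n)
    (rest := rest) (M := fun i => m.set X (List.replicate (q * 2 ^ i) s ++ .c :: restX))
    (B := 6 * (q * 2 ^ n) + 4)
    (by rw [Mem.get_set_of_ne _ hAX, h]) (by rw [Mem.get_set_of_ne _ hAX, h])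
    (by rw [Mem.get_set_of_ne _ hX5.symm, Mem.get_set_of_ne _ hX5.symm])
    (fun i hi la l5 => by
      refine RM.mono (RM.cast (dbl_m hX6 (l := List.replicate (q * 2 ^ i) s) (rest := restX)
        (by intro x hx; rw [(List.mem_replicate.1 hx).2]; exact hs) (by
          rw [Mem.get_set_of_ne _ hX5, Mem.get_set_of_ne _ hAX.symm, Mem.get_set_self])) ?_) ?_
      · rw [dup_replicate, Mem.set_comm _ hX5.symm, Mem.set_comm _ hAX, Mem.set_set_self,
          show 2 * (q * 2 ^ i) = q * 2 ^ (i + 1) by rw [pow_succ]; ring]
      · rw [List.length_replicate]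
        have : q * 2 ^ i ≤ q * 2 ^ n := Nat.mul_le_mul_left _ (Nat.pow_le_pow_right (by norm_num)
          (by omega))
        omega)
  refine RM.mono (RM.cast_left h1 ?_) (by ring_nf; omega)
  simp only [pow_zero, mul_one, ← hX, Mem.set_get]

end gen

end Pool.Agent.Helper62
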