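import Mathlib
import Pool.Agent.Helper62.Top4

/-!
The phases of the main program before the product tree.
-/

set_option autoImplicit false
set_option linter.unusedSectionVars false

namespace Pool.Agent.Helper62

/-- contents of the single outer stacks -/
structure SA where
  tm : Tm → List Sym
  li : List Sym
  dm : List Sym
  cn : List Sym
  u1 : List Sym
  u2 : List Sym
  u3 : List Sym
  k1 : List Sym
  k2 : List Sym
  k3 : List Sym
  v : List Sym
  ca : List Sym
  r : List Sym

def SA.get (S : SA) : AA → List Sym
  | .tm t => S.tm t
  | .li => S.li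
  | .dm => S.dm
  | .cn => S.cn
  | .u1 => S.u1
  | .u2 => S.u2
  | .u3 => S.u3
  | .k1 => S.k1
  | .k2 => S.k2
  | .k3 => S.k3
  | .v => S.v
  | .ca => S.ca
  | .r => S.r

def SA.set (S : SA) : AA → List Sym → SA
  | .tm t, l => { S with tm := Function.update S.tm t l }
  | .li, l => { S with li := l }
  | .dm, l => { S with dm := l }
  | .cn, l => { S with cn := l }
  | .u1, l => { S with u1 := l }
  | .u2, l => { S with u2 := l }
  | .u3, l => { S with u3 := l }
  | .k1, l => { S with k1 := l }
  | .k2, l => { S with k2 := l }
  | .k3, l => { S with k3 := l }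
  | .v, l => { S with v := l }
  | .ca, l => { S with ca := l }
  | .r, l => { S with r := l }

theorem SA.get_set (S : SA) (a : AA) (l : List Sym) :
    (S.set a l).get = Function.update S.get a l := by
  funext Y
  by_cases h : Y = a
  · subst h
    cases Y <;> simp [SA.get, SA.set]
  · rw [Function.update_of_ne h]
    cases a <;> cases Y <;> first | rfl | (exact absurd rfl h) | skip
    rename_i k k'
    have : k' ≠ k := fun hk => h (by rw [hk])
    simp [SA.get, SA.set, Function.update_of_ne this]

/-- memory of the main program -/
def mkM (sk : List Sym) (S : SA) (T : P4 → Fin 3 → List Sym) : MO :=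
  ⟨[], [], [], [], [], sk, [], [], [], [], [], [], [], [], [], [], fun k => match k with
    | .mat q i j => T (i, j) q
    | .one a => S.get a⟩

theorem mkM_set (sk : List Sym) (S : SA) (T : P4 → Fin 3 → List Sym) (a : AA) (l : List Sym) :
    (mkM sk S T).set (.o (.one a)) l = mkM sk (S.set a l) T := by
  unfold Mem.set mkM
  simp only
  congr 1
  funext k
  cases k with
  | one a' =>
    simp only [SA.get_set]
    by_cases h : a' = a
    · subst h; simp
    · rw [Function.update_of_ne (by simpa using h), Function.update_of_ne h]
  | mat q' i j => rw [Function.update_of_ne (by nofun)]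

theorem mkM_sk (sk : List Sym) (S : SA) (T : P4 → Fin 3 → List Sym) (l : List Sym) :
    (mkM sk S T).set .sk l = mkM l S T := rfl

theorem mkM_setM (sk : List Sym) (S : SA) (T T' : P4 → Fin 3 → List Sym) :
    (mkM sk S T).setM T' = mkM sk S T' := by
  unfold Mem.setM mkM
  congr 1

theorem mkM_get (sk : List Sym) (S : SA) (T : P4 → Fin 3 → List Sym) (a : AA) :
    (mkM sk S T).get (.o (.one a)) = S.get a := rfl

/-- number of binary digits -/
def szL : ℕ → ℕ
  | 0 => 0
  | n + 1 => szL ((n + 1) / 2) + 1
decreasing_by exact Nat.div_lt_self (by omega) (by norm_num)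

theorem szL_zero : szL 0 = 0 := by rw [szL]
theorem szL_pos {n : ℕ} (h : n ≠ 0) : szL n = szL (n / 2) + 1 := by
  obtain ⟨k, rfl⟩ := Nat.exists_eq_succ_of_ne_zero h
  rw [szL]

theorem lt_szL (n : ℕ) : n < 2 ^ szL n := by
  induction n using Nat.strong_induction_on with
  | _ n ih =>
    rcases Nat.eq_zero_or_pos n with rfl | h
    · simp [szL_zero]
    · rw [szL_pos (by omega), pow_succ]
      have := ih (n / 2) (by omega)
      omega

theorem szL_le (n : ℕ) : 2 ^ szL n ≤ 2 * n + 1 := by
  induction n using Nat.strong_induction_on with
  | _ n ih =>
    rcases Nat.eq_zero_or_pos n with rfl | h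
    · simp [szL_zero]
    · rw [szL_pos (by omega), pow_succ]
      have h2 := ih (n / 2) (by omega)
      rcases Nat.eq_zero_or_pos (n / 2) with h0 | h0
      · rw [h0, szL_zero]; omega
      · have h3 : 2 ^ szL (n / 2) ≠ 2 * (n / 2) + 1 := by
          rw [szL_pos (by omega), pow_succ]; omega
        omega

def ones (a : AA) : WW OO := .o (.one a)

/-- the number of binary digits in unary -/
def p2C : CO :=
  sqL [cpyP (.one .cn) .t1, psh (ones .dm) .c,
    whileTop .t1 (notTop .c) (sqL [psh .t2 .c, tr .t1 .t2 isC fTog gSndT, revC .t2 .t1,
      psh (ones .dm) .m]),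
    pp .t1]

theorem szLoop {E : Pr → CO} (j : ℕ) (r1 : List Sym) (m : MO)
    (h : m.t1 = List.replicate j .m ++ .c :: r1) :
    RM E (whileTop .t1 (notTop .c) (sqL [psh .t2 .c, tr .t1 .t2 isC fTog gSndT, revC .t2 .t1,
      psh (ones .dm) .m])) m
      ((m.set .t1 (.c :: r1)).set (ones .dm) (List.replicate (szL j) .m ++ m.get (ones .dm)))
      (16 * j + 1) := by
  induction j using Nat.strong_induction_on generalizing m with
  | _ j ih =>
    rcases Nat.eq_zero_or_pos j with rfl | hj
    · refine RM.mono (R.of_eq (R.while_done (S := m.get) (by
        simp [Mem.get, h, notTop])) (congrArg _ ?_)) (by omega)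
      have h' : m.get .t1 = .c :: r1 := h
      rw [szL_zero, List.replicate_zero, List.nil_append, ← h', Mem.set_get, Mem.set_get]
    · have hsz := szL_pos (n := j) (by omega)
      have hne : (ones .dm : WW OO) ≠ .t1 := by unfold ones; nofun
      have hne2 : (ones .dm : WW OO) ≠ .t2 := by unfold ones; nofun
      refine RM.mono (RM.cast (R.while_step (X := (WW.t1 : WW OO)) (p := notTop .c) (by
        obtain ⟨q, rfl⟩ : ∃ q, j = q + 1 := ⟨j - 1, by omega⟩
        show notTop .c m.t1.head? = true
        rw [h]; rfl) (by
          simp only [sqL]
          exact RM.seq (push_m .t2 .c _) (RM.seq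
            (tr_m (X := .t1) (Y := .t2) (by nofun) (by nofun) (by nofun)
              (by nofun) (by nofun) (marks_isC j) (t := .c) rfl (rest := r1) h)
            (RM.seq (revC_m (X := .t2) (Y := .t1) (by nofun) (l := List.replicate (j / 2) .m)
              (marks_isC _) (rest := m.t2) (show (outs fTog gSndT false
                (List.replicate j Sym.m)).reverse ++ .c :: m.t2 = _ by
                rw [outs_sndT, odds_replicate', List.reverse_replicate])) (RM.seq
            (push_m (ones .dm) .m _) (skip_m _)))))
        (ih (j / 2) (by omega) _ (show (List.replicate (j / 2) Sym.m).reverse ++ .c :: r1 = _ by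
          rw [List.reverse_replicate]))) ?_) ?_
      · refine Mem.ext_get fun X => ?_
        simp only [Mem.get_set]
        by_cases e1 : X = ones .dm
        · subst e1
          simp only [Function.update_self, Function.update_of_ne hne,
            Function.update_of_ne hne2, hsz]
          rw [List.replicate_succ', List.append_assoc]
          rfl
        · rw [Function.update_of_ne e1, Function.update_of_ne e1]
          by_cases e2 : X = .t1
          · subst e2; simp
          · rw [Function.update_of_ne e2, Function.update_of_ne e2, Function.update_of_ne e1,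
              Function.update_of_ne e2]
            by_cases e3 : X = .t2
            · subst e3; simp [Mem.get]
            · rw [Function.update_of_ne e3, Function.update_of_ne e3, Function.update_of_ne e2,
                Function.update_of_ne e3]
      · simp only [List.length_replicate]; omega

theorem p2_spec {E : Pr → CO} (n : ℕ) (sk : List Sym) (S : SA) (T : P4 → Fin 3 → List Sym)
    (h : S.cn = List.replicate n .m ++ [.c]) (h' : S.dm = []) :
    RM E p2C (mkM sk S T) (mkM sk (S.set .dm (List.replicate (szL n) .m ++ [.c])) T)
      (20 * n + 20) := by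
  unfold p2C
  simp only [sqL]
  refine RM.mono (RM.seq (cpyP_m (k := OO.one .cn) (P := .t1) (by nofun) (by nofun) (by nofun)
      (marks_isC n) (rest := []) h) (RM.seq (push_m (ones .dm) .c _) (RM.seq
    (szLoop n [] _ rfl) (RM.seq (pop_m .t1 _) (RM.cast (skip_m _) ?_))))) ?_
  · rw [← mkM_set]
    refine Mem.ext_get fun X => ?_
    simp only [Mem.get_set]
    by_cases e1 : X = ones .dm
    · subst e1
      rw [show (WW.o (.one .dm) : WW OO) = ones .dm from rfl, Function.update_self,
        Function.update_of_ne (by unfold ones; nofun), Function.update_self,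
        Function.update_self]
      rw [Function.update_of_ne (by unfold ones; nofun)]
      show _ ++ Sym.c :: S.dm = _
      rw [h']
    · rw [show (WW.o (.one .dm) : WW OO) = ones .dm from rfl, Function.update_of_ne e1]
      by_cases e2 : X = .t1
      · subst e2; rfl
      · rw [Function.update_of_ne e2, Function.update_of_ne e1, Function.update_of_ne e2,
          Function.update_of_ne e1, Function.update_of_ne e2]
  · rw [List.length_replicate]; omega

end Pool.Agent.Helper62
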