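import Mathlib
import Pool.Agent.Helper62.Top5

/-!
Counters, constant strings and masks.
-/

set_option autoImplicit false
set_option linter.unusedSectionVars false

namespace Pool.Agent.Helper62

section gen

variable {O : Type} [DecidableEq O] {E : Pr → C O}

def push4 (D : WW O) (s : Sym) : C O := .act (List.replicate 4 (pushc D s))
def push1 (D : WW O) (s : Sym) : C O := .act (List.replicate 1 (pushc D s))

/-- fill with `s` -/
def fillC (A D : WW O) (s : Sym) : C O := .seq (psh D .c) (loopN A (push4 D s))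

theorem fillC_m {A D : WW O} (hA : A ≠ .t5) (hD : D ≠ .t5) (hAD : A ≠ D) (s : Sym)
    {n : ℕ} {rest : List Sym} {m : Mem O} (h : m.get A = List.replicate n .m ++ .c :: rest) :
    RM E (fillC A D s) m (m.set D (List.replicate (4 * n) s ++ .c :: m.get D)) (6 * n + 5) := by
  unfold fillC push4
  refine RM.mono (RM.seq (push_m D .c _) (RM.cast (pushLoop hA hD hAD 4 s (n := n)
    (rest := rest) (by rw [Mem.get_set_of_ne _ hAD, h])) ?_)) ?_
  · rw [Mem.get_set_self, Mem.set_set_self]
  · omega

/-- a single one at the position given by the counter -/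
def tZC (A U D : WW O) : C O :=
  sqL [fillC U D .o, loopN A (pp D), pp D, psh D .i, loopN A (push1 D .o)]

theorem tZC_m {A U D : WW O} (hA : A ≠ .t5) (hU : U ≠ .t5) (hD : D ≠ .t5) (hAD : A ≠ D)
    (hUD : U ≠ D) {a n : ℕ} (ha : a < 4 * n) {ra ru : List Sym} {m : Mem O}
    (h : m.get A = List.replicate a .m ++ .c :: ra)
    (hu : m.get U = List.replicate n .m ++ .c :: ru) :
    RM E (tZC A U D) m (m.set D ((List.replicate a false ++ true ::
      List.replicate (4 * n - a - 1) false).map bit ++ .c :: m.get D))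
      (6 * n + 12 * a + 16) := by
  unfold tZC push1
  simp only [sqL]
  refine RM.mono (RM.seq (fillC_m hU hD hUD .o hu) (RM.seq
    (popLoopR hA hD hAD (n := a) (rest := ra) (by rw [Mem.get_set_of_ne _ hAD, h]))
    (RM.seq (pop_m D _) (RM.seq (push_m D .i _) (RM.seq
    (pushLoop hA hD hAD 1 .o (n := a) (rest := ra) (by
      rw [Mem.get_set_of_ne _ hAD, Mem.get_set_of_ne _ hAD, Mem.get_set_of_ne _ hAD,
        Mem.get_set_of_ne _ hAD, h]))
    (RM.cast (skip_m _) ?_)))))) ?_
  · simp only [Mem.set_set_self, Mem.get_set_self]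
    congr 1
    rw [show 4 * n = a + (1 + (4 * n - a - 1)) by omega, List.replicate_add, List.replicate_add,
      List.append_assoc, List.drop_append_of_le_length (by simp), List.drop_replicate]
    simp [bit]
  · omega

/-- ones from the position given by the counter -/
def tNC (A U D : WW O) : C O :=
  sqL [fillC U D .i, loopN A (pp D), loopN A (push1 D .o)]

theorem tNC_m {A U D : WW O} (hA : A ≠ .t5) (hU : U ≠ .t5) (hD : D ≠ .t5) (hAD : A ≠ D)
    (hUD : U ≠ D) {a n : ℕ} (ha : a ≤ 4 * n) {ra ru : List Sym} {m : Mem O}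
    (h : m.get A = List.replicate a .m ++ .c :: ra)
    (hu : m.get U = List.replicate n .m ++ .c :: ru) :
    RM E (tNC A U D) m (m.set D ((List.replicate a false ++
      List.replicate (4 * n - a) true).map bit ++ .c :: m.get D))
      (6 * n + 12 * a + 14) := by
  unfold tNC push1
  simp only [sqL]
  refine RM.mono (RM.seq (fillC_m hU hD hUD .i hu) (RM.seq
    (popLoopR hA hD hAD (n := a) (rest := ra) (by rw [Mem.get_set_of_ne _ hAD, h]))
    (RM.seq
    (pushLoop hA hD hAD 1 .o (n := a) (rest := ra) (by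
      rw [Mem.get_set_of_ne _ hAD, Mem.get_set_of_ne _ hAD, h]))
    (RM.cast (skip_m _) ?_)))) ?_
  · simp only [Mem.set_set_self, Mem.get_set_self]
    congr 1
    rw [show 4 * n = a + (4 * n - a) by omega, List.replicate_add,
      List.append_assoc, List.drop_append_of_le_length (by simp), List.drop_replicate]
    simp [bit]
  · omega

/-- a single one at position zero -/
def tIC (U D : WW O) : C O := sqL [fillC U D .o, pp D, psh D .i]

theorem tIC_m {U D : WW O} (hU : U ≠ .t5) (hD : D ≠ .t5)
    (hUD : U ≠ D) {n : ℕ} (ha : 0 < n) {ru : List Sym} {m : Mem O}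
    (hu : m.get U = List.replicate n .m ++ .c :: ru) :
    RM E (tIC U D) m (m.set D ((true :: List.replicate (4 * n - 1) false).map bit ++
      .c :: m.get D)) (6 * n + 8) := by
  unfold tIC
  simp only [sqL]
  refine RM.mono (RM.seq (fillC_m hU hD hUD .o hu)
    (RM.seq (pop_m D _) (RM.seq (push_m D .i _) (RM.cast (skip_m _) ?_)))) ?_
  · simp only [Mem.set_set_self, Mem.get_set_self]
    congr 1
    obtain ⟨k, hk⟩ : ∃ k, 4 * n = k + 1 := ⟨4 * n - 1, by omega⟩
    rw [hk, List.replicate_succ]
    simp [bit]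
  · omega

/-- mask with `n + 1` marks of `2 ^ L` -/
def mkC (U A D : WW O) : C O :=
  sqL [psh D .c, psh D .o, loopN U (dbl D), loopN A (pp D), pp D, loopN A (push1 D .i), psh D .i]

theorem mkC_m {U A D : WW O} (hA : A ≠ .t5) (hU : U ≠ .t5) (hU6 : U ≠ .t6) (hD : D ≠ .t5)
    (hD6 : D ≠ .t6) (hAD : A ≠ D)
    (hUD : U ≠ D) {n L : ℕ} (hn : n < 2 ^ L) {ra ru : List Sym} {m : Mem O}
    (h : m.get A = List.replicate n .m ++ .c :: ra)
    (hu : m.get U = List.replicate L .m ++ .c :: ru) :
    RM E (mkC U A D) m (m.set D (List.replicate (n + 1) .i ++ List.replicate (2 ^ L - n - 1) .o ++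
      .c :: m.get D)) (L * (6 * 2 ^ L + 9) + 12 * n + 20) := by
  unfold mkC push1
  simp only [sqL]
  refine RM.mono (RM.seq (push_m D .c _) (RM.seq (push_m D .o _) (RM.seq
    (dblRounds hU hD hD6 hUD hU6 .o rfl (n := L) (q := 1) (rest := ru) (restX := m.get D) (by
      rw [Mem.get_set_of_ne _ hUD, Mem.get_set_of_ne _ hUD, hu]) (by
      rw [Mem.get_set_self, Mem.get_set_self]; rfl))
    (RM.seq
    (popLoopR hA hD hAD (n := n) (rest := ra) (by
      rw [Mem.get_set_of_ne _ hAD, Mem.get_set_of_ne _ hAD, Mem.get_set_of_ne _ hAD, h]))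
    (RM.seq (pop_m D _)
    (RM.seq
    (pushLoop hA hD hAD 1 .i (n := n) (rest := ra) (by
      rw [Mem.get_set_of_ne _ hAD, Mem.get_set_of_ne _ hAD, Mem.get_set_of_ne _ hAD,
        Mem.get_set_of_ne _ hAD, Mem.get_set_of_ne _ hAD, h]))
    (RM.seq (push_m D .i _) (RM.cast (skip_m _) ?_)))))))) ?_
  · simp only [Mem.set_set_self, Mem.get_set_self]
    congr 1
    rw [show 1 * 2 ^ L = n + (1 + (2 ^ L - n - 1)) by omega, List.replicate_add, List.replicate_add,
      List.append_assoc, List.drop_append_of_le_length (by simp), List.drop_replicate]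
    simp [List.replicate_succ]
  · rw [one_mul]; ring_nf; omega

end gen

end Pool.Agent.Helper62
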