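import Mathlib
import Pool.Agent.Helper62.Top6

/-!
The phases of the main program before the product tree, continued.
-/

set_option autoImplicit false
set_option linter.unusedSectionVars false

namespace Pool.Agent.Helper62

section gen

variable {O : Type} [DecidableEq O] {E : Pr → C O}

theorem dblK_m {U D : WW O} (hU : U ≠ .t5) (hD : D ≠ .t5) (hD6 : D ≠ .t6) (hUD : U ≠ D)
    (hU6 : U ≠ .t6) {L : ℕ} {ru rd : List Sym} (k q : ℕ) {m : Mem O}
    (hu : m.get U = List.replicate L .m ++ .c :: ru)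
    (hd : m.get D = List.replicate q .m ++ .c :: rd) :
    RM E (sqL (List.replicate k (loopN U (dbl D)))) m
      (m.set D (List.replicate (q * (2 ^ L) ^ k) .m ++ .c :: rd))
      (k * (L * (6 * (q * (2 ^ L) ^ k) + 9) + 4) + 1) := by
  induction k generalizing q m with
  | zero =>
    refine RM.mono (RM.cast (skip_m _) ?_) (by omega)
    rw [pow_zero, mul_one, ← hd, Mem.set_get]
  | succ k ih =>
    rw [List.replicate_succ]
    refine RM.mono (RM.seq (dblRounds hU hD hD6 hUD hU6 .m rfl (n := L) (q := q) hu hd)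
      (RM.cast (ih (q * 2 ^ L) (m := m.set D (List.replicate (q * 2 ^ L) .m ++ .c :: rd)) (by
        rw [Mem.get_set_of_ne _ hUD, hu]) (Mem.get_set_self _ _ _)) ?_)) ?_
    · rw [Mem.set_set_self, show q * (2 ^ L) ^ (k + 1) = q * 2 ^ L * (2 ^ L) ^ k by ring]
    · have h1 : q * 2 ^ L ≤ q * (2 ^ L) ^ (k + 1) :=
        Nat.mul_le_mul_left _ (Nat.le_self_pow (by omega) _)
      rw [show q * 2 ^ L * (2 ^ L) ^ k = q * (2 ^ L) ^ (k + 1) by ring]
      have h2 : L * (6 * (q * 2 ^ L) + 9) ≤ L * (6 * (q * (2 ^ L) ^ (k + 1)) + 9) := by gcongr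
      have h3 : (k + 1) * (L * (6 * (q * (2 ^ L) ^ (k + 1)) + 9) + 4) =
        k * (L * (6 * (q * (2 ^ L) ^ (k + 1)) + 9) + 4) +
        (L * (6 * (q * (2 ^ L) ^ (k + 1)) + 9) + 4) := by ring
      omega

/-- counters -/
def cntC (U D : WW O) (k : ℕ) : C O :=
  .seq (psh D .c) (.seq (push4 D .m) (sqL (List.replicate k (loopN U (dbl D)))))

theorem cntC_m {U D : WW O} (hU : U ≠ .t5) (hD : D ≠ .t5) (hD6 : D ≠ .t6) (hUD : U ≠ D)
    (hU6 : U ≠ .t6) {L : ℕ} {ru : List Sym} (k : ℕ) {m : Mem O}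
    (hu : m.get U = List.replicate L .m ++ .c :: ru) :
    RM E (cntC U D k) m
      (m.set D (List.replicate (4 * (2 ^ L) ^ k) .m ++ .c :: m.get D))
      (k * (L * (6 * (4 * (2 ^ L) ^ k) + 9) + 4) + 3) := by
  unfold cntC push4
  refine RM.mono (RM.seq (push_m D .c _) (RM.seq
    (RM.cast_left (push_list_m D (List.replicate 4 .m) _) rfl)
    (RM.cast (dblK_m hU hD hD6 hUD hU6 (ru := ru) (rd := m.get D) k 4 (by
      rw [Mem.get_set_of_ne _ hUD, Mem.get_set_of_ne _ hUD, hu]) (by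
      rw [Mem.get_set_self, Mem.get_set_self]; rfl)) ?_))) ?_
  · simp only [Mem.set_set_self]
  · omega

end gen

variable {E : Pr → CO}

/-- strings of the constants; `n` is a quarter of the length -/
def tpZ (n a : ℕ) : List Bool := List.replicate a false ++ true :: List.replicate (4 * n - a - 1) false

def tpF (L : ℕ) : Tm → List Bool
  | .O => List.replicate (4 * (4 * (2 ^ L) ^ 3)) false
  | .NI => List.replicate (4 * (4 * (2 ^ L) ^ 3)) true
  | .I => true :: List.replicate (4 * (4 * (2 ^ L) ^ 3) - 1) false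
  | .X => tpZ (4 * (2 ^ L) ^ 3) (4 * (2 ^ L) ^ 3)
  | .Y => tpZ (4 * (2 ^ L) ^ 3) (4 * (2 ^ L) ^ 2)
  | .Z => tpZ (4 * (2 ^ L) ^ 3) (4 * (2 ^ L) ^ 1)
  | .NZ => List.replicate (4 * (2 ^ L) ^ 1) false ++
      List.replicate (4 * (4 * (2 ^ L) ^ 3) - 4 * (2 ^ L) ^ 1) true

def tms (t : Tm) : WW OO := ones (.tm t)

def p3C : CO :=
  sqL [psh .sk .c, push4 .sk .m, loopN (ones .dm) (push4 .sk .m),
    cntC (ones .dm) (ones .u1) 1, cntC (ones .dm) (ones .u2) 2, cntC (ones .dm) (ones .u3) 3]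

def p4C : CO :=
  sqL [fillC (ones .u3) (tms .O) .o, fillC (ones .u3) (tms .NI) .i, tIC (ones .u3) (tms .I),
    tZC (ones .u3) (ones .u3) (tms .X), tZC (ones .u2) (ones .u3) (tms .Y),
    tZC (ones .u1) (ones .u3) (tms .Z), tNC (ones .u1) (ones .u3) (tms .NZ)]

def p5C : CO :=
  sqL [mkC (ones .dm) (ones .cn) (ones .k1), mkC (ones .dm) (ones .cn) (ones .k2),
    mkC (ones .dm) (ones .cn) (ones .k3)]

def mkStr (n L : ℕ) : List Sym :=
  List.replicate (n + 1) .i ++ List.replicate (2 ^ L - n - 1) .o ++ [.c]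

theorem p3_spec {L : ℕ} {S : SA} {T : P4 → Fin 3 → List Sym}
    (hd : S.dm = List.replicate L .m ++ [.c]) (h1 : S.u1 = []) (h2 : S.u2 = []) (h3 : S.u3 = []) :
    RM E p3C (mkM [] S T) (mkM (List.replicate (4 * L + 4) .m ++ [.c])
      (((S.set .u1 (List.replicate (4 * (2 ^ L) ^ 1) .m ++ [.c])).set .u2
        (List.replicate (4 * (2 ^ L) ^ 2) .m ++ [.c])).set .u3
        (List.replicate (4 * (2 ^ L) ^ 3) .m ++ [.c])) T)
      (400 * ((L + 1) * (2 ^ L) ^ 3)) := by
  unfold p3C push4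
  simp only [sqL]
  obtain ⟨tm, li, dm, cn, u1, u2, u3, k1, k2, k3, v, ca, r⟩ := S
  simp only at hd h1 h2 h3
  subst hd h1 h2 h3
  refine RM.mono (RM.seq (push_m .sk .c _) (RM.seq
    (RM.cast_left (push_list_m .sk (List.replicate 4 .m) _) rfl) (RM.seq
    (pushLoop (A := ones .dm) (D := .sk) (by unfold ones; nofun) (by nofun)
      (by unfold ones; nofun) 4 .m (n := L) (rest := []) rfl) (RM.seq
    (cntC_m (U := ones .dm) (D := ones .u1) (by unfold ones; nofun) (by unfold ones; nofun)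
      (by unfold ones; nofun) (by unfold ones; nofun) (by unfold ones; nofun) (L := L)
      (ru := []) 1 rfl) (RM.seq
    (cntC_m (U := ones .dm) (D := ones .u2) (by unfold ones; nofun) (by unfold ones; nofun)
      (by unfold ones; nofun) (by unfold ones; nofun) (by unfold ones; nofun) (L := L)
      (ru := []) 2 rfl) (RM.seq
    (cntC_m (U := ones .dm) (D := ones .u3) (by unfold ones; nofun) (by unfold ones; nofun)
      (by unfold ones; nofun) (by unfold ones; nofun) (by unfold ones; nofun) (L := L)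
      (ru := []) 3 rfl)
    (RM.cast (skip_m _) ?_))))))) ?_
  · have e : List.replicate (4 * L) Sym.m ++ ((List.replicate 4 Sym.m).reverse ++ [Sym.c]) =
        List.replicate (4 * L + 4) .m ++ [.c] := by
      rw [List.reverse_replicate, ← List.append_assoc, ← List.replicate_add]
    unfold ones
    simp only [Mem.set_set_self, mkM_sk, mkM_set]
    exact congrArg₂ (fun a b => mkM a b T) e rfl
  · have hN : 1 ≤ 2 ^ L := Nat.one_le_two_pow
    generalize 2 ^ L = N at *
    have h1 : N ≤ N ^ 3 := Nat.le_self_pow (by norm_num) _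
    have h2 : N ^ 2 ≤ N ^ 3 := Nat.pow_le_pow_right hN (by norm_num)
    have h3 : L * N ≤ L * N ^ 3 := Nat.mul_le_mul_left _ h1
    have h4 : L * N ^ 2 ≤ L * N ^ 3 := Nat.mul_le_mul_left _ h2
    have h5 : L ≤ L * N ^ 3 := Nat.le_mul_of_pos_right _ (by positivity)
    have h6 : 1 ≤ N ^ 3 := le_trans hN h1
    ring_nf
    ring_nf at h3 h4 h5
    omega

theorem RM.toS {c : CO} {sk : List Sym} {S : SA} {T : P4 → Fin 3 → List Sym} {a : AA}
    {l : List Sym} {B : ℕ} (h : RM E c (mkM sk S T) ((mkM sk S T).set (ones a) l) B) :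
    RM E c (mkM sk S T) (mkM sk (S.set a l) T) B := RM.cast h (mkM_set _ _ _ _ _)

theorem o5 (a : AA) : (ones a : WW OO) ≠ .t5 := by unfold ones; nofun
theorem o6 (a : AA) : (ones a : WW OO) ≠ .t6 := by unfold ones; nofun
theorem oo {a b : AA} (h : a ≠ b) : (ones a : WW OO) ≠ ones b := by
  unfold ones; intro e; injection e with e; injection e with e; exact h e

/-- state of the outer stacks before the product tree -/
def SS (L n : ℕ) (li : List Sym) : SA where
  tm := fun t => (tpF L t).map bit ++ [.c]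
  li := li
  dm := List.replicate L .m ++ [.c]
  cn := List.replicate n .m ++ [.c]
  u1 := List.replicate (4 * (2 ^ L) ^ 1) .m ++ [.c]
  u2 := List.replicate (4 * (2 ^ L) ^ 2) .m ++ [.c]
  u3 := List.replicate (4 * (2 ^ L) ^ 3) .m ++ [.c]
  k1 := mkStr n L
  k2 := mkStr n L
  k3 := mkStr n L
  v := []
  ca := []
  r := []

theorem p4_spec {L n : ℕ} {li : List Sym} {sk : List Sym} {T : P4 → Fin 3 → List Sym} :
    RM E p4C (mkM sk { SS L n li with tm := fun _ => [], k1 := [], k2 := [], k3 := [] } T)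
      (mkM sk { SS L n li with k1 := [], k2 := [], k3 := [] } T)
      (500 * (2 ^ L) ^ 3) := by
  have hN : 1 ≤ 2 ^ L := Nat.one_le_two_pow
  have h1 : 2 ^ L ≤ (2 ^ L) ^ 3 := Nat.le_self_pow (by norm_num) _
  have h2 : (2 ^ L) ^ 2 ≤ (2 ^ L) ^ 3 := Nat.pow_le_pow_right hN (by norm_num)
  unfold p4C
  simp only [sqL]
  refine RM.mono (RM.seq
    (RM.toS (fillC_m (A := ones .u3) (o5 _) (o5 (.tm .O)) (oo (by nofun)) .o
      (n := 4 * (2 ^ L) ^ 3) (rest := []) rfl)) (RM.seq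
    (RM.toS (fillC_m (A := ones .u3) (o5 _) (o5 (.tm .NI)) (oo (by nofun)) .i
      (n := 4 * (2 ^ L) ^ 3) (rest := []) rfl)) (RM.seq
    (RM.toS (tIC_m (U := ones .u3) (o5 _) (o5 (.tm .I)) (oo (by nofun))
      (n := 4 * (2 ^ L) ^ 3) (by positivity) (ru := []) rfl)) (RM.seq
    (RM.toS (tZC_m (A := ones .u3) (U := ones .u3) (o5 _) (o5 _) (o5 (.tm .X)) (oo (by nofun))
      (oo (by nofun)) (a := 4 * (2 ^ L) ^ 3)
      (n := 4 * (2 ^ L) ^ 3) (by omega) (ra := []) (ru := []) rfl rfl)) (RM.seq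
    (RM.toS (tZC_m (A := ones .u2) (U := ones .u3) (o5 _) (o5 _) (o5 (.tm .Y)) (oo (by nofun))
      (oo (by nofun)) (a := 4 * (2 ^ L) ^ 2)
      (n := 4 * (2 ^ L) ^ 3) (by omega) (ra := []) (ru := []) rfl rfl)) (RM.seq
    (RM.toS (tZC_m (A := ones .u1) (U := ones .u3) (o5 _) (o5 _) (o5 (.tm .Z)) (oo (by nofun))
      (oo (by nofun)) (a := 4 * (2 ^ L) ^ 1)
      (n := 4 * (2 ^ L) ^ 3) (by rw [pow_one]; omega) (ra := []) (ru := []) rfl rfl)) (RM.seq
    (RM.toS (tNC_m (A := ones .u1) (U := ones .u3) (o5 _) (o5 _) (o5 (.tm .NZ)) (oo (by nofun))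
      (oo (by nofun)) (a := 4 * (2 ^ L) ^ 1)
      (n := 4 * (2 ^ L) ^ 3) (by rw [pow_one]; omega) (ra := []) (ru := []) rfl rfl))
    (RM.cast (skip_m _) ?_)))))))) ?_
  · simp only [SA.set, SS]
    congr 1
    congr 1
    funext t
    cases t <;> simp [Function.update_apply, tpF, tpZ, bit, tms, ones, Mem.get, mkM, SA.get]
  · rw [pow_one]
    omega

theorem p5_spec {L n : ℕ} (hn : n < 2 ^ L) {li : List Sym} {sk : List Sym}
    {T : P4 → Fin 3 → List Sym} :
    RM E p5C (mkM sk { SS L n li with k1 := [], k2 := [], k3 := [] } T)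
      (mkM sk (SS L n li) T)
      (3 * (L * (6 * 2 ^ L + 9) + 12 * n + 20) + 1) := by
  unfold p5C
  simp only [sqL]
  refine RM.mono (RM.seq
    (RM.toS (mkC_m (U := ones .dm) (A := ones .cn) (D := ones .k1) (o5 _) (o5 _) (o6 _) (o5 _)
      (o6 _) (oo (by nofun)) (oo (by nofun)) hn (ra := []) (ru := []) rfl rfl)) (RM.seq
    (RM.toS (mkC_m (U := ones .dm) (A := ones .cn) (D := ones .k2) (o5 _) (o5 _) (o6 _) (o5 _)
      (o6 _) (oo (by nofun)) (oo (by nofun)) hn (ra := []) (ru := []) rfl rfl)) (RM.seq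
    (RM.toS (mkC_m (U := ones .dm) (A := ones .cn) (D := ones .k3) (o5 _) (o5 _) (o6 _) (o5 _)
      (o6 _) (oo (by nofun)) (oo (by nofun)) hn (ra := []) (ru := []) rfl rfl))
    (RM.cast (skip_m _) ?_)))) ?_
  · rfl
  · omega

end Pool.Agent.Helper62
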