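import Mathlib
import Pool.Agent.Helper62.Top7

/-!
The product tree on the memory of the main program, and the sum of two diagonal entries.
-/

set_option autoImplicit false
set_option linter.unusedSectionVars false

namespace Pool.Agent.Helper62

variable {E : Pr → CO}

theorem tpF_length (L : ℕ) (t : Tm) : (tpF L t).length = 2 ^ (3 * L + 4) := by
  have hN : 1 ≤ 2 ^ L := Nat.one_le_two_pow
  have e : 2 ^ (3 * L + 4) = 4 * (4 * (2 ^ L) ^ 3) := by
    rw [pow_add, mul_comm 3 L, pow_mul]; ring
  have h1 : 2 ^ L ≤ (2 ^ L) ^ 3 := Nat.le_self_pow (by norm_num) _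
  have h2 : (2 ^ L) ^ 2 ≤ (2 ^ L) ^ 3 := Nat.pow_le_pow_right hN (by norm_num)
  rw [e]
  cases t <;> simp [tpF, tpZ] <;> omega

/-- the diagonal sum -/
def p7C : CO :=
  sqL [cpyP (mt 0 (0, 0)) .pa, cpyP (mt 0 (2, 2)) .pb, psh .t2 .c, add1 .pa .pb .t2 isC,
    revC .t2 (ones .v), all16 fun p => dropC (.o (mt 0 p))]

def T0 : P4 → Fin 3 → List Sym := fun _ _ => []

def vF (L : ℕ) (w : List Letter) : List Bool :=
  addB false (prodF (3 * L + 4) (tpF L) L w (0, 0)) (prodF (3 * L + 4) (tpF L) L w (2, 2))

theorem vF_length (L : ℕ) (w : List Letter) : (vF L w).length = 2 ^ (4 * L + 4) := by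
  have h := prodF_length (κ₀ := 3 * L + 4) (by omega) (tpF_length L) L w
  rw [vF, addB_length _ _ _ (by rw [h, h]), h]
  congr 1; ring

def p67C : CO := .seq (.call .prod) p7C

/-- time of phase six and seven -/
def T67 (L : ℕ) : ℕ := Tprod (3 * L + 4) L + 60 * 2 ^ (4 * L + 4) + 60

theorem p67_spec (hM : MulOK E) (hP : E .prod = prodC) {L n : ℕ} {w : List Letter}
    (hw : w.length ≤ 2 ^ L) :
    RM E p67C (mkM (List.replicate (4 * L + 4) .m ++ [.c]) (SS L n (w.map encL ++ [.c])) T0)
      (mkM (List.replicate (4 * L + 4) .m ++ [.c])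
        { SS L n [.c] with v := (vF L w).map bit ++ [.c] } T0) (T67 L) := by
  have hlen := prodF_length (κ₀ := 3 * L + 4) (by omega) (tpF_length L) L w
  have hvl := vF_length L w
  have e4 : 3 * L + 4 + L = 4 * L + 4 := by ring
  rw [e4] at hlen
  have hprod := prod_spec hM hP (κ₀ := 3 * L + 4) (by omega) (tpF_length L)
    (rt := fun _ => []) L w [] [] []
    (mkM (List.replicate (4 * L + 4) .m ++ [.c]) (SS L n (w.map encL ++ [.c])) T0) T0
    (fun t => rfl) rfl (by rw [e4]; rfl) rfl
  rw [List.drop_eq_nil_of_le hw, List.map_nil, List.nil_append] at hprod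
  have hprod' : RM E (E .prod)
      (mkM (List.replicate (4 * L + 4) .m ++ [.c]) (SS L n (w.map encL ++ [.c])) T0)
      (mkM (List.replicate (4 * L + 4) .m ++ [.c]) (SS L n [.c])
        (fun p => Function.update (T0 p) 0 ((prodF (3 * L + 4) (tpF L) L w p).map bit ++
          .c :: T0 p 0))) (Tprod (3 * L + 4) L) := by
    refine RM.cast (RM.cast_left hprod (mkM_setM _ _ _ _)) ?_
    rw [lis, mkM_set, mkM_setM]
    rfl
  clear hprod
  unfold p67C p7C
  simp only [sqL]
  rw [vF] at hvl
  generalize hF : prodF (3 * L + 4) (tpF L) L w = F at *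
  have hdrop := dropAll_m (E := E) (q := 0) (W := 2 ^ (4 * L + 4)) (F := F) hlen
    (m := mkM (List.replicate (4 * L + 4) .m ++ [.c])
        { SS L n [.c] with v := (vF L w).map bit ++ [.c] } T0)
    (T := fun p => Function.update (T0 p) 0 ((F p).map bit ++ .c :: T0 p 0)) (G := fun _ => [])
    (fun p => by simp [T0])
  refine RM.mono (RM.seq (call_m hprod') (RM.seq
    (cpyP_m (k := mt 0 (0, 0)) (P := .pa) (by nofun) (by nofun) (by nofun) (bits_isC (F (0, 0)))
      (rest := []) (by rfl)) (RM.seq
    (cpyP_m (k := mt 0 (2, 2)) (P := .pb) (by nofun) (by nofun) (by nofun) (bits_isC (F (2, 2)))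
      (rest := []) (by rfl)) (RM.seq
    (push_m .t2 .c _) (RM.seq
    (addC_m (x := F (0, 0)) (y := F (2, 2)) (by rw [hlen, hlen]) (X1 := .pa) (X2 := .pb)
      (Y := .t2) (by nofun) (by nofun) (by nofun) (by nofun) (by nofun) (by nofun)
      (rest := []) (rest' := []) rfl rfl) (RM.seq
    (m' := (mkM (List.replicate (4 * L + 4) .m ++ [.c])
        { SS L n [.c] with v := (vF L w).map bit ++ [.c] } T0).setM
        fun p => Function.update (T0 p) 0 ((F p).map bit ++ .c :: T0 p 0))
    (RM.cast (revC_m (X := .t2) (Y := ones .v) (by unfold ones; nofun)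
      (l := ((addB false (F (0, 0)) (F (2, 2))).map bit).reverse) (isC_rev (bits_isC _))
      (rest := []) rfl) ?_) (RM.seq hdrop (RM.cast (skip_m _) ?_)))))))) ?_
  · rw [mkM_setM]
    have hvv : ({ SS L n [.c] with v := (vF L w).map bit ++ [.c] } : SA) =
      (SS L n [.c]).set .v ((vF L w).map bit ++ [.c]) := rfl
    rw [hvv, ← mkM_set, vF, hF]
    refine Mem.ext_get fun X => ?_
    simp only [Mem.get_set, List.reverse_reverse]
    by_cases e1 : X = ones .v
    · subst e1
      rw [show (WW.o (.one .v) : WW OO) = ones .v from rfl, Function.update_self,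
        Function.update_self]
      rfl
    · rw [show (WW.o (.one .v) : WW OO) = ones .v from rfl, Function.update_of_ne e1,
        Function.update_of_ne e1]
      by_cases e2 : X = .t2
      · subst e2; rfl
      · by_cases e3 : X = .pa
        · subst e3; rfl
        · by_cases e4 : X = .pb
          · subst e4; rfl
          · simp only [Function.update_of_ne e2, Function.update_of_ne e3, Function.update_of_ne e4]
  · rw [mkM_setM]
    congr 1
    funext p q
    fin_cases q <;> simp [T0]
  · simp only [List.length_map, List.length_reverse, hlen, hvl]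
    simp only [T67]
    omega

end Pool.Agent.Helper62
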