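import Mathlib
import Pool.Agent.Helper62.Top8

/-!
Extraction of the coefficients.
-/

set_option autoImplicit false
set_option linter.unusedSectionVars false

namespace Pool.Agent.Helper62

variable {E : Pr → CO}

/-- bit below position `p` -/
def cry (V : List Bool) (p : ℕ) : Bool := if p = 0 then false else V.getD (p - 1) false

/-- increment by the carry -/
def incF : Bool → List Bool → List Bool
  | _, [] => []
  | g, x :: xs => (xor g x) :: incF (g && x) xs

theorem incF_length (g : Bool) (l : List Bool) : (incF g l).length = l.length := by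
  induction l generalizing g with
  | nil => rfl
  | cons x xs ih => simp [incF, ih]

theorem incF_false (l : List Bool) : incF false l = l := by
  induction l with
  | nil => rfl
  | cons x xs ih => simp [incF, ih]

/-- remove leading zeros -/
def stripF (l : List Bool) : List Bool := (l.reverse.dropWhile fun b => !b).reverse

/-- symbols for one coefficient -/
def emitF (g : Bool) (ch : List Bool) : List Sym :=
  if (incF g ch).getLastD false then .e :: (stripF (negB false (incF g ch))).map bit
  else .d :: (stripF (incF g ch)).map bit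

def outAt (β : ℕ) (V : List Bool) (p : ℕ) : List Sym := emitF (cry V p) ((V.drop p).take β)

def fInc : Bool → Sym → Bool := fun a s => a && symB s
def gInc : Bool → Sym → Option Sym := fun a s => some (bit (xor a (symB s)))

theorem outs_inc (g : Bool) (l : List Bool) :
    outs fInc gInc g (l.map bit) = (incF g l).map bit := by
  induction l generalizing g with
  | nil => rfl
  | cons x xs ih => simp [outs, gInc, fInc, symB_bit, incF, ih]

theorem outs_neg (s : Bool) (l : List Bool) :
    outs fNeg gNeg s (l.map bit) = (negB s l).map bit := by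
  induction l generalizing s with
  | nil => rfl
  | cons x xs ih =>
    cases s <;> cases x <;> simp [outs, gNeg, fNeg, negB, bit, ih]

/-- transducer with initial state `true` -/
def trT (X Y : WW OO) (stop : Sym → Bool) (f : Bool → Sym → Bool)
    (g : Bool → Sym → Option Sym) : CO :=
  pass X Y .t7 .t8 stop f g (fun _ _ => none) (fun _ _ => none) true

theorem trT_m {X Y : WW OO} (hXY : X ≠ Y) (hX7 : X ≠ .t7) (hX8 : X ≠ .t8) (hY7 : Y ≠ .t7)
    (hY8 : Y ≠ .t8) {stop : Sym → Bool} {f : Bool → Sym → Bool}
    {g : Bool → Sym → Option Sym} {l : List Sym}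
    (hl : ∀ s ∈ l, stop s = false) {t : Sym} (ht : stop t = true) {rest : List Sym}
    {m : MO} (hS : m.get X = l ++ t :: rest) :
    RM E (trT X Y stop f g) m
      ((m.set X rest).set Y ((outs f g true l).reverse ++ m.get Y)) (2 * l.length + 2) := by
  have h := pass_m (E := E) (f := f) (g1 := g) (g2 := fun _ _ => none) (g3 := fun _ _ => none)
    (a0 := true) hXY hX7 hX8 hY7 hY8 (Y2 := .t7) (Y3 := .t8) (by nofun) hl ht hS
  refine R.of_eq h (congrArg _ ?_)
  simp only [outs_none, List.reverse_nil, List.nil_append]
  have e1 : m.get .t7 = ((m.set X rest).set Y ((outs f g true l).reverse ++ m.get Y)).get .t7 := by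
    rw [Mem.get_set_of_ne _ hY7.symm, Mem.get_set_of_ne _ hX7.symm]
  rw [e1, Mem.set_get]
  have e2 : m.get .t8 = ((m.set X rest).set Y ((outs f g true l).reverse ++ m.get Y)).get .t8 := by
    rw [Mem.get_set_of_ne _ hY8.symm, Mem.get_set_of_ne _ hX8.symm]
  rw [e2, Mem.set_get]

/-- states of the extraction -/
def stV (m : MO) (V : List Bool) (p : ℕ) (rr : List Sym) : MO :=
  ((m.set (ones .v) ((V.drop p).map bit ++ [.c])).set (ones .ca) [bit (cry V p)]).set
    (ones .r) rr

theorem stV_comm (m : MO) (V : List Bool) (p : ℕ) (rr : List Sym) {A : WW OO}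
    (h1 : A ≠ ones .v) (h2 : A ≠ ones .ca) (h3 : A ≠ ones .r) (l l5 : List Sym) :
    ((stV m V p rr).set A l).set .t5 l5 = stV ((m.set A l).set .t5 l5) V p rr := by
  unfold stV
  rw [Mem.set_comm _ h3.symm, Mem.set_comm _ h2.symm, Mem.set_comm _ h1.symm,
    Mem.set_comm _ (o5 .r), Mem.set_comm _ (o5 .ca), Mem.set_comm _ (o5 .v)]

theorem stV_get (m : MO) (V : List Bool) (p : ℕ) (rr : List Sym) {A : WW OO}
    (h1 : A ≠ ones .v) (h2 : A ≠ ones .ca) (h3 : A ≠ ones .r) :
    (stV m V p rr).get A = m.get A := by
  unfold stV
  rw [Mem.get_set_of_ne _ h3, Mem.get_set_of_ne _ h2, Mem.get_set_of_ne _ h1]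

theorem stV_v (m : MO) (V : List Bool) (p : ℕ) (rr : List Sym) :
    (stV m V p rr).get (ones .v) = (V.drop p).map bit ++ [.c] := by
  unfold stV
  rw [Mem.get_set_of_ne _ (oo (by nofun)), Mem.get_set_of_ne _ (oo (by nofun)), Mem.get_set_self]

theorem stV_ca (m : MO) (V : List Bool) (p : ℕ) (rr : List Sym) :
    (stV m V p rr).get (ones .ca) = [bit (cry V p)] := by
  unfold stV
  rw [Mem.get_set_of_ne _ (oo (by nofun)), Mem.get_set_self]

theorem stV_r (m : MO) (V : List Bool) (p : ℕ) (rr : List Sym) :
    (stV m V p rr).get (ones .r) = rr := by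
  unfold stV
  rw [Mem.get_set_self]

theorem drop_eq {V : List Bool} {p : ℕ} (hp : p < V.length) :
    V.drop p = cry V (p + 1) :: V.drop (p + 1) := by
  rw [List.drop_eq_getElem_cons hp]
  congr 1
  simp [cry, List.getD_eq_getElem?_getD, hp]

/-- skip one bit -/
def skip1 : CO := .act [popx (ones .ca), popx (ones .v), pushx (ones .ca)]

theorem skip1_m (m : MO) {V : List Bool} {p : ℕ} (rr : List Sym) (hp : p < V.length) :
    RM E skip1 (stV m V p rr) (stV m V (p + 1) rr) 1 := by
  have hv := stV_v m V p rr
  rw [drop_eq hp] at hv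
  have hca := stV_ca m V p rr
  intro r i o
  refine ⟨{ r with x := some (bit (cry V (p + 1))) }, Runs.act' ?_⟩
  have hne : (ones .v : WW OO) ≠ ones .ca := oo (by nofun)
  have e : stV m V (p + 1) rr = ((stV m V p rr).set (ones .v) ((V.drop (p + 1)).map bit ++
      [.c])).set (ones .ca) [bit (cry V (p + 1))] := by
    unfold stV
    rw [Mem.set_comm _ (oo (show AA.r ≠ AA.v by nofun)), Mem.set_comm _ (oo (show AA.ca ≠ AA.v by nofun)),
      Mem.set_set_self, Mem.set_comm _ (oo (show AA.r ≠ AA.ca by nofun)), Mem.set_set_self]
  rw [e, Mem.get_set, Mem.get_set]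
  generalize hG : (stV m V p rr).get = G at *
  simp only [runOps, Op.run, hca]
  simp only [Function.update_of_ne hne, hv]
  simp only [List.map_cons, List.cons_append, List.head?_cons, List.tail_cons, Option.some.injEq]
  congr 1
  funext Y
  by_cases e1 : Y = ones .ca
  · subst e1
    simp [Function.update_of_ne hne.symm]
  · by_cases e2 : Y = ones .v
    · subst e2
      simp [Function.update_of_ne hne]
    · simp [Function.update_of_ne e1, Function.update_of_ne e2]

/-- skip as many bits as there are marks on `A` -/
def skipN (A : WW OO) : CO := loopN A skip1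

theorem skipN_m {A : WW OO} (h5 : A ≠ .t5)
    (h1 : A ≠ ones .v) (h2 : A ≠ ones .ca) (h3 : A ≠ ones .r) {a : ℕ} {ra : List Sym} {m : MO}
    (hA : m.get A = List.replicate a .m ++ .c :: ra) {V : List Bool} {p : ℕ} (rr : List Sym)
    (hp : p + a ≤ V.length) :
    RM E (skipN A) (stV m V p rr) (stV m V (p + a) rr) (6 * a + 4) := by
  have hq5 : ∀ a : AA, (WW.t5 : WW OO) ≠ ones a := fun a => (o5 a).symm
  refine RM.mono (loopN_m h5 (n := a) (rest := ra) (M := fun i => stV m V (p + i) rr) (B := 1)
    (by rw [stV_get _ _ _ _ h1 h2 h3, hA]) (by rw [stV_get _ _ _ _ h1 h2 h3, hA])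
    (by rw [stV_get _ _ _ _ (hq5 _) (hq5 _) (hq5 _), stV_get _ _ _ _ (hq5 _) (hq5 _) (hq5 _)])
    (fun i hi la l5 => by
      rw [stV_comm _ _ _ _ h1 h2 h3, stV_comm _ _ _ _ h1 h2 h3]
      exact skip1_m _ rr (by omega))) (by ring_nf; omega)

/-- take one chunk -/
def takeC : CO := .seq (psh .t1 .c) (loopN (ones .u1) (.act [popx (ones .v), pushx .t1]))

theorem takeC_m {β : ℕ} {ru : List Sym} {m : MO}
    (hA : m.get (ones .u1) = List.replicate β .m ++ .c :: ru) {V : List Bool}
    (hV : β ≤ V.length) {rv : List Sym} (hv : m.get (ones .v) = V.map bit ++ rv) :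
    RM E takeC m ((m.set (ones .v) ((V.drop β).map bit ++ rv)).set .t1
      (((V.take β).map bit).reverse ++ .c :: m.get .t1)) (6 * β + 5) := by
  have hq5 : ∀ a : AA, (WW.t5 : WW OO) ≠ ones a := fun a => (o5 a).symm
  have h1 : ∀ a : AA, (ones a : WW OO) ≠ .t1 := fun a => by unfold ones; nofun
  have key := loopN_m (E := E) (A := ones .u1) (o5 _) (n := β) (rest := ru)
    (b := .act [popx (ones .v), pushx .t1])
    (M := fun i => (m.set (ones .v) ((V.drop i).map bit ++ rv)).set .t1
      (((V.take i).map bit).reverse ++ .c :: m.get .t1)) (B := 1)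
    (by rw [Mem.get_set_of_ne _ (h1 _), Mem.get_set_of_ne _ (oo (by nofun)), hA])
    (by rw [Mem.get_set_of_ne _ (h1 _), Mem.get_set_of_ne _ (oo (by nofun)), hA])
    (by rw [Mem.get_set_of_ne _ (by nofun), Mem.get_set_of_ne _ (hq5 _),
          Mem.get_set_of_ne _ (by nofun), Mem.get_set_of_ne _ (hq5 _)])
    (fun i hi la l5 => by
      have hlt : i < V.length := by omega
      have eA : ((V.take (i + 1)).map bit).reverse = bit V[i] ::
          ((V.take i).map bit).reverse := by
        rw [List.take_succ_eq_append_getElem hlt, List.map_append, List.reverse_append]; rfl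
      have eD : (V.drop i).map bit ++ rv = bit V[i] :: ((V.drop (i + 1)).map bit ++ rv) := by
        rw [List.drop_eq_getElem_cons hlt]; rfl
      rw [eA, eD]
      generalize (V.drop (i + 1)).map bit ++ rv = D
      generalize ((V.take i).map bit).reverse = A
      refine RM.cast (mv1_m (X := ones .v) (Y := .t1) (h1 _) (s := bit V[i]) (l := D) ?_) ?_
      · rw [Mem.get_set_of_ne _ (o5 _), Mem.get_set_of_ne _ (oo (by nofun)),
          Mem.get_set_of_ne _ (h1 _), Mem.get_set_self]
      · have n1 : (ones .v : WW OO) ≠ ones .u1 := oo (by nofun)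
        refine Mem.ext_get fun X => ?_
        simp only [Mem.get_set]
        by_cases e1 : X = .t1
        · subst e1
          simp [Function.update_apply, (h1 .u1).symm, (h1 .v).symm]
        · by_cases e2 : X = .t5
          · subst e2; simp [Function.update_apply, hq5]
          · by_cases e3 : X = ones .u1
            · subst e3; simp [Function.update_apply, e1, e2, n1.symm]
            · by_cases e4 : X = ones .v
              · subst e4
                simp [Function.update_apply, e1, e2, e3]
              · simp [Function.update_apply, e1, e2, e3, e4])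
  unfold takeC
  refine RM.mono (RM.seq (push_m .t1 .c _) (RM.cast_left key ?_)) (by ring_nf; omega)
  simp only [List.drop_zero, List.take_zero, List.map_nil, List.reverse_nil, List.nil_append]
  rw [← hv, Mem.set_get]

/-- strip leading zeros and write -/
def stripC : CO :=
  sqL [whileTop .t4 (isTop .o) (pp .t4), revC .t4 .t2, mv .t2 (ones .r) isC]

theorem stripLoop (l : List Bool) {r4 : List Sym} {m : MO}
    (h : m.get .t4 = (l.map bit) ++ .c :: r4) :
    RM E (whileTop .t4 (isTop .o) (pp .t4)) m
      (m.set .t4 ((l.dropWhile fun b => !b).map bit ++ .c :: r4)) (2 * l.length + 1) := by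
  induction l generalizing m with
  | nil =>
    refine RM.mono (R.of_eq (R.while_done (S := m.get) (by rw [h]; rfl)) (congrArg _ ?_)) (by simp)
    simp only [List.dropWhile_nil]
    rw [← h, Mem.set_get]
  | cons b l ih =>
    cases b with
    | true =>
      refine RM.mono (R.of_eq (R.while_done (S := m.get) (by rw [h]; rfl)) (congrArg _ ?_))
        (by simp)
      simp only [List.dropWhile_cons, Bool.not_true, Bool.false_eq_true, if_false]
      rw [← h, Mem.set_get]
    | false =>
      refine RM.mono (RM.cast (R.while_step (X := (WW.t4 : WW OO)) (p := isTop .o)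
        (by rw [h]; rfl) (pop_m .t4 m) (ih (m := m.set .t4 (m.get .t4).tail) (by
          rw [Mem.get_set_self, h]; rfl))) ?_) ?_
      · rw [Mem.set_set_self]; rfl
      · simp only [List.length_cons]; omega

theorem stripC_m (l : List Bool) {r4 : List Sym} {m : MO}
    (h : m.get .t4 = (l.map bit).reverse ++ .c :: r4) :
    RM E stripC m ((m.set .t4 r4).set (ones .r) (((stripF l).map bit).reverse ++
      m.get (ones .r))) (6 * l.length + 6) := by
  have hc := bits_isC (l.reverse.dropWhile fun b => !b)
  have hlen : (l.reverse.dropWhile fun b => !b).length ≤ l.length := by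
    calc _ ≤ l.reverse.length := (List.dropWhile_sublist _).length_le
      _ = _ := List.length_reverse
  have h4 : ∀ a : AA, (ones a : WW OO) ≠ .t4 := fun a => by unfold ones; nofun
  have h2 : ∀ a : AA, (ones a : WW OO) ≠ .t2 := fun a => by unfold ones; nofun
  unfold stripC
  simp only [sqL]
  refine RM.mono (RM.seq (stripLoop l.reverse (r4 := r4) (by rw [h]; simp)) (RM.seq
    (revC_m (X := .t4) (Y := .t2) (by nofun) hc (rest := r4) (by rw [Mem.get_set_self]))
    (RM.seq (mv_m (X := .t2) (Y := ones .r) (h2 _).symm (isC_rev hc) (t := .c) rfl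
      (rest := m.get .t2) (by
        rw [Mem.get_set_self, Mem.get_set_of_ne _ (by nofun)]))
    (RM.cast (skip_m _) ?_)))) ?_
  · refine Mem.ext_get fun X => ?_
    simp only [Mem.get_set]
    by_cases e1 : X = ones .r
    · subst e1
      simp [Function.update_of_ne (h4 .r), Function.update_of_ne (h2 .r), stripF]
    · by_cases e2 : X = .t2
      · subst e2
        simp [Function.update_of_ne e1]
      · by_cases e3 : X = .t4
        · subst e3
          simp [Function.update_of_ne e1]
        · simp [Function.update_of_ne e1, Function.update_of_ne e2, Function.update_of_ne e3]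
  · simp only [List.length_map, List.length_reverse]
    omega

theorem peek_m {X Y : WW OO} {s : Sym} {l : List Sym} {m : MO} (h : m.get X = s :: l) :
    RM E (.act [peekx X, pushx Y]) m (m.set Y (s :: m.get Y)) 1 := by
  intro r i o
  refine ⟨{ r with x := some s }, Runs.act' ?_⟩
  rw [Mem.get_set]
  simp only [runOps, Op.run, h]
  rfl

/-- sign and magnitude -/
def signC : CO :=
  ifTop .t4 (isTop .i) (sqL [psh (ones .r) .e, revC .t4 .t2, psh .t4 .c,
    tr .t2 .t4 isC fNeg gNeg]) (psh (ones .r) .d)

def magF (D : List Bool) : List Bool := if D.getLastD false then negB false D else D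
def sgF (D : List Bool) : Sym := if D.getLastD false then .e else .d

theorem magF_length (D : List Bool) : (magF D).length = D.length := by
  unfold magF; split_ifs
  · exact negB_length _ _
  · rfl

theorem signC_m {D : List Bool} (hD : D ≠ []) {r4 : List Sym} {m : MO}
    (h : m.get .t4 = (D.map bit).reverse ++ .c :: r4) :
    RM E signC m ((m.set .t4 (((magF D).map bit).reverse ++ .c :: r4)).set (ones .r)
      (sgF D :: m.get (ones .r))) (4 * D.length + 8) := by
  obtain ⟨D', b, rfl⟩ : ∃ D' b, D = D' ++ [b] :=
    ⟨D.dropLast, D.getLast hD, (List.dropLast_append_getLast hD).symm⟩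
  have h4 : (ones .r : WW OO) ≠ .t4 := by unfold ones; nofun
  have h2 : (ones .r : WW OO) ≠ .t2 := by unfold ones; nofun
  cases b with
  | false =>
    have e1 : magF (D' ++ [false]) = D' ++ [false] := by simp [magF]
    have e2 : sgF (D' ++ [false]) = .d := by simp [sgF]
    rw [e1, e2]
    refine RM.mono (ifTop_false_m (X := .t4) (by rw [h]; simp [isTop, bit])
      (RM.cast (push_m (ones .r) .d m) ?_)) (by omega)
    rw [← h, Mem.set_get]
  | true =>
    have e1 : magF (D' ++ [true]) = negB false (D' ++ [true]) := by simp [magF]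
    have e2 : sgF (D' ++ [true]) = .e := by simp [sgF]
    rw [e1, e2]
    generalize hDD : D' ++ [true] = D at *
    refine RM.mono (ifTop_true_m (X := .t4) (by rw [h, ← hDD]; simp [isTop, bit]) (RM.seq
      (push_m (ones .r) .e m) (RM.seq
      (revC_m (X := .t4) (Y := .t2) (by nofun) (l := (D.map bit).reverse)
        (isC_rev (bits_isC _)) (rest := r4) (by rw [Mem.get_set_of_ne _ h4.symm, h])) (RM.seq
      (push_m .t4 .c _) (RM.seq
      (tr_m (X := .t2) (Y := .t4) (by nofun) (by nofun) (by nofun) (by nofun) (by nofun)
        (f := fNeg) (g := gNeg) (bits_isC D) (t := .c) rfl (rest := m.get .t2) (by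
          rw [Mem.get_set_of_ne _ (by nofun), Mem.get_set_self, List.reverse_reverse,
            Mem.get_set_of_ne _ (by nofun)]))
      (RM.cast (skip_m _) ?_)))))) ?_
    · rw [outs_neg]
      refine Mem.ext_get fun X => ?_
      simp only [Mem.get_set]
      by_cases e1 : X = .t4
      · subst e1
        simp [Function.update_apply, h4.symm]
      · by_cases e2 : X = .t2
        · subst e2; simp [Function.update_apply, h2.symm]
        · by_cases e3 : X = ones .r
          · subst e3; simp [Function.update_apply, e1, e2]
          · simp [Function.update_apply, e1, e2, e3]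
    · simp only [List.length_reverse, List.length_map]; omega

def incC : CO :=
  ifTop (ones .ca) (isTop .i) (trT .t2 .t4 isC fInc gInc) (mv .t2 .t4 isC)

theorem incC_m {g : Bool} {ch : List Bool} {rc r2 : List Sym} {m : MO}
    (hc : m.get (ones .ca) = bit g :: rc) (h : m.get .t2 = ch.map bit ++ .c :: r2) :
    RM E incC m ((m.set .t2 r2).set .t4 (((incF g ch).map bit).reverse ++ m.get .t4))
      (2 * ch.length + 3) := by
  cases g with
  | true =>
    refine RM.mono (ifTop_true_m (X := ones .ca) (by rw [hc]; rfl) (RM.cast
      (trT_m (X := .t2) (Y := .t4) (by nofun) (by nofun) (by nofun) (by nofun) (by nofun)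
        (f := fInc) (g := gInc) (bits_isC ch) (t := .c) rfl (rest := r2) h) ?_)) ?_
    · rw [outs_inc]
    · simp
  | false =>
    refine RM.mono (ifTop_false_m (X := ones .ca) (by rw [hc]; rfl) (RM.cast
      (mv_m (X := .t2) (Y := .t4) (by nofun) (bits_isC ch) (t := .c) rfl (rest := r2) h) ?_)) ?_
    · rw [incF_false]
    · simp

/-- write one coefficient -/
def emitC : CO :=
  sqL [takeC, .act [peekx .t1, pushx .t3], revC .t1 .t2, psh .t4 .c, incC, pp (ones .ca),
    .act [popx .t3, pushx (ones .ca)], signC, stripC]

theorem emitF_eq (g : Bool) (ch : List Bool) :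
    emitF g ch = sgF (incF g ch) :: (stripF (magF (incF g ch))).map bit := by
  unfold emitF sgF magF
  split_ifs <;> rfl

theorem emitC_m {β : ℕ} {ru : List Sym} {m : MO}
    (hA : m.get (ones .u1) = List.replicate β .m ++ .c :: ru) (hβ : 0 < β) {V : List Bool}
    {p : ℕ} (hp : p + β ≤ V.length) (rr : List Sym) :
    RM E emitC (stV m V p rr) (stV m V (p + β) ((outAt β V p).reverse ++ rr))
      (20 * β + 40) := by
  have hpl : p < V.length := by omega
  have hch : ((V.drop p).take β).length = β := by simp; omega
  have hlast : ((V.drop p).take β) ≠ [] := by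
    intro h; rw [h] at hch; simp at hch; omega
  have hmsb : ((V.drop p).take β).map bit = ((V.drop p).take (β - 1)).map bit ++
      [bit (cry V (p + β))] := by
    obtain ⟨q, rfl⟩ : ∃ q, β = q + 1 := ⟨β - 1, by omega⟩
    have hlt : q < (V.drop p).length := by simp; omega
    rw [List.take_succ_eq_append_getElem hlt, List.map_append, Nat.add_sub_cancel]
    congr 1
    simp [cry, List.getD_eq_getElem?_getD, show p + (q + 1) - 1 = p + q by omega,
      show p + q < V.length by omega]
  have hrev : (((V.drop p).take β).map bit).reverse = bit (cry V (p + β)) ::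
      (((V.drop p).take (β - 1)).map bit).reverse := by rw [hmsb]; simp
  have hDD : (V.drop p).drop β = V.drop (p + β) := by rw [List.drop_drop]
  have hs0u : (stV m V p rr).get (ones .u1) = List.replicate β .m ++ .c :: ru := by
    rw [stV_get _ _ _ _ (oo (by nofun)) (oo (by nofun)) (oo (by nofun)), hA]
  have hs0v := stV_v m V p rr
  have hs0c := stV_ca m V p rr
  have hs0r := stV_r m V p rr
  have hfin : stV m V (p + β) ((outAt β V p).reverse ++ rr) =
      (((stV m V p rr).set (ones .v) ((V.drop (p + β)).map bit ++ [.c])).set (ones .ca)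
        [bit (cry V (p + β))]).set (ones .r) ((outAt β V p).reverse ++ rr) := by
    refine Mem.ext_get fun X => ?_
    unfold stV
    simp only [Mem.get_set]
    by_cases e1 : X = ones .r
    · subst e1; simp
    · by_cases e2 : X = ones .ca
      · subst e2; simp [Function.update_apply, e1]
      · by_cases e3 : X = ones .v
        · subst e3; simp [Function.update_apply, e1, e2]
        · simp [Function.update_apply, e1, e2, e3]
  rw [hfin, outAt, emitF_eq]
  have hDl : (incF (cry V p) ((V.drop p).take β)).length = β := by rw [incF_length, hch]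
  have hDne : incF (cry V p) ((V.drop p).take β) ≠ [] := by
    intro h; rw [h] at hDl; simp at hDl; omega
  generalize hch' : (V.drop p).take β = ch at *
  generalize hD : incF (cry V p) ch = D at *
  generalize hs0 : stV m V p rr = s0 at *
  have t1 : ∀ a : AA, (ones a : WW OO) ≠ .t1 := fun a => by unfold ones; nofun
  have t2 : ∀ a : AA, (ones a : WW OO) ≠ .t2 := fun a => by unfold ones; nofun
  have t3 : ∀ a : AA, (ones a : WW OO) ≠ .t3 := fun a => by unfold ones; nofun
  have t4 : ∀ a : AA, (ones a : WW OO) ≠ .t4 := fun a => by unfold ones; nofun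
  have t1' : ∀ a : AA, WW.t1 ≠ (ones a : WW OO) := fun a => (t1 a).symm
  have t2' : ∀ a : AA, WW.t2 ≠ (ones a : WW OO) := fun a => (t2 a).symm
  have t3' : ∀ a : AA, WW.t3 ≠ (ones a : WW OO) := fun a => (t3 a).symm
  have t4' : ∀ a : AA, WW.t4 ≠ (ones a : WW OO) := fun a => (t4 a).symm
  have n1 : (ones .v : WW OO) ≠ ones .ca := oo (by nofun)
  have n2 : (ones .v : WW OO) ≠ ones .r := oo (by nofun)
  have n3 : (ones .ca : WW OO) ≠ ones .r := oo (by nofun)
  unfold emitC
  simp only [sqL]
  have b1 := takeC_m (E := E) (V := V.drop p) hs0u (by simp; omega) (rv := [.c]) hs0v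
  rw [hDD, hch'] at b1
  refine RM.mono (RM.seq b1 (RM.seq
    (peek_m (X := .t1) (Y := .t3) (s := bit (cry V (p + β)))
      (l := (((V.drop p).take (β - 1)).map bit).reverse ++ .c :: s0.get .t1) (by
        rw [Mem.get_set_self, hrev]; rfl)) (RM.seq
    (revC_m (X := .t1) (Y := .t2) (by nofun) (l := (ch.map bit).reverse) (isC_rev (bits_isC _))
      (rest := s0.get .t1) (by
        rw [Mem.get_set_of_ne _ (by nofun), Mem.get_set_self])) (RM.seq
    (push_m .t4 .c _) (RM.seq
    (incC_m (g := cry V p) (ch := ch) (rc := []) (r2 := s0.get .t2) (by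
        simp [Mem.get_set, Function.update_apply, t1, t2, t3, t4, n1.symm, hs0c]) (by
        simp [Mem.get_set, Function.update_apply, t2'])) (RM.seq
    (pop_m (ones .ca) _) (RM.seq
    (mv1_m (X := .t3) (Y := ones .ca) (t3' _) (s := bit (cry V (p + β))) (l := s0.get .t3) (by
        simp [Mem.get_set, Function.update_apply, t3'])) (RM.seq
    (signC_m (D := D) hDne (r4 := s0.get .t4) (by
        simp [Mem.get_set, Function.update_apply, t4', hD])) (RM.seq
    (stripC_m (magF D) (r4 := s0.get .t4) (by
        simp [Mem.get_set, Function.update_apply, t4']))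
    (RM.cast (skip_m _) ?_)))))))))) ?_
  · refine Mem.ext_get fun X => ?_
    simp only [Mem.get_set]
    by_cases e1 : X = ones .r
    · subst e1
      simp [Function.update_apply, t1, t2, t3, t4, n2.symm, n3.symm, hs0r]
    · by_cases e2 : X = ones .ca
      · subst e2
        simp [Function.update_apply, t1, t2, t3, t4, n1.symm, n3, hs0c]
      · by_cases e3 : X = ones .v
        · subst e3
          simp [Function.update_apply, t1, t2, t3, t4, n1, n2]
        · by_cases e4 : X = .t1
          · subst e4; simp [Function.update_apply, t1']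
          · by_cases e5 : X = .t2
            · subst e5; simp [Function.update_apply, t2']
            · by_cases e6 : X = .t3
              · subst e6; simp [Function.update_apply, t3']
              · by_cases e7 : X = .t4
                · subst e7; simp [Function.update_apply, t4']
                · simp [Function.update_apply, e1, e2, e3, e4, e5, e6, e7]
  · simp only [List.length_reverse, List.length_map, magF_length, hDl, hch]
    omega

end Pool.Agent.Helper62
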