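import Mathlib
import Pool.Agent.Helper62.Top9

/-!
The extraction loops.
-/

set_option autoImplicit false
set_option linter.unusedSectionVars false

namespace Pool.Agent.Helper62

variable {E : Pr → CO}

theorem level_m {A : WW OO} (h5 : A ≠ .t5) (h1 : A ≠ ones .v) (h2 : A ≠ ones .ca)
    (h3 : A ≠ ones .r) {n N step : ℕ} (hn : n < N) {bO bI : CO} {g : ℕ → List Sym}
    {V : List Bool} {Inv : MO → Prop}
    (hInv : ∀ m la l5, Inv m → Inv ((m.set A la).set .t5 l5)) {B : ℕ}
    (hskip : ∀ m p rr, Inv m → p + step ≤ V.length →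
      RM E bO (stV m V p rr) (stV m V (p + step) rr) B)
    (hemit : ∀ m p rr, Inv m → p + step ≤ V.length →
      RM E bI (stV m V p rr) (stV m V (p + step) ((g p).reverse ++ rr)) B)
    {m : MO} (hm : Inv m) {ra : List Sym}
    (hA : m.get A = List.replicate (n + 1) .i ++ List.replicate (N - n - 1) .o ++ .c :: ra)
    {p : ℕ} (hp : p + N * step ≤ V.length) (rr : List Sym) :
    RM E (loopR A bO bI) (stV m V p rr) (stV m V (p + N * step)
      (((List.range (n + 1)).flatMap fun i => g (p + i * step)).reverse ++ rr))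
      (N * (B + 5) + 4) := by
  have hq5 : ∀ a : AA, (WW.t5 : WW OO) ≠ ones a := fun a => (o5 a).symm
  set l : List Sym := List.replicate (n + 1) .i ++ List.replicate (N - n - 1) .o with hl
  have hll : l.length = N := by simp [hl]; omega
  have hlc : ∀ s ∈ l, isC s = false := by
    intro s hs
    rw [hl, List.mem_append] at hs
    rcases hs with hs | hs <;> rw [(List.mem_replicate.1 hs).2] <;> rfl
  set M : ℕ → MO := fun j => stV m V (p + j * step)
      (((List.range (min j (n + 1))).flatMap fun i => g (p + i * step)).reverse ++ rr) with hM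
  have key := loopR_m (E := E) h5 (bO := bO) (bI := bI) (l := l) hlc (rest := ra) (M := M) (B := B)
    (by rw [hM, stV_get _ _ _ _ h1 h2 h3, hA]) (by rw [hM, stV_get _ _ _ _ h1 h2 h3, hA])
    (by rw [hM, stV_get _ _ _ _ (hq5 _) (hq5 _) (hq5 _), stV_get _ _ _ _ (hq5 _) (hq5 _) (hq5 _)])
    (fun j hj la l5 => by
      rw [hll] at hj
      have hps : p + j * step + step ≤ V.length := by
        have : (j + 1) * step ≤ N * step := Nat.mul_le_mul_right _ (by omega)
        rw [add_mul, one_mul] at this
        omega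
      have e2 : p + (j + 1) * step = p + j * step + step := by ring
      have hI := hInv m la l5 hm
      simp only [hM]
      rw [stV_comm _ _ _ _ h1 h2 h3, stV_comm _ _ _ _ h1 h2 h3, e2]
      by_cases hjn : j < n + 1
      · have : l[j]'(by omega) = .i := by
          simp only [hl]
          rw [List.getElem_append_left (by simpa using hjn)]
          simp
        rw [this]
        simp only [reduceCtorEq, if_false]
        refine RM.cast (hemit _ _ _ hI hps) ?_
        rw [min_eq_left (by omega), min_eq_left (by omega), List.range_succ,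
          List.flatMap_append]
        simp
      · have : l[j]'(by omega) = .o := by
          simp only [hl]
          rw [List.getElem_append_right (by simp; omega)]
          simp
        rw [this]
        simp only [if_true]
        refine RM.cast (hskip _ _ _ hI hps) ?_
        rw [min_eq_right (by omega), min_eq_right (by omega)])
  rw [hll] at key
  refine RM.cast (RM.cast_left key ?_) ?_
  · simp [hM]
  · simp only [hM]
    rw [min_eq_right (by omega)]

/-- the output for given parameters -/
def outK (β n : ℕ) (V : List Bool) (p : ℕ) : List Sym :=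
  (List.range (n + 1)).flatMap fun k => outAt β V (p + k * β)
def outJ (β N n : ℕ) (V : List Bool) (p : ℕ) : List Sym :=
  (List.range (n + 1)).flatMap fun j => outK β n V (p + j * (N * β))
def outI (β N n : ℕ) (V : List Bool) (p : ℕ) : List Sym :=
  (List.range (n + 1)).flatMap fun i => outJ β N n V (p + i * (N * (N * β)))

def p8C : CO :=
  loopR (ones .k1) (skipN (ones .u3)) (loopR (ones .k2) (skipN (ones .u2))
    (loopR (ones .k3) (skipN (ones .u1)) emitC))

theorem p8_m {β N n : ℕ} (hβ : 0 < β) (hn : n < N) {V : List Bool} {m : MO}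
    {r1 r2 r3 s1 s2 s3 : List Sym}
    (hu1 : m.get (ones .u1) = List.replicate β .m ++ .c :: r1)
    (hu2 : m.get (ones .u2) = List.replicate (N * β) .m ++ .c :: r2)
    (hu3 : m.get (ones .u3) = List.replicate (N * (N * β)) .m ++ .c :: r3)
    (hk1 : m.get (ones .k1) = List.replicate (n + 1) .i ++ List.replicate (N - n - 1) .o ++
      .c :: s1)
    (hk2 : m.get (ones .k2) = List.replicate (n + 1) .i ++ List.replicate (N - n - 1) .o ++
      .c :: s2)
    (hk3 : m.get (ones .k3) = List.replicate (n + 1) .i ++ List.replicate (N - n - 1) .o ++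
      .c :: s3)
    {p : ℕ} (hp : p + N * (N * (N * β)) ≤ V.length) (rr : List Sym) :
    RM E p8C (stV m V p rr) (stV m V (p + N * (N * (N * β))) ((outI β N n V p).reverse ++ rr))
      (N * (N * (N * (20 * β + 45) + 9) + 9) + 4) := by
  have hN1 : 1 ≤ N := by omega
  have z1 : ∀ (A : AA), A ≠ .v → (ones A : WW OO) ≠ ones .v := fun A h => oo h
  unfold p8C outI
  refine level_m (o5 _) (oo (by nofun)) (oo (by nofun)) (oo (by nofun)) hn
    (Inv := fun m => m.get (ones .u1) = List.replicate β .m ++ .c :: r1 ∧
      m.get (ones .u2) = List.replicate (N * β) .m ++ .c :: r2 ∧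
      m.get (ones .u3) = List.replicate (N * (N * β)) .m ++ .c :: r3 ∧
      m.get (ones .k2) = List.replicate (n + 1) .i ++ List.replicate (N - n - 1) .o ++ .c :: s2 ∧
      m.get (ones .k3) = List.replicate (n + 1) .i ++ List.replicate (N - n - 1) .o ++ .c :: s3)
    ?_ ?_ ?_ ⟨hu1, hu2, hu3, hk2, hk3⟩ hk1 hp rr
  · rintro m la l5 ⟨a1, a2, a3, a4, a5⟩
    refine ⟨?_, ?_, ?_, ?_, ?_⟩
    all_goals rw [Mem.get_set_of_ne _ (o5 _), Mem.get_set_of_ne _ (oo (by nofun))]; assumption
  · rintro m p rr ⟨a1, a2, a3, a4, a5⟩ hp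
    refine RM.mono (skipN_m (o5 _) (oo (by nofun)) (oo (by nofun)) (oo (by nofun)) a3 rr hp) ?_
    nlinarith [Nat.zero_le (N * N * β), Nat.zero_le (N * N)]
  · rintro m p rr ⟨a1, a2, a3, a4, a5⟩ hp
    unfold outJ
    refine level_m (o5 _) (oo (by nofun)) (oo (by nofun)) (oo (by nofun)) hn
      (Inv := fun m => m.get (ones .u1) = List.replicate β .m ++ .c :: r1 ∧
        m.get (ones .u2) = List.replicate (N * β) .m ++ .c :: r2 ∧
        m.get (ones .k3) = List.replicate (n + 1) .i ++ List.replicate (N - n - 1) .o ++ .c :: s3)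
      ?_ ?_ ?_ ⟨a1, a2, a5⟩ a4 hp rr
    · rintro m la l5 ⟨a1, a2, a3⟩
      refine ⟨?_, ?_, ?_⟩
      all_goals rw [Mem.get_set_of_ne _ (o5 _), Mem.get_set_of_ne _ (oo (by nofun))]; assumption
    · rintro m p rr ⟨a1, a2, a3⟩ hp
      refine RM.mono (skipN_m (o5 _) (oo (by nofun)) (oo (by nofun)) (oo (by nofun)) a2 rr hp) ?_
      nlinarith [Nat.zero_le (N * β), Nat.zero_le N]
    · rintro m p rr ⟨a1, a2, a3⟩ hp
      unfold outK
      refine level_m (o5 _) (oo (by nofun)) (oo (by nofun)) (oo (by nofun)) hn
        (Inv := fun m => m.get (ones .u1) = List.replicate β .m ++ .c :: r1)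
        ?_ ?_ ?_ a1 a3 hp rr
      · rintro m la l5 a1
        rw [Mem.get_set_of_ne _ (o5 _), Mem.get_set_of_ne _ (oo (by nofun))]; assumption
      · rintro m p rr a1 hp
        refine RM.mono (skipN_m (o5 _) (oo (by nofun)) (oo (by nofun)) (oo (by nofun)) a1 rr hp) ?_
        omega
      · rintro m p rr a1 hp
        exact emitC_m a1 hβ hp rr

end Pool.Agent.Helper62
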