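import Mathlib
import Pool.Agent.Helper62.Top10

/-!
Input, output, cleaning and the main program.
-/

set_option autoImplicit false
set_option linter.unusedSectionVars false

namespace Pool.Agent.Helper62

variable {E : Pr → CO}

def inL : CO :=
  .loop [.popInp (fun r l => { r with l := l })] (fun r => r.l.isSome)
    (.act [.pushO .t1 (fun r => r.l.map encL), pushc (ones .cn) .m])

theorem inL_runs (w : List Letter) (r : Reg) (o : List OutSym) (S : WW OO → List Sym) :
    ∃ r', Runs E inL ⟨r, w, o, S⟩ ⟨r', [], o, Function.update (Function.update S .t1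
      ((w.map encL).reverse ++ S .t1)) (ones .cn) (List.replicate w.length .m ++ S (ones .cn))⟩
      (2 * w.length + 1) := by
  have hne : (ones .cn : WW OO) ≠ .t1 := by unfold ones; nofun
  unfold inL
  induction w generalizing r S with
  | nil =>
    refine ⟨{ r with l := none }, Runs.loop_done ?_ rfl⟩
    simp [runOps, Op.run]
  | cons a w ih =>
    obtain ⟨r', h⟩ := ih { r with l := some a } (Function.update (Function.update S .t1
      (encL a :: S .t1)) (ones .cn) (.m :: S (ones .cn)))
    refine ⟨r', ?_⟩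
    refine (Runs.loop_step (s₁ := ⟨{ r with l := some a }, w, o, S⟩) ?_ rfl
      (Runs.act' rfl) (s'' := _) (B₁ := 1) (B₂ := 2 * w.length + 1) ?_).mono (by
        simp; omega)
    · simp [runOps, Op.run]
    · simp only [runOps, run_pushO, Op.run, Option.map_some, Option.toList_some,
        List.singleton_append, Function.update_of_ne hne]
      convert h using 2
      funext X
      by_cases e1 : X = ones .cn
      · subst e1
        simp only [Function.update_self, List.length_cons, rep_shift, List.replicate_succ,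
          List.cons_append]
      · by_cases e2 : X = .t1
        · subst e2
          simp [Function.update_apply, e1]
        · simp [Function.update_apply, e1, e2]

def decO : Sym → Option OutSym
  | .o => some .zero
  | .i => some .one
  | .d => some .plus
  | .e => some .minus
  | _ => none

def outL : CO :=
  .loop [popx (ones .r)] (fun r => goOn isC r.x) (.act [.pushOutO (fun r => r.x.bind decO)])

theorem outL_runs (l : List Sym) (hl : ∀ s ∈ l, isC s = false) (l' : List OutSym)
    (hll : l.map decO = l'.map some) (rest : List Sym)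
    (r : Reg) (i : List Letter) (o : List OutSym) (S : WW OO → List Sym)
    (hS : S (ones .r) = l ++ .c :: rest) :
    ∃ r', Runs E outL ⟨r, i, o, S⟩ ⟨r', i, l'.reverse ++ o, Function.update S (ones .r) rest⟩
      (2 * l.length + 1) := by
  unfold outL
  induction l generalizing r S o l' with
  | nil =>
    obtain rfl : l' = [] := by simpa using hll.symm
    refine ⟨{ r with x := some .c }, Runs.loop_done ?_ rfl⟩
    simp [runOps, Op.run, hS]
  | cons a l ih =>
    cases l' with
    | nil => simp at hll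
    | cons b l' =>
      simp only [List.map_cons, List.cons.injEq] at hll
      obtain ⟨r', h⟩ := ih (fun s hs => hl s (by simp [hs])) l' hll.2 { r with x := some a }
        (b :: o) (Function.update S (ones .r) (l ++ .c :: rest)) (by simp)
      refine ⟨r', ?_⟩
      refine (Runs.loop_step (s₁ := ⟨{ r with x := some a }, i, o,
        Function.update S (ones .r) (l ++ .c :: rest)⟩) ?_ ?_
        (Runs.act' rfl) (s'' := _) (B₁ := 1) (B₂ := 2 * l.length + 1) ?_).mono (by
          simp; omega)
      · simp [runOps, Op.run, hS]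
      · simp [goOn, hl a (by simp)]
      · simp only [runOps, Op.run, Option.bind_some, hll.1]
        simp only [Function.update_idem] at h
        simpa using h

/-- empty single stacks -/
def SE (r : List Sym) : SA := ⟨fun _ => [], [], [], [], [], [], [], [], [], [], [], [], r⟩

def p9C : CO :=
  sqL [pp (ones .li), dropC (ones .dm), dropC (ones .cn), dropC (ones .u1), dropC (ones .u2),
    dropC (ones .u3), dropC (ones .k1), dropC (ones .k2), dropC (ones .k3), dropC (ones .v),
    pp (ones .ca), dropC (tms .O), dropC (tms .I), dropC (tms .NI), dropC (tms .X),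
    dropC (tms .Y), dropC (tms .Z), dropC (tms .NZ), dropC .sk]

theorem p9_spec {L n : ℕ} (hn : n < 2 ^ L) {V : List Bool} {c : Bool} {rr : List Sym} :
    RM E p9C (mkM (List.replicate (4 * L + 4) .m ++ [.c])
      { SS L n [.c] with v := V.map bit ++ [.c], ca := [bit c], r := rr } T0)
      (mkM [] (SE rr) T0) (2 * V.length + 600 * (2 ^ L) ^ 3) := by
  have hN : 1 ≤ 2 ^ L := Nat.one_le_two_pow
  have h1 : 2 ^ L ≤ (2 ^ L) ^ 3 := Nat.le_self_pow (by norm_num) _
  have h2 : (2 ^ L) ^ 2 ≤ (2 ^ L) ^ 3 := Nat.pow_le_pow_right hN (by norm_num)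
  have h4 : L < 2 ^ L := Nat.lt_two_pow_self
  have htl : ∀ t, (tpF L t).length = 16 * (2 ^ L) ^ 3 := fun t => by
    rw [tpF_length, pow_add, mul_comm 3 L, pow_mul]; ring
  have hk : ∀ s ∈ List.replicate (n + 1) Sym.i ++ List.replicate (2 ^ L - n - 1) Sym.o,
      isC s = false := by
    intro s hs
    rw [List.mem_append] at hs
    rcases hs with hs | hs <;> rw [(List.mem_replicate.1 hs).2] <;> rfl
  have hkl : (List.replicate (n + 1) Sym.i ++ List.replicate (2 ^ L - n - 1) Sym.o).length =
      2 ^ L := by simp; omega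
  unfold p9C
  simp only [sqL]
  refine RM.mono (RM.seq
    (RM.toS (pop_m (ones .li) _)) (RM.seq
    (RM.toS (dropC_m (X := ones .dm) (marks_isC L) (rest := []) rfl)) (RM.seq
    (RM.toS (dropC_m (X := ones .cn) (marks_isC n) (rest := []) rfl)) (RM.seq
    (RM.toS (dropC_m (X := ones .u1) (marks_isC _) (rest := []) rfl)) (RM.seq
    (RM.toS (dropC_m (X := ones .u2) (marks_isC _) (rest := []) rfl)) (RM.seq
    (RM.toS (dropC_m (X := ones .u3) (marks_isC _) (rest := []) rfl)) (RM.seq
    (RM.toS (dropC_m (X := ones .k1) hk (rest := []) rfl)) (RM.seq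
    (RM.toS (dropC_m (X := ones .k2) hk (rest := []) rfl)) (RM.seq
    (RM.toS (dropC_m (X := ones .k3) hk (rest := []) rfl)) (RM.seq
    (RM.toS (dropC_m (X := ones .v) (bits_isC V) (rest := []) rfl)) (RM.seq
    (RM.toS (pop_m (ones .ca) _)) (RM.seq
    (RM.toS (dropC_m (X := ones (.tm .O)) (bits_isC (tpF L .O)) (rest := []) rfl)) (RM.seq
    (RM.toS (dropC_m (X := ones (.tm .I)) (bits_isC (tpF L .I)) (rest := []) rfl)) (RM.seq
    (RM.toS (dropC_m (X := ones (.tm .NI)) (bits_isC (tpF L .NI)) (rest := []) rfl)) (RM.seq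
    (RM.toS (dropC_m (X := ones (.tm .X)) (bits_isC (tpF L .X)) (rest := []) rfl)) (RM.seq
    (RM.toS (dropC_m (X := ones (.tm .Y)) (bits_isC (tpF L .Y)) (rest := []) rfl)) (RM.seq
    (RM.toS (dropC_m (X := ones (.tm .Z)) (bits_isC (tpF L .Z)) (rest := []) rfl)) (RM.seq
    (RM.toS (dropC_m (X := ones (.tm .NZ)) (bits_isC (tpF L .NZ)) (rest := []) rfl)) (RM.seq
    (dropC_m (X := .sk) (marks_isC _) (rest := []) rfl)
    (RM.cast (skip_m _) ?_)))))))))))))))))))) ?_
  · rw [mkM_sk]
    simp only [SA.set, SS, SE]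
    congr 1
    congr 1
    funext t
    cases t <;> simp [Function.update_apply]
  · simp only [List.length_replicate, List.length_map, htl, hkl, pow_one]
    have h6 : 1 ≤ (2 ^ L) ^ 3 := le_trans hN h1
    linarith

/-- the phases which do not involve input and output -/
def midC : CO :=
  sqL [p2C, p3C, p4C, p5C, p67C, psh (ones .ca) .o, psh (ones .r) .c, p8C, p9C]

def outSyms (n L : ℕ) (w : List Letter) : List Sym :=
  outI (4 * 2 ^ L) (2 ^ L) n (vF L w) 0

/-- time of the middle phases -/
def Tmid (n : ℕ) : ℕ :=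
  20 * n + 20 + 400 * ((szL n + 1) * (2 ^ szL n) ^ 3) + 500 * (2 ^ szL n) ^ 3 +
  (3 * (szL n * (6 * 2 ^ szL n + 9) + 12 * n + 20) + 1) + T67 (szL n) + 2 +
  (2 ^ szL n * (2 ^ szL n * (2 ^ szL n * (20 * (4 * 2 ^ szL n) + 45) + 9) + 9) + 4) +
  (2 * 2 ^ (4 * szL n + 4) + 600 * (2 ^ szL n) ^ 3) + 1

theorem mid_spec (hM : MulOK E) (hP : E .prod = prodC) (w : List Letter) :
    RM E midC (mkM [] { SE [] with
        li := w.map encL ++ [.c], cn := List.replicate w.length .m ++ [.c] } T0)
      (mkM [] (SE ((outSyms w.length (szL w.length) w).reverse ++ [.c])) T0)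
      (Tmid w.length) := by
  have hn := lt_szL w.length
  unfold Tmid outSyms
  generalize hn' : w.length = n at *
  generalize hL' : szL n = L at *
  have hV := vF_length L w
  have hVl : 0 + 2 ^ L * (2 ^ L * (2 ^ L * (4 * 2 ^ L))) ≤ (vF L w).length := by
    rw [hV, pow_add, mul_comm 4 L, pow_mul]
    generalize 2 ^ L = N
    nlinarith [Nat.zero_le (N * N * N * N)]
  have h2 := p2_spec (E := E) n [] { SE [] with
        li := w.map encL ++ [.c], cn := List.replicate n .m ++ [.c] } T0 rfl rfl
  rw [hL'] at h2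
  have h3 := p3_spec (E := E) (L := L) (S := { SE [] with
    li := w.map encL ++ [.c]
    cn := List.replicate n .m ++ [.c]
    dm := List.replicate L .m ++ [.c] }) (T := T0)
    rfl rfl rfl rfl
  have h4 := p4_spec (E := E) (L := L) (n := n) (li := w.map encL ++ [.c])
    (sk := List.replicate (4 * L + 4) .m ++ [.c]) (T := T0)
  have h5 := p5_spec (E := E) (L := L) (n := n) hn (li := w.map encL ++ [.c])
    (sk := List.replicate (4 * L + 4) .m ++ [.c]) (T := T0)
  have h67 := p67_spec (E := E) hM hP (L := L) (n := n) (w := w) (by omega)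
  have h8 := p8_m (E := E) (β := 4 * 2 ^ L) (N := 2 ^ L) (n := n) (by positivity) hn
    (V := vF L w) (m := mkM (List.replicate (4 * L + 4) .m ++ [.c]) (SS L n [.c]) T0)
    (r1 := []) (r2 := []) (r3 := []) (s1 := []) (s2 := []) (s3 := [])
    (show List.replicate (4 * (2 ^ L) ^ 1) Sym.m ++ [.c] = _ by rw [pow_one])
    (show List.replicate (4 * (2 ^ L) ^ 2) Sym.m ++ [.c] = _ by
      rw [show 4 * (2 ^ L) ^ 2 = 2 ^ L * (4 * 2 ^ L) by ring])
    (show List.replicate (4 * (2 ^ L) ^ 3) Sym.m ++ [.c] = _ by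
      rw [show 4 * (2 ^ L) ^ 3 = 2 ^ L * (2 ^ L * (4 * 2 ^ L)) by ring])
    rfl rfl rfl (p := 0) hVl [.c]
  have h9 := p9_spec (E := E) hn (V := (vF L w).drop (0 + 2 ^ L * (2 ^ L * (2 ^ L * (4 * 2 ^ L)))))
    (c := cry (vF L w) (0 + 2 ^ L * (2 ^ L * (2 ^ L * (4 * 2 ^ L)))))
    (rr := (outI (4 * 2 ^ L) (2 ^ L) n (vF L w) 0).reverse ++ [.c])
  unfold midC
  simp only [sqL]
  have e8 : stV (mkM (List.replicate (4 * L + 4) .m ++ [.c]) (SS L n [.c]) T0) (vF L w) 0 [.c] =
      mkM (List.replicate (4 * L + 4) .m ++ [.c]) { SS L n [.c] with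
        v := (vF L w).map bit ++ [.c], ca := [.o], r := [.c] } T0 := by
    unfold stV ones
    rw [mkM_set, mkM_set, mkM_set]
    simp [cry, bit, SA.set]
  have e9 : stV (mkM (List.replicate (4 * L + 4) .m ++ [.c]) (SS L n [.c]) T0) (vF L w)
      (0 + 2 ^ L * (2 ^ L * (2 ^ L * (4 * 2 ^ L))))
      ((outI (4 * 2 ^ L) (2 ^ L) n (vF L w) 0).reverse ++ [.c]) =
      mkM (List.replicate (4 * L + 4) .m ++ [.c]) { SS L n [.c] with
        v := ((vF L w).drop (0 + 2 ^ L * (2 ^ L * (2 ^ L * (4 * 2 ^ L))))).map bit ++ [.c],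
        ca := [bit (cry (vF L w) (0 + 2 ^ L * (2 ^ L * (2 ^ L * (4 * 2 ^ L)))))],
        r := (outI (4 * 2 ^ L) (2 ^ L) n (vF L w) 0).reverse ++ [.c] } T0 := by
    unfold stV ones
    rw [mkM_set, mkM_set, mkM_set]
    simp [SA.set]
  rw [e8, e9] at h8
  refine RM.mono (RM.seq h2 (RM.seq h3 (RM.seq h4 (RM.seq h5 (RM.seq h67 (RM.seq
    (RM.toS (push_m (ones .ca) .o _)) (RM.seq (RM.toS (push_m (ones .r) .c _)) (RM.seq
    h8 (RM.seq h9 (skip_m _)))))))))) ?_
  rw [List.length_drop, hV]
  omega

end Pool.Agent.Helper62
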