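import Mathlib
import Pool.Agent.Helper62.Top11

/-!
The main program.
-/

set_option autoImplicit false
set_option linter.unusedSectionVars false

namespace Pool.Agent.Helper62

def mainC : CO :=
  .seq (.act [pushc .t1 .c, pushc (ones .cn) .c]) (.seq inL (.seq (revC .t1 (ones .li))
    (.seq midC outL)))

/-- the procedures -/
def Env : Pr → CO
  | .nega => negaC
  | .conv => convC
  | .mul => mulC
  | .prod => prodC
  | .main => mainC

def outO (w : List Letter) : List OutSym :=
  (outSyms w.length (szL w.length) w).filterMap decO

theorem emitF_some (g : Bool) (ch : List Bool) :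
    ∀ s ∈ emitF g ch, isC s = false ∧ (decO s).isSome := by
  intro s hs
  rw [emitF_eq] at hs
  rcases List.mem_cons.1 hs with rfl | hs
  · unfold sgF; split_ifs <;> exact ⟨rfl, rfl⟩
  · obtain ⟨b, _, rfl⟩ := List.mem_map.1 hs
    cases b <;> exact ⟨rfl, rfl⟩

theorem outSyms_some (n L : ℕ) (w : List Letter) :
    ∀ s ∈ outSyms n L w, isC s = false ∧ (decO s).isSome := by
  intro s hs
  simp only [outSyms, outI, outJ, outK, outAt, List.mem_flatMap] at hs
  obtain ⟨_, _, _, _, _, _, h⟩ := hs
  exact emitF_some _ _ s h

theorem map_decO {l : List Sym} (h : ∀ s ∈ l, (decO s).isSome) :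
    l.map decO = (l.filterMap decO).map some := by
  induction l with
  | nil => rfl
  | cons a l ih =>
    obtain ⟨b, hb⟩ := Option.isSome_iff_exists.1 (h a (by simp))
    rw [List.map_cons, ih (fun s hs => h s (by simp [hs])), List.filterMap_cons, hb]
    rfl

theorem emitF_length (g : Bool) (ch : List Bool) : (emitF g ch).length ≤ ch.length + 1 := by
  rw [emitF_eq, List.length_cons, List.length_map, stripF, List.length_reverse]
  have h1 : ((magF (incF g ch)).reverse.dropWhile fun b => !b).length ≤
      (magF (incF g ch)).reverse.length := (List.dropWhile_sublist _).length_le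
  rw [List.length_reverse, magF_length, incF_length] at h1
  omega

theorem flatMap_length_le {α β : Type} (l : List α) (f : α → List β) (B : ℕ)
    (h : ∀ a ∈ l, (f a).length ≤ B) : (l.flatMap f).length ≤ l.length * B := by
  induction l with
  | nil => simp
  | cons a l ih =>
    rw [List.flatMap_cons, List.length_append, List.length_cons, add_mul, one_mul]
    have := h a (by simp)
    have := ih (fun b hb => h b (by simp [hb]))
    omega

theorem outSyms_length (n L : ℕ) (w : List Letter) :
    (outSyms n L w).length ≤ (n + 1) * ((n + 1) * ((n + 1) * (4 * 2 ^ L + 1))) := by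
  have h1 : ∀ p, (outAt (4 * 2 ^ L) (vF L w) p).length ≤ 4 * 2 ^ L + 1 := by
    intro p
    refine (emitF_length _ _).trans ?_
    rw [List.length_take]; omega
  have h2 : ∀ p, (outK (4 * 2 ^ L) n (vF L w) p).length ≤ (n + 1) * (4 * 2 ^ L + 1) := by
    intro p
    refine (flatMap_length_le _ _ _ fun a _ => h1 _).trans ?_
    rw [List.length_range]
  have h3 : ∀ p, (outJ (4 * 2 ^ L) (2 ^ L) n (vF L w) p).length ≤
      (n + 1) * ((n + 1) * (4 * 2 ^ L + 1)) := by
    intro p
    refine (flatMap_length_le _ _ _ fun a _ => h2 _).trans ?_
    rw [List.length_range]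
  refine (flatMap_length_le _ _ _ fun a _ => h3 _).trans ?_
  rw [List.length_range]

theorem mkM_empty : (mkM [] (SE []) T0).get = fun _ => [] := by
  funext X
  cases X with
  | o k =>
    cases k with
    | mat q i j => rfl
    | one a => cases a <;> rfl
  | _ => rfl

/-- total time -/
def Ttot (n : ℕ) : ℕ :=
  Tmid n + 4 * n + 8 + 2 * ((n + 1) * ((n + 1) * ((n + 1) * (4 * 2 ^ szL n + 1))))

theorem main_runs (w : List Letter) :
    ∃ r, Runs Env (Env .main) ⟨r0, w, [], fun _ => []⟩ ⟨r, [], outO w, fun _ => []⟩
      (Ttot w.length) := by
  have hM : MulOK Env := mulOK rfl rfl rfl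
  have hmid := mid_spec (E := Env) hM rfl w
  obtain ⟨r1, hin⟩ := inL_runs (E := Env) w r0 [] (Function.update (Function.update
    (fun _ => []) .t1 [.c]) (ones .cn) [.c])
  have hrev : R Env (revC .t1 (ones .li))
      (Function.update (Function.update (Function.update (Function.update
        (fun _ => []) .t1 [.c]) (ones .cn) [.c]) .t1
        ((w.map encL).reverse ++ (Function.update (Function.update
        (fun _ => []) .t1 [.c]) (ones .cn) [.c]) .t1)) (ones .cn)
        (List.replicate w.length .m ++ (Function.update (Function.update
        (fun _ => []) .t1 [.c]) (ones .cn) [.c]) (ones .cn)))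
      (mkM [] { SE [] with
        li := w.map encL ++ [.c], cn := List.replicate w.length .m ++ [.c] } T0).get
      (2 * w.length + 2) := by
    have hS : (Function.update (Function.update (Function.update (Function.update
        (fun _ => []) .t1 [.c]) (ones .cn) [.c]) .t1
        ((w.map encL).reverse ++ (Function.update (Function.update
        (fun _ => []) .t1 [.c]) (ones .cn) [.c]) .t1)) (ones .cn)
        (List.replicate w.length .m ++ (Function.update (Function.update
        (fun _ => []) .t1 [.c]) (ones .cn) [.c]) (ones .cn))) =
        (((mkM [] (SE []) T0).set (ones .cn) (List.replicate w.length .m ++ [.c])).set .t1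
          ((w.map encL).reverse ++ [.c])).get := by
      rw [Mem.get_set, Mem.get_set, mkM_empty]
      have hne : (ones .cn : WW OO) ≠ .t1 := by unfold ones; nofun
      funext X
      by_cases e1 : X = ones .cn
      · subst e1
        simp [Function.update_apply, hne]
      · by_cases e2 : X = .t1
        · subst e2
          simp [Function.update_apply, e1]
        · simp [Function.update_apply, e1, e2]
    rw [hS]
    have hlc : ∀ s ∈ (w.map encL).reverse, isC s = false := by
      intro s hs
      rw [List.mem_reverse] at hs
      obtain ⟨x, _, rfl⟩ := List.mem_map.1 hs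
      cases x <;> rfl
    refine RM.mono (RM.cast (revC_m (X := .t1) (Y := ones .li) (by unfold ones; nofun)
      (l := (w.map encL).reverse) hlc (rest := []) (by rw [Mem.get_set_self])) ?_) ?_
    · rw [Mem.set_set_self, List.reverse_reverse]
      have e : (((mkM [] (SE []) T0).set (ones .cn) (List.replicate w.length .m ++ [.c])).set .t1
          []) = ((mkM [] (SE []) T0).set (ones .cn) (List.replicate w.length .m ++ [.c])) := rfl
      rw [e]
      unfold ones
      rw [mkM_set, mkM_set]
      rfl
    · simp
  obtain ⟨r2, hrev⟩ := hrev r1 [] []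
  obtain ⟨r3, hmid⟩ := hmid r2 [] []
  have hsome := outSyms_some w.length (szL w.length) w
  obtain ⟨r4, hout⟩ := outL_runs (E := Env) (outSyms w.length (szL w.length) w).reverse
    (fun s hs => (hsome s (by simpa using hs)).1) (outO w).reverse (by
      rw [List.map_reverse, List.map_reverse, map_decO fun s hs => (hsome s hs).2]; rfl) [] r3 [] []
    (mkM [] (SE ((outSyms w.length (szL w.length) w).reverse ++ [.c])) T0).get rfl
  refine ⟨r4, ?_⟩
  have hfin : Function.update (mkM [] (SE ((outSyms w.length (szL w.length) w).reverse ++
      [.c])) T0).get (ones .r) [] = fun _ => [] := by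
    rw [← Mem.get_set]
    unfold ones
    rw [mkM_set]
    exact mkM_empty
  rw [hfin, List.reverse_reverse, List.append_nil] at hout
  have hlen := outSyms_length w.length (szL w.length) w
  refine (Runs.seq (Runs.act' rfl) (Runs.seq hin (Runs.seq hrev (Runs.seq hmid hout)))).mono ?_
  rw [List.length_reverse]
  unfold Ttot
  omega

end Pool.Agent.Helper62
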