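import Mathlib
import Pool.Agent.Helper62.Top12

/-!
Integers represented by bit strings in two's complement.
-/

set_option autoImplicit false
set_option linter.unusedSectionVars false

namespace Pool.Agent.Helper62

/-- the bit string `l` represents the integer `v` modulo `2 ^ l.length` -/
def Rep (l : List Bool) (v : ℤ) : Prop := (2 ^ l.length : ℤ) ∣ v - val l

theorem rep_addB {x y : List Bool} {a b : ℤ} (h : x.length = y.length) (hx : Rep x a)
    (hy : Rep y b) : Rep (addB false x y) (a + b) := by
  unfold Rep at *
  rw [addB_length _ _ _ h]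
  rw [← h] at hy
  obtain ⟨q, hq⟩ := val_addB false x y h
  simp only [Bool.toNat_false, add_zero] at hq
  have hq' : (val (addB false x y) : ℤ) + 2 ^ x.length * q = val x + val y := by exact_mod_cast hq
  obtain ⟨u, hu⟩ := hx
  obtain ⟨v, hv⟩ := hy
  exact ⟨u + v + q, by linear_combination hu + hv - hq'⟩

theorem rep_replicate_false (n : ℕ) : Rep (List.replicate n false) 0 := by
  unfold Rep
  rw [val_replicate_false]; simp

theorem rep_macF {κ : ℕ} (hκ : 4 ≤ κ) {z a b : List Bool} (hz : z.length = 2 ^ κ)
    (ha : a.length = 2 ^ κ) (hb : b.length = 2 ^ κ) {u v w : ℤ} (hu : Rep z u) (hv : Rep a v)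
    (hw : Rep b w) : Rep (macF κ z a b) (u + v * w) := by
  have h4 := four_pow hκ
  have h5 := EE_le (κ + 1)
  have h6 : 2 ^ (κ + 1) = 2 * 2 ^ κ := by rw [pow_succ, mul_comm]
  have hlen := mulF_length (w := 4 * κ + 7 + 1) (by omega) a b ha hb
  have hval := val_mulF (w := 4 * κ + 7 + 1) (by omega) a b ha hb (by omega)
  unfold macF
  have htl : ((mulF κ (4 * κ + 7 + 1) a b).take (2 ^ κ)).length = 2 ^ κ := by
    rw [List.length_take, hlen]; omega
  refine rep_addB (by rw [hz, htl]) hu ?_
  unfold Rep at *
  rw [htl, val_take, hval, Nat.mod_mod_of_dvd _ (pow_dvd_pow 2 (by omega))]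
  rw [ha] at hv
  rw [hb] at hw
  obtain ⟨s, hs⟩ := hv
  obtain ⟨t, ht⟩ := hw
  have h7 : ((val a * val b % 2 ^ 2 ^ κ : ℕ) : ℤ) = val a * val b % 2 ^ 2 ^ κ := by push_cast; rfl
  rw [h7, Int.emod_def]
  refine ⟨s * w + val a * t + (val a * val b : ℤ) / 2 ^ 2 ^ κ, ?_⟩
  linear_combination w * hs + (val a : ℤ) * ht

theorem val_replicate_true (n : ℕ) : val (List.replicate n true) + 1 = 2 ^ n := by
  induction n with
  | zero => rfl
  | succ n ih => simp only [List.replicate_succ, val, pow_succ, Bool.toNat_true]; omega

theorem rep_sext {l : List Bool} {v : ℤ} (hl : 0 < l.length) (hv : Rep l v)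
    (h1 : |v| < 2 ^ (l.length - 1)) : Rep (sext l) v := by
  obtain ⟨l', b, rfl⟩ : ∃ l' b, l = l' ++ [b] :=
    ⟨l.dropLast, l.getLast (by intro h; simp [h] at hl), (List.dropLast_append_getLast _).symm⟩
  obtain ⟨q, hq⟩ := hv
  have hlt := val_lt l'
  have hlt' : (val l' : ℤ) < 2 ^ l'.length := by exact_mod_cast hlt
  have h0 : (0 : ℤ) ≤ val l' := Int.natCast_nonneg _
  simp only [List.length_append, List.length_singleton, Nat.add_sub_cancel] at h1 hq
  rw [abs_lt] at h1
  rw [val_append] at hq
  have hpos : (0 : ℤ) < 2 ^ l'.length := by positivity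
  generalize hP : (2 : ℤ) ^ l'.length = P at *
  have hP2 : (2 : ℤ) ^ (l'.length + 1) = 2 * P := by rw [pow_succ, hP]; ring
  rw [hP2] at hq
  unfold Rep
  have hs : sext (l' ++ [b]) = l' ++ [b] ++ List.replicate (l'.length + 1) b := by
    simp [sext]
  rw [hs]
  simp only [List.length_append, List.length_singleton, List.length_replicate]
  rw [val_append, val_append]
  simp only [List.length_append, List.length_singleton]
  cases b with
  | false =>
    rw [val_replicate_false]
    simp only [val, Bool.toNat_false] at hq ⊢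
    push_cast at hq ⊢
    have hq0 : q = 0 := by
      have e1 : v = val l' + 2 * P * q := by linarith
      by_contra hne
      rcases lt_or_gt_of_ne hne with h | h
      · have : q ≤ -1 := by omega
        nlinarith
      · have : 1 ≤ q := by omega
        nlinarith
    rw [hq0] at hq
    refine ⟨0, ?_⟩
    linarith
  | true =>
    have hr := val_replicate_true (l'.length + 1)
    have hr' : (val (List.replicate (l'.length + 1) true) : ℤ) = 2 * P - 1 := by
      have : ((val (List.replicate (l'.length + 1) true) + 1 : ℕ) : ℤ) = 2 * P := by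
        rw [hr]; push_cast; exact hP2
      push_cast at this
      linarith
    simp only [val, Bool.toNat_true] at hq ⊢
    push_cast at hq ⊢
    rw [hr', hP2, hP]
    rw [hP] at hq
    have hq0 : q = -1 := by
      have e1 : v = val l' + P + 2 * P * q := by linarith
      by_contra hne
      rcases lt_or_gt_of_ne hne with h | h
      · have : q ≤ -2 := by omega
        nlinarith
      · have : 0 ≤ q := by omega
        nlinarith
    rw [hq0] at hq
    refine ⟨-1, ?_⟩
    rw [pow_add, hP2]
    linear_combination hq

end Pool.Agent.Helper62
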