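import Mathlib
import Pool.Agent.Helper62.Rep

/-!
The product tree computes the product of the letter matrices.
-/

set_option autoImplicit false
set_option linter.unusedSectionVars false

namespace Pool.Agent.Helper62

/-- values of the constants -/
def tvg {S : Type} [CommRing S] (x y z : S) : Tm → S
  | .O => 0
  | .I => 1
  | .NI => -1
  | .X => x
  | .Y => y
  | .Z => z
  | .NZ => -z

def LMg {S : Type} [CommRing S] (x y z : S) (l : Option Letter) : Matrix (Fin 4) (Fin 4) S :=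
  (leafM l).map (tvg x y z)

def PMg {S : Type} [CommRing S] (x y z : S) (w : List Letter) : Matrix (Fin 4) (Fin 4) S :=
  (w.map fun l => LMg x y z (some l)).prod

theorem LMg_none {S : Type} [CommRing S] (x y z : S) : LMg x y z none = 1 := by
  ext i j
  fin_cases i <;> fin_cases j <;> rfl

theorem val_one_at (a m : ℕ) :
    val (List.replicate a false ++ true :: List.replicate m false) = 2 ^ a := by
  rw [val_append, val_replicate_false]
  simp [val, val_replicate_false]

theorem val_ones_from (a m : ℕ) :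
    val (List.replicate a false ++ List.replicate m true) + 2 ^ a = 2 ^ (a + m) := by
  have := val_replicate_true m
  rw [val_append, val_replicate_false, List.length_replicate, pow_add, ← this]
  ring

theorem rep_tpF (L : ℕ) (t : Tm) :
    Rep (tpF L t) (tvg (2 ^ (4 * (2 ^ L) ^ 3)) (2 ^ (4 * (2 ^ L) ^ 2)) (2 ^ (4 * 2 ^ L)) t) := by
  have hN : 1 ≤ 2 ^ L := Nat.one_le_two_pow
  have h1 : 2 ^ L ≤ (2 ^ L) ^ 3 := Nat.le_self_pow (by norm_num) _
  unfold Rep
  cases t with
  | O => simp [tpF, tvg, val_replicate_false]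
  | I => simp [tpF, tvg, val, val_replicate_false]
  | NI =>
    have := val_replicate_true (4 * (4 * (2 ^ L) ^ 3))
    have h : (val (List.replicate (4 * (4 * (2 ^ L) ^ 3)) true) : ℤ) + 1 =
      2 ^ (4 * (4 * (2 ^ L) ^ 3)) := by exact_mod_cast this
    simp only [tpF, tvg, List.length_replicate]
    exact ⟨-1, by linarith⟩
  | X => simp only [tpF, tvg, tpZ, val_one_at]; simp
  | Y => simp only [tpF, tvg, tpZ, val_one_at]; simp
  | Z => simp only [tpF, tvg, tpZ, val_one_at]; simp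
  | NZ =>
    have := val_ones_from (4 * (2 ^ L) ^ 1) (4 * (4 * (2 ^ L) ^ 3) - 4 * (2 ^ L) ^ 1)
    have h : (val (tpF L .NZ) : ℤ) + 2 ^ (4 * (2 ^ L) ^ 1) = 2 ^ (4 * (2 ^ L) ^ 1 +
        (4 * (4 * (2 ^ L) ^ 3) - 4 * (2 ^ L) ^ 1)) := by exact_mod_cast this
    have hl : (tpF L .NZ).length = 4 * (2 ^ L) ^ 1 +
        (4 * (4 * (2 ^ L) ^ 3) - 4 * (2 ^ L) ^ 1) := by simp [tpF]
    rw [hl, ← h]
    refine ⟨-1, ?_⟩
    simp only [tvg, pow_one]
    ring

theorem rs_mul {A B : ℤ} {M M' : Matrix (Fin 4) (Fin 4) ℤ}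
    (h : ∀ i, ∑ j, |M i j| ≤ A) (h' : ∀ i, ∑ j, |M' i j| ≤ B) (i : Fin 4) :
    ∑ j, |(M * M') i j| ≤ A * B := by
  have hB : 0 ≤ B := le_trans (Finset.sum_nonneg fun j _ => abs_nonneg _) (h' 0)
  calc ∑ j, |(M * M') i j| ≤ ∑ j, ∑ k, |M i k| * |M' k j| := by
        refine Finset.sum_le_sum fun j _ => ?_
        rw [Matrix.mul_apply]
        refine (Finset.abs_sum_le_sum_abs _ _).trans ?_
        exact Finset.sum_le_sum fun k _ => (abs_mul _ _).le
    _ = ∑ k, |M i k| * ∑ j, |M' k j| := by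
        rw [Finset.sum_comm]
        exact Finset.sum_congr rfl fun k _ => by rw [Finset.mul_sum]
    _ ≤ ∑ k, |M i k| * B := Finset.sum_le_sum fun k _ =>
        mul_le_mul_of_nonneg_left (h' k) (abs_nonneg _)
    _ = (∑ k, |M i k|) * B := by rw [Finset.sum_mul]
    _ ≤ A * B := mul_le_mul_of_nonneg_right (h i) hB

theorem rs_prod {x y z : ℤ} {A : ℤ} (hA : 1 ≤ A)
    (h : ∀ l i, ∑ j, |LMg x y z (some l) i j| ≤ A) (w : List Letter) (i : Fin 4) :
    ∑ j, |PMg x y z w i j| ≤ A ^ w.length := by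
  induction w generalizing i with
  | nil =>
    simp only [PMg, List.map_nil, List.prod_nil, List.length_nil, pow_zero]
    fin_cases i <;> simp [Fin.sum_univ_four, Matrix.one_apply]
  | cons l w ih =>
    have : PMg x y z (l :: w) = LMg x y z (some l) * PMg x y z w := by
      simp [PMg]
    rw [this, List.length_cons, pow_succ, mul_comm (A ^ _)]
    exact rs_mul (h l) ih i

theorem rep_matF {κ : ℕ} (hκ : 4 ≤ κ) {X Y : P4 → List Bool}
    (hX : ∀ p, (X p).length = 2 ^ κ) (hY : ∀ p, (Y p).length = 2 ^ κ)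
    {M M' : Matrix (Fin 4) (Fin 4) ℤ} (h : ∀ i j, Rep (X (i, j)) (M i j))
    (h' : ∀ i j, Rep (Y (i, j)) (M' i j)) (i j : Fin 4) :
    Rep (matF κ X Y (i, j)) ((M * M') i j) := by
  have l0 : (List.replicate (2 ^ κ) false).length = 2 ^ κ := by simp
  have l1 := macF_length hκ l0 (hX (i, 0)) (hY (0, j))
  have l2 := macF_length hκ l1 (hX (i, 1)) (hY (1, j))
  have l3 := macF_length hκ l2 (hX (i, 2)) (hY (2, j))
  have r0 := rep_replicate_false (2 ^ κ)
  have r1 := rep_macF hκ l0 (hX (i, 0)) (hY (0, j)) r0 (h i 0) (h' 0 j)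
  have r2 := rep_macF hκ l1 (hX (i, 1)) (hY (1, j)) r1 (h i 1) (h' 1 j)
  have r3 := rep_macF hκ l2 (hX (i, 2)) (hY (2, j)) r2 (h i 2) (h' 2 j)
  have r4 := rep_macF hκ l3 (hX (i, 3)) (hY (3, j)) r3 (h i 3) (h' 3 j)
  have e : (M * M') i j = 0 + M i 0 * M' 0 j + M i 1 * M' 1 j + M i 2 * M' 2 j +
      M i 3 * M' 3 j := by
    rw [Matrix.mul_apply, Fin.sum_univ_four]; ring
  rw [e]
  exact r4

theorem rep_prodF {κ₀ : ℕ} (hκ : 4 ≤ κ₀) {tp : Tm → List Bool}
    (hW : ∀ t, (tp t).length = 2 ^ κ₀) {x y z : ℤ} (htp : ∀ t, Rep (tp t) (tvg x y z t))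
    {c : ℕ} (hc : ∀ l i, ∑ j, |LMg x y z (some l) i j| ≤ 2 ^ c) (hcb : c + 2 ≤ 2 ^ κ₀) (d : ℕ)
    (w : List Letter) (i j : Fin 4) :
    Rep (prodF κ₀ tp d w (i, j)) (PMg x y z (w.take (2 ^ d)) i j) := by
  induction d generalizing w i j with
  | zero =>
    have : PMg x y z (w.take (2 ^ 0)) = LMg x y z w.head? := by
      cases w with
      | nil => simp [PMg, LMg_none]
      | cons l w =>
        show (([l] : List Letter).map fun l => LMg x y z (some l)).prod = _
        simp
    rw [this]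
    exact htp _
  | succ d ih =>
    have hbound : ∀ (w' : List Letter) i j, w'.length ≤ 2 ^ d →
        |PMg x y z w' i j| < 2 ^ (2 ^ (κ₀ + d) - 1) := by
      intro w' i j hw'
      have h1 := rs_prod (x := x) (y := y) (z := z) (A := 2 ^ c) (one_le_pow₀ (by norm_num))
        hc w' i
      have h2 : |PMg x y z w' i j| ≤ ∑ j, |PMg x y z w' i j| :=
        Finset.single_le_sum (f := fun j => |PMg x y z w' i j|) (fun j _ => abs_nonneg _)
          (Finset.mem_univ j)
      refine lt_of_le_of_lt (h2.trans h1) ?_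
      rw [← pow_mul]
      refine pow_lt_pow_right₀ (by norm_num) ?_
      have h3 : c * w'.length ≤ c * 2 ^ d := Nat.mul_le_mul_left _ hw'
      have h4 : (c + 2) * 2 ^ d ≤ 2 ^ κ₀ * 2 ^ d := Nat.mul_le_mul_right _ hcb
      have h5 : 1 ≤ 2 ^ d := Nat.one_le_two_pow
      rw [pow_add]
      rw [add_mul] at h4
      omega
    have hl := fun w => prodF_length hκ hW d w
    have e2 : 2 ^ (κ₀ + (d + 1)) = 2 * 2 ^ (κ₀ + d) := by rw [← add_assoc, pow_succ, mul_comm]
    have hsplit : PMg x y z (w.take (2 ^ (d + 1))) = PMg x y z (w.take (2 ^ d)) *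
        PMg x y z ((w.drop (2 ^ d)).take (2 ^ d)) := by
      rw [PMg, PMg, PMg, ← List.prod_append, ← List.map_append, pow_succ, mul_two,
        List.take_add]
    rw [hsplit]
    refine rep_matF (by omega) (fun p => by rw [sext_length, hl, e2])
      (fun p => by rw [sext_length, hl, e2]) (fun i j => ?_) (fun i j => ?_) i j
    · refine rep_sext (by rw [hl]; positivity) (ih w i j) ?_
      rw [hl]
      exact hbound _ _ _ (by rw [List.length_take]; omega)
    · refine rep_sext (by rw [hl]; positivity) (ih (w.drop (2 ^ d)) i j) ?_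
      rw [hl]
      exact hbound _ _ _ (by rw [List.length_take]; omega)

end Pool.Agent.Helper62
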