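import Mathlib
import Pool.Agent.Helper62.Rep2

/-!
The polynomial of a word, its degree and the size of its coefficients.
-/

set_option autoImplicit false
set_option linter.unusedSectionVars false

namespace Pool.Agent.Helper62

open MvPolynomial

abbrev S3 := MvPolynomial (Fin 3) ℤ

/-- the polynomial matrix of a word -/
noncomputable def PX (w : List Letter) : Matrix (Fin 4) (Fin 4) S3 := PMg (X 0) (X 1) (X 2) w

noncomputable def frP (w : List Letter) : S3 := PX w 0 0 + PX w 2 2

theorem tvg_map {R T : Type} [CommRing R] [CommRing T] (φ : R →+* T) (x y z : R) (t : Tm) :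
    φ (tvg x y z t) = tvg (φ x) (φ y) (φ z) t := by
  cases t <;> simp [tvg]

theorem LMg_map {R T : Type} [CommRing R] [CommRing T] (φ : R →+* T) (x y z : R)
    (l : Option Letter) : φ.mapMatrix (LMg x y z l) = LMg (φ x) (φ y) (φ z) l := by
  ext i j
  simp only [RingHom.mapMatrix_apply, LMg, Matrix.map_apply, tvg_map]

theorem PMg_map {R T : Type} [CommRing R] [CommRing T] (φ : R →+* T) (x y z : R)
    (w : List Letter) : φ.mapMatrix (PMg x y z w) = PMg (φ x) (φ y) (φ z) w := by
  unfold PMg
  rw [map_list_prod, List.map_map]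
  congr 1
  refine List.map_congr_left fun l _ => ?_
  exact LMg_map φ x y z (some l)

theorem frP_map {T : Type} [CommRing T] (φ : S3 →+* T) (w : List Letter) :
    φ (frP w) = PMg (φ (X 0)) (φ (X 1)) (φ (X 2)) w 0 0 +
      PMg (φ (X 0)) (φ (X 1)) (φ (X 2)) w 2 2 := by
  rw [frP, map_add, PX, ← PMg_map]
  rfl

/-! degrees -/

theorem tvg_totalDegree (t : Tm) : (tvg (X 0 : S3) (X 1) (X 2) t).totalDegree ≤ 1 := by
  cases t with
  | O => simp [tvg]
  | I => simp [tvg]
  | NI => simp only [tvg, totalDegree_neg]; simp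
  | X => simp only [tvg]; exact (totalDegree_X (0 : Fin 3)).le
  | Y => simp only [tvg]; exact (totalDegree_X (1 : Fin 3)).le
  | Z => simp only [tvg]; exact (totalDegree_X (2 : Fin 3)).le
  | NZ => simp only [tvg, totalDegree_neg]; exact (totalDegree_X (2 : Fin 3)).le

theorem PX_totalDegree (w : List Letter) (i j : Fin 4) : (PX w i j).totalDegree ≤ w.length := by
  induction w generalizing i j with
  | nil =>
    simp only [PX, PMg, List.map_nil, List.prod_nil, Matrix.one_apply]
    split_ifs <;> simp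
  | cons l w ih =>
    have : PX (l :: w) = LMg (X 0) (X 1) (X 2) (some l) * PX w := by simp [PX, PMg]
    rw [this, Matrix.mul_apply, List.length_cons]
    refine totalDegree_finsetSum_le fun k _ => ?_
    refine (totalDegree_mul _ _).trans ?_
    have h1 := tvg_totalDegree (leafM (some l) i k)
    have h2 := ih k j
    show (tvg (X 0 : S3) (X 1) (X 2) (leafM (some l) i k)).totalDegree + _ ≤ _
    omega

theorem frP_totalDegree (w : List Letter) : (frP w).totalDegree ≤ w.length :=
  (totalDegree_add _ _).trans (max_le (PX_totalDegree _ _ _) (PX_totalDegree _ _ _))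

/-! size of the coefficients -/

/-- sum of the absolute values of the coefficients -/
noncomputable def nrm (p : S3) : ℤ := ∑ m ∈ p.support, |coeff m p|

theorem nrm_eq {p : S3} {s : Finset (Fin 3 →₀ ℕ)} (h : p.support ⊆ s) :
    nrm p = ∑ m ∈ s, |coeff m p| := by
  refine Finset.sum_subset h fun m _ hm => ?_
  rw [notMem_support_iff.1 hm, abs_zero]

theorem nrm_nonneg (p : S3) : 0 ≤ nrm p := Finset.sum_nonneg fun _ _ => abs_nonneg _

theorem nrm_zero : nrm 0 = 0 := by simp [nrm]

theorem nrm_add (p q : S3) : nrm (p + q) ≤ nrm p + nrm q := by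
  classical
  rw [nrm_eq (s := p.support ∪ q.support) (support_add),
    nrm_eq (s := p.support ∪ q.support) (p := p) Finset.subset_union_left,
    nrm_eq (s := p.support ∪ q.support) (p := q) Finset.subset_union_right,
    ← Finset.sum_add_distrib]
  refine Finset.sum_le_sum fun m _ => ?_
  rw [coeff_add]
  exact abs_add_le _ _

theorem nrm_sum {ι : Type} (s : Finset ι) (f : ι → S3) :
    nrm (∑ i ∈ s, f i) ≤ ∑ i ∈ s, nrm (f i) := by
  classical
  induction s using Finset.induction_on with
  | empty => simp [nrm_zero]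
  | insert a s ha ih =>
    rw [Finset.sum_insert ha, Finset.sum_insert ha]
    exact (nrm_add _ _).trans (by linarith)

theorem nrm_monomial (m : Fin 3 →₀ ℕ) (c : ℤ) : nrm (monomial m c) = |c| := by
  classical
  rw [nrm_eq (s := {m}) (support_monomial_subset)]
  simp

theorem nrm_mul (p q : S3) : nrm (p * q) ≤ nrm p * nrm q := by
  have e : p * q = ∑ a ∈ p.support, ∑ b ∈ q.support,
      monomial (a + b) (coeff a p * coeff b q) := by
    conv_lhs => rw [p.as_sum, q.as_sum, Finset.sum_mul_sum]
    exact Finset.sum_congr rfl fun a _ => Finset.sum_congr rfl fun b _ => by rw [monomial_mul]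
  rw [e]
  refine (nrm_sum _ _).trans ?_
  rw [nrm, nrm, Finset.sum_mul_sum]
  refine Finset.sum_le_sum fun a _ => (nrm_sum _ _).trans ?_
  refine Finset.sum_le_sum fun b _ => ?_
  rw [nrm_monomial, abs_mul]

theorem abs_coeff_le (p : S3) (m : Fin 3 →₀ ℕ) : |coeff m p| ≤ nrm p := by
  by_cases h : m ∈ p.support
  · exact Finset.single_le_sum (f := fun m => |coeff m p|) (fun _ _ => abs_nonneg _) h
  · rw [notMem_support_iff.1 h, abs_zero]
    exact nrm_nonneg p

theorem nrm_neg (p : S3) : nrm (-p) = nrm p := by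
  simp [nrm, support_neg]

theorem nrm_one : nrm 1 = 1 := by
  have := nrm_monomial 0 1
  simpa using this

theorem nrm_X (i : Fin 3) : nrm (X i) = 1 := by
  have := nrm_monomial (Finsupp.single i 1) 1
  simpa [X] using this

theorem nrm_tvg (t : Tm) : nrm (tvg (X 0 : S3) (X 1) (X 2) t) = if t = .O then 0 else 1 := by
  cases t <;> simp [tvg, nrm_zero, nrm_one, nrm_X, nrm_neg]

theorem nrm_LM (l : Letter) (i : Fin 4) :
    ∑ j, nrm (LMg (X 0 : S3) (X 1) (X 2) (some l) i j) ≤ 3 := by
  have : ∀ j, nrm (LMg (X 0 : S3) (X 1) (X 2) (some l) i j) =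
      if leafM (some l) i j = .O then 0 else 1 := fun j => nrm_tvg _
  simp only [this]
  cases l <;> fin_cases i <;> simp [Fin.sum_univ_four, leafM]

theorem rs_aux (a : Fin 4 → ℤ) (b : Fin 4 → Fin 4 → ℤ) (A B : ℤ) (ha : ∀ k, 0 ≤ a k)
    (hb : ∀ k, ∑ j, b k j ≤ B) (hB : 0 ≤ B) (hA : ∑ k, a k ≤ A) :
    ∑ j, ∑ k, a k * b k j ≤ A * B := by
  calc ∑ j, ∑ k, a k * b k j = ∑ k, a k * ∑ j, b k j := by
        rw [Finset.sum_comm]
        exact Finset.sum_congr rfl fun k _ => by rw [Finset.mul_sum]
    _ ≤ ∑ k, a k * B := Finset.sum_le_sum fun k _ => mul_le_mul_of_nonneg_left (hb k) (ha k)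
    _ = (∑ k, a k) * B := by rw [Finset.sum_mul]
    _ ≤ A * B := mul_le_mul_of_nonneg_right hA hB

theorem nrm_mulM (M M' : Matrix (Fin 4) (Fin 4) S3) (i j : Fin 4) :
    nrm ((M * M') i j) ≤ ∑ k, nrm (M i k) * nrm (M' k j) := by
  rw [Matrix.mul_apply]
  exact (nrm_sum _ _).trans (Finset.sum_le_sum fun k _ => nrm_mul _ _)

theorem nrm_oneM (i : Fin 4) : ∑ j, nrm ((1 : Matrix (Fin 4) (Fin 4) S3) i j) = 1 := by
  have : ∀ j, nrm ((1 : Matrix (Fin 4) (Fin 4) S3) i j) = if i = j then 1 else 0 := fun j => by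
    rw [Matrix.one_apply]
    split_ifs
    · exact nrm_one
    · exact nrm_zero
  rw [Finset.sum_congr rfl fun j _ => this j]
  simp

theorem nrm_rs (w : List Letter) (i : Fin 4) : ∑ j, nrm (PX w i j) ≤ (3 : ℤ) ^ w.length := by
  induction w generalizing i with
  | nil => exact (nrm_oneM i).le
  | cons l w ih =>
    have e : PX (l :: w) = LMg (X 0) (X 1) (X 2) (some l) * PX w := by
      rw [PX, PX, PMg, PMg, List.map_cons, List.prod_cons]
    rw [e, List.length_cons, pow_succ, mul_comm ((3 : ℤ) ^ _)]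
    exact (Finset.sum_le_sum fun j _ => nrm_mulM _ _ i j).trans
      (rs_aux (fun k => nrm (LMg (X 0) (X 1) (X 2) (some l) i k)) (fun k j => nrm (PX w k j)) 3
        ((3 : ℤ) ^ w.length) (fun k => nrm_nonneg _) (fun k => ih k) (by positivity) (nrm_LM l i))

theorem frP_coeff (w : List Letter) (m : Fin 3 →₀ ℕ) :
    |coeff m (frP w)| ≤ 2 * 3 ^ w.length := by
  have h : ∀ i : Fin 4, |coeff m (PX w i i)| ≤ 3 ^ w.length := fun i =>
    (abs_coeff_le _ _).trans ((Finset.single_le_sum (f := fun j => nrm (PX w i j))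
      (fun _ _ => nrm_nonneg _) (Finset.mem_univ i)).trans (nrm_rs w i))
  rw [frP, coeff_add]
  refine (abs_add_le _ _).trans ?_
  linarith [h 0, h 2]

end Pool.Agent.Helper62
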