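import Mathlib
import Pool.Agent.Helper62.Poly

/-!
The trace identity and the uniqueness of the Fricke polynomial.
-/

set_option autoImplicit false
set_option linter.unusedSectionVars false

namespace Pool.Agent.Helper62

open MvPolynomial

section alg

variable {R T : Type} [CommRing R] [Ring T] [Algebra R T]

/-- evaluation of a letter in an algebra -/
def lev (a a' b b' : T) : Letter → T
  | .a => a
  | .ai => a'
  | .b => b
  | .bi => b'

/-- coefficients with respect to `1, a, b, ab` -/
structure V4 (R : Type) where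
  c0 : R
  c1 : R
  c2 : R
  c3 : R

def V4.toT (v : V4 R) (a b : T) : T := v.c0 • 1 + v.c1 • a + v.c2 • b + v.c3 • (a * b)

/-- left multiplication by a letter -/
def V4.step (x y z : R) (v : V4 R) : Letter → V4 R
  | .a => ⟨-v.c1, v.c0 + x * v.c1, -v.c3, v.c2 + x * v.c3⟩
  | .ai => ⟨x * v.c0 + v.c1, x * v.c1 - (v.c0 + x * v.c1), x * v.c2 + v.c3,
      x * v.c3 - (v.c2 + x * v.c3)⟩
  | .b => ⟨v.c1 * (z - x * y) - v.c2 - v.c3 * x, v.c1 * y + v.c3,
      v.c0 + v.c1 * x + v.c2 * y + v.c3 * z, -v.c1⟩
  | .bi => ⟨y * v.c0 - (v.c1 * (z - x * y) - v.c2 - v.c3 * x), y * v.c1 - (v.c1 * y + v.c3),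
      y * v.c2 - (v.c0 + v.c1 * x + v.c2 * y + v.c3 * z), y * v.c3 + v.c1⟩

/-- the relations -/
structure Rels (x y z : R) (a a' b b' : T) : Prop where
  ha : a * a' = 1
  hb : b * b' = 1
  hx : a + a' = x • (1 : T)
  hy : b + b' = y • (1 : T)
  hz : a * b + b' * a' = z • (1 : T)

theorem step_toT {a a' b b' : T} {x y z : R} (h : Rels x y z a a' b b') (v : V4 R) (l : Letter) :
    lev a a' b b' l * v.toT a b = (v.step x y z l).toT a b := by
  obtain ⟨ha, hb, hx, hy, hz⟩ := h
  have ha' : a' = x • (1 : T) - a := by rw [← hx]; abel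
  have hb' : b' = y • (1 : T) - b := by rw [← hy]; abel
  have haa : a * a = x • a - 1 := by
    have h := ha
    rw [ha', mul_sub, mul_smul_comm, mul_one] at h
    rw [← h]; abel
  have hbb : b * b = y • b - 1 := by
    have h := hb
    rw [hb', mul_sub, mul_smul_comm, mul_one] at h
    rw [← h]; abel
  have hba : b * a = z • (1 : T) - (x * y) • (1 : T) + y • a + x • b - a * b := by
    have h := hz
    rw [ha', hb', sub_mul, mul_sub, mul_sub, mul_smul_comm, mul_one, mul_smul_comm, mul_one,
      smul_mul_assoc, one_mul] at h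
    rw [← h, smul_smul]
    module
  have haab : a * (a * b) = x • (a * b) - b := by
    rw [← mul_assoc, haa, sub_mul, smul_mul_assoc, one_mul]
  have hbab : b * (a * b) = z • b - x • (1 : T) + a := by
    have h1 : a * (b * b) = y • (a * b) - a := by
      rw [hbb, mul_sub, mul_smul_comm, mul_one]
    rw [← mul_assoc, hba, sub_mul, add_mul, add_mul, sub_mul, smul_mul_assoc, smul_mul_assoc,
      smul_mul_assoc, smul_mul_assoc, one_mul, hbb, mul_assoc a b b, h1]
    module
  have stA : a * v.toT a b = (v.step x y z .a).toT a b := by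
    simp only [V4.toT, V4.step, mul_add, mul_smul_comm, mul_one, haa, haab]
    module
  have stB : b * v.toT a b = (v.step x y z .b).toT a b := by
    simp only [V4.toT, V4.step, mul_add, mul_smul_comm, mul_one, hba, hbb, hbab]
    module
  cases l with
  | a => exact stA
  | ai =>
    show a' * v.toT a b = _
    rw [ha', sub_mul, stA, smul_mul_assoc, one_mul]
    simp only [V4.toT, V4.step]
    module
  | b => exact stB
  | bi =>
    show b' * v.toT a b = _
    rw [hb', sub_mul, stB, smul_mul_assoc, one_mul]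
    simp only [V4.toT, V4.step]
    module

/-- coefficients of a word -/
def cvec (x y z : R) : List Letter → V4 R
  | [] => ⟨1, 0, 0, 0⟩
  | l :: w => (cvec x y z w).step x y z l

theorem cvec_toT {a a' b b' : T} {x y z : R} (h : Rels x y z a a' b b') (w : List Letter) :
    (w.map (lev a a' b b')).prod = (cvec x y z w).toT a b := by
  induction w with
  | nil => simp [cvec, V4.toT]
  | cons l w ih => rw [List.map_cons, List.prod_cons, ih, step_toT h, cvec]

theorem word_functional {a a' b b' : T} {x y z : R} (h : Rels x y z a a' b b')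
    (φ : T →ₗ[R] R) (h1 : φ 1 = 2) (ha : φ a = x) (hb : φ b = y) (hab : φ (a * b) = z)
    (w : List Letter) : φ ((w.map (lev a a' b b')).prod) =
      2 * (cvec x y z w).c0 + x * (cvec x y z w).c1 + y * (cvec x y z w).c2 +
        z * (cvec x y z w).c3 := by
  rw [cvec_toT h, V4.toT]
  simp only [map_add, map_smul, smul_eq_mul, h1, ha, hb, hab]
  ring

end alg

/-! the four by four matrices -/

theorem rels4 {R : Type} [CommRing R] (x y z : R) :
    Rels x y z (LMg x y z (some .a)) (LMg x y z (some .ai)) (LMg x y z (some .b))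
      (LMg x y z (some .bi)) := by
  constructor
  · ext i j
    fin_cases i <;> fin_cases j <;>
      simp [LMg, leafM, tvg, Matrix.mul_apply, Fin.sum_univ_four, Matrix.one_apply]
  · ext i j
    fin_cases i <;> fin_cases j <;>
      simp [LMg, leafM, tvg, Matrix.mul_apply, Fin.sum_univ_four, Matrix.one_apply] <;> ring
  · ext i j
    fin_cases i <;> fin_cases j <;>
      simp [LMg, leafM, tvg, Matrix.one_apply]
  · ext i j
    fin_cases i <;> fin_cases j <;>
      simp [LMg, leafM, tvg, Matrix.one_apply]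
  · ext i j
    fin_cases i <;> fin_cases j <;>
      simp [LMg, leafM, tvg, Matrix.mul_apply, Fin.sum_univ_four, Matrix.one_apply] <;> ring

/-- sum of two diagonal entries -/
def phi4 (R : Type) [CommRing R] : Matrix (Fin 4) (Fin 4) R →ₗ[R] R where
  toFun M := M 0 0 + M 2 2
  map_add' M N := by simp only [Matrix.add_apply]; ring
  map_smul' c M := by simp only [Matrix.smul_apply, smul_eq_mul, RingHom.id_apply]; ring

theorem PMg_functional {R : Type} [CommRing R] (x y z : R) (w : List Letter) :
    PMg x y z w 0 0 + PMg x y z w 2 2 =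
      2 * (cvec x y z w).c0 + x * (cvec x y z w).c1 + y * (cvec x y z w).c2 +
        z * (cvec x y z w).c3 := by
  have h := word_functional (rels4 x y z) (phi4 R)
    (by simp [phi4]; norm_num) (by simp [phi4, LMg, leafM, tvg])
    (by simp [phi4, LMg, leafM, tvg])
    (by simp [phi4, LMg, leafM, tvg, Matrix.mul_apply, Fin.sum_univ_four]) w
  rw [← h]
  have : (w.map (lev (LMg x y z (some .a)) (LMg x y z (some .ai)) (LMg x y z (some .b))
      (LMg x y z (some .bi)))) = w.map fun l => LMg x y z (some l) := by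
    refine List.map_congr_left fun l _ => ?_
    cases l <;> rfl
  rw [this]
  rfl

/-! two by two matrices -/

theorem sl2_add_inv (M : SL2C) : M.1 + (M⁻¹).1 = M.1.trace • (1 : Matrix (Fin 2) (Fin 2) ℂ) := by
  rw [Matrix.SpecialLinearGroup.coe_inv, Matrix.adjugate_fin_two, Matrix.trace_fin_two]
  ext i j
  fin_cases i <;> fin_cases j <;> simp <;> ring

theorem rels2 (A B : SL2C) :
    Rels A.1.trace B.1.trace (A * B).1.trace A.1 (A⁻¹).1 B.1 (B⁻¹).1 := by
  constructor
  · rw [← Matrix.SpecialLinearGroup.coe_mul, mul_inv_cancel]; rfl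
  · rw [← Matrix.SpecialLinearGroup.coe_mul, mul_inv_cancel]; rfl
  · exact sl2_add_inv A
  · exact sl2_add_inv B
  · rw [← sl2_add_inv (A * B), ← Matrix.SpecialLinearGroup.coe_mul,
      ← Matrix.SpecialLinearGroup.coe_mul, mul_inv_rev]

theorem wordEval_trace (A B : SL2C) (w : List Letter) :
    (wordEval A B w).1.trace = PMg A.1.trace B.1.trace (A * B).1.trace w 0 0 +
      PMg A.1.trace B.1.trace (A * B).1.trace w 2 2 := by
  have h := word_functional (rels2 A B) (Matrix.traceLinearMap (Fin 2) ℂ ℂ)
    (by simp) rfl rfl (by rw [← Matrix.SpecialLinearGroup.coe_mul]; rfl) w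
  rw [PMg_functional, ← h]
  have e : ∀ w : List Letter, (wordEval A B w).1 = (w.map (lev A.1 (A⁻¹).1 B.1 (B⁻¹).1)).prod := by
    intro w
    induction w with
    | nil => rfl
    | cons l w ih =>
      have : wordEval A B (l :: w) = l.eval A B * wordEval A B w := by simp [wordEval]
      rw [this, Matrix.SpecialLinearGroup.coe_mul, ih, List.map_cons, List.prod_cons]
      cases l <;> rfl
  rw [e]
  rfl

theorem isFricke_frP (w : List Letter) : IsFricke w (frP w) := by
  intro A B
  rw [wordEval_trace]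
  have h := frP_map (aeval (R := ℤ) ![A.1.trace, B.1.trace, (A * B).1.trace] : S3 →ₐ[ℤ] ℂ).toRingHom w
  simp only [AlgHom.toRingHom_eq_coe, RingHom.coe_coe, aeval_X] at h
  rw [h]
  rfl

theorem exists_sl2 (x y z : ℂ) : ∃ A B : SL2C, A.1.trace = x ∧ B.1.trace = y ∧
    (A * B).1.trace = z := by
  obtain ⟨ζ, hζ⟩ : ∃ ζ : ℂ, ζ * ζ - z * ζ + 1 = 0 := by
    obtain ⟨s, hs⟩ := IsAlgClosed.exists_pow_nat_eq (z ^ 2 - 4) (n := 2) (by norm_num)
    exact ⟨(z + s) / 2, by linear_combination hs / 4⟩
  have hζ0 : ζ ≠ 0 := by rintro rfl; simp at hζ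
  have hζz : ζ + ζ⁻¹ = z := by
    field_simp
    linear_combination hζ
  refine ⟨⟨!![x, -1; 1, 0], by simp [Matrix.det_fin_two]⟩,
    ⟨!![0, ζ; -ζ⁻¹, y], by simp [Matrix.det_fin_two, hζ0]⟩, ?_, ?_, ?_⟩
  · simp [Matrix.trace_fin_two]
  · simp [Matrix.trace_fin_two]
  · rw [Matrix.SpecialLinearGroup.coe_mul, Matrix.trace_fin_two]
    simp [Matrix.mul_apply, Fin.sum_univ_two]
    rw [← hζz]; ring

theorem fricke_unique {w : List Letter} {f g : S3} (hf : IsFricke w f) (hg : IsFricke w g) :
    f = g := by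
  refine MvPolynomial.map_injective (Int.castRingHom ℂ) Int.cast_injective ?_
  refine MvPolynomial.funext fun v => ?_
  obtain ⟨A, B, hA, hB, hAB⟩ := exists_sl2 (v 0) (v 1) (v 2)
  have h := (hf A B).symm.trans (hg A B)
  rw [hA, hB, hAB] at h
  have hv : ![v 0, v 1, v 2] = v := by
    funext i; fin_cases i <;> rfl
  rw [hv, aeval_def, aeval_def, eval₂_eq_eval_map, eval₂_eq_eval_map] at h
  exact h

end Pool.Agent.Helper62
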