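import Mathlib
import Pool.Agent.Helper62.Fricke

/-!
Correctness of the extraction of signed digits.
-/

set_option autoImplicit false
set_option linter.unusedSectionVars false

namespace Pool.Agent.Helper62

/-- encoding of an integer with working symbols -/
def encS (c : ℤ) : List Sym :=
  (if c < 0 then .e else .d) :: (Nat.bits c.natAbs).map bit

theorem stripF_cons (b : Bool) (l : List Bool) :
    stripF (b :: l) = if stripF l = [] then (if b then [true] else []) else b :: stripF l := by
  unfold stripF
  rw [List.reverse_cons, List.dropWhile_append]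
  by_cases h : (l.reverse.dropWhile fun b => !b) = []
  · rw [h]
    cases b <;> simp
  · have h2 : (l.reverse.dropWhile fun b => !b).isEmpty = false := by
      simpa using h
    rw [h2]
    simp [h]

theorem stripF_bits (l : List Bool) : stripF l = (val l).bits := by
  induction l with
  | nil => simp [stripF, val]
  | cons b l ih =>
    rw [stripF_cons, ih]
    simp only [val]
    by_cases h0 : val l = 0
    · rw [h0]
      cases b <;> simp
    · have hne : (val l).bits ≠ [] := by
        intro h
        have := congrArg (fun l => l.length) h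
        simp only [List.length_nil] at this
        rw [Nat.size_eq_bits_len] at this
        exact h0 (Nat.size_eq_zero.1 this)
      rw [if_neg hne]
      have h1 : b.toNat + 2 * val l = Nat.bit b (val l) := by
        cases b <;> simp [Nat.bit] <;> ring
      rw [h1, Nat.bits_append_bit _ _ (fun h => absurd h h0)]

theorem val_incF (g : Bool) (l : List Bool) :
    ∃ q : Bool, val (incF g l) + 2 ^ l.length * q.toNat = val l + g.toNat := by
  induction l generalizing g with
  | nil => exact ⟨g, by simp [incF, val]⟩
  | cons x xs ih =>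
    obtain ⟨q, hq⟩ := ih (g && x)
    refine ⟨q, ?_⟩
    simp only [incF, val, List.length_cons, pow_succ]
    cases g <;> cases x <;> simp only [Bool.toNat_true, Bool.toNat_false, Bool.and_true,
      Bool.and_false, Bool.false_and, Bool.true_and, Bool.xor_true, Bool.xor_false,
      Bool.not_true, Bool.not_false] at hq ⊢ <;> nlinarith

/-- top bit of a nonempty list -/
theorem top_bit {l : List Bool} (hl : l ≠ []) :
    val l = val (l.take (l.length - 1)) + 2 ^ (l.length - 1) * (l.getLastD false).toNat ∧
    val (l.take (l.length - 1)) < 2 ^ (l.length - 1) := by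
  obtain ⟨l', b, rfl⟩ : ∃ l' b, l = l' ++ [b] :=
    ⟨l.dropLast, l.getLast hl, (List.dropLast_append_getLast hl).symm⟩
  simp only [List.length_append, List.length_singleton, Nat.add_sub_cancel, List.take_left']
  refine ⟨?_, val_lt _⟩
  rw [val_append]
  simp [val]

/-- the written symbols represent the signed digit -/
theorem emitF_correct {β : ℕ} (hβ : 2 ≤ β) {g : Bool} {ch : List Bool} (hch : ch.length = β)
    {c : ℤ} (hc : 2 * |c| < 2 ^ β) (hmod : (2 ^ β : ℤ) ∣ c - (val ch + g.toNat)) :
    emitF g ch = encS c := by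
  set D := incF g ch with hD
  have hDl : D.length = β := by rw [hD, incF_length, hch]
  have hDne : D ≠ [] := by intro h; rw [h] at hDl; simp at hDl; omega
  obtain ⟨q, hq⟩ := val_incF g ch
  rw [← hD, hch] at hq
  have hq' : (val D : ℤ) + 2 ^ β * q.toNat = val ch + g.toNat := by exact_mod_cast hq
  obtain ⟨t, ht⟩ := hmod
  have hDc : c = val D + 2 ^ β * (q.toNat + t) := by linear_combination ht - hq'
  obtain ⟨htop, htl⟩ := top_bit hDne
  rw [hDl] at htop htl
  have hDlt : (val D : ℤ) < 2 ^ β := by
    have := val_lt D
    rw [hDl] at this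
    exact_mod_cast this
  have hD0 : (0 : ℤ) ≤ val D := Int.natCast_nonneg _
  obtain ⟨k, rfl⟩ : ∃ k, β = k + 1 := ⟨β - 1, by omega⟩
  rw [Nat.add_sub_cancel] at htop htl
  have hP : (2 : ℤ) ^ (k + 1) = 2 * 2 ^ k := by rw [pow_succ]; ring
  have hPpos : (0 : ℤ) < 2 ^ k := by positivity
  rw [hP] at hDc hDlt hc
  have hc' : |c| < 2 ^ k := by linarith
  rw [abs_lt] at hc'
  generalize hs : (q.toNat : ℤ) + t = s at hDc
  have htop' : (val D : ℤ) = val (D.take k) + 2 ^ k * (D.getLastD false).toNat := by
    exact_mod_cast htop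
  have htl' : (val (D.take k) : ℤ) < 2 ^ k := by exact_mod_cast htl
  have ht0 : (0 : ℤ) ≤ val (D.take k) := Int.natCast_nonneg _
  unfold emitF encS
  rw [← hD]
  by_cases hneg : c < 0
  · have hs1 : s = -1 := by
      by_contra hne
      rcases lt_or_gt_of_ne hne with h | h
      · have : s ≤ -2 := by omega
        nlinarith
      · have : 0 ≤ s := by omega
        nlinarith
    rw [hs1] at hDc
    have hlast : D.getLastD false = true := by
      cases h : D.getLastD false
      · rw [h] at htop'
        simp only [Bool.toNat_false] at htop'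
        push_cast at htop'
        linarith
      · rfl
    rw [hlast, if_pos rfl, if_pos hneg, stripF_bits]
    obtain ⟨_, r, hr⟩ := val_negB D
    rw [hDl] at hr
    have hr' : (val (negB false D) : ℤ) + val D = 2 * 2 ^ k * r := by
      rw [← hP]; exact_mod_cast hr
    have hnlt : (val (negB false D) : ℤ) < 2 * 2 ^ k := by
      have := val_lt (negB false D)
      rw [negB_length, hDl] at this
      rw [← hP]; exact_mod_cast this
    have hn0 : (0 : ℤ) ≤ val (negB false D) := Int.natCast_nonneg _
    have hr1 : r = 1 := by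
      have hDpos : (0 : ℤ) < val D := by linarith
      by_contra hne
      rcases Nat.lt_or_gt_of_ne hne with h | h
      · have : r = 0 := by omega
        rw [this] at hr'
        simp at hr'
        linarith
      · have : (2 : ℤ) ≤ r := by exact_mod_cast h
        nlinarith
    rw [hr1] at hr'
    have : c.natAbs = val (negB false D) := by
      have : (c.natAbs : ℤ) = val (negB false D) := by
        rw [Int.natCast_natAbs, abs_of_neg hneg]
        push_cast at hr'
        linarith
      exact_mod_cast this
    rw [this]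
  · have hs1 : s = 0 := by
      by_contra hne
      rcases lt_or_gt_of_ne hne with h | h
      · have : s ≤ -1 := by omega
        nlinarith
      · have : 1 ≤ s := by omega
        nlinarith
    rw [hs1] at hDc
    have hlast : D.getLastD false = false := by
      cases h : D.getLastD false
      · rfl
      · rw [h] at htop'
        simp only [Bool.toNat_true] at htop'
        push_cast at htop'
        linarith
    rw [hlast, if_neg (by simp), if_neg hneg, stripF_bits]
    have : c.natAbs = val D := by
      have : (c.natAbs : ℤ) = val D := by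
        rw [Int.natCast_natAbs, abs_of_nonneg (by omega)]
        linarith
      exact_mod_cast this
    rw [this]

/-- partial sums -/
def psum (β : ℕ) (c : ℕ → ℤ) (e : ℕ) : ℤ := ∑ i ∈ Finset.range e, c i * 2 ^ (β * i)

theorem psum_bound {β : ℕ} {c : ℕ → ℤ} (hc : ∀ e, 2 * |c e| + 2 ≤ 2 ^ β) (e : ℕ) :
    2 * |psum β c e| < 2 ^ (β * e) := by
  induction e with
  | zero => simp [psum]
  | succ e ih =>
    have h1 : psum β c (e + 1) = psum β c e + c e * 2 ^ (β * e) := by
      rw [psum, Finset.sum_range_succ]; rfl
    have h2 : |psum β c (e + 1)| ≤ |psum β c e| + |c e| * 2 ^ (β * e) := by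
      rw [h1]
      refine (abs_add_le _ _).trans ?_
      rw [abs_mul, abs_of_pos (show (0 : ℤ) < 2 ^ (β * e) by positivity)]
    have h3 := hc e
    have hP : (0 : ℤ) < 2 ^ (β * e) := by positivity
    rw [mul_add β e 1, mul_one, pow_add]
    nlinarith

theorem psum_dvd {β : ℕ} {c : ℕ → ℤ} {e K : ℕ} (h : e ≤ K) :
    (2 ^ (β * e) : ℤ) ∣ psum β c K - psum β c e := by
  induction K, h using Nat.le_induction with
  | base => simp
  | succ K hK ih =>
    have h1 : psum β c (K + 1) = psum β c K + c K * 2 ^ (β * K) := by
      rw [psum, Finset.sum_range_succ]; rfl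
    rw [h1]
    have : (2 ^ (β * e) : ℤ) ∣ c K * 2 ^ (β * K) :=
      Dvd.dvd.mul_left (pow_dvd_pow 2 (Nat.mul_le_mul_left _ hK)) _
    have h2 := dvd_add ih this
    have h3 : psum β c K + c K * 2 ^ (β * K) - psum β c e =
        psum β c K - psum β c e + c K * 2 ^ (β * K) := by ring
    rw [h3]; exact h2

theorem cry_eq {V : List Bool} {p : ℕ} (hp : 0 < p) (hpV : p ≤ V.length) :
    (V.take p).getLastD false = cry V p := by
  obtain ⟨q, rfl⟩ : ∃ q, p = q + 1 := ⟨p - 1, by omega⟩
  have hq : q < V.length := by omega
  rw [List.take_succ_eq_append_getElem hq, List.getLastD_concat]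
  simp [cry, List.getD_eq_getElem?_getD, hq]

theorem psum_eq {β : ℕ} (hβ : 2 ≤ β) {K : ℕ} {V : List Bool} (hV : β * K ≤ V.length)
    {c : ℕ → ℤ} (hc : ∀ e, 2 * |c e| + 2 ≤ 2 ^ β)
    (hsum : (2 ^ (β * K) : ℤ) ∣ psum β c K - val V) {e : ℕ} (he : e ≤ K) :
    psum β c e = val (V.take (β * e)) - 2 ^ (β * e) * (cry V (β * e)).toNat := by
  rcases Nat.eq_zero_or_pos e with rfl | hpos
  · simp [psum, val, cry]
  have hle : β * e ≤ β * K := Nat.mul_le_mul_left _ he
  have hpe : 0 < β * e := by positivity
  have hdvd : (2 ^ (β * e) : ℤ) ∣ psum β c e - val (V.take (β * e)) := by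
    have h1 := psum_dvd (β := β) (c := c) he
    have h2 : (2 ^ (β * e) : ℤ) ∣ psum β c K - val V :=
      (pow_dvd_pow 2 hle).trans hsum
    have h3 : (2 ^ (β * e) : ℤ) ∣ (val V : ℤ) - val (V.take (β * e)) := by
      rw [val_take]
      push_cast
      exact Int.dvd_self_sub_emod
    have h4 := dvd_add (dvd_sub h2 h1) h3
    have h5 : psum β c e - (val (V.take (β * e)) : ℤ) = psum β c K - val V -
        (psum β c K - psum β c e) + ((val V : ℤ) - val (V.take (β * e))) := by ring
    rw [h5]; exact h4
  have hb := psum_bound hc e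
  have hlen : (V.take (β * e)).length = β * e := by rw [List.length_take]; omega
  have hne : V.take (β * e) ≠ [] := by
    intro h; rw [h] at hlen; simp at hlen; omega
  obtain ⟨htop, htl⟩ := top_bit hne
  rw [cry_eq hpe (by omega), hlen] at htop
  rw [hlen] at htl
  obtain ⟨k, hk⟩ : ∃ k, β * e = k + 1 := ⟨β * e - 1, by omega⟩
  rw [hk] at htop htl hb hdvd ⊢
  rw [Nat.add_sub_cancel] at htop htl
  have hP : (2 : ℤ) ^ (k + 1) = 2 * 2 ^ k := by rw [pow_succ]; ring
  have hPpos : (0 : ℤ) < 2 ^ k := by positivity
  rw [hP] at hb hdvd ⊢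
  obtain ⟨t, ht⟩ := hdvd
  have habs : |psum β c e| < 2 ^ k := by linarith
  rw [abs_lt] at habs
  have htop' : (val (V.take (k + 1)) : ℤ) = val ((V.take (k + 1)).take k) +
      2 ^ k * (cry V (k + 1)).toNat := by exact_mod_cast htop
  have htl' : (val ((V.take (k + 1)).take k) : ℤ) < 2 ^ k := by exact_mod_cast htl
  have ht0 : (0 : ℤ) ≤ val ((V.take (k + 1)).take k) := Int.natCast_nonneg _
  cases hcr : cry V (k + 1)
  · rw [hcr] at htop'
    simp only [Bool.toNat_false] at htop' ⊢
    push_cast at htop' ⊢
    have ht1 : t = 0 := by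
      by_contra hne
      rcases lt_or_gt_of_ne hne with h | h
      · have : t ≤ -1 := by omega
        nlinarith
      · have : 1 ≤ t := by omega
        nlinarith
    rw [ht1] at ht
    linarith
  · rw [hcr] at htop'
    simp only [Bool.toNat_true] at htop' ⊢
    push_cast at htop' ⊢
    have ht1 : t = -1 := by
      by_contra hne
      rcases lt_or_gt_of_ne hne with h | h
      · have : t ≤ -2 := by omega
        nlinarith
      · have : 0 ≤ t := by omega
        nlinarith
    rw [ht1] at ht
    linarith

theorem outAt_correct {β : ℕ} (hβ : 2 ≤ β) {K : ℕ} {V : List Bool} (hV : β * K ≤ V.length)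
    {c : ℕ → ℤ} (hc : ∀ e, 2 * |c e| + 2 ≤ 2 ^ β)
    (hsum : (2 ^ (β * K) : ℤ) ∣ psum β c K - val V) {e : ℕ} (he : e < K) :
    outAt β V (β * e) = encS (c e) := by
  have hle : β * (e + 1) ≤ β * K := Nat.mul_le_mul_left _ he
  have hmul : β * (e + 1) = β * e + β := by ring
  have hch : ((V.drop (β * e)).take β).length = β := by
    rw [List.length_take, List.length_drop]; omega
  refine emitF_correct hβ hch (by have := hc e; linarith) ?_
  have h1 := psum_eq hβ hV hc hsum (e := e) he.le
  have h2 := psum_eq hβ hV hc hsum (e := e + 1) he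
  have h3 : psum β c (e + 1) = psum β c e + c e * 2 ^ (β * e) := by
    rw [psum, Finset.sum_range_succ]; rfl
  have h4 : V.take (β * (e + 1)) = V.take (β * e) ++ (V.drop (β * e)).take β := by
    rw [hmul, List.take_add]
  have h5 : (val (V.take (β * (e + 1))) : ℤ) = val (V.take (β * e)) +
      2 ^ (β * e) * val ((V.drop (β * e)).take β) := by
    rw [h4, val_append, List.length_take, min_eq_left (by omega)]
    push_cast; ring
  have hP : (2 : ℤ) ^ (β * e) ≠ 0 := by positivity
  refine ⟨-((cry V (β * (e + 1))).toNat : ℤ), ?_⟩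
  have h6 : (2 : ℤ) ^ (β * (e + 1)) = 2 ^ (β * e) * 2 ^ β := by rw [hmul, pow_add]
  have h7 : (2 : ℤ) ^ (β * e) * (c e - (val ((V.drop (β * e)).take β) +
      (cry V (β * e)).toNat)) = 2 ^ (β * e) * (2 ^ β * -((cry V (β * (e + 1))).toNat : ℤ)) := by
    rw [h6] at h2
    linear_combination h2 - h1 - h3 + h5
  exact mul_left_cancel₀ hP h7

end Pool.Agent.Helper62
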