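import Mathlib
import Pool.Agent.Helper62.Digits

/-!
The output of the machine is the dense coefficient table.
-/

set_option autoImplicit false
set_option linter.unusedSectionVars false

namespace Pool.Agent.Helper62

open MvPolynomial

/-- exponent with a given index -/
noncomputable def phiE (N e : ℕ) : Fin 3 →₀ ℕ := expo (e / (N * N)) (e / N % N) (e % N)

theorem expo_apply (i j k : ℕ) : expo i j k 0 = i ∧ expo i j k 1 = j ∧ expo i j k 2 = k := by
  unfold expo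
  refine ⟨?_, ?_, ?_⟩ <;> simp [Finsupp.single_apply]

theorem expo_eta (d : Fin 3 →₀ ℕ) : expo (d 0) (d 1) (d 2) = d := by
  ext i
  obtain ⟨h0, h1, h2⟩ := expo_apply (d 0) (d 1) (d 2)
  fin_cases i
  · exact h0
  · exact h1
  · exact h2

theorem idx_split (N e : ℕ) : e = (e / (N * N)) * (N * N) + (e / N % N) * N + e % N := by
  have h1 := Nat.div_add_mod e N
  have h2 := Nat.div_add_mod (e / N) N
  rw [Nat.div_div_eq_div_mul] at h2
  calc e = N * (e / N) + e % N := h1.symm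
    _ = N * (N * (e / (N * N)) + e / N % N) + e % N := by rw [h2]
    _ = _ := by ring

theorem idx_join {N i j k : ℕ} (hj : j < N) (hk : k < N) :
    phiE N (i * (N * N) + j * N + k) = expo i j k := by
  have hN : 0 < N := by omega
  have h1 : (i * (N * N) + j * N + k) / N = i * N + j := by
    rw [show i * (N * N) + j * N + k = k + N * (i * N + j) by ring,
      Nat.add_mul_div_left _ _ hN, Nat.div_eq_of_lt hk, zero_add]
  have h2 : (i * (N * N) + j * N + k) % N = k := by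
    rw [show i * (N * N) + j * N + k = k + N * (i * N + j) by ring,
      Nat.add_mul_mod_self_left, Nat.mod_eq_of_lt hk]
  have h3 : (i * N + j) / N = i := by
    rw [show i * N + j = j + N * i by ring, Nat.add_mul_div_left _ _ hN, Nat.div_eq_of_lt hj,
      zero_add]
  have h4 : (i * N + j) % N = j := by
    rw [show i * N + j = j + N * i by ring, Nat.add_mul_mod_self_left, Nat.mod_eq_of_lt hj]
  unfold phiE
  rw [← Nat.div_div_eq_div_mul, h1, h2, h3, h4]

theorem phiE_inj (N : ℕ) : Function.Injective (phiE N) := by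
  intro e e' h
  obtain ⟨a0, a1, a2⟩ := expo_apply (e / (N * N)) (e / N % N) (e % N)
  obtain ⟨b0, b1, b2⟩ := expo_apply (e' / (N * N)) (e' / N % N) (e' % N)
  unfold phiE at h
  rw [h] at a0 a1 a2
  rw [idx_split N e, idx_split N e', ← a0, ← a1, ← a2, b0, b1, b2]

theorem eval_psum {N : ℕ} (p : S3) (hp : ∀ d ∈ p.support, ∀ i, d i < N) (t : ℤ) :
    eval ![t ^ (N * N), t ^ N, t] p =
      ∑ e ∈ Finset.range (N * N * N), coeff (phiE N e) p * t ^ e := by
  classical
  have hsub : p.support ⊆ (Finset.range (N * N * N)).image (phiE N) := by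
    intro d hd
    rw [Finset.mem_image]
    have h0 := hp d hd 0
    have h1 := hp d hd 1
    have h2 := hp d hd 2
    refine ⟨d 0 * (N * N) + d 1 * N + d 2, ?_, ?_⟩
    · rw [Finset.mem_range]
      obtain ⟨a, ha⟩ : ∃ a, N = d 0 + 1 + a := ⟨N - d 0 - 1, by omega⟩
      have h3 : (d 0 + 1) * (N * N) ≤ N * (N * N) := Nat.mul_le_mul_right _ h0
      have h4 : (d 1 + 1) * N ≤ N * N := Nat.mul_le_mul_right _ h1
      nlinarith
    · rw [idx_join h1 h2, expo_eta]
  rw [eval_eq']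
  rw [Finset.sum_subset hsub (fun d _ hd => by rw [notMem_support_iff.1 hd, zero_mul]),
    Finset.sum_image (fun a _ b _ h => phiE_inj N h)]
  refine Finset.sum_congr rfl fun e _ => ?_
  congr 1
  rw [Fin.prod_univ_three]
  obtain ⟨a0, a1, a2⟩ := expo_apply (e / (N * N)) (e / N % N) (e % N)
  unfold phiE
  rw [a0, a1, a2]
  simp only [Matrix.cons_val_zero, Matrix.cons_val_one, Matrix.cons_val]
  rw [← pow_mul, ← pow_mul, ← pow_add, ← pow_add]
  congr 1
  conv_rhs => rw [idx_split N e]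
  ring

theorem frP_exp_lt {w : List Letter} {N : ℕ} (hN : w.length < N) :
    ∀ d ∈ (frP w).support, ∀ i, d i < N := by
  intro d hd i
  have h1 := le_totalDegree hd
  have h2 := frP_totalDegree w
  have h3 : d i ≤ d.sum fun _ e => e := by
    rw [Finsupp.sum_fintype _ _ (fun _ => rfl)]
    exact Finset.single_le_sum (f := fun i => d i) (fun _ _ => Nat.zero_le _) (Finset.mem_univ i)
  omega

theorem LM_rs (L : ℕ) (l : Letter) (i : Fin 4) :
    ∑ j, |LMg (2 ^ (4 * (2 ^ L) ^ 3) : ℤ) (2 ^ (4 * (2 ^ L) ^ 2)) (2 ^ (4 * 2 ^ L)) (some l) i j| ≤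
      2 ^ (4 * (2 ^ L) ^ 3 + 2) := by
  have hN : 1 ≤ 2 ^ L := Nat.one_le_two_pow
  have h1 : 2 ^ L ≤ (2 ^ L) ^ 3 := Nat.le_self_pow (by norm_num) _
  have h2 : (2 ^ L) ^ 2 ≤ (2 ^ L) ^ 3 := Nat.pow_le_pow_right hN (by norm_num)
  have h3 : (2 : ℤ) ^ (4 * (2 ^ L) ^ 2) ≤ 2 ^ (4 * (2 ^ L) ^ 3) :=
    pow_le_pow_right₀ (by norm_num) (by omega)
  have h4 : (2 : ℤ) ^ (4 * 2 ^ L) ≤ 2 ^ (4 * (2 ^ L) ^ 3) :=
    pow_le_pow_right₀ (by norm_num) (by omega)
  have h5 : (1 : ℤ) ≤ 2 ^ (4 * (2 ^ L) ^ 3) := one_le_pow₀ (by norm_num)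
  have h6 : (0 : ℤ) < 2 ^ (4 * (2 ^ L) ^ 2) := by positivity
  have h7 : (0 : ℤ) < 2 ^ (4 * 2 ^ L) := by positivity
  have key : ∀ t, |tvg (2 ^ (4 * (2 ^ L) ^ 3) : ℤ) (2 ^ (4 * (2 ^ L) ^ 2)) (2 ^ (4 * 2 ^ L)) t| ≤
      2 ^ (4 * (2 ^ L) ^ 3) := by
    intro t
    cases t with
    | O => simp only [tvg, abs_zero]; linarith
    | I => simp only [tvg, abs_one]; exact h5
    | NI => simp only [tvg, abs_neg, abs_one]; exact h5
    | X => simp only [tvg]; rw [abs_of_pos (by positivity)]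
    | Y => simp only [tvg]; rw [abs_of_pos h6]; exact h3
    | Z => simp only [tvg]; rw [abs_of_pos h7]; exact h4
    | NZ => simp only [tvg, abs_neg]; rw [abs_of_pos h7]; exact h4
  rw [Fin.sum_univ_four, pow_add]
  have a0 := key (leafM (some l) i 0)
  have a1 := key (leafM (some l) i 1)
  have a2 := key (leafM (some l) i 2)
  have a3 := key (leafM (some l) i 3)
  simp only [LMg, Matrix.map_apply]
  linarith

theorem vF_rep {L : ℕ} {w : List Letter} (hw : w.length ≤ 2 ^ L) :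
    Rep (vF L w) (eval ![(2 ^ (4 * 2 ^ L) : ℤ) ^ (2 ^ L * 2 ^ L), (2 ^ (4 * 2 ^ L)) ^ 2 ^ L,
      2 ^ (4 * 2 ^ L)] (frP w)) := by
  have hN : 1 ≤ 2 ^ L := Nat.one_le_two_pow
  have hN3 : 1 ≤ (2 ^ L) ^ 3 := Nat.one_le_pow _ _ hN
  have hk : 2 ^ (3 * L + 4) = 16 * (2 ^ L) ^ 3 := by
    rw [pow_add, mul_comm 3 L, pow_mul]; ring
  have h := rep_prodF (κ₀ := 3 * L + 4) (by omega) (tpF_length L) (rep_tpF L) (LM_rs L)
    (by rw [hk]; omega) L w
  rw [List.take_of_length_le hw] at h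
  have hlen := prodF_length (κ₀ := 3 * L + 4) (by omega) (tpF_length L) L w
  have h2 := rep_addB (by rw [hlen, hlen]) (h 0 0) (h 2 2)
  have e := frP_map (eval ![(2 ^ (4 * 2 ^ L) : ℤ) ^ (2 ^ L * 2 ^ L), (2 ^ (4 * 2 ^ L)) ^ 2 ^ L,
      2 ^ (4 * 2 ^ L)]) w
  rw [eval_X, eval_X, eval_X] at e
  simp only [Matrix.cons_val_zero, Matrix.cons_val_one, Matrix.cons_val] at e
  rw [e, ← pow_mul, ← pow_mul, show 4 * 2 ^ L * (2 ^ L * 2 ^ L) = 4 * (2 ^ L) ^ 3 by ring,
    show 4 * 2 ^ L * 2 ^ L = 4 * (2 ^ L) ^ 2 by ring]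
  exact h2

/-- coefficient function -/
noncomputable def cE (w : List Letter) (N e : ℕ) : ℤ := coeff (phiE N e) (frP w)

theorem cE_bound {w : List Letter} {N : ℕ} (hN : w.length < N) (e : ℕ) :
    2 * |cE w N e| + 2 ≤ 2 ^ (4 * N) := by
  have h1 := frP_coeff w (phiE N e)
  have h2 : (3 : ℤ) ^ w.length ≤ 4 ^ w.length := by gcongr; norm_num
  have h3 : (4 : ℤ) ^ w.length = 2 ^ (2 * w.length) := by rw [pow_mul]; norm_num
  have h4 : (2 : ℤ) ^ (2 * w.length) ≤ 2 ^ (2 * N - 2) := pow_le_pow_right₀ (by norm_num) (by omega)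
  have h5 : (2 : ℤ) ^ (2 * N) = 4 * 2 ^ (2 * N - 2) := by
    obtain ⟨k, rfl⟩ : ∃ k, N = k + 1 := ⟨N - 1, by omega⟩
    rw [show 2 * (k + 1) = 2 * (k + 1) - 2 + 2 by omega, pow_add]
    norm_num; ring
  have h6 : (2 : ℤ) ^ (4 * N) = 2 ^ (2 * N) * 2 ^ (2 * N) := by rw [← pow_add]; congr 1; ring
  have h7 : (1 : ℤ) ≤ 2 ^ (2 * N - 2) := one_le_pow₀ (by norm_num)
  unfold cE
  rw [h6, h5]
  nlinarith

theorem psum_cE {w : List Letter} {N : ℕ} (hN : w.length < N) :
    psum (4 * N) (cE w N) (N * N * N) =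
      eval ![(2 ^ (4 * N) : ℤ) ^ (N * N), (2 ^ (4 * N)) ^ N, 2 ^ (4 * N)] (frP w) := by
  rw [eval_psum (frP w) (frP_exp_lt hN), psum]
  refine Finset.sum_congr rfl fun e _ => ?_
  rw [← pow_mul]; rfl

theorem decO_encS (c : ℤ) : (encS c).filterMap decO = encInt c := by
  unfold encS encInt
  rw [List.filterMap_cons]
  have : ∀ l : List Bool, (l.map bit).filterMap decO =
      l.map fun b => if b then OutSym.one else OutSym.zero := by
    intro l
    induction l with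
    | nil => rfl
    | cons b l ih => cases b <;> simp [bit, decO, List.filterMap_cons] at ih ⊢ <;> exact ih
  rw [this]
  by_cases h : c < 0
  · simp [h, decO]
  · simp [h, decO]

theorem outO_eq (w : List Letter) : outO w = denseTable w.length (frP w) := by
  have hlt := lt_szL w.length
  unfold outO outSyms denseTable
  generalize szL w.length = L at *
  have hN : 1 ≤ 2 ^ L := Nat.one_le_two_pow
  have hrep := vF_rep (L := L) (w := w) hlt.le
  rw [← psum_cE hlt] at hrep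
  have hVl := vF_length L w
  have hK : 4 * 2 ^ L * (2 ^ L * 2 ^ L * 2 ^ L) ≤ (vF L w).length := by
    rw [hVl, pow_add, mul_comm 4 L, pow_mul]
    generalize 2 ^ L = N
    nlinarith [Nat.zero_le (N * N * N * N)]
  have hsum : (2 ^ (4 * 2 ^ L * (2 ^ L * 2 ^ L * 2 ^ L)) : ℤ) ∣
      psum (4 * 2 ^ L) (cE w (2 ^ L)) (2 ^ L * 2 ^ L * 2 ^ L) - val (vF L w) :=
    (pow_dvd_pow 2 hK).trans hrep
  unfold outI outJ outK
  rw [List.filterMap_flatMap]
  refine List.flatMap_congr fun i hi => ?_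
  rw [List.filterMap_flatMap]
  refine List.flatMap_congr fun j hj => ?_
  rw [List.filterMap_flatMap]
  refine List.flatMap_congr fun k hk => ?_
  rw [List.mem_range] at hi hj hk
  have hi' : i < 2 ^ L := by omega
  have hj' : j < 2 ^ L := by omega
  have hk' : k < 2 ^ L := by omega
  have hpos : 0 + i * (2 ^ L * (2 ^ L * (4 * 2 ^ L))) + j * (2 ^ L * (4 * 2 ^ L)) +
      k * (4 * 2 ^ L) = 4 * 2 ^ L * (i * (2 ^ L * 2 ^ L) + j * 2 ^ L + k) := by ring
  have he : i * (2 ^ L * 2 ^ L) + j * 2 ^ L + k < 2 ^ L * 2 ^ L * 2 ^ L := by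
    generalize 2 ^ L = N at *
    have h3 : (i + 1) * (N * N) ≤ N * (N * N) := Nat.mul_le_mul_right _ hi'
    have h4 : (j + 1) * N ≤ N * N := Nat.mul_le_mul_right _ hj'
    nlinarith
  rw [hpos, outAt_correct (by omega) hK (cE_bound hlt) hsum he, decO_encS, cE, idx_join hj' hk']

end Pool.Agent.Helper62
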