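import Mathlib
import Pool.Agent.Helper62.Corr

/-!
The bound for the running time.
-/

set_option autoImplicit false
set_option linter.unusedSectionVars false

namespace Pool.Agent.Helper62

theorem stepTime {κ : ℕ} (t : ℕ) :
    2 * t + 2 * (16 * (6 * 2 ^ κ + 9) + 1) + (16 * Tcell (κ + 1) + 1) +
      2 * (16 * (2 * 2 ^ (κ + 1) + 1) + 1) + 20 ≤
      2 * t + 2 ^ (κ + 1) * (7000000 * (κ + 1 + 3) ^ 4) := by
  unfold Tcell Tmul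
  have h1 : 1 ≤ 2 ^ κ := Nat.one_le_two_pow
  have h2 : 1 ≤ (κ + 1 + 3) ^ 4 := Nat.one_le_pow _ _ (by omega)
  have h3 : 2 ^ (κ + 1) = 2 * 2 ^ κ := by rw [pow_succ, mul_comm]
  rw [h3]
  generalize 2 ^ κ = X at *
  generalize (κ + 1 + 3) ^ 4 = Y at *
  have h4 : X ≤ X * Y := Nat.le_mul_of_pos_right _ (by omega)
  have h5 : 2 * X * (7000000 * Y) = 14000000 * (X * Y) := by ring
  have h6 : 100000 * (2 * X * Y) = 200000 * (X * Y) := by ring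
  rw [h5, h6]
  generalize X * Y = Z at *
  omega

theorem Tprod_le (κ₀ K : ℕ) (hκ : 4 ≤ κ₀) (d : ℕ) (hd : κ₀ + d ≤ K) :
    Tprod κ₀ d ≤ 2 ^ (κ₀ + d) * (200 + d * (7000000 * (K + 3) ^ 4)) := by
  induction d with
  | zero =>
    have h1 : 2 ^ 4 ≤ 2 ^ κ₀ := Nat.pow_le_pow_right (by norm_num) hκ
    simp only [Tprod, Tleaf, Nat.add_zero, Nat.zero_mul]
    omega
  | succ d ih =>
    have ih' := ih (by omega)
    rw [Tprod]
    refine (stepTime (κ := κ₀ + d) (Tprod κ₀ d)).trans ?_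
    have h1 : (κ₀ + d + 1 + 3) ^ 4 ≤ (K + 3) ^ 4 := Nat.pow_le_pow_left (by omega) 4
    have h2 : 2 ^ (κ₀ + (d + 1)) = 2 * 2 ^ (κ₀ + d) := by rw [← add_assoc, pow_succ, mul_comm]
    have h3 : 2 ^ (κ₀ + d + 1) = 2 * 2 ^ (κ₀ + d) := by rw [pow_succ, mul_comm]
    rw [h2, h3]
    calc 2 * Tprod κ₀ d + 2 * 2 ^ (κ₀ + d) * (7000000 * (κ₀ + d + 1 + 3) ^ 4)
        ≤ 2 * (2 ^ (κ₀ + d) * (200 + d * (7000000 * (K + 3) ^ 4))) +
          2 * 2 ^ (κ₀ + d) * (7000000 * (K + 3) ^ 4) := by gcongr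
      _ = _ := by ring

theorem Ttot_le (n : ℕ) : Ttot n + 1 ≤ 30000000000 * ((2 ^ szL n) ^ 4 * (szL n + 2) ^ 5) := by
  have hn := lt_szL n
  unfold Ttot Tmid T67
  generalize szL n = L at *
  have hT := Tprod_le (3 * L + 4) (4 * L + 4) (by omega) L (by omega)
  have e1 : 2 ^ (3 * L + 4 + L) = 16 * (2 ^ L) ^ 4 := by
    rw [show 3 * L + 4 + L = L * 4 + 4 by ring, pow_add, pow_mul]; ring
  have e2 : 2 ^ (4 * L + 4) = 16 * (2 ^ L) ^ 4 := by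
    rw [show 4 * L + 4 = L * 4 + 4 by ring, pow_add, pow_mul]; ring
  rw [e1] at hT
  rw [e2]
  have hN : 1 ≤ 2 ^ L := Nat.one_le_two_pow
  generalize Tprod (3 * L + 4) L = TP at *
  have hL5 : (4 * L + 4 + 3) ^ 4 ≤ 256 * (L + 2) ^ 4 := by
    calc (4 * L + 4 + 3) ^ 4 ≤ (4 * (L + 2)) ^ 4 := Nat.pow_le_pow_left (by omega) 4
      _ = _ := by rw [mul_pow]; norm_num
  have hT2 : TP ≤ 16 * (2 ^ L) ^ 4 * (200 + L * (7000000 * (256 * (L + 2) ^ 4))) := by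
    refine hT.trans ?_
    gcongr
  have hLL : L * (L + 2) ^ 4 ≤ (L + 2) ^ 5 := by
    rw [pow_succ (L + 2) 4, mul_comm]
    exact Nat.mul_le_mul_left _ (by omega)
  have hL1 : L + 1 ≤ (L + 2) ^ 5 := (by omega : L + 1 ≤ L + 2).trans (Nat.le_self_pow (by norm_num) _)
  have hL0 : 1 ≤ (L + 2) ^ 5 := Nat.one_le_pow _ _ (by omega)
  have hn1 : (n + 1) * ((n + 1) * ((n + 1) * (4 * 2 ^ L + 1))) ≤ 5 * (2 ^ L) ^ 4 := by
    calc (n + 1) * ((n + 1) * ((n + 1) * (4 * 2 ^ L + 1)))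
        ≤ 2 ^ L * (2 ^ L * (2 ^ L * (5 * 2 ^ L))) := by gcongr <;> omega
      _ = _ := by ring
  have h2 : 2 ^ L ≤ (2 ^ L) ^ 4 := Nat.le_self_pow (by norm_num) _
  have h3 : (2 ^ L) ^ 2 ≤ (2 ^ L) ^ 4 := Nat.pow_le_pow_right hN (by norm_num)
  have h4 : (2 ^ L) ^ 3 ≤ (2 ^ L) ^ 4 := Nat.pow_le_pow_right hN (by norm_num)
  generalize (n + 1) * ((n + 1) * ((n + 1) * (4 * 2 ^ L + 1))) = A at *
  generalize (L + 2) ^ 5 = Q at *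
  have h5 : 2 ^ L * (2 ^ L * (2 ^ L * (20 * (4 * 2 ^ L) + 45) + 9) + 9) ≤ 143 * (2 ^ L) ^ 4 := by
    calc _ = 80 * (2 ^ L) ^ 4 + 45 * (2 ^ L) ^ 3 + 9 * (2 ^ L) ^ 2 + 9 * 2 ^ L := by ring
      _ ≤ _ := by omega
  have h6 : (L + 1) * (2 ^ L) ^ 3 ≤ Q * (2 ^ L) ^ 4 := Nat.mul_le_mul hL1 h4
  have h7 : L * (6 * 2 ^ L + 9) ≤ 15 * (Q * (2 ^ L) ^ 4) := by
    calc L * (6 * 2 ^ L + 9) ≤ Q * (15 * (2 ^ L) ^ 4) := Nat.mul_le_mul (by omega) (by omega)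
      _ = _ := by ring
  have h8 : 16 * (2 ^ L) ^ 4 * (200 + L * (7000000 * (256 * (L + 2) ^ 4))) ≤
      3200 * (2 ^ L) ^ 4 + 28672000000 * (Q * (2 ^ L) ^ 4) := by
    calc _ = 3200 * (2 ^ L) ^ 4 + 28672000000 * ((L * (L + 2) ^ 4) * (2 ^ L) ^ 4) := by ring
      _ ≤ _ := by gcongr
  have h9 : (2 ^ L) ^ 4 ≤ Q * (2 ^ L) ^ 4 := Nat.le_mul_of_pos_left _ (by omega)
  rw [mul_comm ((2 ^ L) ^ 4) Q]
  generalize 2 ^ L * (2 ^ L * (2 ^ L * (20 * (4 * 2 ^ L) + 45) + 9) + 9) = B1 at *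
  generalize (L + 1) * (2 ^ L) ^ 3 = B2 at *
  generalize L * (6 * 2 ^ L + 9) = B3 at *
  generalize 16 * (2 ^ L) ^ 4 * (200 + L * (7000000 * (256 * (L + 2) ^ 4))) = B4 at *
  generalize Q * (2 ^ L) ^ 4 = B5 at *
  generalize (2 ^ L) ^ 4 = B6 at *
  generalize (2 ^ L) ^ 3 = B7 at *
  generalize 2 ^ L = B8 at *
  clear hT e1 e2 h3 hL5 hLL hL1 hL0
  omega

theorem szL_log (n : ℕ) : szL n + 2 ≤ 4 * Nat.log 2 (n + 2) := by
  have h1 : 1 ≤ Nat.log 2 (n + 2) := by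
    rw [Nat.le_log_iff_pow_le (by norm_num) (by omega)]; omega
  rcases Nat.eq_zero_or_pos (szL n) with h | h
  · omega
  · obtain ⟨k, hk⟩ : ∃ k, szL n = k + 1 := ⟨szL n - 1, by omega⟩
    have h2 := szL_le n
    rw [hk, pow_succ] at h2
    have h3 : k ≤ Nat.log 2 (n + 2) := by
      rw [Nat.le_log_iff_pow_le (by norm_num) (by omega)]; omega
    omega

theorem time_bound (n : ℕ) :
    Ttot n + 1 ≤ 30000000000 * 16 * 1024 * ((n + 1) ^ 4 * Nat.log 2 (n + 2) ^ 5) := by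
  refine (Ttot_le n).trans ?_
  have h1 := szL_log n
  have h2 : 2 ^ szL n ≤ 2 * (n + 1) := (szL_le n).trans (by omega)
  calc 30000000000 * ((2 ^ szL n) ^ 4 * (szL n + 2) ^ 5)
      ≤ 30000000000 * ((2 * (n + 1)) ^ 4 * (4 * Nat.log 2 (n + 2)) ^ 5) := by gcongr
    _ = _ := by rw [mul_pow, mul_pow]; ring

end Pool.Agent.Helper62
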