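import Mathlib
import Pool.Agent.Helper62.TimeB

/-!
The Turing machine.
-/

set_option autoImplicit false
set_option linter.unusedSectionVars false

namespace Pool.Agent.Helper62

instance : Finite (WW OO) := by
  have e : Function.Injective (fun x : WW OO => match x with
    | .pa => (Sum.inl 0 : Fin 16 ⊕ OO)
    | .pb => Sum.inl 1
    | .pc => Sum.inl 2
    | .sh => Sum.inl 3
    | .sm => Sum.inl 4
    | .sk => Sum.inl 5
    | .sw => Sum.inl 6
    | .se => Sum.inl 7
    | .t1 => Sum.inl 8
    | .t2 => Sum.inl 9
    | .t3 => Sum.inl 10
    | .t4 => Sum.inl 11
    | .t5 => Sum.inl 12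
    | .t6 => Sum.inl 13
    | .t7 => Sum.inl 14
    | .t8 => Sum.inl 15
    | .o k => Sum.inr k) := by
    intro x y h
    cases x <;> cases y <;> first | rfl | (simp at h; done) | (simp at h; rw [h])
  exact Finite.of_injective _ e

noncomputable instance : Fintype (WW OO) := Fintype.ofFinite _

/-- the machine -/
noncomputable def theTM : Turing.FinTM2 := toTM Env .main r0

theorem theTM_finite (k : theTM.K) : Finite (theTM.Γ k) := by
  have h : ∀ k : KK (WW OO), Finite (MG Env k) := by
    intro k
    cases k with
    | rs => exact @Finite.of_fintype _ theTM.ΛFin
    | inp => exact (inferInstance : Finite Letter)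
    | out => exact (inferInstance : Finite OutSym)
    | w k => exact (inferInstance : Finite Sym)
  exact h k

theorem theTM_outputs (w : List Letter) :
    Nonempty (Turing.TM2OutputsInTime theTM w (some (denseTable w.length (frP w)))
      (Ttot w.length + 1)) := by
  rw [← outO_eq]
  exact toTM_outputs Env .main r0 w (outO w) (Ttot w.length) (main_runs w)

/-- outputs in time, with the alphabets made explicit -/
def OutIn (w : List Letter) (o : List OutSym) (B : ℕ) : Type :=
  Turing.TM2OutputsInTime theTM w (some o) B

/-- the computation of the dense coefficient table -/
noncomputable def theComp : Turing.TM2ComputableInTime (id : List Letter → List Letter)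
    (id : List OutSym → List OutSym) (fun w => denseTable w.length (frP w)) where
  tm := theTM
  inputAlphabet := Equiv.refl Letter
  outputAlphabet := Equiv.refl OutSym
  time n := Ttot n + 1
  outputsFun w := by
    have h := (theTM_outputs w).some
    have e1 : List.map (id : Letter → Letter) w = w := List.map_id w
    have e2 : List.map (id : OutSym → OutSym) (denseTable w.length (frP w)) =
      denseTable w.length (frP w) := List.map_id _
    have h' : OutIn (List.map (id : Letter → Letter) w)
        (List.map (id : OutSym → OutSym) (denseTable w.length (frP w)))
        (Ttot w.length + 1) := by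
      rw [e1, e2]; exact h
    exact h'

end Pool.Agent.Helper62
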